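import Pool.Agent.Lib.MP_17a322_nt.PB.Defs

/-!
Weights: closure properties, and the equation of the curve.
-/

namespace Pool.Agent.Lib.MP_17a322_nt.PB

open MvPolynomial
open Pool.Agent.Lib.MP_17a322_nt.RO

universe u

/-- Proof. `WeierstrassCurve.Affine.equation_iff`, `map_a₁` etc. (`simp`). -/
theorem onC_iff {K F : Type*} [Field K] [Field F] [Algebra K F] (W : WeierstrassCurve K) (x y : F) :
    OnC W x y ↔ y ^ 2 + algebraMap K F W.a₁ * x * y + algebraMap K F W.a₃ * y =
      x ^ 3 + algebraMap K F W.a₂ * x ^ 2 + algebraMap K F W.a₄ * x + algebraMap K F W.a₆ := by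
  unfold OnC
  rw [WeierstrassCurve.Affine.equation_iff]
  rfl

section WD

variable {K B : Type*} [CommRing K]

theorem WD.mono {p : MvPolynomial (B × Fin 2) K} {w w' : B → ℕ} (h : WD p w) (hw : ∀ b, w b ≤ w' b) :
    WD p w' :=
  fun m hm b => (h m hm b).trans (hw b)

theorem WD_zero (w : B → ℕ) : WD (0 : MvPolynomial (B × Fin 2) K) w := by
  intro m hm
  rw [support_zero] at hm
  exact absurd hm (Finset.notMem_empty m)

theorem WD_C (c : K) (w : B → ℕ) : WD (C c : MvPolynomial (B × Fin 2) K) w := by
  classical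
  intro m hm b
  rw [mem_support_iff, coeff_C] at hm
  have h : 0 = m := by
    by_contra h
    exact hm (if_neg h)
  subst h
  simp

theorem WD_X0 [DecidableEq B] (b : B) :
    WD (X (b, 0) : MvPolynomial (B × Fin 2) K) (Pi.single b 2) := by
  intro m hm b'
  rw [mem_support_iff, coeff_X] at hm
  have h : Finsupp.single (b, (0 : Fin 2)) 1 = m := by
    by_contra h
    exact hm (if_neg h)
  subst h
  by_cases hb : b = b'
  · subst hb
    simp
  · rw [Finsupp.single_eq_of_ne (fun h => hb (congrArg Prod.fst h).symm),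
      Finsupp.single_eq_of_ne (fun h => hb (congrArg Prod.fst h).symm)]
    simp

theorem WD_X1 [DecidableEq B] (b : B) :
    WD (X (b, 1) : MvPolynomial (B × Fin 2) K) (Pi.single b 3) := by
  intro m hm b'
  rw [mem_support_iff, coeff_X] at hm
  have h : Finsupp.single (b, (1 : Fin 2)) 1 = m := by
    by_contra h
    exact hm (if_neg h)
  subst h
  by_cases hb : b = b'
  · subst hb
    simp
  · rw [Finsupp.single_eq_of_ne (fun h => hb (congrArg Prod.fst h).symm),
      Finsupp.single_eq_of_ne (fun h => hb (congrArg Prod.fst h).symm)]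
    simp

/-- Proof. `MvPolynomial.support_add`. -/
theorem WD.add [DecidableEq B] {p q : MvPolynomial (B × Fin 2) K} {w : B → ℕ} (hp : WD p w)
    (hq : WD q w) : WD (p + q) w := by
  classical
  intro m hm b
  rcases Finset.mem_union.1 (support_add hm) with h | h
  · exact hp m h b
  · exact hq m h b

theorem WD.neg {p : MvPolynomial (B × Fin 2) K} {w : B → ℕ} (hp : WD p w) : WD (-p) w := by
  intro m hm b
  rw [support_neg] at hm
  exact hp m hm b

theorem WD.sub [DecidableEq B] {p q : MvPolynomial (B × Fin 2) K} {w : B → ℕ} (hp : WD p w)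
    (hq : WD q w) : WD (p - q) w := by
  rw [sub_eq_add_neg]
  exact hp.add hq.neg

/-- Proof. `MvPolynomial.support_mul`: a monomial of `p * q` is a sum of monomials of `p` and `q`. -/
theorem WD.mul [DecidableEq B] {p q : MvPolynomial (B × Fin 2) K} {w w' : B → ℕ} (hp : WD p w)
    (hq : WD q w') : WD (p * q) (w + w') := by
  classical
  intro m hm b
  obtain ⟨m1, h1, m2, h2, rfl⟩ := Finset.mem_add.1 (support_mul p q hm)
  have h3 := hp m1 h1 b
  have h4 := hq m2 h2 b
  rw [Finsupp.add_apply, Finsupp.add_apply, Pi.add_apply]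
  omega

theorem WD.pow [DecidableEq B] {p : MvPolynomial (B × Fin 2) K} {w : B → ℕ} (hp : WD p w) (n : ℕ) :
    WD (p ^ n) (n • w) := by
  induction n with
  | zero =>
    rw [pow_zero, ← C_1]
    exact WD_C _ _
  | succ n ih =>
    rw [pow_succ, succ_nsmul]
    exact ih.mul hp

theorem WD.sum [DecidableEq B] {ι : Type*} (s : Finset ι) (p : ι → MvPolynomial (B × Fin 2) K)
    (w : B → ℕ) (hp : ∀ i ∈ s, WD (p i) w) : WD (∑ i ∈ s, p i) w :=
  Finset.sum_induction p (fun q => WD q w) (fun _ _ h1 h2 => h1.add h2) (WD_zero w) hp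

theorem WD.prod [DecidableEq B] {ι : Type*} (s : Finset ι) (p : ι → MvPolynomial (B × Fin 2) K)
    (w : ι → B → ℕ) (hp : ∀ i ∈ s, WD (p i) (w i)) : WD (∏ i ∈ s, p i) (∑ i ∈ s, w i) := by
  classical
  induction s using Finset.induction_on with
  | empty =>
    rw [Finset.prod_empty, Finset.sum_empty, ← C_1]
    exact WD_C _ _
  | insert a s ha ih =>
    rw [Finset.prod_insert ha, Finset.sum_insert ha]
    exact (hp a (Finset.mem_insert_self _ _)).mul (ih fun i hi => hp i (Finset.mem_insert_of_mem hi))

/-- A polynomial in the `x b`: the weight is twice the degree.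
Proof. A monomial of `rename f p`, `f` injective, is `m.mapDomain f` with `m` in the support of `p`
(`MvPolynomial.support_rename_of_injective`); `degreeOf` bounds `m b` (`degreeOf_le_iff` or
`monomial_le_degreeOf`). -/
theorem WD_rename [DecidableEq B] (p : MvPolynomial B K) (w : B → ℕ)
    (h : ∀ b, 2 * p.degreeOf b ≤ w b) : WD (rename (fun b => (b, (0 : Fin 2))) p) w := by
  classical
  have hf : Function.Injective (fun b : B => (b, (0 : Fin 2))) := fun a b hab => congrArg Prod.fst hab
  intro m hm b
  rw [support_rename_of_injective hf] at hm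
  obtain ⟨m', hm', rfl⟩ := Finset.mem_image.1 hm
  have h1 : Finsupp.mapDomain (fun b : B => (b, (0 : Fin 2))) m' (b, 0) = m' b :=
    Finsupp.mapDomain_apply hf m' b
  have h2 : Finsupp.mapDomain (fun b : B => (b, (0 : Fin 2))) m' (b, 1) = 0 := by
    refine Finsupp.mapDomain_of_notMem_range _ _ ?_
    rintro ⟨a, ha⟩
    have h3 : (0 : Fin 2) = 1 := congrArg Prod.snd ha
    exact absurd h3 (by decide)
  rw [h1, h2]
  have h4 := monomial_le_degreeOf b hm'
  have h5 := h b
  omega

/-- Renaming the blocks along an injective map.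
Proof. As for `WD_rename`. Blocks outside of the range of `φ` get the weight `0`. -/
theorem WD_block {B' : Type*} (φ : B → B') (hφ : Function.Injective φ)
    (p : MvPolynomial (B × Fin 2) K) (w : B → ℕ) (w' : B' → ℕ) (hp : WD p w)
    (h : ∀ b, w b ≤ w' (φ b)) : WD (rename (Prod.map φ id) p) w' := by
  classical
  have hf : Function.Injective (Prod.map φ (id : Fin 2 → Fin 2)) := hφ.prodMap Function.injective_id
  intro m hm b'
  rw [support_rename_of_injective hf] at hm
  obtain ⟨m', hm', rfl⟩ := Finset.mem_image.1 hm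
  by_cases hb : ∃ b, φ b = b'
  · obtain ⟨b, rfl⟩ := hb
    have h1 : ∀ i : Fin 2, Finsupp.mapDomain (Prod.map φ id) m' (φ b, i) = m' (b, i) := fun i =>
      Finsupp.mapDomain_apply hf m' (b, i)
    rw [h1, h1]
    exact (hp m' hm' b).trans (h b)
  · have h1 : ∀ i : Fin 2, Finsupp.mapDomain (Prod.map φ id) m' (b', i) = 0 := by
      intro i
      refine Finsupp.mapDomain_of_notMem_range _ _ ?_
      rintro ⟨a, ha⟩
      exact hb ⟨a.1, congrArg Prod.fst ha⟩
    rw [h1, h1]
    simp

end WD

/-- Values and renaming. Proof. `aeval_rename`. -/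
theorem evl_block {K A B B' : Type*} [CommSemiring K] [CommSemiring A] [Algebra K A] (φ : B → B')
    (p : MvPolynomial (B × Fin 2) K) (x : B' → Fin 2 → A) :
    evl x (rename (Prod.map φ id) p) = evl (fun b => x (φ b)) p := by
  unfold evl
  rw [aeval_rename]
  rfl

theorem evl_rename0 {K A B : Type*} [Field K] [Field A] [Algebra K A]
    (p : MvPolynomial B K) (x y : B → A) :
    evl (pt x y) (rename (fun b => (b, (0 : Fin 2))) p) = aeval x p := by
  unfold evl
  rw [aeval_rename]
  rfl

/-- Value of `asm f`. -/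
theorem evl_asm {K A B : Type*} [Field K] [Field A] [Algebra K A] [Fintype B] [DecidableEq B]
    (f : (B → Fin 2) → MvPolynomial B K) (x y : B → A) :
    evl (pt x y) (asm f) = ∑ e : B → Fin 2, aeval x (f e) * ∏ b, y b ^ (e b : ℕ) := by
  unfold evl asm
  rw [map_sum]
  refine Finset.sum_congr rfl fun e _ => ?_
  rw [map_mul, map_prod, aeval_rename]
  refine congrArg₂ (· * ·) rfl (Finset.prod_congr rfl fun b _ => ?_)
  rw [map_pow, aeval_X]
  rfl

/-- Proof. `WD.sum`, `WD.mul`, `WD_rename` for the weight `w b - 3 (e b)`, and the monomial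
`∏ X (b, 1) ^ e b` has weight `3 (e b)` in block `b`; the summands with `f e = 0` vanish. -/
theorem WD_asm {K B : Type*} [Field K] [Fintype B] [DecidableEq B]
    (f : (B → Fin 2) → MvPolynomial B K) (w : B → ℕ) (h : WF f w) : WD (asm f) w := by
  unfold asm
  refine WD.sum _ _ _ fun e _ => ?_
  by_cases he : f e = 0
  · rw [he, map_zero, zero_mul]
    exact WD_zero w
  · have h1 := WD_rename (f e) (fun b => w b - 3 * (e b : ℕ)) (fun b => by
      have := h e he b
      omega)
    have h2 := WD.prod (K := K) (B := B) Finset.univ (fun b => X (b, 1) ^ (e b : ℕ))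
      (fun b => (e b : ℕ) • Pi.single b 3) (fun b _ => (WD_X1 b).pow _)
    refine (h1.mul h2).mono fun b => ?_
    have h3 : (∑ i : B, (e i : ℕ) • (Pi.single i 3 : B → ℕ)) b = 3 * (e b : ℕ) := by
      rw [Finset.sum_apply, Finset.sum_eq_single b]
      · rw [Pi.smul_apply, Pi.single_eq_same, smul_eq_mul, mul_comm]
      · intro i _ hi
        rw [Pi.smul_apply, Pi.single_eq_of_ne hi.symm, smul_zero]
      · intro hb
        exact absurd (Finset.mem_univ b) hb
    rw [Pi.add_apply, h3]
    have := h e he b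
    omega

end Pool.Agent.Lib.MP_17a322_nt.PB
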