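import Pool.Agent.Lib.MP_17a322_nt.PB.A0

/-!
Normal form: every polynomial agrees on the curve with one of degree at most one in every `y b`.
-/

namespace Pool.Agent.Lib.MP_17a322_nt.PB

open MvPolynomial
open Pool.Agent.Lib.MP_17a322_nt.RO

universe u

/-- Powers of `y` on the curve: `y ^ j = r_j(x) + s_j(x) y` with `2 deg r_j ≤ 3 j`,
`2 deg s_j + 3 ≤ 3 j`.
Proof. Recursion: `r_0 = 1`, `s_0 = 0`, and `y * (r + s y) = s * (X^3 + a₂ X^2 + a₄ X + a₆) +
(r - s * (a₁ X + a₃)) y`. Degrees: `2 * (deg s_j + 3) ≤ 3 j - 3 + 6 = 3 (j + 1)`;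
`2 deg r_j + 3 ≤ 3 j + 3`; `2 (deg s_j + 1) + 3 ≤ 3 j + 2`. -/
theorem exists_ypow {K : Type u} [Field K] (W : WeierstrassCurve K) (j : ℕ) :
    ∃ r s : Polynomial K, 2 * r.natDegree ≤ 3 * j ∧ (s ≠ 0 → 2 * s.natDegree + 3 ≤ 3 * j) ∧
      ∀ (F : Type u) [Field F] [Algebra K F] (x y : F), OnC W x y →
        y ^ j = Polynomial.aeval x r + Polynomial.aeval x s * y := by
  induction j with
  | zero =>
    refine ⟨1, 0, by simp, fun h => absurd rfl h, ?_⟩
    intro F _ _ x y _
    simp
  | succ j ih =>
    obtain ⟨r, s, hr, hs, h⟩ := ih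
    refine ⟨s * (Polynomial.X ^ 3 + Polynomial.C W.a₂ * Polynomial.X ^ 2
      + Polynomial.C W.a₄ * Polynomial.X + Polynomial.C W.a₆),
      r - s * (Polynomial.C W.a₁ * Polynomial.X + Polynomial.C W.a₃), ?_, ?_, ?_⟩
    · rcases eq_or_ne s 0 with h0 | h0
      · simp [h0]
      · have h1 := hs h0
        have h2 : (Polynomial.X ^ 3 + Polynomial.C W.a₂ * Polynomial.X ^ 2
            + Polynomial.C W.a₄ * Polynomial.X + Polynomial.C W.a₆ : Polynomial K).natDegree ≤ 3 := by
          compute_degree
        have h3 := Polynomial.natDegree_mul_le (p := s) (q := (Polynomial.X ^ 3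
          + Polynomial.C W.a₂ * Polynomial.X ^ 2
            + Polynomial.C W.a₄ * Polynomial.X + Polynomial.C W.a₆ : Polynomial K))
        omega
    · intro _
      have h2 : (Polynomial.C W.a₁ * Polynomial.X + Polynomial.C W.a₃ : Polynomial K).natDegree
          ≤ 1 := by
        compute_degree
      have h3 := Polynomial.natDegree_mul_le (p := s)
        (q := (Polynomial.C W.a₁ * Polynomial.X + Polynomial.C W.a₃ : Polynomial K))
      have h4 := Polynomial.natDegree_sub_le r
        (s * (Polynomial.C W.a₁ * Polynomial.X + Polynomial.C W.a₃))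
      rcases eq_or_ne s 0 with h0 | h0
      · rw [h0, zero_mul, sub_zero]
        omega
      · have h1 := hs h0
        rcases le_max_iff.1 h4 with h5 | h5 <;> omega
    · intro F _ _ x y hxy
      have h1 := h F x y hxy
      have h2 := (onC_iff W x y).1 hxy
      rw [pow_succ, h1]
      simp only [map_mul, map_add, map_sub, map_pow, Polynomial.aeval_X, Polynomial.aeval_C]
      linear_combination (Polynomial.aeval x s) * h2

theorem A1_degreeOf_aeval {K : Type*} [Field K] {B : Type*} [DecidableEq B] (b b' : B)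
    (p : Polynomial K) :
    (Polynomial.aeval (X b' : MvPolynomial B K) p).degreeOf b ≤ if b = b' then p.natDegree else 0 := by
  rw [Polynomial.aeval_eq_sum_range]
  refine (degreeOf_sum_le _ _ _).trans (Finset.sup_le fun i hi => ?_)
  rw [MvPolynomial.smul_eq_C_mul]
  refine (degreeOf_C_mul_le _ _ _).trans ((degreeOf_pow_le _ _ _).trans ?_)
  rw [degreeOf_X]
  split_ifs
  · rw [mul_one]
    exact Nat.lt_succ_iff.1 (Finset.mem_range.1 hi)
  · simp

/-- Normal form of a monomial.
Proof. For every `b` take `r_b`, `s_b` from `exists_ypow` for `j = m (b, 1)`. Put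
`f e = ∏ b, X b ^ m (b, 0) * (if e b = 0 then r_b(X b) else s_b(X b))`. The value of the monomial is
`∏_b x_b ^ m (b, 0) * (r_b(x_b) + s_b(x_b) y_b)`, expanded with `Finset.prod_univ_sum` (as
`r + s y = ∑_{i : Fin 2} (if i = 0 then r else s) * y ^ i`). Degree of `f e` in `X b`: at most
`m (b, 0) + natDegree` of the factor (`degreeOf_prod_le` or `degreeOf_mul_le`; the factors for the
other blocks do not involve `X b`). -/
theorem exists_asm_monomial {K : Type u} [Field K] (W : WeierstrassCurve K) {B : Type}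
    [Fintype B] [DecidableEq B] (m : B × Fin 2 →₀ ℕ) :
    ∃ f : (B → Fin 2) → MvPolynomial B K, (∀ w : B → ℕ,
      (∀ b, 2 * m (b, 0) + 3 * m (b, 1) ≤ w b) → WF f w) ∧
      ∀ (F : Type u) [Field F] [Algebra K F] (x y : B → F), (∀ b, OnC W (x b) (y b)) →
        evl (pt x y) (monomial m 1) = evl (pt x y) (asm f) := by
  choose r s hr hs hrs using fun b : B => exists_ypow W (m (b, 1))
  let g : B → Fin 2 → Polynomial K := fun b => ![r b, s b]
  refine ⟨fun e => ∏ b, X b ^ m (b, 0) * Polynomial.aeval (X b : MvPolynomial B K) (g b (e b)),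
    ?_, ?_⟩
  · intro w hw e he b
    have hg : g b (e b) ≠ 0 := by
      intro h0
      apply he
      refine Finset.prod_eq_zero (Finset.mem_univ b) ?_
      rw [h0, map_zero, mul_zero]
    have h1 : (∏ b', X b' ^ m (b', 0) * Polynomial.aeval (X b' : MvPolynomial B K)
        (g b' (e b'))).degreeOf b ≤ m (b, 0) + (g b (e b)).natDegree := by
      refine (degreeOf_prod_le _ _ _).trans ?_
      have h2 : ∀ b' ∈ Finset.univ, (X b' ^ m (b', 0) * Polynomial.aeval (X b' : MvPolynomial B K)
          (g b' (e b'))).degreeOf b ≤ if b = b' then m (b, 0) + (g b (e b)).natDegree else 0 := by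
        intro b' _
        refine (degreeOf_mul_le _ _ _).trans ?_
        have h3 := A1_degreeOf_aeval (K := K) b b' (g b' (e b'))
        have h4 := degreeOf_pow_le b (X b' : MvPolynomial B K) (m (b', 0))
        rw [degreeOf_X] at h4
        split_ifs at h3 h4 ⊢ with h5
        · subst h5
          omega
        · omega
      refine (Finset.sum_le_sum h2).trans ?_
      rw [Finset.sum_ite_eq Finset.univ b, if_pos (Finset.mem_univ b)]
    have h5 := hw b
    change 2 * (∏ b', X b' ^ m (b', 0) * Polynomial.aeval (X b' : MvPolynomial B K)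
        (g b' (e b'))).degreeOf b + 3 * (e b : ℕ) ≤ w b
    have h6 : 2 * (g b (e b)).natDegree + 3 * (e b : ℕ) ≤ 3 * m (b, 1) := by
      have h7 := hr b
      have h8 := hs b
      generalize e b = i at hg ⊢
      fin_cases i
      · simpa [g] using h7
      · simpa [g] using h8 (by simpa [g] using hg)
    omega
  · intro F _ _ x y hxy
    rw [evl_asm, evl, aeval_monomial, map_one, one_mul,
      Finsupp.prod_fintype _ _ (fun i => by rw [pow_zero]), Fintype.prod_prod_type]
    have h1 : ∀ b : B, ∏ i : Fin 2, pt x y (b, i).1 (b, i).2 ^ m (b, i)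
        = ∑ i : Fin 2, x b ^ m (b, 0) * Polynomial.aeval (x b) (g b i) * y b ^ (i : ℕ) := by
      intro b
      rw [Fin.prod_univ_two, Fin.sum_univ_two]
      have h2 := hrs b F (x b) (y b) (hxy b)
      simp only [pt, g, Matrix.cons_val_zero, Matrix.cons_val_one, Fin.val_zero, Fin.val_one,
        pow_zero, pow_one, mul_one]
      rw [h2]
      ring
    rw [Finset.prod_congr rfl fun b _ => h1 b, Finset.prod_univ_sum, Fintype.piFinset_univ]
    refine Finset.sum_congr rfl fun e _ => ?_
    rw [Finset.prod_mul_distrib, map_prod]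
    congr 1
    refine Finset.prod_congr rfl fun b _ => ?_
    rw [map_mul, map_pow, aeval_X, ← Polynomial.aeval_algHom_apply, aeval_X]

/-- Normal form. Proof. Sum of `coeff m p • f_m` over the support of `p`. -/
theorem exists_asm {K : Type u} [Field K] (W : WeierstrassCurve K) {B : Type}
    [Fintype B] [DecidableEq B] (p : MvPolynomial (B × Fin 2) K) :
    ∃ f : (B → Fin 2) → MvPolynomial B K, (∀ w : B → ℕ, WD p w → WF f w) ∧
      ∀ (F : Type u) [Field F] [Algebra K F] (x y : B → F), (∀ b, OnC W (x b) (y b)) →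
        evl (pt x y) p = evl (pt x y) (asm f) := by
  choose f hf hv using fun m : B × Fin 2 →₀ ℕ => exists_asm_monomial W m
  refine ⟨fun e => ∑ m ∈ p.support, C (coeff m p) * f m e, ?_, ?_⟩
  · intro w hw e he b
    have hne : ∃ m ∈ p.support, f m e ≠ 0 := by
      by_contra hc
      push Not at hc
      exact he (Finset.sum_eq_zero fun m hm => by rw [hc m hm, mul_zero])
    have hb : 3 * (e b : ℕ) ≤ w b := by
      obtain ⟨m, hm, hm0⟩ := hne
      have := hf m w (hw m hm) e hm0 b
      omega
    have hd : (∑ m ∈ p.support, C (coeff m p) * f m e).degreeOf b ≤ (w b - 3 * (e b : ℕ)) / 2 := by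
      refine (degreeOf_sum_le _ _ _).trans (Finset.sup_le fun m hm => ?_)
      refine (degreeOf_C_mul_le _ _ _).trans ?_
      rcases eq_or_ne (f m e) 0 with h0 | h0
      · rw [h0, degreeOf_zero]
        exact Nat.zero_le _
      · have := hf m w (hw m hm) e h0 b
        omega
    change 2 * (∑ m ∈ p.support, C (coeff m p) * f m e).degreeOf b + 3 * (e b : ℕ) ≤ w b
    omega
  · intro F _ _ x y hxy
    rw [evl_asm]
    conv_lhs => rw [p.as_sum]
    simp only [map_sum, map_mul, Finset.sum_mul]
    rw [Finset.sum_comm, evl, map_sum]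
    refine Finset.sum_congr rfl fun m _ => ?_
    have h1 := hv m F x y hxy
    rw [evl_asm, evl] at h1
    have h2 : monomial m (coeff m p) = C (coeff m p) * monomial m (1 : K) := by
      rw [C_mul_monomial, mul_one]
    have h3 : aeval (fun p : B × Fin 2 => pt x y p.1 p.2) (monomial m (1 : K))
        = ∑ e : B → Fin 2, aeval x (f m e) * ∏ b, y b ^ (e b : ℕ) := by
      rw [← h1, aeval_monomial, aeval_monomial, map_one, map_one]
    rw [h2, map_mul, h3, Finset.mul_sum]
    refine Finset.sum_congr rfl fun e _ => ?_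
    rw [aeval_C, aeval_C, mul_assoc]

end Pool.Agent.Lib.MP_17a322_nt.PB
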