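import Pool.Agent.Lib.MP_17a322_nt.PB.A0

/-!
The function field of the curve contains a generic point.
-/

namespace Pool.Agent.Lib.MP_17a322_nt.PB

open MvPolynomial
open Pool.Agent.Lib.MP_17a322_nt.RO

universe u

/-- The function field of `W` over a field `𝔽` contains a point `(ξ, η)` such that the elements
`ξ ^ k`, `ξ ^ k * η` are linearly independent over `𝔽`.
Proof. Let `V = (W.map (algebraMap K 𝔽)).toAffine`, `𝔽' = V.FunctionField` (a field, as
`V.CoordinateRing` is a domain: `CoordinateRing.instIsDomainCoordinateRing`), `ξ`, `η` the images of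
`X`, `Y` (`CoordinateRing.mk V (C X)`, `CoordinateRing.mk V Y`). The equation holds in the coordinate
ring (`AdjoinRoot.mk_self`). `CoordinateRing.basis` is a basis `1, Y` over `𝔽[X]`, so
`∑ c_k ξ^k + ∑ d_k ξ^k η = 0` gives `∑ c_k X^k = 0 = ∑ d_k X^k`
(`CoordinateRing.smul_basis_eq_zero`); the map to the fraction field is injective. -/
theorem exists_extend {K 𝔽 : Type u} [Field K] [Field 𝔽] [Algebra K 𝔽] (W : WeierstrassCurve K) :
    ∃ (𝔽' : Type u) (_ : Field 𝔽') (_ : Algebra 𝔽 𝔽') (_ : Algebra K 𝔽')
      (_ : IsScalarTower K 𝔽 𝔽') (ξ η : 𝔽'), OnC W ξ η ∧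
        ∀ r s : Polynomial 𝔽, Polynomial.aeval ξ r + Polynomial.aeval ξ s * η = 0 →
          r = 0 ∧ s = 0 := by
  set V : WeierstrassCurve.Affine 𝔽 := (W.map (algebraMap K 𝔽)).toAffine with hV
  let algK : Algebra K V.FunctionField :=
    ((algebraMap 𝔽 V.FunctionField).comp (algebraMap K 𝔽)).toAlgebra
  have hK : ∀ a : K, algebraMap K V.FunctionField a =
      algebraMap 𝔽 V.FunctionField (algebraMap K 𝔽 a) := fun _ => rfl
  let g : Polynomial (Polynomial 𝔽) →+* V.FunctionField :=
    (algebraMap V.CoordinateRing V.FunctionField).comp (WeierstrassCurve.Affine.CoordinateRing.mk V)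
  have hg : ∀ a : 𝔽, g (Polynomial.C (Polynomial.C a)) = algebraMap 𝔽 V.FunctionField a := by
    intro a
    rfl
  have hpol : g V.polynomial = 0 := by
    show algebraMap V.CoordinateRing V.FunctionField (AdjoinRoot.mk V.polynomial V.polynomial) = 0
    rw [AdjoinRoot.mk_self, map_zero]
  refine ⟨V.FunctionField, inferInstance, inferInstance, algK,
    IsScalarTower.of_algebraMap_eq fun _ => rfl, g (Polynomial.C Polynomial.X), g Polynomial.X, ?_, ?_⟩
  · rw [onC_iff, hK, hK, hK, hK, hK]
    have hp : g (Polynomial.X ^ 2 +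
        Polynomial.C (Polynomial.C V.a₁ * Polynomial.X + Polynomial.C V.a₃) * Polynomial.X -
        Polynomial.C (Polynomial.X ^ 3 + Polynomial.C V.a₂ * Polynomial.X ^ 2 +
          Polynomial.C V.a₄ * Polynomial.X + Polynomial.C V.a₆)) = 0 := hpol
    clear hpol
    rename' hp => hpol
    simp only [map_sub, map_add, map_mul, map_pow, hg] at hpol
    have h1 : V.a₁ = algebraMap K 𝔽 W.a₁ := rfl
    have h2 : V.a₂ = algebraMap K 𝔽 W.a₂ := rfl
    have h3 : V.a₃ = algebraMap K 𝔽 W.a₃ := rfl
    have h4 : V.a₄ = algebraMap K 𝔽 W.a₄ := rfl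
    have h6 : V.a₆ = algebraMap K 𝔽 W.a₆ := rfl
    rw [h1, h2, h3, h4, h6] at hpol
    linear_combination hpol
  · intro r s hrs
    have hae : ∀ q : Polynomial 𝔽, Polynomial.aeval (g (Polynomial.C Polynomial.X)) q =
        g (Polynomial.C q) := by
      have h1 : (Polynomial.aeval (g (Polynomial.C Polynomial.X)) :
          Polynomial 𝔽 →ₐ[𝔽] V.FunctionField).toRingHom = g.comp Polynomial.C := by
        refine Polynomial.ringHom_ext (fun a => ?_) ?_
        · show Polynomial.aeval (g (Polynomial.C Polynomial.X)) (Polynomial.C a) =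
            g (Polynomial.C (Polynomial.C a))
          rw [Polynomial.aeval_C, hg]
        · show Polynomial.aeval (g (Polynomial.C Polynomial.X)) (Polynomial.X) =
            g (Polynomial.C Polynomial.X)
          rw [Polynomial.aeval_X]
      intro q
      exact RingHom.congr_fun h1 q
    rw [hae, hae] at hrs
    have h2 : algebraMap V.CoordinateRing V.FunctionField
        (r • (1 : V.CoordinateRing) + s • WeierstrassCurve.Affine.CoordinateRing.mk V Polynomial.X) =
        0 := by
      rw [WeierstrassCurve.Affine.CoordinateRing.smul, WeierstrassCurve.Affine.CoordinateRing.smul,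
        mul_one, map_add, map_mul]
      exact hrs
    have h3 : r • (1 : V.CoordinateRing) +
        s • WeierstrassCurve.Affine.CoordinateRing.mk V Polynomial.X = 0 :=
      (map_eq_zero_iff _ (IsFractionRing.injective V.CoordinateRing V.FunctionField)).1 h2
    exact WeierstrassCurve.Affine.CoordinateRing.smul_basis_eq_zero h3

end Pool.Agent.Lib.MP_17a322_nt.PB
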