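import Pool.Agent.Lib.MP_17a322_nt.PB.A2a

/-!
Existence of generic points.
-/

namespace Pool.Agent.Lib.MP_17a322_nt.PB

open MvPolynomial
open Pool.Agent.Lib.MP_17a322_nt.RO

universe u

theorem A2b_aeval {K 𝔽 𝔽' B : Type*} [Field K] [Field 𝔽] [Field 𝔽'] [Algebra K 𝔽]
    [Algebra K 𝔽'] [Algebra 𝔽 𝔽'] [IsScalarTower K 𝔽 𝔽'] (x : B → 𝔽) (ξ : 𝔽')
    (p : MvPolynomial (Option B) K) :
    aeval (fun o : Option B => o.elim ξ fun b => algebraMap 𝔽 𝔽' (x b)) p =
      Polynomial.aeval ξ ((optionEquivLeft K B p).map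
        (aeval x : MvPolynomial B K →ₐ[K] 𝔽).toRingHom) := by
  induction p using MvPolynomial.induction_on with
  | C a =>
    rw [optionEquivLeft_C, Polynomial.map_C, Polynomial.aeval_C, aeval_C]
    simp [← IsScalarTower.algebraMap_apply]
  | add p q hp hq => rw [map_add, map_add, Polynomial.map_add, map_add, hp, hq]
  | mul_X p o hp =>
    rw [map_mul, map_mul, Polynomial.map_mul, map_mul, hp]
    congr 1
    cases o with
    | none => rw [optionEquivLeft_X_none, Polynomial.map_X, Polynomial.aeval_X, aeval_X]; rfl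
    | some b =>
      rw [optionEquivLeft_X_some, Polynomial.map_C, Polynomial.aeval_C, aeval_X]
      simp

/-- A generic point for `Option B` from one for `B`.
Proof. Take `𝔽'`, `ξ`, `η` from `exists_extend` for `𝔽`, `x' none = ξ`, `y' none = η`,
`x' (some b) = algebraMap 𝔽 𝔽' (x b)`. Let `f : (Option B → Fin 2) → MvPolynomial (Option B) K` with
`evl (pt x' y') (asm f) = 0`. For `ε : Fin 2` and `e : B → Fin 2` write (`MvPolynomial.optionEquivLeft`
or sums over supports) `f (ε, e) = ∑_k X none ^ k * g_{ε, e, k}` with `g_{ε, e, k}` in the variables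
`some b`. Then the value is `r(ξ) + s(ξ) η` with `r = ∑_k X^k * (∑_e g_{0, e, k}(x) y^e)`, `s` the same
with `ε = 1`, so for all `ε`, `k` one has `∑_e g_{ε, e, k}(x) y^e = 0`, i.e. `evl (pt x y) (asm ..) = 0`, and
`g_{ε, e, k} = 0` for all `ε, e, k` by `Gen`. -/
theorem Gen.option {K 𝔽 : Type u} [Field K] [Field 𝔽] [Algebra K 𝔽] {W : WeierstrassCurve K}
    {B : Type} [Fintype B] [DecidableEq B] {x y : B → 𝔽} (h : Gen W x y) :
    ∃ (𝔽' : Type u) (_ : Field 𝔽') (_ : Algebra K 𝔽') (x' y' : Option B → 𝔽'), Gen W x' y' := by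
  obtain ⟨𝔽', i1, i2, i3, i4, ξ, η, hon, hind⟩ := exists_extend (K := K) (𝔽 := 𝔽) W
  refine ⟨𝔽', i1, i3, fun o => o.elim ξ fun b => algebraMap 𝔽 𝔽' (x b),
    fun o => o.elim η fun b => algebraMap 𝔽 𝔽' (y b), ?_, ?_⟩
  · intro o
    cases o with
    | none => exact hon
    | some b =>
      have h1 := (onC_iff W (x b) (y b)).1 (h.on b)
      rw [onC_iff]
      have h2 := congrArg (algebraMap 𝔽 𝔽') h1
      simp only [map_add, map_mul, map_pow, ← IsScalarTower.algebraMap_apply K 𝔽 𝔽'] at h2
      exact h2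
  · intro f hf
    rw [evl_asm] at hf
    set P : (Option B → Fin 2) → Polynomial (MvPolynomial B K) :=
      fun e => optionEquivLeft K B (f e) with hP
    set r : Fin 2 → Polynomial 𝔽 := fun ε => ∑ e : B → Fin 2,
      (P ((Equiv.piOptionEquivProd (β := fun _ : Option B => Fin 2)).symm (ε, e))).map
        (aeval x : MvPolynomial B K →ₐ[K] 𝔽).toRingHom *
          Polynomial.C (∏ b, y b ^ (e b : ℕ)) with hr
    have h1 : Polynomial.aeval ξ (r 0) + Polynomial.aeval ξ (r 1) * η = 0 := by
      rw [← hf, ← (Equiv.piOptionEquivProd (β := fun _ : Option B => Fin 2)).symm.sum_comp,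
        Fintype.sum_prod_type, Fin.sum_univ_two, hr]
      simp only [map_sum, map_mul, Finset.sum_mul]
      congr 1
      · refine Finset.sum_congr rfl fun e _ => ?_
        rw [Fintype.prod_option, A2b_aeval x ξ, Polynomial.aeval_C]
        simp [Equiv.piOptionEquivProd, hP]
      · refine Finset.sum_congr rfl fun e _ => ?_
        rw [Fintype.prod_option, A2b_aeval x ξ, Polynomial.aeval_C]
        simp [Equiv.piOptionEquivProd, hP]
        ring
    have h2 : ∀ ε, r ε = 0 := by
      obtain ⟨h3, h4⟩ := hind _ _ h1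
      intro ε
      fin_cases ε
      · exact h3
      · exact h4
    have h3 : ∀ (ε : Fin 2) (e : B → Fin 2) (k : ℕ),
        (P ((Equiv.piOptionEquivProd (β := fun _ : Option B => Fin 2)).symm (ε, e))).coeff k =
          0 := by
      intro ε e k
      have h4 := congrArg (fun p : Polynomial 𝔽 => p.coeff k) (h2 ε)
      simp only [hr, Polynomial.finsetSum_coeff, Polynomial.coeff_mul_C, Polynomial.coeff_map,
        Polynomial.coeff_zero] at h4
      have h5 := h.inj (fun e => (P ((Equiv.piOptionEquivProd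
        (β := fun _ : Option B => Fin 2)).symm (ε, e))).coeff k) (by
          rw [evl_asm]
          exact h4)
      exact congrFun h5 e
    funext e
    have h6 : P e = 0 := by
      ext1 k
      have h7 := h3 (Equiv.piOptionEquivProd e).1 (Equiv.piOptionEquivProd e).2 k
      rw [Prod.mk.eta, Equiv.symm_apply_apply] at h7
      rw [h7, Polynomial.coeff_zero]
    have h8 : optionEquivLeft K B (f e) = 0 := h6
    rw [Pi.zero_apply]
    exact (map_eq_zero_iff _ (optionEquivLeft K B).injective).1 h8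

/-- Transport along an equivalence. -/
theorem Gen.equiv {K 𝔽 : Type u} [Field K] [Field 𝔽] [Algebra K 𝔽] {W : WeierstrassCurve K}
    {B B' : Type} [Fintype B] [DecidableEq B] [Fintype B'] [DecidableEq B'] (e : B ≃ B')
    {x y : B → 𝔽} (h : Gen W x y) : Gen W (fun b => x (e.symm b)) (fun b => y (e.symm b)) := by
  refine ⟨fun b => h.on _, fun f hf => ?_⟩
  rw [evl_asm] at hf
  have h1 := h.inj (fun g => rename e.symm (f fun b' => g (e.symm b'))) (by
    rw [evl_asm, ← hf, ← (Equiv.arrowCongr e (Equiv.refl (Fin 2))).sum_comp]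
    refine Finset.sum_congr rfl fun g _ => ?_
    rw [aeval_rename, ← e.symm.prod_comp]
    rfl)
  funext g
  have h2 := congrFun h1 (fun b => g (e b))
  simp only [Equiv.apply_symm_apply, Pi.zero_apply] at h2
  rw [Pi.zero_apply]
  exact rename_injective _ e.symm.injective (h2.trans (map_zero _).symm)

theorem A2b_inst {K 𝔽 : Type u} [Field K] [Field 𝔽] [Algebra K 𝔽] {W : WeierstrassCurve K}
    {B : Type} {i1 i1' : Fintype B} {i2 i2' : DecidableEq B} {x y : B → 𝔽}
    (h : @Gen K 𝔽 B _ _ _ i1 i2 W x y) : @Gen K 𝔽 B _ _ _ i1' i2' W x y := by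
  cases Subsingleton.elim i1 i1'
  cases Subsingleton.elim i2 i2'
  exact h

/-- Generic points exist. Proof. `Fintype.induction_empty_option` (or `Finite.induction_empty_option`);
for the empty type take `𝔽 = K`, the value of `asm f` is `f e`, a constant polynomial. -/
theorem exists_gen {K : Type u} [Field K] (W : WeierstrassCurve K) (B : Type) [Fintype B]
    [DecidableEq B] :
    ∃ (𝔽 : Type u) (_ : Field 𝔽) (_ : Algebra K 𝔽) (x y : B → 𝔽), Gen W x y := by
  classical
  have main : ∀ (B : Type) [Finite B], ∀ (_ : Fintype B) (_ : DecidableEq B),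
      ∃ (𝔽 : Type u) (_ : Field 𝔽) (_ : Algebra K 𝔽) (x y : B → 𝔽), Gen W x y := by
    intro B _
    refine Finite.induction_empty_option (P := fun B : Type =>
      ∀ (_ : Fintype B) (_ : DecidableEq B),
      ∃ (𝔽 : Type u) (_ : Field 𝔽) (_ : Algebra K 𝔽) (x y : B → 𝔽), Gen W x y) ?_ ?_ ?_ B
    · intro α β e h i1 i2
      let i3 : Fintype α := Fintype.ofEquiv β e.symm
      obtain ⟨𝔽, j1, j2, x, y, hg⟩ := h i3 (Classical.decEq α)
      exact ⟨𝔽, j1, j2, _, _, Gen.equiv e hg⟩
    · intro i1 i2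
      have key : ∀ p : MvPolynomial PEmpty.{1} K, aeval (PEmpty.elim : PEmpty.{1} → K) p = 0 →
          p = 0 := by
        intro p hp
        obtain ⟨c, rfl⟩ : ∃ c, p = C c := ⟨_, eq_C_of_isEmpty p⟩
        rw [aeval_C, Algebra.algebraMap_self, RingHom.id_apply] at hp
        rw [hp, C_0]
      refine ⟨K, inferInstance, Algebra.id K, PEmpty.elim, PEmpty.elim, fun b => b.elim,
        fun f hf => ?_⟩
      rw [evl_asm, Fintype.sum_unique] at hf
      simp only [Finset.univ_eq_empty, Finset.prod_empty, mul_one] at hf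
      funext e
      rw [Pi.zero_apply]
      refine key _ ?_
      rw [← hf]
      congr 2
      exact funext fun b => b.elim
    · intro α i0 h i1 i2
      obtain ⟨𝔽, j1, j2, x, y, hg⟩ := h i0 (Classical.decEq α)
      obtain ⟨𝔽', k1, k2, x', y', hg'⟩ := Gen.option hg
      exact ⟨𝔽', k1, k2, x', y', A2b_inst hg'⟩
  exact main B _ _

end Pool.Agent.Lib.MP_17a322_nt.PB
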