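import Pool.Agent.Lib.MP_17a322_nt.PB.A1

/-!
The generic point determines the values at all points; norms.
-/

namespace Pool.Agent.Lib.MP_17a322_nt.PB

open MvPolynomial
open Pool.Agent.Lib.MP_17a322_nt.RO

universe u

/-- A polynomial that vanishes at the generic point vanishes at all points of the curve.
Proof. `exists_asm`: `evl (asm f) = 0` at the generic point, so `f = 0`. -/
theorem Gen.zero {K 𝔽 : Type u} [Field K] [Field 𝔽] [Algebra K 𝔽] {W : WeierstrassCurve K}
    {B : Type} [Fintype B] [DecidableEq B] {ξ η : B → 𝔽} (hg : Gen W ξ η)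
    (p : MvPolynomial (B × Fin 2) K) (hp : evl (pt ξ η) p = 0) (F : Type u) [Field F] [Algebra K F]
    (x y : B → F) (h : ∀ b, OnC W (x b) (y b)) : evl (pt x y) p = 0 := by
  obtain ⟨f, -, hf⟩ := exists_asm W p
  have h1 : evl (pt ξ η) (asm f) = 0 := by rw [← hf 𝔽 ξ η hg.on, hp]
  have h2 := hg.inj f h1
  rw [hf F x y h, h2, evl_asm]
  simp

/-- Proof. `Gen.zero` for `p - q`. -/
theorem Gen.eq {K 𝔽 : Type u} [Field K] [Field 𝔽] [Algebra K 𝔽] {W : WeierstrassCurve K}
    {B : Type} [Fintype B] [DecidableEq B] {ξ η : B → 𝔽} (hg : Gen W ξ η)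
    (p q : MvPolynomial (B × Fin 2) K) (hp : evl (pt ξ η) p = evl (pt ξ η) q) (F : Type u) [Field F]
    [Algebra K F] (x y : B → F) (h : ∀ b, OnC W (x b) (y b)) :
    evl (pt x y) p = evl (pt x y) q := by
  have h1 : evl (pt ξ η) (p - q) = 0 := by
    rw [evl, map_sub]
    exact sub_eq_zero.2 hp
  have h2 := hg.zero (p - q) h1 F x y h
  rw [evl, map_sub] at h2
  exact sub_eq_zero.1 h2

/-- The coordinates `ξ b` of a generic point are algebraically independent.
Proof. `f e = p` for `e = 0`, `f e = 0` otherwise; `evl_asm`. -/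
theorem Gen.aeval_ne {K 𝔽 : Type u} [Field K] [Field 𝔽] [Algebra K 𝔽] {W : WeierstrassCurve K}
    {B : Type} [Fintype B] [DecidableEq B] {ξ η : B → 𝔽} (hg : Gen W ξ η)
    (p : MvPolynomial B K) (hp : p ≠ 0) : aeval ξ p ≠ 0 := by
  intro h0
  apply hp
  let f : (B → Fin 2) → MvPolynomial B K := fun e => if e = 0 then p else 0
  have h1 : evl (pt ξ η) (asm f) = 0 := by
    rw [evl_asm, Finset.sum_eq_single (0 : B → Fin 2)]
    · simp [f, h0]
    · intro e _ he
      simp [f, he]
    · intro h
      exact absurd (Finset.mem_univ _) h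
  have h2 := congrFun (hg.inj f h1) 0
  simpa [f] using h2

/-- Norm: a polynomial that does not vanish at the generic point divides, on the curve, a nonzero
polynomial in the `x b`.
Proof. Let `R` be the range of `aeval ξ : MvPolynomial B K →ₐ[K] 𝔽` and `S` the range of
`p ↦ evl (pt ξ η) p` (both subalgebras of `𝔽`, `R ≤ S`). Every `η b` is integral over `R`, so every element
of `S` is integral (hence algebraic) over `R` (`Algebra.adjoin` / `IsIntegral.mul, add`), and
`IsAlgebraic.exists_nonzero_dvd` applied to `s = evl (pt ξ η) p ≠ 0` gives `N ≠ 0` in `R` and `s' ∈ S` with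
`s * s' = N` (use the algebra `S` over the ring `MvPolynomial B K` or over `R`). Lift `N` and `s'` to
polynomials and apply `Gen.eq`. Alternative proof: multiply by the conjugates: for the block `b` the
conjugate of `f_0 + f_1 y_b` is `f_0 - f_1 (a₁ x_b + a₃) - f_1 y_b`, and the product is
`f_0^2 - (a₁ x_b + a₃) f_0 f_1 - (x_b^3 + ...) f_1^2`, not zero at the generic point; do this for all
blocks. -/
theorem Gen.norm {K 𝔽 : Type u} [Field K] [Field 𝔽] [Algebra K 𝔽] {W : WeierstrassCurve K}
    {B : Type} [Fintype B] [DecidableEq B] {ξ η : B → 𝔽} (hg : Gen W ξ η)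
    (p : MvPolynomial (B × Fin 2) K) (hp : evl (pt ξ η) p ≠ 0) :
    ∃ (p' : MvPolynomial (B × Fin 2) K) (N : MvPolynomial B K), N ≠ 0 ∧
      ∀ (F : Type u) [Field F] [Algebra K F] (x y : B → F), (∀ b, OnC W (x b) (y b)) →
        evl (pt x y) p * evl (pt x y) p' = aeval x N := by
  let _ : Algebra (MvPolynomial B K) 𝔽 := (aeval ξ : MvPolynomial B K →ₐ[K] 𝔽).toRingHom.toAlgebra
  have halg : ∀ q : MvPolynomial B K, algebraMap (MvPolynomial B K) 𝔽 q = aeval ξ q := fun _ => rfl
  have hη : ∀ b, IsIntegral (MvPolynomial B K) (η b) := by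
    intro b
    have h1 := (onC_iff W _ _).1 (hg.on b)
    refine ⟨Polynomial.X ^ 2 + (Polynomial.C (C W.a₁ * X b + C W.a₃) * Polynomial.X
      - Polynomial.C (X b ^ 3 + C W.a₂ * X b ^ 2 + C W.a₄ * X b + C W.a₆)), ?_, ?_⟩
    · apply Polynomial.monic_X_pow_add
      refine lt_of_le_of_lt (b := (1 : WithBot ℕ)) ?_ (by norm_num)
      compute_degree
    · simp only [Polynomial.eval₂_add, Polynomial.eval₂_sub, Polynomial.eval₂_mul,
        Polynomial.eval₂_pow, Polynomial.eval₂_X, Polynomial.eval₂_C, halg, map_add, map_mul,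
        map_pow, aeval_X, aeval_C]
      linear_combination h1
  have hint : ∀ q : MvPolynomial (B × Fin 2) K, IsIntegral (MvPolynomial B K) (evl (pt ξ η) q) := by
    intro q
    induction q using MvPolynomial.induction_on with
    | C c =>
      have h1 : evl (pt ξ η) (C c : MvPolynomial (B × Fin 2) K)
          = algebraMap (MvPolynomial B K) 𝔽 (C c) := by
        rw [halg, evl, aeval_C, aeval_C]
      rw [h1]
      exact isIntegral_algebraMap
    | add p q hp hq =>
      rw [evl, map_add]
      exact hp.add hq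
    | mul_X p i hp =>
      rw [evl, map_mul]
      refine IsIntegral.mul hp ?_
      rw [aeval_X]
      obtain ⟨b, j⟩ := i
      fin_cases j
      · have h1 : ξ b = algebraMap (MvPolynomial B K) 𝔽 (X b) := by rw [halg, aeval_X]
        change IsIntegral (MvPolynomial B K) (ξ b)
        rw [h1]
        exact isIntegral_algebraMap
      · exact hη b
  obtain ⟨q, hq0, hq⟩ := (hint p).isAlgebraic.exists_nonzero_coeff_and_aeval_eq_zero
    (mem_nonZeroDivisors_of_ne_zero hp)
  let φ : MvPolynomial B K →ₐ[K] MvPolynomial (B × Fin 2) K := rename (fun b => (b, (0 : Fin 2)))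
  let p' : MvPolynomial (B × Fin 2) K := q.divX.eval₂ (φ : MvPolynomial B K →+* _) p
  have hφ : ∀ (F : Type u) [Field F] [Algebra K F] (x y : B → F) (r : MvPolynomial B K),
      evl (pt x y) (φ r) = aeval x r := fun F _ _ x y r => evl_rename0 r x y
  have h1 : evl (pt ξ η) (p * p' + φ (q.coeff 0)) = 0 := by
    have h2 : evl (pt ξ η) p' = Polynomial.aeval (evl (pt ξ η) p) q.divX := by
      have h3 := Polynomial.hom_eval₂ q.divX (φ : MvPolynomial B K →+* _)
        ((aeval (fun p : B × Fin 2 => pt ξ η p.1 p.2) :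
          MvPolynomial (B × Fin 2) K →ₐ[K] 𝔽) : MvPolynomial (B × Fin 2) K →+* 𝔽) p
      rw [Polynomial.aeval_def]
      refine h3.trans ?_
      congr 1
      ext r
      · change evl (pt ξ η) (φ (C r)) = algebraMap (MvPolynomial B K) 𝔽 (C r)
        rw [hφ, halg]
      · change evl (pt ξ η) (φ (X r)) = algebraMap (MvPolynomial B K) 𝔽 (X r)
        rw [hφ, halg]
    have h4 : evl (pt ξ η) (p * p' + φ (q.coeff 0))
        = evl (pt ξ η) p * evl (pt ξ η) p' + evl (pt ξ η) (φ (q.coeff 0)) := by
      simp only [evl, map_add, map_mul]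
    rw [h4, h2, hφ, ← halg]
    have h5 := congrArg (Polynomial.aeval (evl (pt ξ η) p)) q.divX_mul_X_add
    rw [map_add, map_mul, Polynomial.aeval_X, Polynomial.aeval_C, hq] at h5
    rw [mul_comm]
    exact h5
  refine ⟨p', -(q.coeff 0), neg_ne_zero.2 hq0, ?_⟩
  intro F _ _ x y hxy
  have h6 := hg.zero _ h1 F x y hxy
  have h7 : evl (pt x y) (p * p' + φ (q.coeff 0))
      = evl (pt x y) p * evl (pt x y) p' + aeval x (q.coeff 0) := by
    rw [← hφ F x y]
    simp only [evl, map_add, map_mul]
  rw [h7] at h6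
  rw [map_neg]
  linear_combination h6

end Pool.Agent.Lib.MP_17a322_nt.PB
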