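import Pool.Agent.Lib.MP_17a322_nt.PB.A3

/-!
The dimension of the space of functions of bounded weight.
-/

namespace Pool.Agent.Lib.MP_17a322_nt.PB

open MvPolynomial
open Pool.Agent.Lib.MP_17a322_nt.RO

universe u

/-- The pairs `(i, j)`, `j ≤ 1`, with `2 i + 3 j ≤ w`. -/
def mon (w : ℕ) : Finset (ℕ × Fin 2) :=
  (Finset.range (w + 1) ×ˢ Finset.univ).filter fun a => 2 * a.1 + 3 * (a.2 : ℕ) ≤ w

theorem A4_mem_mon (w : ℕ) (a : ℕ × Fin 2) : a ∈ mon w ↔ 2 * a.1 + 3 * (a.2 : ℕ) ≤ w := by
  unfold mon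
  rw [Finset.mem_filter, Finset.mem_product, Finset.mem_range]
  constructor
  · exact fun h => h.2
  · intro h
    exact ⟨⟨by omega, Finset.mem_univ _⟩, h⟩

/-- Proof. For `w = 0` only `(0, 0)`. For `w ≥ 1`: `i ≤ w / 2` for `j = 0` and `2 i ≤ w - 3` for
`j = 1`; cases `w` even or odd. -/
theorem card_mon (w : ℕ) : (mon w).card = max w 1 := by
  have h1 : mon w = (Finset.range (w / 2 + 1)).image (fun i => (i, (0 : Fin 2))) ∪
      (Finset.range ((w - 1) / 2)).image (fun i => (i, (1 : Fin 2))) := by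
    ext ⟨i, j⟩
    rw [A4_mem_mon, Finset.mem_union, Finset.mem_image, Finset.mem_image]
    simp only [Finset.mem_range, Prod.mk.injEq]
    fin_cases j
    · simp
      omega
    · simp
      omega
  rw [h1, Finset.card_union_of_disjoint, Finset.card_image_of_injective, Finset.card_image_of_injective,
    Finset.card_range, Finset.card_range]
  · omega
  · intro a b h
    simpa using h
  · intro a b h
    simpa using h
  · rw [Finset.disjoint_left]
    intro a ha hb
    rw [Finset.mem_image] at ha hb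
    obtain ⟨i, _, rfl⟩ := ha
    obtain ⟨j, _, hj⟩ := hb
    simp at hj

theorem mem_SW {K 𝔽 B : Type*} [Field K] [Field 𝔽] [Algebra K 𝔽] (x y : B → 𝔽) (w : B → ℕ)
    (a : 𝔽) : a ∈ SW (K := K) x y w ↔ ∃ p : MvPolynomial (B × Fin 2) K, WD p w ∧
      evl (pt x y) p = a := by
  classical
  constructor
  · intro h
    unfold SW at h
    induction h using Submodule.span_induction with
    | mem a h =>
      obtain ⟨p, hp, hpa⟩ := h
      exact ⟨p, hp, hpa⟩
    | zero => exact ⟨0, WD_zero w, by simp [evl]⟩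
    | add a b _ _ ha hb =>
      obtain ⟨p, hp, hpa⟩ := ha
      obtain ⟨q, hq, hqb⟩ := hb
      refine ⟨p + q, hp.add hq, ?_⟩
      rw [← hpa, ← hqb]
      simp [evl]
    | smul c a _ ha =>
      obtain ⟨p, hp, hpa⟩ := ha
      refine ⟨C c * p, ?_, ?_⟩
      · have h1 := (WD_C (B := B) c 0).mul hp
        rwa [zero_add] at h1
      · rw [← hpa]
        simp [evl, Algebra.smul_def]
  · rintro ⟨p, hp, hpa⟩
    exact Submodule.subset_span ⟨p, hp, hpa⟩

/-- the product of the powers of the coordinates -/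
private noncomputable def A4_v {𝔽 B : Type*} [Field 𝔽] [Fintype B] (ξ η : B → 𝔽) (a : B → ℕ × Fin 2) : 𝔽 :=
  (∏ b, ξ b ^ (a b).1) * ∏ b, η b ^ ((a b).2 : ℕ)

private noncomputable def A4_m {B : Type*} [Fintype B] (a : B → ℕ × Fin 2) : B →₀ ℕ :=
  Finsupp.equivFunOnFinite.symm (fun b => (a b).1)

private theorem A4_m_apply {B : Type*} [Fintype B] (a : B → ℕ × Fin 2) (b : B) : A4_m a b = (a b).1 := rfl

private theorem A4_inj {B : Type*} [Fintype B] {a a' : B → ℕ × Fin 2} (h1 : A4_m a = A4_m a')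
    (h2 : (fun b => (a b).2) = fun b => (a' b).2) : a = a' := by
  funext b
  refine Prod.ext ?_ (congrFun h2 b)
  rw [← A4_m_apply a b, ← A4_m_apply a' b, h1]

private theorem A4_linind {K 𝔽 : Type u} [Field K] [Field 𝔽] [Algebra K 𝔽] {W : WeierstrassCurve K}
    {B : Type} [Fintype B] [DecidableEq B] {ξ η : B → 𝔽} (hg : Gen W ξ η) (w : B → ℕ) :
    LinearIndependent K (fun a : {a // a ∈ Fintype.piFinset (fun b => mon (w b))} => A4_v ξ η a.1) := by
  classical
  rw [linearIndependent_iff']
  intro s c hc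
  set f : (B → Fin 2) → MvPolynomial B K := fun e =>
    ∑ i ∈ s, if (fun b => (i.1 b).2) = e then monomial (A4_m i.1) (c i) else 0 with hf
  have h1 : evl (pt ξ η) (asm f) = 0 := by
    rw [evl_asm, ← hc]
    have h2 : ∀ e : B → Fin 2, aeval ξ (f e) * ∏ b, η b ^ (e b : ℕ) =
        ∑ i ∈ s, if (fun b => (i.1 b).2) = e then c i • A4_v ξ η i.1 else 0 := by
      intro e
      rw [hf]
      simp only
      rw [map_sum, Finset.sum_mul]
      refine Finset.sum_congr rfl fun i _ => ?_
      split_ifs with h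
      · rw [aeval_monomial, Finsupp.prod_fintype _ _ (fun _ => pow_zero _), Algebra.smul_def, A4_v, ← h,
          mul_assoc]
        rfl
      · rw [map_zero, zero_mul]
    simp only [h2]
    rw [Finset.sum_comm]
    refine Finset.sum_congr rfl fun i _ => ?_
    rw [Finset.sum_ite_eq]
    simp
  have h2 := hg.inj f h1
  intro i hi
  have h3 : coeff (A4_m i.1) (f (fun b => (i.1 b).2)) = 0 := by
    rw [h2]
    simp
  rw [hf] at h3
  simp only at h3
  rw [coeff_sum] at h3
  rw [Finset.sum_eq_single i] at h3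
  · rw [if_pos rfl, coeff_monomial, if_pos rfl] at h3
    exact h3
  · intro j _ hji
    split_ifs with h
    · rw [coeff_monomial, if_neg]
      intro h4
      exact hji (Subtype.ext (A4_inj h4 h))
    · exact coeff_zero _
  · intro h
    exact absurd hi h

private theorem A4_span {K 𝔽 : Type u} [Field K] [Field 𝔽] [Algebra K 𝔽] {W : WeierstrassCurve K}
    {B : Type} [Fintype B] [DecidableEq B] {ξ η : B → 𝔽} (hg : Gen W ξ η) (w : B → ℕ) :
    SW (K := K) ξ η w = Submodule.span K
      (Set.range (fun a : {a // a ∈ Fintype.piFinset (fun b => mon (w b))} => A4_v ξ η a.1)) := by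
  classical
  apply le_antisymm
  · intro x hx
    obtain ⟨p, hp, rfl⟩ := (mem_SW ξ η w x).1 hx
    obtain ⟨f, hf, hval⟩ := exists_asm W p
    rw [hval 𝔽 ξ η hg.on, evl_asm]
    refine Submodule.sum_mem _ fun e _ => ?_
    rw [aeval_def, eval₂_eq', Finset.sum_mul]
    refine Submodule.sum_mem _ fun m hm => ?_
    have h1 : algebraMap K 𝔽 (coeff m (f e)) * (∏ b, ξ b ^ m b) * ∏ b, η b ^ (e b : ℕ) =
        coeff m (f e) • A4_v ξ η (fun b => (m b, e b)) := by
      rw [Algebra.smul_def, A4_v, mul_assoc]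
    rw [h1]
    refine Submodule.smul_mem _ _ (Submodule.subset_span ?_)
    refine ⟨⟨fun b => (m b, e b), ?_⟩, rfl⟩
    rw [Fintype.mem_piFinset]
    intro b
    rw [A4_mem_mon]
    have hfe : f e ≠ 0 := by
      intro h0
      rw [h0] at hm
      simp at hm
    have h2 := hf w hp e hfe b
    have h3 := monomial_le_degreeOf b hm
    simp only
    omega
  · rw [Submodule.span_le]
    rintro _ ⟨a, rfl⟩
    have ha := a.2
    rw [Fintype.mem_piFinset] at ha
    refine (mem_SW ξ η w _).2 ⟨∏ b, (X (b, 0) ^ (a.1 b).1 * X (b, 1) ^ ((a.1 b).2 : ℕ)), ?_, ?_⟩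
    · refine (WD.prod Finset.univ (fun b => (X (b, 0) ^ (a.1 b).1 * X (b, 1) ^ ((a.1 b).2 : ℕ) :
        MvPolynomial (B × Fin 2) K))
        (fun b => (a.1 b).1 • Pi.single b 2 + ((a.1 b).2 : ℕ) • Pi.single b 3)
        (fun b _ => ((WD_X0 b).pow _).mul ((WD_X1 b).pow _))).mono ?_
      intro b
      have h1 := (A4_mem_mon _ _).1 (ha b)
      rw [Finset.sum_apply, Finset.sum_eq_single b]
      · simp only [Pi.add_apply, Pi.smul_apply, Pi.single_eq_same, smul_eq_mul]
        omega
      · intro b' _ hb'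
        simp [Pi.single_eq_of_ne hb'.symm]
      · intro h
        exact absurd (Finset.mem_univ b) h
    · change _ = A4_v ξ η a.1
      rw [evl, map_prod]
      unfold A4_v
      rw [← Finset.prod_mul_distrib]
      refine Finset.prod_congr rfl fun b _ => ?_
      simp [pt]

/-- Proof. The family of the products `∏ b, x b ^ i_b * y b ^ j_b` over
`(i, j) ∈ Fintype.piFinset (fun b => mon (w b))` spans (`exists_asm`: a polynomial of weight `w` has the
value of `asm f`, `WF f w`, a combination of these products) and is linearly independent (`hg.inj`,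
applied to `f e = ∑ c_(i, e) ∏ X b ^ i_b`). Its cardinality is the product (`Fintype.card_piFinset`). -/
theorem finrank_SW {K 𝔽 : Type u} [Field K] [Field 𝔽] [Algebra K 𝔽] {W : WeierstrassCurve K}
    {B : Type} [Fintype B] [DecidableEq B] {ξ η : B → 𝔽} (hg : Gen W ξ η) (w : B → ℕ) :
    FiniteDimensional K (SW (K := K) ξ η w) ∧
      Module.finrank K (SW (K := K) ξ η w) = ∏ b, max (w b) 1 := by
  rw [A4_span hg w]
  refine ⟨FiniteDimensional.span_of_finite K (Set.finite_range _), ?_⟩
  rw [finrank_span_eq_card (A4_linind hg w), Fintype.card_coe, Fintype.card_piFinset]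
  exact Finset.prod_congr rfl fun b _ => card_mon (w b)

end Pool.Agent.Lib.MP_17a322_nt.PB
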