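import Pool.Agent.Lib.MP_17a322_nt.PB.A3

/-!
Division by powers of `x_q - c`.
-/

namespace Pool.Agent.Lib.MP_17a322_nt.PB

open MvPolynomial
open Pool.Agent.Lib.MP_17a322_nt.RO

universe u

/-- A linear polynomial `X q - c` with `c` a value avoiding the zeros of `N`.
Proof. `K` is infinite, so there is `a : B → K` with `eval a N ≠ 0` (`MvPolynomial.funext`); take
`c = a q`; a multiple of `X q - C c` vanishes at `a`. -/
theorem exists_not_dvd {K : Type u} [Field K] [Infinite K] {B : Type} (q : B)
    (N : MvPolynomial B K) (hN : N ≠ 0) : ∃ c : K, ¬ (X q - C c : MvPolynomial B K) ∣ N := by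
  obtain ⟨a, ha⟩ : ∃ a : B → K, eval a N ≠ 0 := by
    by_contra h
    push Not at h
    exact hN (MvPolynomial.funext fun x => by rw [h x, map_zero])
  refine ⟨a q, ?_⟩
  rintro ⟨s, hs⟩
  apply ha
  rw [hs, map_mul, map_sub, eval_X, eval_C, sub_self, zero_mul]

/-- Proof. `X q - C c` is prime: the quotient by it is the polynomial ring in the other variables, or:
it is irreducible (degree one with coprime coefficients, e.g. image of `X q` under the automorphism
`X q ↦ X q - C c`, `MvPolynomial.prime_X`/`irreducible_X`) and `MvPolynomial B K` is a UFD. -/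
theorem prime_sub {K : Type u} [Field K] {B : Type} [Fintype B] [DecidableEq B] (q : B) (c : K) :
    Prime (X q - C c : MvPolynomial B K) := by
  have h1 : ∀ a b : K, a + b = 0 → (aeval (fun i => if i = q then X q + C a else X i) :
      MvPolynomial B K →ₐ[K] MvPolynomial B K).comp
      (aeval (fun i => if i = q then X q + C b else X i)) = AlgHom.id K _ := by
    intro a b hab
    apply MvPolynomial.algHom_ext
    intro i
    rw [AlgHom.comp_apply, aeval_X]
    by_cases hi : i = q
    · subst hi
      rw [if_pos rfl, map_add, aeval_X, if_pos rfl, ← algebraMap_eq, AlgHom.commutes, algebraMap_eq, add_assoc,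
        ← C_add, hab, C_0, add_zero]
      rfl
    · rw [if_neg hi, aeval_X, if_neg hi]
      rfl
  let e : MvPolynomial B K ≃ₐ[K] MvPolynomial B K := AlgEquiv.ofAlgHom
    (aeval (fun i => if i = q then X q + C (-c) else X i))
    (aeval (fun i => if i = q then X q + C c else X i))
    (h1 _ _ (neg_add_cancel c)) (h1 _ _ (add_neg_cancel c))
  have h2 : e (X q) = X q - C c := by
    show (aeval (fun i => if i = q then X q + C (-c) else X i) : MvPolynomial B K →ₐ[K] _) (X q) = _
    rw [aeval_X, if_pos rfl, C_neg, sub_eq_add_neg]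
  rw [← h2, MulEquiv.prime_iff]
  exact X_prime

/-- If `N(x) p = (x_q - c)^T h` on the curve and `X q - c` does not divide `N` then `p` is divisible by
`(x_q - c)^T` on the curve, with the expected weights.
Proof. `exists_asm` for `p` and `h` gives `f`, `k`. At the generic point
`evl (asm (fun e => N * f e)) = evl (asm (fun e => (X q - C c)^T * k e))` (`evl_asm`), so by `hg.inj`
for the difference `N * f e = (X q - C c)^T * k e` for all `e`. By `prime_sub` and `hN`,
`(X q - C c)^T ∣ f e` (`Prime.pow_dvd_of_dvd_mul_left`); `f e = (X q - C c)^T * g e`. Let `s = asm g`. If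
`f e ≠ 0` then `degreeOf q (f e) = T + degreeOf q (g e)` and `degreeOf b (f e) = degreeOf b (g e)` for
`b ≠ q` (`degreeOf_mul_eq`, `degreeOf_pow_eq`), which gives `WF g (update w q (w q - 2 T))`, and `WD_asm`.
For the identity at all points of the curve: `evl p = evl (asm f)`. -/
theorem Gen.div {K 𝔽 : Type u} [Field K] [Field 𝔽] [Algebra K 𝔽] {W : WeierstrassCurve K}
    {B : Type} [Fintype B] [DecidableEq B] {ξ η : B → 𝔽} (hg : Gen W ξ η) (q : B) (c : K) (T : ℕ)
    (N : MvPolynomial B K) (hN : ¬ (X q - C c : MvPolynomial B K) ∣ N)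
    (p h : MvPolynomial (B × Fin 2) K)
    (hph : aeval ξ N * evl (pt ξ η) p = (ξ q - algebraMap K 𝔽 c) ^ T * evl (pt ξ η) h) :
    ∃ s : MvPolynomial (B × Fin 2) K,
      (∀ w, WD p w → WD s (Function.update w q (w q - 2 * T))) ∧
      ∀ (F : Type u) [Field F] [Algebra K F] (x y : B → F), (∀ b, OnC W (x b) (y b)) →
        evl (pt x y) p = (x q - algebraMap K F c) ^ T * evl (pt x y) s := by
  obtain ⟨f, hfw, hf⟩ := exists_asm W p
  obtain ⟨k, hkw, hk⟩ := exists_asm W h
  have hL : (X q - C c : MvPolynomial B K) ≠ 0 := (prime_sub q c).ne_zero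
  have h1 : ∀ e, N * f e = (X q - C c) ^ T * k e := by
    have h2 : (fun e => N * f e - (X q - C c) ^ T * k e) = 0 := by
      apply hg.inj
      rw [evl_asm]
      simp only [map_sub, map_mul, sub_mul]
      rw [Finset.sum_sub_distrib]
      simp only [mul_assoc]
      rw [← Finset.mul_sum, ← Finset.mul_sum, ← evl_asm, ← evl_asm, ← hf 𝔽 ξ η hg.on, ← hk 𝔽 ξ η hg.on, hph,
        map_pow, map_sub, aeval_X, aeval_C, sub_self]
    intro e
    exact sub_eq_zero.mp (congrFun h2 e)
  have h2 : ∀ e, ∃ g, f e = (X q - C c) ^ T * g := fun e =>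
    Prime.pow_dvd_of_dvd_mul_left (prime_sub q c) T hN ⟨k e, h1 e⟩
  choose g hgf using h2
  refine ⟨asm g, fun w hw => WD_asm g _ fun e he b => ?_, fun F _ _ x y hxy => ?_⟩
  · have hfe : f e ≠ 0 := by
      rw [hgf e]
      exact mul_ne_zero (pow_ne_zero _ hL) he
    have h3 := hfw w hw e hfe b
    have h4 : (f e).degreeOf b = T * (X q - C c : MvPolynomial B K).degreeOf b + (g e).degreeOf b := by
      rw [hgf e, degreeOf_mul_eq (pow_ne_zero _ hL) he, degreeOf_pow_eq _ _ _ hL]
    by_cases hb : b = q
    · subst hb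
      rw [Function.update_self]
      have h5 : 1 ≤ (X b - C c : MvPolynomial B K).degreeOf b := by
        have h6 : (Finsupp.single b 1 : B →₀ ℕ) ∈ (X b - C c : MvPolynomial B K).support := by
          have h9 : (0 : B →₀ ℕ) ≠ Finsupp.single b 1 := fun h => by
            have := congrArg (fun m : B →₀ ℕ => m b) h
            simp at this
          rw [mem_support_iff, coeff_sub, coeff_C, if_neg h9, sub_zero]
          simp [coeff_X]
        have h7 := monomial_le_degreeOf b h6
        rwa [Finsupp.single_eq_same] at h7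
      have h8 : T ≤ T * (X b - C c : MvPolynomial B K).degreeOf b := Nat.le_mul_of_pos_right _ h5
      omega
    · rw [Function.update_of_ne hb]
      omega
  · rw [hf F x y hxy, evl_asm, evl_asm, Finset.mul_sum]
    refine Finset.sum_congr rfl fun e _ => ?_
    rw [hgf e, map_mul, map_pow, map_sub, aeval_X, aeval_C, mul_assoc]

end Pool.Agent.Lib.MP_17a322_nt.PB
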