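import Pool.Agent.Lib.MP_17a322_nt.PB.A4

/-!
The auxiliary linear form: existence by counting.
-/

namespace Pool.Agent.Lib.MP_17a322_nt.PB

open MvPolynomial
open Pool.Agent.Lib.MP_17a322_nt.RO

universe u

/-- Linear algebra. `V ≤ U` and `Z` are finite dimensional subspaces of `𝔽`; if
`(|ι| - 1) (dim U - dim Z) < |ι| dim V` and `v i * V ⊆ U` for all `i` then there are `a i ∈ V`, not all `0`,
with `a i * v j₀ - a j₀ * v i ∈ Z` for all `i`.
Proof. Linear map from `ι → V` (dimension `|ι| dim V`) to `{i // i ≠ j₀} → U / (Z ⊓ U)` (dimension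
`(|ι| - 1) (dim U - dim Z)`, as `Z ≤ U`); the kernel is not zero
(`LinearMap.exists_ne_zero_of_finrank_lt` or rank-nullity). For `i = j₀` the element is `0`. -/
theorem exists_ker {K 𝔽 : Type u} [Field K] [Field 𝔽] [Algebra K 𝔽] {ι : Type} [Fintype ι]
    [DecidableEq ι] (j₀ : ι) (V U Z : Submodule K 𝔽) [FiniteDimensional K V]
    [FiniteDimensional K U] (hZ : Z ≤ U) (v : ι → 𝔽) (hv : ∀ i, ∀ a ∈ V, a * v i ∈ U)
    (hcard : (Fintype.card ι - 1) * (Module.finrank K U - Module.finrank K Z) <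
      Fintype.card ι * Module.finrank K V) :
    ∃ a : ι → 𝔽, (∀ i, a i ∈ V) ∧ (∃ i, a i ≠ 0) ∧ ∀ i, a i * v j₀ - a j₀ * v i ∈ Z := by
  let Z' : Submodule K U := Z.comap U.subtype
  let L : ι → ((ι → V) →ₗ[K] U) := fun i =>
    { toFun := fun a => ⟨(a i : 𝔽) * v j₀ - (a j₀ : 𝔽) * v i,
        U.sub_mem (hv j₀ _ (a i).2) (hv i _ (a j₀).2)⟩
      map_add' := by
        intro a b
        apply Subtype.ext
        simp only [Pi.add_apply, Submodule.coe_add]
        ring
      map_smul' := by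
        intro c a
        apply Subtype.ext
        simp only [Pi.smul_apply, Submodule.coe_smul, RingHom.id_apply, Algebra.smul_def]
        ring }
  have hL : ∀ i a, ((L i a : U) : 𝔽) = (a i : 𝔽) * v j₀ - (a j₀ : 𝔽) * v i := fun i a => rfl
  let Φ : (ι → V) →ₗ[K] ({i : ι // i ≠ j₀} → U ⧸ Z') := LinearMap.pi fun i => Z'.mkQ ∘ₗ L i.1
  have hZ' : Module.finrank K Z' = Module.finrank K Z := (Submodule.comapSubtypeEquivOfLe hZ).finrank_eq
  have hq : Module.finrank K (U ⧸ Z') = Module.finrank K U - Module.finrank K Z := by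
    rw [← hZ', Submodule.finrank_quotient]
  have hfree : Module.Free K (U ⧸ Z') := Module.Free.of_divisionRing K (U ⧸ Z')
  have hlt : Module.finrank K ({i : ι // i ≠ j₀} → U ⧸ Z') < Module.finrank K (ι → V) := by
    rw [Module.finrank_pi_fintype, Module.finrank_pi_fintype, Finset.sum_const, Finset.sum_const,
      Finset.card_univ, Finset.card_univ, smul_eq_mul, smul_eq_mul, hq, Fintype.card_subtype_compl,
      Fintype.card_subtype_eq]
    exact hcard
  have hker : LinearMap.ker Φ ≠ ⊥ := LinearMap.ker_ne_bot_of_finrank_lt hlt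
  obtain ⟨a, ha, ha0⟩ := Submodule.exists_mem_ne_zero_of_ne_bot hker
  refine ⟨fun i => (a i : 𝔽), fun i => (a i).2, ?_, fun i => ?_⟩
  · by_contra hcon
    apply ha0
    funext i
    apply Subtype.ext
    by_contra h1
    exact hcon ⟨i, h1⟩
  · by_cases hi : i = j₀
    · rw [hi, sub_self]
      exact Z.zero_mem
    · have h1 := congrFun (LinearMap.mem_ker.1 ha) ⟨i, hi⟩
      have h2 : Z'.mkQ (L i a) = 0 := h1
      rw [Submodule.mkQ_apply, Submodule.Quotient.mk_eq_zero] at h2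
      have h3 : ((L i a : U) : 𝔽) ∈ Z := h2
      rwa [hL] at h3

private theorem A6_mul {K 𝔽 B : Type*} [Field K] [Field 𝔽] [Algebra K 𝔽] (x : B → Fin 2 → 𝔽)
    (p r : MvPolynomial (B × Fin 2) K) : evl x (p * r) = evl x p * evl x r := by
  unfold evl
  rw [map_mul]

private theorem A6_lin {K 𝔽 B : Type*} [Field K] [Field 𝔽] [Algebra K 𝔽] (ξ η : B → 𝔽) (q : B) (c : K)
    (T : ℕ) : evl (pt ξ η) ((X (q, 0) - C c) ^ T : MvPolynomial (B × Fin 2) K) =
      (ξ q - algebraMap K 𝔽 c) ^ T := by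
  unfold evl
  rw [map_pow, map_sub, aeval_X, aeval_C]
  rfl

/-- Existence of the auxiliary vector `u`.
Proof. `exists_ker` with `V = SW w`, `U = SW (w + ω)`, `Z = (ξ q - c)^T * SW (w + ω - 2 T in block q)`
(image of the injective map `Submodule.map (LinearMap.mulLeft ..)`), `v i` the value of `v i`. `Z ≤ U`, as
`(X (q, 0) - C c)^T` has weight `2 T` in block `q` (`WD.mul`). Dimensions from `finrank_SW`:
`dim U - dim Z = ((w q + ω q) - (w q + ω q - 2 T)) * ∏_{b ≠ q} max (w b + ω b) 1`, by `hT` both weights in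
block `q` are at least `1`. Lift the `a i ∈ SW w` to polynomials of weight `w` (`mem_SW`). -/
theorem Gen.siegel {K 𝔽 : Type u} [Field K] [Field 𝔽] [Algebra K 𝔽] {W : WeierstrassCurve K}
    {B : Type} [Fintype B] [DecidableEq B] {ξ η : B → 𝔽} (hg : Gen W ξ η) {ι : Type} [Fintype ι]
    [DecidableEq ι] (j₀ : ι) (q : B) (c : K) (T : ℕ) (w ω : B → ℕ)
    (v : ι → MvPolynomial (B × Fin 2) K) (hv : ∀ i, WD (v i) ω) (hT : 2 * T < w q + ω q)
    (hcard : (Fintype.card ι - 1) * (2 * T * ∏ b ∈ Finset.univ.erase q, max (w b + ω b) 1) <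
      Fintype.card ι * ∏ b, max (w b) 1) :
    ∃ u : ι → MvPolynomial (B × Fin 2) K, (∀ i, WD (u i) w) ∧ (∃ i, evl (pt ξ η) (u i) ≠ 0) ∧
      ∀ i, ∃ s : MvPolynomial (B × Fin 2) K,
        evl (pt ξ η) (u i) * evl (pt ξ η) (v j₀) - evl (pt ξ η) (u j₀) * evl (pt ξ η) (v i) =
          (ξ q - algebraMap K 𝔽 c) ^ T * evl (pt ξ η) s := by
  classical
  obtain ⟨hV1, hV2⟩ := finrank_SW hg w
  obtain ⟨hU1, hU2⟩ := finrank_SW hg (w + ω)
  set w' : B → ℕ := Function.update (w + ω) q (w q + ω q - 2 * T) with hw'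
  obtain ⟨hS1, hS2⟩ := finrank_SW hg w'
  set t : 𝔽 := (ξ q - algebraMap K 𝔽 c) ^ T with ht
  have ht0 : t ≠ 0 := by
    apply pow_ne_zero
    have h1 := hg.aeval_ne (X q - C c) (by
      intro h
      have h2 := congrArg (eval (fun _ : B => c + 1)) h
      rw [map_sub, eval_X, eval_C, map_zero, add_sub_cancel_left] at h2
      exact one_ne_zero h2)
    rw [map_sub, aeval_X, aeval_C] at h1
    exact h1
  let m : 𝔽 →ₗ[K] 𝔽 := LinearMap.mulLeft K t
  have hm : ∀ a, m a = t * a := fun a => rfl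
  have hminj : Function.Injective m := fun a b hab => mul_left_cancel₀ ht0 hab
  let Z : Submodule K 𝔽 := (SW (K := K) ξ η w').map m
  have hZ : Z ≤ SW (K := K) ξ η (w + ω) := by
    rintro _ ⟨a, ha, rfl⟩
    obtain ⟨p, hp, rfl⟩ := (mem_SW ξ η w' a).1 ha
    refine (mem_SW ξ η (w + ω) _).2 ⟨(X (q, 0) - C c) ^ T * p, ?_, ?_⟩
    · have h1 : WD ((X (q, 0) - C c) ^ T : MvPolynomial (B × Fin 2) K) (T • Pi.single q 2) :=
        ((WD_X0 q).sub (WD_C c _)).pow T
      refine (h1.mul hp).mono fun b => ?_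
      rw [Pi.add_apply, Pi.smul_apply, hw']
      by_cases hb : b = q
      · subst hb
        rw [Pi.single_eq_same, Function.update_self, smul_eq_mul, Pi.add_apply]
        omega
      · rw [Pi.single_eq_of_ne hb, Function.update_of_ne hb, smul_zero, zero_add]
    · rw [A6_mul, A6_lin, hm]
  have hZf : Module.finrank K Z = ∏ b, max (w' b) 1 := by
    rw [← hS2]
    exact ((SW (K := K) ξ η w').equivMapOfInjective m hminj).symm.finrank_eq
  have hprod : Module.finrank K (SW (K := K) ξ η (w + ω)) - Module.finrank K Z =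
      2 * T * ∏ b ∈ Finset.univ.erase q, max (w b + ω b) 1 := by
    rw [hU2, hZf, ← Finset.mul_prod_erase Finset.univ (fun b => max ((w + ω) b) 1) (Finset.mem_univ q),
      ← Finset.mul_prod_erase Finset.univ (fun b => max (w' b) 1) (Finset.mem_univ q)]
    have h1 : ∏ b ∈ Finset.univ.erase q, max (w' b) 1 = ∏ b ∈ Finset.univ.erase q, max (w b + ω b) 1 := by
      refine Finset.prod_congr rfl fun b hb => ?_
      rw [hw', Function.update_of_ne (Finset.ne_of_mem_erase hb), Pi.add_apply]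
    have h2 : w' q = w q + ω q - 2 * T := by rw [hw', Function.update_self]
    simp only [h1, h2, Pi.add_apply]
    rw [← Nat.sub_mul]
    congr 1
    have h3 : max (w q + ω q) 1 = w q + ω q := max_eq_left (by omega)
    have h4 : max (w q + ω q - 2 * T) 1 = w q + ω q - 2 * T := max_eq_left (by omega)
    rw [h3, h4]
    omega
  obtain ⟨a, ha1, ha2, ha3⟩ := exists_ker (K := K) j₀ (SW (K := K) ξ η w) (SW (K := K) ξ η (w + ω)) Z hZ
    (fun i => evl (pt ξ η) (v i)) (by
      intro i a ha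
      obtain ⟨p, hp, rfl⟩ := (mem_SW ξ η w a).1 ha
      exact (mem_SW ξ η (w + ω) _).2 ⟨p * v i, hp.mul (hv i), A6_mul _ _ _⟩) (by
      rw [hprod, hV2]
      exact hcard)
  choose u hu1 hu2 using fun i => (mem_SW ξ η w (a i)).1 (ha1 i)
  refine ⟨u, hu1, ?_, fun i => ?_⟩
  · obtain ⟨i, hi⟩ := ha2
    exact ⟨i, by rw [hu2]; exact hi⟩
  · obtain ⟨s', hs', hs⟩ := ha3 i
    obtain ⟨s, -, hs2⟩ := (mem_SW ξ η w' s').1 hs'
    refine ⟨s, ?_⟩
    rw [hu2, hu2, hs2, ← hs, hm]

end Pool.Agent.Lib.MP_17a322_nt.PB
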