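import Pool.Agent.Lib.MP_17a322_nt.PB.A0

/-!
Monomials of bounded weight and their products.
-/

namespace Pool.Agent.Lib.MP_17a322_nt.PB

open MvPolynomial Height
open Pool.Agent.Lib.MP_17a322_nt.RO

universe u

/-- The vector of the monomials `x ^ i * y ^ j`, `j ≤ 1`, `2 i + 3 j ≤ w` (other entries `0`), of one
point. -/
noncomputable def mv {F : Type*} [Field F] (w : ℕ) (x y : F) : Fin (w + 1) × Fin 2 → F := fun a =>
  if 2 * (a.1 : ℕ) + 3 * (a.2 : ℕ) ≤ w then x ^ (a.1 : ℕ) * y ^ (a.2 : ℕ) else 0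

/-- `g` is a `K`-combination of the functions `G t`, with coefficients independent of the point. -/
def A7a_Sp {K : Type u} [Field K] (W : WeierstrassCurve K) {ι : Type*} [Fintype ι]
    (G : ι → ∀ (F : Type u) [Field F] [Algebra K F], F → F → F)
    (g : ∀ (F : Type u) [Field F] [Algebra K F], F → F → F) : Prop :=
  ∃ c : ι → K, ∀ (F : Type u) [Field F] [Algebra K F] (x y : F), OnC W x y →
    g F x y = ∑ t, algebraMap K F (c t) * G t F x y

section

variable {K : Type u} [Field K] {W : WeierstrassCurve K} {ι : Type*} [Fintype ι]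
  {G : ι → ∀ (F : Type u) [Field F] [Algebra K F], F → F → F}

theorem A7a_mem [DecidableEq ι] (t₀ : ι) : A7a_Sp W G (fun F _ _ x y => G t₀ F x y) := by
  refine ⟨fun t => if t = t₀ then 1 else 0, fun F _ _ x y _ => ?_⟩
  rw [Finset.sum_eq_single t₀]
  · simp
  · intro t _ ht
    simp [ht]
  · intro h
    exact absurd (Finset.mem_univ _) h

theorem A7a_zero : A7a_Sp W G (fun _ _ _ _ _ => 0) := by
  refine ⟨fun _ => 0, fun F _ _ x y _ => ?_⟩
  simp

theorem A7a_congr {g g' : ∀ (F : Type u) [Field F] [Algebra K F], F → F → F} (h : A7a_Sp W G g)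
    (hg : ∀ (F : Type u) [Field F] [Algebra K F] (x y : F), OnC W x y → g' F x y = g F x y) :
    A7a_Sp W G g' := by
  obtain ⟨c, hc⟩ := h
  exact ⟨c, fun F _ _ x y hxy => (hg F x y hxy).trans (hc F x y hxy)⟩

theorem A7a_add {g g' : ∀ (F : Type u) [Field F] [Algebra K F], F → F → F} (h : A7a_Sp W G g)
    (h' : A7a_Sp W G g') : A7a_Sp W G (fun F _ _ x y => g F x y + g' F x y) := by
  obtain ⟨c, hc⟩ := h
  obtain ⟨c', hc'⟩ := h'
  refine ⟨fun t => c t + c' t, fun F _ _ x y hxy => ?_⟩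
  simp only
  rw [hc F x y hxy, hc' F x y hxy, ← Finset.sum_add_distrib]
  refine Finset.sum_congr rfl fun t _ => ?_
  rw [map_add, add_mul]

theorem A7a_smul {g : ∀ (F : Type u) [Field F] [Algebra K F], F → F → F} (h : A7a_Sp W G g)
    (a : K) : A7a_Sp W G (fun F _ _ x y => algebraMap K F a * g F x y) := by
  obtain ⟨c, hc⟩ := h
  refine ⟨fun t => a * c t, fun F _ _ x y hxy => ?_⟩
  simp only
  rw [hc F x y hxy, Finset.mul_sum]
  refine Finset.sum_congr rfl fun t _ => ?_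
  rw [map_mul, mul_assoc]

/-- the product of two monomials, if enough monomials are available -/
theorem A7a_prod (N M : ℕ) (h0 : ∀ e ≤ N, A7a_Sp W G (fun _ _ _ x _ => x ^ e))
    (h1 : ∀ e ≤ M, A7a_Sp W G (fun _ _ _ x y => x ^ e * y)) (i j i' j' : ℕ) (hj : j ≤ 1) (hj' : j' ≤ 1)
    (c0 : j = 0 → j' = 0 → i + i' ≤ N) (c1 : j + j' = 1 → i + i' ≤ M)
    (c2 : j = 1 → j' = 1 → i + i' + 3 ≤ N ∧ i + i' + 1 ≤ M) :
    A7a_Sp W G (fun _ _ _ x y => (x ^ i * y ^ j) * (x ^ i' * y ^ j')) := by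
  rcases Nat.le_one_iff_eq_zero_or_eq_one.mp hj with rfl | rfl <;>
    rcases Nat.le_one_iff_eq_zero_or_eq_one.mp hj' with rfl | rfl
  · refine A7a_congr (h0 (i + i') (c0 rfl rfl)) fun F _ _ x y _ => ?_
    ring
  · refine A7a_congr (h1 (i + i') (c1 rfl)) fun F _ _ x y _ => ?_
    ring
  · refine A7a_congr (h1 (i + i') (c1 rfl)) fun F _ _ x y _ => ?_
    ring
  · obtain ⟨c3, c4⟩ := c2 rfl rfl
    refine A7a_congr (A7a_add (A7a_add (A7a_add (h0 (i + i' + 3) c3)
      (A7a_smul (h0 (i + i' + 2) (by omega)) W.a₂)) (A7a_add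
      (A7a_smul (h0 (i + i' + 1) (by omega)) W.a₄) (A7a_smul (h0 (i + i') (by omega)) W.a₆)))
      (A7a_add (A7a_smul (h1 (i + i' + 1) c4) (-W.a₁)) (A7a_smul (h1 (i + i') (by omega)) (-W.a₃))))
      fun F _ _ x y hxy => ?_
    rw [onC_iff] at hxy
    rw [map_neg, map_neg]
    linear_combination x ^ (i + i') * hxy

end

/-- the functions occurring in `mv_mul` -/
noncomputable def A7a_G {K : Type u} [Field K] (k : ℕ) (t : Fin (k + 1) × (Fin (2 * k + 1) × Fin 2)) :
    ∀ (F : Type u) [Field F] [Algebra K F], F → F → F := fun _ _ _ x y =>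
  x ^ (t.1 : ℕ) * mv (2 * k) x y t.2

theorem A7a_G0 {K : Type u} [Field K] {W : WeierstrassCurve K} (k e : ℕ) (he : e ≤ 2 * k) :
    A7a_Sp W (A7a_G (K := K) k) (fun _ _ _ x _ => x ^ e) := by
  obtain ⟨i, i', hi, hi', rfl⟩ : ∃ i i' : ℕ, i ≤ k ∧ i' ≤ k ∧ i + i' = e :=
    ⟨min e k, e - min e k, min_le_right _ _, by omega, by omega⟩
  refine A7a_congr (A7a_mem (W := W) (G := A7a_G (K := K) k)
    (⟨i, by omega⟩, (⟨i', by omega⟩, (0 : Fin 2)))) fun F _ _ x y _ => ?_
  simp only [A7a_G, mv]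
  rw [if_pos (by simp; omega)]
  simp [pow_add]

theorem A7a_G1 {K : Type u} [Field K] {W : WeierstrassCurve K} (k e : ℕ) (hk : 2 ≤ k)
    (he : e ≤ 2 * k - 2) :
    A7a_Sp W (A7a_G (K := K) k) (fun _ _ _ x y => x ^ e * y) := by
  obtain ⟨i, i', hi, hi', rfl⟩ : ∃ i i' : ℕ, i ≤ k ∧ i' ≤ k - 2 ∧ i + i' = e :=
    ⟨min e k, e - min e k, min_le_right _ _, by omega, by omega⟩
  refine A7a_congr (A7a_mem (W := W) (G := A7a_G (K := K) k)
    (⟨i, by omega⟩, (⟨i', by omega⟩, (1 : Fin 2)))) fun F _ _ x y _ => ?_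
  simp only [A7a_G, mv]
  rw [if_pos (by simp; omega)]
  simp [pow_add, mul_assoc]

/-- Products of monomials are combinations of products of a power of `x` and a monomial.
For even weight `w = 2 k`: every product of two entries of `mv w x y` is a `K`-combination (coefficients
independent of the point) of the products of `x ^ i`, `i ≤ k`, and an entry of `mv w x y`.
Proof. `x^i * x^i'` : `i, i' ≤ k`, clear. `x^i * (x^i' y)`: `i ≤ k`, clear. `x^i y * x^i' y`, `i, i' ≤ k - 2`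
(so `k ≥ 2`): `y^2 = x^3 + a₂ x^2 + a₄ x + a₆ - a₁ x y - a₃ y`, and `x^(i+i') * x^l`, `l ≤ 3`: the exponent
is at most `2 k - 1`, split it as `i₁ + i₂`, both `≤ k`; `x^(i+i'+l) y`, `l ≤ 1`: exponent at most
`2 k - 3 = (k - 2) + (k - 1)`, split it with `i₂ ≤ k - 2`. -/
theorem mv_mul {K : Type u} [Field K] (W : WeierstrassCurve K) (k : ℕ) :
    ∃ A : ((Fin (2 * k + 1) × Fin 2) × (Fin (2 * k + 1) × Fin 2)) ×
        (Fin (k + 1) × (Fin (2 * k + 1) × Fin 2)) → K,
      ∀ (F : Type u) [Field F] [Algebra K F] (x y : F), OnC W x y → ∀ a a',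
        mv (2 * k) x y a * mv (2 * k) x y a' =
          ∑ t : Fin (k + 1) × (Fin (2 * k + 1) × Fin 2),
            algebraMap K F (A ((a, a'), t)) * (x ^ (t.1 : ℕ) * mv (2 * k) x y t.2) := by
  classical
  have key : ∀ a a' : Fin (2 * k + 1) × Fin 2, A7a_Sp W (A7a_G (K := K) k)
      (fun F _ _ x y => mv (2 * k) x y a * mv (2 * k) x y a') := by
    intro a a'
    by_cases h : 2 * (a.1 : ℕ) + 3 * (a.2 : ℕ) ≤ 2 * k
    · by_cases h' : 2 * (a'.1 : ℕ) + 3 * (a'.2 : ℕ) ≤ 2 * k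
      · by_cases hk : 2 ≤ k
        · refine A7a_congr (A7a_prod (2 * k) (2 * k - 2) (fun e he => A7a_G0 k e he)
            (fun e he => A7a_G1 k e hk he) a.1 a.2 a'.1 a'.2 (by omega) (by omega)
            (by intro _ _; omega) (by intro _; omega) (by intro _ _; omega)) fun F _ _ x y _ => ?_
          simp only [mv]
          rw [if_pos h, if_pos h']
        · have ha : (a.2 : ℕ) = 0 := by omega
          have ha' : (a'.2 : ℕ) = 0 := by omega
          refine A7a_congr (A7a_G0 k (a.1 + a'.1) (by omega)) fun F _ _ x y _ => ?_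
          simp only [mv]
          rw [if_pos h, if_pos h', ha, ha']
          ring
      · refine A7a_congr A7a_zero fun F _ _ x y _ => ?_
        simp only [mv]
        rw [if_neg h', mul_zero]
    · refine A7a_congr A7a_zero fun F _ _ x y _ => ?_
      simp only [mv]
      rw [if_neg h, zero_mul]
  choose c hc using key
  exact ⟨fun p => c p.1.1 p.1.2 p.2, fun F _ _ x y hxy a a' => hc a a' F x y hxy⟩

end Pool.Agent.Lib.MP_17a322_nt.PB
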