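import Pool.Agent.Lib.MP_17a322_nt.PB.A7a
import Pool.Agent.Lib.MP_17a322_nt.RV.U2

/-!
Heights of the vectors of monomials.
-/

namespace Pool.Agent.Lib.MP_17a322_nt.PB

open MvPolynomial Height
open Pool.Agent.Lib.MP_17a322_nt.RO Pool.Agent.Lib.MP_17a322_nt.RV

universe u

theorem A7b_mv_ne {F : Type*} [Field F] (w : ℕ) (x y : F) : mv w x y ≠ 0 := by
  intro h
  have h1 := congrFun h (⟨0, by omega⟩, (0 : Fin 2))
  simp [mv] at h1

/-- The vector of the powers of `x` has height at most `k h(x)`. -/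
theorem A7b_pow {L : Type u} [Field L] [NumberField L] (k : ℕ) (x : L) :
    logHeight (fun i : Fin (k + 1) => x ^ (i : ℕ)) ≤ k * logHeight ![x, 1] := by
  have h1 : logHeight (fun I : Fin k → Fin 2 => ∏ a, (![x, 1] : Fin 2 → L) (I a)) =
      k * logHeight ![x, 1] := by
    rw [logHeight_fun_prod_eq (x := fun _ : Fin k => (![x, 1] : Fin 2 → L))
      (fun _ h => by have := congrFun h 1; simp at this)]
    simp
  rw [← h1]
  have h2 : (fun i : Fin (k + 1) => x ^ (i : ℕ)) =
      (fun I : Fin k → Fin 2 => ∏ a, (![x, 1] : Fin 2 → L) (I a)) ∘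
        (fun i : Fin (k + 1) => fun a : Fin k => if (a : ℕ) < (i : ℕ) then (0 : Fin 2) else 1) := by
    funext i
    simp only [Function.comp]
    have h3 : ∀ a : Fin k, (![x, 1] : Fin 2 → L) (if (a : ℕ) < (i : ℕ) then (0 : Fin 2) else 1) =
        if (a : ℕ) < (i : ℕ) then x else 1 := by
      intro a
      split_ifs <;> simp
    rw [Finset.prod_congr rfl fun a _ => h3 a, Finset.prod_ite, Finset.prod_const_one, mul_one,
      Finset.prod_const]
    congr 1
    have h4 : (Finset.univ.filter fun a : Fin k => (a : ℕ) < (i : ℕ)).card = i := by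
      rw [Fin.card_filter_val_lt]
      have := i.2
      omega
    exact h4.symm
  rw [h2]
  exact logHeight_comp_le _ _

/-- Height of `mv` for even weight: `2 h(mv) = h(mv ⊗ mv) ≤ h((x^i)_{i ≤ k}) + h(mv) + C [L : ℚ]` by
`mv_mul` (`logHeight_fun_mul_eq`, `logHeight_linear_unif`; `mv ≠ 0`, as its entry `(0, 0)` is `1`), and
`h((x^i)_{i ≤ k}) ≤ k h(x)` (`logHeight_evl_unif` or a linear image of `(x, 1)^{⊗ k}`). -/
theorem height_mv_even {K : Type u} [Field K] [NumberField K] (W : WeierstrassCurve K) (k : ℕ) :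
    ∃ C : ℝ, 0 ≤ C ∧ ∀ (L : Type u) [Field L] [NumberField L] [Algebra K L] (x y : L),
      OnC W x y → logHeight (mv (2 * k) x y) ≤ k * logHeight ![x, 1] +
        C * Module.finrank ℚ L := by
  obtain ⟨A, hA⟩ := mv_mul W k
  obtain ⟨C, hC0, hC⟩ := logHeight_linear_unif A
  refine ⟨C, hC0, fun L _ _ _ x y hxy => ?_⟩
  have h1 := hC L (fun t => x ^ (t.1 : ℕ) * mv (2 * k) x y t.2)
  have h2 : (fun p : (Fin (2 * k + 1) × Fin 2) × (Fin (2 * k + 1) × Fin 2) =>
      ∑ t, algebraMap K L (A (p, t)) * (x ^ (t.1 : ℕ) * mv (2 * k) x y t.2)) =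
      fun p => mv (2 * k) x y p.1 * mv (2 * k) x y p.2 := by
    funext p
    exact (hA L x y hxy p.1 p.2).symm
  have h3 := logHeight_fun_mul_eq (A7b_mv_ne (2 * k) x y) (A7b_mv_ne (2 * k) x y)
  have h4 : (fun i : Fin (k + 1) => x ^ (i : ℕ)) ≠ 0 := by
    intro h
    have := congrFun h ⟨0, by omega⟩
    simp at this
  have h5 := logHeight_fun_mul_eq h4 (A7b_mv_ne (2 * k) x y)
  have h6 := A7b_pow k x
  rw [h2, h3, h5] at h1
  linarith

/-- the monomials of weight at most `w` -/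
noncomputable def A7b_G {K : Type u} [Field K] (w : ℕ) (t : Fin (w + 1) × Fin 2) :
    ∀ (F : Type u) [Field F] [Algebra K F], F → F → F := fun _ _ _ x y => mv w x y t

theorem A7b_G0 {K : Type u} [Field K] {W : WeierstrassCurve K} (w e : ℕ) (he : 2 * e ≤ w) :
    A7a_Sp W (A7b_G (K := K) w) (fun _ _ _ x _ => x ^ e) := by
  refine A7a_congr (A7a_mem (W := W) (G := A7b_G (K := K) w)
    (⟨e, by omega⟩, (0 : Fin 2))) fun F _ _ x y _ => ?_
  simp only [A7b_G, mv]
  rw [if_pos (by simp; omega)]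
  simp

theorem A7b_G1 {K : Type u} [Field K] {W : WeierstrassCurve K} (w e : ℕ) (he : 2 * e + 3 ≤ w) :
    A7a_Sp W (A7b_G (K := K) w) (fun _ _ _ x y => x ^ e * y) := by
  refine A7a_congr (A7a_mem (W := W) (G := A7b_G (K := K) w)
    (⟨e, by omega⟩, (1 : Fin 2))) fun F _ _ x y _ => ?_
  simp only [A7b_G, mv]
  rw [if_pos (by simp; omega)]
  simp

/-- Height of `mv`. Proof. The products of two entries of `mv w` are combinations of the entries of
`mv (2 w)` (`y^2` as above), so `2 h(mv w) ≤ h(mv (2 w)) + C [L : ℚ] ≤ w h(x) + C' [L : ℚ]`. -/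
theorem height_mv {K : Type u} [Field K] [NumberField K] (W : WeierstrassCurve K) (w : ℕ) :
    ∃ C : ℝ, 0 ≤ C ∧ ∀ (L : Type u) [Field L] [NumberField L] [Algebra K L] (x y : L),
      OnC W x y → logHeight (mv w x y) ≤ (w : ℝ) / 2 * logHeight ![x, 1] +
        C * Module.finrank ℚ L := by
  classical
  obtain ⟨C₁, hC₁0, hC₁⟩ := height_mv_even W w
  have key : ∀ a a' : Fin (w + 1) × Fin 2, A7a_Sp W (A7b_G (K := K) (2 * w))
      (fun F _ _ x y => mv w x y a * mv w x y a') := by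
    intro a a'
    by_cases h : 2 * (a.1 : ℕ) + 3 * (a.2 : ℕ) ≤ w
    · by_cases h' : 2 * (a'.1 : ℕ) + 3 * (a'.2 : ℕ) ≤ w
      · by_cases hj : 1 ≤ (a.2 : ℕ) + (a'.2 : ℕ)
        · refine A7a_congr (A7a_prod w (w - 2) (fun e he => A7b_G0 (2 * w) e (by omega))
            (fun e he => A7b_G1 (2 * w) e (by omega)) a.1 a.2 a'.1 a'.2 (by omega) (by omega)
            (by intro _ _; omega) (by intro _; omega) (by intro _ _; omega)) fun F _ _ x y _ => ?_
          simp only [mv]
          rw [if_pos h, if_pos h']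
        · have ha : (a.2 : ℕ) = 0 := by omega
          have ha' : (a'.2 : ℕ) = 0 := by omega
          refine A7a_congr (A7b_G0 (2 * w) (a.1 + a'.1) (by omega)) fun F _ _ x y _ => ?_
          simp only [mv]
          rw [if_pos h, if_pos h', ha, ha']
          ring
      · refine A7a_congr A7a_zero fun F _ _ x y _ => ?_
        simp only [mv]
        rw [if_neg h', mul_zero]
    · refine A7a_congr A7a_zero fun F _ _ x y _ => ?_
      simp only [mv]
      rw [if_neg h, zero_mul]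
  choose c hc using key
  obtain ⟨C₂, hC₂0, hC₂⟩ := logHeight_linear_unif
    (fun p : ((Fin (w + 1) × Fin 2) × (Fin (w + 1) × Fin 2)) × (Fin (2 * w + 1) × Fin 2) =>
      c p.1.1 p.1.2 p.2)
  refine ⟨(C₁ + C₂) / 2, by positivity, fun L _ _ _ x y hxy => ?_⟩
  have h1 := hC₂ L (mv (2 * w) x y)
  have h2 : (fun p : (Fin (w + 1) × Fin 2) × (Fin (w + 1) × Fin 2) =>
      ∑ t, algebraMap K L (c p.1 p.2 t) * mv (2 * w) x y t) =
      fun p => mv w x y p.1 * mv w x y p.2 := by
    funext p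
    exact (hc p.1 p.2 L x y hxy).symm
  have h3 := logHeight_fun_mul_eq (A7b_mv_ne w x y) (A7b_mv_ne w x y)
  have h4 := hC₁ L x y hxy
  simp only at h1
  rw [h2, h3] at h1
  linarith

end Pool.Agent.Lib.MP_17a322_nt.PB
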