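import Pool.Agent.Lib.MP_17a322_nt.PB.A1
import Pool.Agent.Lib.MP_17a322_nt.PB.A7b

/-!
Heights of values of functions of bounded weight.
-/

namespace Pool.Agent.Lib.MP_17a322_nt.PB

open MvPolynomial Height
open Pool.Agent.Lib.MP_17a322_nt.RO Pool.Agent.Lib.MP_17a322_nt.RV

universe u

/-- `g` is a `K`-combination of the functions `G t`, with coefficients independent of the point. -/
def A7c_Sp {K : Type u} [Field K] (W : WeierstrassCurve K) {B : Type} {ι : Type*} [Fintype ι]
    (G : ι → ∀ (F : Type u) [Field F] [Algebra K F], (B → F) → (B → F) → F)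
    (g : ∀ (F : Type u) [Field F] [Algebra K F], (B → F) → (B → F) → F) : Prop :=
  ∃ c : ι → K, ∀ (F : Type u) [Field F] [Algebra K F] (x y : B → F), (∀ b, OnC W (x b) (y b)) →
    g F x y = ∑ t, algebraMap K F (c t) * G t F x y

section

variable {K : Type u} [Field K] {W : WeierstrassCurve K} {B : Type} {ι : Type*} [Fintype ι]
  {G : ι → ∀ (F : Type u) [Field F] [Algebra K F], (B → F) → (B → F) → F}

theorem A7c_mem (t₀ : ι) : A7c_Sp W G (fun F _ _ x y => G t₀ F x y) := by
  classical
  refine ⟨fun t => if t = t₀ then 1 else 0, fun F _ _ x y _ => ?_⟩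
  rw [Finset.sum_eq_single t₀]
  · simp
  · intro t _ ht
    simp [ht]
  · intro h
    exact absurd (Finset.mem_univ _) h

theorem A7c_zero : A7c_Sp W G (fun _ _ _ _ _ => 0) := by
  refine ⟨fun _ => 0, fun F _ _ x y _ => ?_⟩
  simp

theorem A7c_congr {g g' : ∀ (F : Type u) [Field F] [Algebra K F], (B → F) → (B → F) → F}
    (h : A7c_Sp W G g)
    (hg : ∀ (F : Type u) [Field F] [Algebra K F] (x y : B → F), (∀ b, OnC W (x b) (y b)) →
      g' F x y = g F x y) : A7c_Sp W G g' := by
  obtain ⟨c, hc⟩ := h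
  exact ⟨c, fun F _ _ x y hxy => (hg F x y hxy).trans (hc F x y hxy)⟩

theorem A7c_add {g g' : ∀ (F : Type u) [Field F] [Algebra K F], (B → F) → (B → F) → F}
    (h : A7c_Sp W G g) (h' : A7c_Sp W G g') :
    A7c_Sp W G (fun F _ _ x y => g F x y + g' F x y) := by
  obtain ⟨c, hc⟩ := h
  obtain ⟨c', hc'⟩ := h'
  refine ⟨fun t => c t + c' t, fun F _ _ x y hxy => ?_⟩
  simp only
  rw [hc F x y hxy, hc' F x y hxy, ← Finset.sum_add_distrib]
  refine Finset.sum_congr rfl fun t _ => ?_
  rw [map_add, add_mul]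

theorem A7c_smul {g : ∀ (F : Type u) [Field F] [Algebra K F], (B → F) → (B → F) → F}
    (h : A7c_Sp W G g) (a : K) : A7c_Sp W G (fun F _ _ x y => algebraMap K F a * g F x y) := by
  obtain ⟨c, hc⟩ := h
  refine ⟨fun t => a * c t, fun F _ _ x y hxy => ?_⟩
  simp only
  rw [hc F x y hxy, Finset.mul_sum]
  refine Finset.sum_congr rfl fun t _ => ?_
  rw [map_mul, mul_assoc]

theorem A7c_sum {α : Type*} (s : Finset α)
    (g : α → ∀ (F : Type u) [Field F] [Algebra K F], (B → F) → (B → F) → F)
    (h : ∀ a ∈ s, A7c_Sp W G (g a)) : A7c_Sp W G (fun F _ _ x y => ∑ a ∈ s, g a F x y) := by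
  classical
  induction s using Finset.induction_on with
  | empty => exact A7c_congr A7c_zero fun F _ _ x y _ => Finset.sum_empty
  | insert a s ha ih =>
    exact A7c_congr (A7c_add (h a (Finset.mem_insert_self _ _))
      (ih fun b hb => h b (Finset.mem_insert_of_mem hb))) fun F _ _ x y _ => Finset.sum_insert ha

end

/-- the products of monomials -/
noncomputable def A7c_G {K : Type u} [Field K] {B : Type} [Fintype B] (w : B → ℕ)
    (I : (b : B) → Fin (w b + 1) × Fin 2) :
    ∀ (F : Type u) [Field F] [Algebra K F], (B → F) → (B → F) → F := fun _ _ _ x y =>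
  ∏ b, mv (w b) (x b) (y b) (I b)

/-- Heights of the values of functions of weight at most `w`.
Proof. By `exists_asm` replace `p k` by `asm (f k)` with `WF (f k) w`. The values are linear combinations
with coefficients in `K` of the products `∏ b, mv (w b) (x b) (y b) (a b)`,
`a b ∈ Fin (w b + 1) × Fin 2` (a monomial of `f k e` is `∏ X b ^ i_b` with `2 i_b + 3 e_b ≤ w b`), whose height is
`∑ b, h(mv (w b) ..)` (`logHeight_fun_prod_eq`); `logHeight_linear_unif`, `height_mv`. -/
theorem logHeight_WD {K : Type u} [Field K] [NumberField K] (W : WeierstrassCurve K) {B κ : Type}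
    [Fintype B] [DecidableEq B] [Finite κ] (p : κ → MvPolynomial (B × Fin 2) K) (w : B → ℕ)
    (hp : ∀ k, WD (p k) w) :
    ∃ C : ℝ, 0 ≤ C ∧ ∀ (L : Type u) [Field L] [NumberField L] [Algebra K L] (x y : B → L),
      (∀ b, OnC W (x b) (y b)) →
        logHeight (fun k => evl (pt x y) (p k)) ≤
          ∑ b, (w b : ℝ) / 2 * logHeight ![x b, 1] + C * Module.finrank ℚ L := by
  classical
  choose f hfw hf using fun k => exists_asm W (p k)
  have key : ∀ k, A7c_Sp W (A7c_G (K := K) w) (fun F _ _ x y => evl (pt x y) (p k)) := by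
    intro k
    have h1 : A7c_Sp W (A7c_G (K := K) w) (fun F _ _ x y => ∑ e : B → Fin 2,
        ∑ m ∈ (f k e).support, algebraMap K F (coeff m (f k e)) *
          ∏ b, (x b ^ m b * y b ^ (e b : ℕ))) := by
      refine A7c_sum _ _ fun e _ => A7c_sum _ _ fun m hm => A7c_smul ?_ _
      have hne : f k e ≠ 0 := by
        rintro h
        rw [h] at hm
        simp at hm
      have hb : ∀ b, 2 * m b + 3 * (e b : ℕ) ≤ w b := by
        intro b
        have h2 := hfw k w (hp k) e hne b
        have h3 : m b ≤ (f k e).degreeOf b := monomial_le_degreeOf b hm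
        omega
      refine A7c_congr (A7c_mem (W := W) (G := A7c_G (K := K) w)
        (fun b => (⟨m b, by have := hb b; omega⟩, e b))) fun F _ _ x y _ => ?_
      simp only [A7c_G, mv]
      refine Finset.prod_congr rfl fun b _ => ?_
      rw [if_pos (hb b)]
    refine A7c_congr h1 fun F _ _ x y hxy => ?_
    rw [hf k F x y hxy, evl_asm]
    refine Finset.sum_congr rfl fun e _ => ?_
    rw [aeval_def, eval₂_eq', Finset.sum_mul]
    refine Finset.sum_congr rfl fun m _ => ?_
    rw [Finset.prod_mul_distrib, mul_assoc]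
  choose c hc using key
  obtain ⟨C, hC0, hC⟩ := logHeight_linear_unif
    (fun q : κ × ((b : B) → Fin (w b + 1) × Fin 2) => c q.1 q.2)
  choose D hD0 hD using fun b => height_mv W (w b)
  refine ⟨∑ b, D b + C, add_nonneg (Finset.sum_nonneg fun b _ => hD0 b) hC0,
    fun L _ _ _ x y hxy => ?_⟩
  have h1 := hC L (fun I => ∏ b, mv (w b) (x b) (y b) (I b))
  have h2 : (fun k => evl (pt x y) (p k)) = fun k => ∑ I : (b : B) → Fin (w b + 1) × Fin 2,
      algebraMap K L (c k I) * ∏ b, mv (w b) (x b) (y b) (I b) := by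
    funext k
    exact hc k L x y hxy
  rw [h2]
  have h3 : logHeight (fun I : (b : B) → Fin (w b + 1) × Fin 2 => ∏ b, mv (w b) (x b) (y b) (I b)) =
      ∑ b, logHeight (mv (w b) (x b) (y b)) :=
    logHeight_fun_prod_eq (fun b => A7b_mv_ne (w b) (x b) (y b))
  rw [h3] at h1
  refine h1.trans ?_
  have h4 : ∑ b, logHeight (mv (w b) (x b) (y b)) ≤
      ∑ b, ((w b : ℝ) / 2 * logHeight ![x b, 1] + D b * Module.finrank ℚ L) :=
    Finset.sum_le_sum fun b _ => hD b L (x b) (y b) (hxy b)
  rw [Finset.sum_add_distrib, ← Finset.sum_mul] at h4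
  linarith

end Pool.Agent.Lib.MP_17a322_nt.PB
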