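import Pool.Agent.Lib.MP_17a322_nt.PB.A5
import Pool.Agent.Lib.MP_17a322_nt.PB.A6

/-!
The auxiliary linear form for a rank one matrix of functions.
-/

namespace Pool.Agent.Lib.MP_17a322_nt.PB

open MvPolynomial
open Pool.Agent.Lib.MP_17a322_nt.RO

universe u

/-- The auxiliary linear form for a matrix `Q j k` of functions of rank one.
Proof. `hg.norm` for `Q j₀ j₀` gives `N₀ ≠ 0` and `p'` with `Q j₀ j₀ * p' = N₀`; `exists_not_dvd` gives `c` with
`X q - c` not dividing `N₀`. `hg.siegel` with `v i = Q i j₀` gives `u` and `s i`. Write at the generic point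
`D i = u i * Q j₀ j₀ - u j₀ * Q i j₀ = (ξ q - c)^T s i`. Then
`Q j₀ j₀ * (u i * Q j k - u j * Q i k) = Q j₀ k * (u i * Q j j₀ - u j * Q i j₀)` by `hrank`
(`Q j₀ j₀ * Q j k = Q j j₀ * Q j₀ k`), and `Q j₀ j₀ * (u i * Q j j₀ - u j * Q i j₀) = Q j j₀ * D i - Q i j₀ * D j`.
So `(Q j₀ j₀)^2 * (u i * Q j k - u j * Q i k) = (ξ q - c)^T * h` for a polynomial `h`; multiply by
`(p')^2`: `N₀^2 * (u i * Q j k - u j * Q i k) = (ξ q - c)^T * (p'^2 h)`. `X q - c` does not divide `N₀^2`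
(`prime_sub`). Apply `hg.div` to `u i * Q j k - u j * Q i k`, of weight `w + ω` (`WD.mul`, `WD.sub`). -/
theorem Gen.aux {K 𝔽 : Type u} [Field K] [Infinite K] [Field 𝔽] [Algebra K 𝔽]
    {W : WeierstrassCurve K} {B : Type} [Fintype B] [DecidableEq B] {ξ η : B → 𝔽}
    (hg : Gen W ξ η) {ι : Type} [Fintype ι] [DecidableEq ι] (j₀ : ι) (q : B) (T : ℕ) (w ω : B → ℕ)
    (Q : ι → ι → MvPolynomial (B × Fin 2) K) (hQ : ∀ j k, WD (Q j k) ω)
    (hQ0 : evl (pt ξ η) (Q j₀ j₀) ≠ 0)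
    (hrank : ∀ j k, evl (pt ξ η) (Q j₀ j₀) * evl (pt ξ η) (Q j k) =
      evl (pt ξ η) (Q j j₀) * evl (pt ξ η) (Q j₀ k)) (hT : 2 * T < w q + ω q)
    (hcard : (Fintype.card ι - 1) * (2 * T * ∏ b ∈ Finset.univ.erase q, max (w b + ω b) 1) <
      Fintype.card ι * ∏ b, max (w b) 1) :
    ∃ (c : K) (u : ι → MvPolynomial (B × Fin 2) K)
      (s : ι → ι → ι → MvPolynomial (B × Fin 2) K), (∀ i, WD (u i) w) ∧
      (∃ i, evl (pt ξ η) (u i) ≠ 0) ∧
      (∀ i j k, WD (s i j k) (Function.update (w + ω) q (w q + ω q - 2 * T))) ∧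
      ∀ (F : Type u) [Field F] [Algebra K F] (x y : B → F), (∀ b, OnC W (x b) (y b)) →
        ∀ i j k, evl (pt x y) (u i) * evl (pt x y) (Q j k) - evl (pt x y) (u j) *
          evl (pt x y) (Q i k) = (x q - algebraMap K F c) ^ T * evl (pt x y) (s i j k) := by
  obtain ⟨p', N₀, hN0, hN⟩ := hg.norm (Q j₀ j₀) hQ0
  obtain ⟨c, hc⟩ := exists_not_dvd q N₀ hN0
  have hc2 : ¬ (X q - C c : MvPolynomial B K) ∣ N₀ ^ 2 := fun h =>
    hc ((prime_sub q c).dvd_of_dvd_pow h)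
  obtain ⟨u, hu, hne, hs⟩ := hg.siegel j₀ q c T w ω (fun i => Q i j₀) (fun i => hQ i j₀) hT hcard
  choose s₀ hs₀ using hs
  have hmul : ∀ {F : Type u} [Field F] [Algebra K F] (x y : B → F)
      (a b a' b' : MvPolynomial (B × Fin 2) K),
      evl (pt x y) (a * b - a' * b') = evl (pt x y) a * evl (pt x y) b -
        evl (pt x y) a' * evl (pt x y) b' := by
    intro F _ _ x y a b a' b'
    unfold evl
    rw [map_sub, map_mul, map_mul]
  have hgen := hN 𝔽 ξ η hg.on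
  have key : ∀ i j k, ∃ s : MvPolynomial (B × Fin 2) K,
      WD s (Function.update (w + ω) q (w q + ω q - 2 * T)) ∧
      ∀ (F : Type u) [Field F] [Algebra K F] (x y : B → F), (∀ b, OnC W (x b) (y b)) →
        evl (pt x y) (u i) * evl (pt x y) (Q j k) - evl (pt x y) (u j) *
          evl (pt x y) (Q i k) = (x q - algebraMap K F c) ^ T * evl (pt x y) s := by
    intro i j k
    have hph : aeval ξ (N₀ ^ 2) * evl (pt ξ η) (u i * Q j k - u j * Q i k) =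
        (ξ q - algebraMap K 𝔽 c) ^ T *
          evl (pt ξ η) (p' ^ 2 * (Q j₀ k * (Q j j₀ * s₀ i - Q i j₀ * s₀ j))) := by
      have e1 : evl (pt ξ η) (p' ^ 2 * (Q j₀ k * (Q j j₀ * s₀ i - Q i j₀ * s₀ j))) =
          evl (pt ξ η) p' ^ 2 * (evl (pt ξ η) (Q j₀ k) * (evl (pt ξ η) (Q j j₀) *
            evl (pt ξ η) (s₀ i) - evl (pt ξ η) (Q i j₀) * evl (pt ξ η) (s₀ j))) := by
        unfold evl
        simp only [map_mul, map_sub, map_pow]
      rw [e1, map_pow, ← hgen, hmul]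
      have a1 := hs₀ i
      have a2 := hs₀ j
      have a3 := hrank j k
      have a4 := hrank i k
      linear_combination (evl (pt ξ η) p') ^ 2 * (evl (pt ξ η) (Q j₀ k) *
        (evl (pt ξ η) (Q j j₀) * a1 - evl (pt ξ η) (Q i j₀) * a2) +
        evl (pt ξ η) (Q j₀ j₀) * (evl (pt ξ η) (u i) * a3 - evl (pt ξ η) (u j) * a4))
    obtain ⟨s, h1, h2⟩ := hg.div q c T (N₀ ^ 2) hc2 _ _ hph
    refine ⟨s, ?_, fun F _ _ x y hxy => ?_⟩
    · exact h1 (w + ω) (WD.sub (WD.mul (hu i) (hQ j k)) (WD.mul (hu j) (hQ i k)))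
    · rw [← hmul]
      exact h2 F x y hxy
  choose s hs1 hs2 using key
  exact ⟨c, u, s, hu, hne, hs1, fun F _ _ x y hxy i j k => hs2 i j k F x y hxy⟩

end Pool.Agent.Lib.MP_17a322_nt.PB
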