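import Pool.Agent.Lib.MP_17a322_nt.Mb

/-!
The polynomial with zeros at the points of order two.
-/

namespace Pool.Agent.Lib.MP_17a322_nt.PB

open MvPolynomial WeierstrassCurve

universe u

/-- `Ψ = 4 X^3 + b₂ X^2 + 2 b₄ X + b₆` (the square of `2 y + a₁ x + a₃` on the curve). -/
noncomputable def psi {K : Type*} [Field K] (W : WeierstrassCurve K) : Polynomial K :=
  Polynomial.C 4 * Polynomial.X ^ 3 + Polynomial.C W.b₂ * Polynomial.X ^ 2 +
    Polynomial.C (2 * W.b₄) * Polynomial.X + Polynomial.C W.b₆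

/-- Proof. Expand `b₂ = a₁^2 + 4 a₂`, `b₄ = 2 a₄ + a₁ a₃`, `b₆ = a₃^2 + 4 a₆` and use the equation of the
curve (`linear_combination 4 * h`). -/
theorem psi_eval {K F : Type*} [Field K] [Field F] [Algebra K F] (W : WeierstrassCurve K)
    (V : WeierstrassCurve F) (hV : W.map (algebraMap K F) = V) (x y : F)
    (h : V.toAffine.Equation x y) :
    (2 * y + V.a₁ * x + V.a₃) ^ 2 = Polynomial.aeval x (psi W) := by
  subst hV
  rw [Affine.equation_iff] at h
  simp only [psi, WeierstrassCurve.b₂, WeierstrassCurve.b₄, WeierstrassCurve.b₆, map_add, map_mul, map_pow,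
    Polynomial.aeval_C, Polynomial.aeval_X, map_ofNat, WeierstrassCurve.map_a₁, WeierstrassCurve.map_a₂,
    WeierstrassCurve.map_a₃, WeierstrassCurve.map_a₄, WeierstrassCurve.map_a₆] at h ⊢
  linear_combination 4 * h

/-- `Ψ` is separable.
Proof. Find `A`, `B` in `K[X]` with `A Ψ + B Ψ' = c Δ` with `c` a nonzero integer (the resultant of the
cubic and its derivative; `A` linear, `B` quadratic with coefficients polynomials in the `b i`; use
`W.b_relation : 4 b₈ = b₂ b₆ - b₄^2` and the definition of `Δ`), and `W.isUnit_Δ`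
(`WeierstrassCurve.isUnit_Δ`). Or use `Cubic`: `WeierstrassCurve.twoTorsionPolynomial` and its
discriminant `16 Δ` (`twoTorsionPolynomial_discr`), `Cubic.discr_ne_zero_iff_roots_nodup` over the
algebraic closure. -/
theorem psi_squarefree {K : Type*} [Field K] [CharZero K] (W : WeierstrassCurve K) [W.IsElliptic] :
    Squarefree (psi W) := by
  apply Polynomial.Separable.squarefree
  -- the resultant
  set e : K := -144 * (4 * W.Δ) with he
  have he0 : e ≠ 0 := by
    rw [he]
    exact mul_ne_zero (by norm_num) (mul_ne_zero (by norm_num) W.isUnit_Δ.ne_zero)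
  have he' : e = -144 * (-W.b₂ ^ 2 * (W.b₂ * W.b₆ - W.b₄ ^ 2) - 32 * W.b₄ ^ 3 - 108 * W.b₆ ^ 2 +
      36 * W.b₂ * W.b₄ * W.b₆) := by
    rw [he, WeierstrassCurve.Δ, ← W.b_relation]
    ring
  have hd : Polynomial.derivative (psi W) = 12 * Polynomial.X ^ 2 +
      2 * Polynomial.C W.b₂ * Polynomial.X + 2 * Polynomial.C W.b₄ := by
    simp only [psi, Polynomial.derivative_add, Polynomial.derivative_mul, Polynomial.derivative_C,
      Polynomial.derivative_X_pow, Polynomial.derivative_X, zero_mul, zero_add, mul_one, add_zero,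
      Polynomial.C_mul, Polynomial.C_ofNat, Polynomial.derivative_ofNat]
    push_cast
    simp only [Polynomial.C_ofNat]
    ring
  set b2 : Polynomial K := Polynomial.C W.b₂ with hb2
  set b4 : Polynomial K := Polynomial.C W.b₄ with hb4
  set b6 : Polynomial K := Polynomial.C W.b₆ with hb6
  set p : Polynomial K := 48 * b4 - 2 * b2 ^ 2 with hp
  set q : Polynomial K := 36 * b6 - 2 * b2 * b4 with hq
  set L : Polynomial K := 12 * p * Polynomial.X + 2 * b2 * p - 12 * q with hL
  have hψ : psi W = 4 * Polynomial.X ^ 3 + b2 * Polynomial.X ^ 2 + 2 * b4 * Polynomial.X + b6 := by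
    simp only [psi, Polynomial.C_mul, Polynomial.C_ofNat, hb2, hb4, hb6]
  have hCe : Polynomial.C e = -144 * (-b2 ^ 2 * (b2 * b6 - b4 ^ 2) - 32 * b4 ^ 3 - 108 * b6 ^ 2 +
      36 * b2 * b4 * b6) := by
    rw [he']
    simp only [Polynomial.C_mul, Polynomial.C_add, Polynomial.C_sub, Polynomial.C_neg, Polynomial.C_pow,
      Polynomial.C_ofNat, hb2, hb4, hb6]
  have hmain : (-36 * L) * psi W + (p ^ 2 + L * (12 * Polynomial.X + b2)) * Polynomial.derivative (psi W) =
      Polynomial.C e := by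
    rw [hd, hψ, hCe, hL, hp, hq]
    ring
  refine ⟨Polynomial.C e⁻¹ * (-36 * L), Polynomial.C e⁻¹ * (p ^ 2 + L * (12 * Polynomial.X + b2)), ?_⟩
  have h1 : Polynomial.C e⁻¹ * Polynomial.C e = 1 := by
    rw [← Polynomial.C_mul, inv_mul_cancel₀ he0, Polynomial.C_1]
  linear_combination Polynomial.C e⁻¹ * hmain + h1

end Pool.Agent.Lib.MP_17a322_nt.PB
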