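import Mathlib

/-!
Differences of x-coordinates, square roots of polynomials.
-/

namespace Pool.Agent.Lib.MP_17a322_nt.PB

open MvPolynomial WeierstrassCurve

universe u

/-- `x(A + B) - x(A - B)` for affine points with different x-coordinates.
Proof. `Affine.Point.add_some`/`add_of_X_ne`, `slope_of_X_ne`, `addX`, `negY`, then `field_simp` and
`ring` (the two curve equations are not needed: `λ₁^2 - λ₂^2 + a₁ (λ₁ - λ₂)` with
`λ₁ = (y₁ - y₂) / (x₁ - x₂)`, `λ₂ = (y₁ - negY x₂ y₂) / (x₁ - x₂)`). -/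
theorem x_add_sub {F : Type*} [Field F] [DecidableEq F] (V : WeierstrassCurve F)
    (x₁ y₁ x₂ y₂ : F) (h₁ : V.toAffine.Nonsingular x₁ y₁) (h₂ : V.toAffine.Nonsingular x₂ y₂)
    (hx : x₁ ≠ x₂) :
    ∃ (x₃ y₃ x₄ y₄ : F) (h₃ : V.toAffine.Nonsingular x₃ y₃) (h₄ : V.toAffine.Nonsingular x₄ y₄),
      (Affine.Point.some x₁ y₁ h₁ : V.toAffine.Point) + Affine.Point.some x₂ y₂ h₂ =
        Affine.Point.some x₃ y₃ h₃ ∧
      (Affine.Point.some x₁ y₁ h₁ : V.toAffine.Point) - Affine.Point.some x₂ y₂ h₂ =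
        Affine.Point.some x₄ y₄ h₄ ∧
      (x₁ - x₂) ^ 2 * (x₃ - x₄) =
        -((2 * y₁ + V.a₁ * x₁ + V.a₃) * (2 * y₂ + V.a₁ * x₂ + V.a₃)) := by
  have hx' : x₁ - x₂ ≠ 0 := sub_ne_zero.2 hx
  have hneg : (-Affine.Point.some x₂ y₂ h₂ : V.toAffine.Point) =
      Affine.Point.some x₂ (V.toAffine.negY x₂ y₂) ((Affine.nonsingular_neg ..).mpr h₂) := Affine.Point.neg_some h₂
  have hadd := Affine.Point.add_of_X_ne (W := V.toAffine) (h₁ := h₁) (h₂ := h₂) hx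
  have hsub := Affine.Point.add_of_X_ne (W := V.toAffine) (h₁ := h₁)
    (h₂ := (Affine.nonsingular_neg ..).mpr h₂) hx
  rw [← hneg, ← sub_eq_add_neg] at hsub
  refine ⟨_, _, _, _, _, _, hadd, hsub, ?_⟩
  simp only [Affine.addX, Affine.slope_of_X_ne hx, Affine.negY]
  field_simp
  ring

/-- A rational function whose square times a squarefree polynomial... Precisely: if
`M ^ 2 = E * Ψ * H ^ 2` in `K[X]` with `H ≠ 0` and `Ψ` squarefree then `M = Ψ * lam * H`,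
`E = Ψ * lam ^ 2` for some `lam`.
Proof. `H ^ 2 ∣ M ^ 2` gives `H ∣ M` (`pow_dvd_pow_iff` in a UFD / `IsIntegrallyClosed`,
`Polynomial.. pow_dvd_pow_iff`), `M = H μ`, `μ ^ 2 = E Ψ`, `Ψ ∣ μ ^ 2` so `Ψ ∣ μ`
(`Squarefree.dvd_pow_iff_dvd` / `UniqueFactorizationMonoid.dvd_pow_iff_dvd_of_squarefree`), `μ = Ψ lam`,
`Ψ^2 lam^2 = E Ψ`, cancel `Ψ ≠ 0` (squarefree). -/
theorem exists_lam {K : Type*} [Field K] (M E Ψ H : Polynomial K) (hH : H ≠ 0)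
    (hΨ : Squarefree Ψ) (h : M ^ 2 = E * Ψ * H ^ 2) :
    ∃ lam : Polynomial K, M = Ψ * lam * H ∧ E = Ψ * lam ^ 2 := by
  have h1 : H ∣ M := by
    have h2 : H ^ 2 ∣ M ^ 2 := ⟨E * Ψ, by rw [h]; ring⟩
    exact (UniqueFactorizationMonoid.pow_dvd_pow_iff_dvd two_ne_zero).1 h2
  obtain ⟨μ, rfl⟩ := h1
  have hμ : μ ^ 2 = E * Ψ := by
    have h3 : H ^ 2 * μ ^ 2 = H ^ 2 * (E * Ψ) := by rw [← mul_pow, h]; ring
    exact mul_left_cancel₀ (pow_ne_zero 2 hH) h3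
  have h4 : Ψ ∣ μ := (hΨ.dvd_pow_iff_dvd two_ne_zero).1 ⟨E, by rw [hμ]; ring⟩
  obtain ⟨lam, rfl⟩ := h4
  refine ⟨lam, by ring, ?_⟩
  have h5 : Ψ * E = Ψ * (Ψ * lam ^ 2) := by
    calc Ψ * E = E * Ψ := by ring
      _ = (Ψ * lam) ^ 2 := hμ.symm
      _ = Ψ * (Ψ * lam ^ 2) := by ring
  exact mul_left_cancel₀ hΨ.ne_zero h5

end Pool.Agent.Lib.MP_17a322_nt.PB
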