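import Pool.Agent.Lib.MP_17a322_nt.RV.U6

/-!
The x-coordinate of a multiple of a point by polynomials in one variable.
-/

namespace Pool.Agent.Lib.MP_17a322_nt.PB

open MvPolynomial WeierstrassCurve
open Pool.Agent.Lib.MP_17a322_nt.RO Pool.Agent.Lib.MP_17a322_nt.RV

universe u

/-- the one variable polynomial of a binary form -/
private theorem B2_deg {K : Type*} [Field K] (φ : MvPolynomial (Fin 2) K) (N : ℕ)
    (hφ : φ.IsHomogeneous N) :
    (aeval (![Polynomial.X, 1] : Fin 2 → Polynomial K) φ).natDegree ≤ N := by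
  have h := aeval_natDegree_le φ hφ.totalDegree_le (![Polynomial.X, 1] : Fin 2 → Polynomial K)
    (n := 1) (fun i => by fin_cases i <;> simp)
  simpa using h

private theorem B2_val {K F : Type*} [Field K] [Field F] [Algebra K F]
    (φ : MvPolynomial (Fin 2) K) (x : F) :
    Polynomial.aeval x (aeval (![Polynomial.X, 1] : Fin 2 → Polynomial K) φ) =
      aeval (![x, 1] : Fin 2 → F) φ := by
  have h : (Polynomial.aeval x).comp (aeval (![Polynomial.X, 1] : Fin 2 → Polynomial K)) =
      (aeval (![x, 1] : Fin 2 → F) : MvPolynomial (Fin 2) K →ₐ[K] F) := by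
    apply MvPolynomial.algHom_ext
    intro i
    fin_cases i <;> simp
  rw [← h]
  rfl

/-- The x-coordinate of `k P` by one variable polynomials.
Proof. `exists_mulForm` (RO/B2) gives binary forms `a`, `b` of degree `k ^ 2`; let `α`, `β` be their
values at `(X, 1)` (`MvPolynomial.aeval ![Polynomial.X, 1]`), of degree at most `k ^ 2` (`a`, `b` are
homogeneous of degree `k^2`: every monomial becomes `c X^i` with `i ≤ k^2`). For `P = (x, y)`,
`P.xRep = ![x, 1]`, so `(α(x), β(x)) = c • (k P).xRep` with `c ≠ 0`. If `k P = 0` then `β(x) = 0`; if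
`k P = (x', y')` then `β(x) = c ≠ 0` and `α(x) = c x'`. `β ≠ 0`: let `F = AlgebraicClosure K`; there is an affine
point `P'` over `F` (`exists_point`, RO/B1, for the vector `![0, 1]`), `P' = k • Q` by
`exists_division_point` (RV/U6), `Q ≠ 0` as `P' ≠ 0`, `Q = (x, y)`, and `β(x) ≠ 0`. -/
theorem exists_x {K : Type u} [Field K] [CharZero K] (W : WeierstrassCurve K) [W.IsElliptic]
    (k : ℕ) (hk : 1 ≤ k) :
    ∃ α β : Polynomial K, α.natDegree ≤ k ^ 2 ∧ β.natDegree ≤ k ^ 2 ∧ β ≠ 0 ∧
      ∀ (F : Type u) [Field F] [DecidableEq F] [Algebra K F] (V : WeierstrassCurve F),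
        W.map (algebraMap K F) = V → ∀ (x y : F) (h : V.toAffine.Nonsingular x y),
          (k • (Affine.Point.some x y h : V.toAffine.Point) = 0 ∧ Polynomial.aeval x β = 0) ∨
          ∃ (x' y' : F) (h' : V.toAffine.Nonsingular x' y'),
            k • (Affine.Point.some x y h : V.toAffine.Point) = Affine.Point.some x' y' h' ∧
              Polynomial.aeval x β ≠ 0 ∧
              Polynomial.aeval x α = x' * Polynomial.aeval x β := by
  obtain ⟨a, b, ha, hb, hab⟩ := exists_mulForm W k
  have key : ∀ (F : Type u) [Field F] [DecidableEq F] [Algebra K F] (V : WeierstrassCurve F),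
        W.map (algebraMap K F) = V → ∀ (x y : F) (h : V.toAffine.Nonsingular x y),
          (k • (Affine.Point.some x y h : V.toAffine.Point) = 0 ∧
            Polynomial.aeval x (aeval (![Polynomial.X, 1] : Fin 2 → Polynomial K) b) = 0) ∨
          ∃ (x' y' : F) (h' : V.toAffine.Nonsingular x' y'),
            k • (Affine.Point.some x y h : V.toAffine.Point) = Affine.Point.some x' y' h' ∧
              Polynomial.aeval x (aeval (![Polynomial.X, 1] : Fin 2 → Polynomial K) b) ≠ 0 ∧
              Polynomial.aeval x (aeval (![Polynomial.X, 1] : Fin 2 → Polynomial K) a) =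
                x' * Polynomial.aeval x
                  (aeval (![Polynomial.X, 1] : Fin 2 → Polynomial K) b) := by
    intro F _ _ _ V hV x y h
    obtain ⟨c, hc, h1, h2⟩ := hab F V hV (Affine.Point.some x y h)
    rw [Affine.Point.xRep_some] at h1 h2
    rw [B2_val, B2_val]
    rcases hP : k • (Affine.Point.some x y h : V.toAffine.Point) with _ | ⟨x', y', h'⟩
    · left
      refine ⟨rfl, ?_⟩
      rw [h2, hP, ← Affine.Point.zero_def, Affine.Point.xRep_zero]
      simp
    · right
      rw [hP, Affine.Point.xRep_some] at h1 h2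
      simp only [Matrix.cons_val_zero, Matrix.cons_val_one, mul_one] at h1 h2
      refine ⟨x', y', h', rfl, ?_, ?_⟩
      · rw [h2]; exact hc
      · rw [h1, h2, mul_comm]
  refine ⟨aeval (![Polynomial.X, 1] : Fin 2 → Polynomial K) a,
    aeval (![Polynomial.X, 1] : Fin 2 → Polynomial K) b, B2_deg a _ ha, B2_deg b _ hb, ?_, key⟩
  classical
  intro hb0
  obtain ⟨P, c, hc, hP⟩ := exists_point (W.map (algebraMap K (AlgebraicClosure K)))
    (![0, 1] : Fin 2 → AlgebraicClosure K) (by
      intro h0
      have := congrFun h0 1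
      simp at this)
  obtain ⟨Q, hQ⟩ := exists_division_point W (AlgebraicClosure K) k hk P
  have hP0 : P ≠ 0 := by
    rintro rfl
    have := congrFun hP 1
    simp at this
  rcases Q with _ | ⟨x, y, h⟩
  · apply hP0
    rw [← hQ]
    exact smul_zero k
  · rcases key (AlgebraicClosure K) _ rfl x y h with ⟨h1, -⟩ | ⟨x', y', h', -, h2, -⟩
    · exact hP0 (hQ.symm.trans h1)
    · apply h2
      rw [hb0, map_zero]

end Pool.Agent.Lib.MP_17a322_nt.PB
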