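import Pool.Agent.Lib.MP_17a322_nt.PB.B1a
import Pool.Agent.Lib.MP_17a322_nt.PB.B1b
import Pool.Agent.Lib.MP_17a322_nt.PB.B2

/-!
Both coordinates of a multiple of a point.
-/

namespace Pool.Agent.Lib.MP_17a322_nt.PB

open MvPolynomial WeierstrassCurve
open Pool.Agent.Lib.MP_17a322_nt.RO Pool.Agent.Lib.MP_17a322_nt.RV

universe u

/-- A point with given first coordinate. -/
theorem B3_point {F : Type*} [Field F] [IsAlgClosed F] (V : WeierstrassCurve F)
    [V.IsElliptic] (w : F) : ∃ (y : F), V.toAffine.Nonsingular w y := by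
  have hu : (![w, 1] : Fin 2 → F) ≠ 0 := fun h => one_ne_zero (congrFun h 1)
  obtain ⟨Q, c, hc, hQ⟩ := exists_point V ![w, 1] hu
  cases Q with
  | zero =>
    have h1 : (Affine.Point.zero : V.toAffine.Point).xRep = ![1, 0] := Affine.Point.xRep_zero
    rw [h1] at hQ
    have h2 := congrFun hQ 1
    simp at h2
  | some x y h =>
    rw [Affine.Point.xRep_some] at hQ
    have h2 := congrFun hQ 1
    have h3 := congrFun hQ 0
    simp at h2 h3
    rw [← h2, one_mul] at h3
    exact ⟨y, h3 ▸ h⟩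

/-- Points with equal x-coordinates. -/
theorem B3_prop {F : Type*} [Field F] [DecidableEq F] {V : WeierstrassCurve F} (x y y' : F)
    (h : V.toAffine.Nonsingular x y) (h' : V.toAffine.Nonsingular x y') :
    (Affine.Point.some x y' h' : V.toAffine.Point) = Affine.Point.some x y h ∨
      (Affine.Point.some x y' h' : V.toAffine.Point) = -Affine.Point.some x y h := by
  apply U6_prop
  rw [Affine.Point.xRep_some, Affine.Point.xRep_some]
  simp

theorem B3_deg {K : Type*} [Field K] {α β : Polynomial K} {n : ℕ} (hα : α.natDegree ≤ n)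
    (hβ : β.natDegree ≤ n) (c : K) (i j : ℕ) (hij : i + j = 4) :
    (Polynomial.C c * (α ^ i * β ^ j)).natDegree ≤ 4 * n := by
  refine (Polynomial.natDegree_C_mul_le _ _).trans ?_
  refine Polynomial.natDegree_mul_le.trans ?_
  have h1 : (α ^ i).natDegree ≤ i * n :=
    Polynomial.natDegree_pow_le.trans (Nat.mul_le_mul_left _ hα)
  have h2 : (β ^ j).natDegree ≤ j * n :=
    Polynomial.natDegree_pow_le.trans (Nat.mul_le_mul_left _ hβ)
  calc (α ^ i).natDegree + (β ^ j).natDegree ≤ i * n + j * n := add_le_add h1 h2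
    _ = 4 * n := by rw [← add_mul, hij]

/-- Polynomial identities can be checked at the x-coordinates of the points over the algebraic closure
where a given nonzero polynomial does not vanish.
Proof. Let `F = AlgebraicClosure K`. For every `x : F` there is an affine point `(x, y)`
(`exists_point`, RO/B1, for the vector `![x, 1]`; compare RV/T1 `T1_point`). So `P - Q`, mapped to `F`, vanishes
at all but finitely many `x`, hence is `0`; `Polynomial.map_injective`. -/
theorem poly_eq_of_points {K : Type u} [Field K] [CharZero K] (W : WeierstrassCurve K)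
    [W.IsElliptic] (P Q ν : Polynomial K) (hν : ν ≠ 0)
    (h : ∀ (F : Type u) [Field F] [DecidableEq F] [Algebra K F] (V : WeierstrassCurve F),
        W.map (algebraMap K F) = V → ∀ (x y : F), V.toAffine.Nonsingular x y →
          Polynomial.aeval x ν ≠ 0 → Polynomial.aeval x P = Polynomial.aeval x Q) : P = Q := by
  classical
  have hinf : Infinite (AlgebraicClosure K) := IsAlgClosed.instInfinite
  have hinj : Function.Injective (Polynomial.map (algebraMap K (AlgebraicClosure K))) :=
    Polynomial.map_injective _ (algebraMap K (AlgebraicClosure K)).injective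
  have h0 : ((P - Q) * ν).map (algebraMap K (AlgebraicClosure K)) = 0 := by
    refine Polynomial.funext fun x => ?_
    rw [Polynomial.eval_map_algebraMap, map_mul, map_sub, Polynomial.eval_zero]
    by_cases hx : Polynomial.aeval x ν = 0
    · rw [hx, mul_zero]
    · obtain ⟨y, hy⟩ := B3_point (W.map (algebraMap K (AlgebraicClosure K))) x
      rw [h (AlgebraicClosure K) _ rfl x y hy hx, sub_self, zero_mul]
  have h1 : (P - Q) * ν = 0 := by
    apply hinj
    rw [h0, Polynomial.map_zero]
  rcases mul_eq_zero.1 h1 with h2 | h2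
  · exact sub_eq_zero.1 h2
  · exact absurd h2 hν

/-- The coordinates `(x', y')` of `k P`: `x' = α(x) / β(x)`,
`2 y' + a₁ x' + a₃ = lam(x) / β(x)^2 * (2 y + a₁ x + a₃)`, with `deg lam ≤ 2 k^2 - 2`.
Proof. `k = 1`: `α = X`, `β = 1`, `lam = 1`, `ν = 1`. `k ≥ 2`: take `α, β` for `k`, `α₊, β₊` for `k + 1`,
`α₋, β₋` for `k - 1` from `exists_x`; `ν = β * β₊ * β₋ * psi W`, nonzero (`psi_squarefree.ne_zero`).
At a point `P = (x, y)` with `ν(x) ≠ 0` let `(x_k, y_k) = k P`; `x_k ≠ x`, since otherwise `k P = P` or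
`k P = -P` (`Affine.Point` with equal x: `U6_prop` in RV/U6) and `(k - 1) P = 0` or `(k + 1) P = 0`. By
`x_add_sub` for `(x_k, y_k)` and `(x, y)`: with `D_k = 2 y_k + a₁ x_k + a₃`, `D = 2 y + a₁ x + a₃`,
`(x_k - x)^2 (α₊/β₊ - α₋/β₋) = - D_k D`, i.e. `M(x) = β(x)^2 D_k D β₊(x) β₋(x)` for
`M = -(α - X β)^2 (α₊ β₋ - α₋ β₊)`. By `psi_eval` for both points
`(β(x)^2 D_k)^2 = E(x)` for `E = β (4 α^3 + b₂ α^2 β + 2 b₄ α β^2 + b₆ β^3)` and `D^2 = Ψ(x)`. So
`M^2 = E Ψ (β₊ β₋)^2` by `poly_eq_of_points`, and `exists_lam` gives `lam` with `M = Ψ lam β₊ β₋`,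
`E = Ψ lam^2`. Hence `β(x)^2 D_k D = D^2 lam(x)`, and `D ≠ 0` as `Ψ(x) ≠ 0`. Degree:
`2 deg lam + 3 = deg E ≤ 4 k^2` if `lam ≠ 0`. -/
theorem exists_coord {K : Type u} [Field K] [CharZero K] (W : WeierstrassCurve K) [W.IsElliptic]
    (k : ℕ) (hk : 1 ≤ k) :
    ∃ α β lam ν : Polynomial K, α.natDegree ≤ k ^ 2 ∧ β.natDegree ≤ k ^ 2 ∧
      lam.natDegree ≤ 2 * k ^ 2 - 2 ∧ β ≠ 0 ∧ ν ≠ 0 ∧
      ∀ (F : Type u) [Field F] [DecidableEq F] [Algebra K F] (V : WeierstrassCurve F),
        W.map (algebraMap K F) = V → ∀ (x y : F) (h : V.toAffine.Nonsingular x y),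
          Polynomial.aeval x ν ≠ 0 →
          ∃ (x' y' : F) (h' : V.toAffine.Nonsingular x' y'),
            k • (Affine.Point.some x y h : V.toAffine.Point) = Affine.Point.some x' y' h' ∧
              Polynomial.aeval x β ≠ 0 ∧
              Polynomial.aeval x α = x' * Polynomial.aeval x β ∧
              Polynomial.aeval x β ^ 2 * (2 * y' + V.a₁ * x' + V.a₃) =
                Polynomial.aeval x lam * (2 * y + V.a₁ * x + V.a₃) := by
  classical
  rcases Nat.lt_or_ge k 2 with hk2 | hk2
  · -- `k = 1`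
    have hk1 : k = 1 := by omega
    subst hk1
    refine ⟨Polynomial.X, 1, 1, 1, by simp, by simp, by simp, one_ne_zero, one_ne_zero, ?_⟩
    intro F _ _ _ V hV x y h _
    refine ⟨x, y, h, one_nsmul _, by simp, by simp, by simp⟩
  obtain ⟨α, β, hα, hβ, hβ0, H⟩ := exists_x W k hk
  obtain ⟨αp, βp, hαp, hβp, hβp0, Hp⟩ := exists_x W (k + 1) (by omega)
  obtain ⟨αm, βm, hαm, hβm, hβm0, Hm⟩ := exists_x W (k - 1) (by omega)
  have hΨ := psi_squarefree W
  have hΨ0 : psi W ≠ 0 := hΨ.ne_zero
  set E : Polynomial K := Polynomial.C 4 * (α ^ 3 * β ^ 1) + Polynomial.C W.b₂ * (α ^ 2 * β ^ 2) +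
    Polynomial.C (2 * W.b₄) * (α ^ 1 * β ^ 3) + Polynomial.C W.b₆ * (α ^ 0 * β ^ 4) with hE
  set M : Polynomial K := -(α - Polynomial.X * β) ^ 2 * (αp * βm - αm * βp) with hM
  set ν : Polynomial K := β * (βp * βm) * psi W with hν
  have hν0 : ν ≠ 0 := mul_ne_zero (mul_ne_zero hβ0 (mul_ne_zero hβp0 hβm0)) hΨ0
  -- the identities at a point
  have key : ∀ (F : Type u) [Field F] [DecidableEq F] [Algebra K F] (V : WeierstrassCurve F),
      W.map (algebraMap K F) = V → ∀ (x y : F) (h : V.toAffine.Nonsingular x y),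
        Polynomial.aeval x ν ≠ 0 →
        ∃ (x' y' : F) (h' : V.toAffine.Nonsingular x' y'),
          k • (Affine.Point.some x y h : V.toAffine.Point) = Affine.Point.some x' y' h' ∧
            Polynomial.aeval x β ≠ 0 ∧
            Polynomial.aeval x α = x' * Polynomial.aeval x β ∧
            Polynomial.aeval x (psi W) = (2 * y + V.a₁ * x + V.a₃) ^ 2 ∧
            Polynomial.aeval x (psi W) ≠ 0 ∧ Polynomial.aeval x (βp * βm) ≠ 0 ∧
            Polynomial.aeval x E = Polynomial.aeval x β ^ 4 * (2 * y' + V.a₁ * x' + V.a₃) ^ 2 ∧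
            Polynomial.aeval x M = Polynomial.aeval x β ^ 2 * ((2 * y' + V.a₁ * x' + V.a₃) *
              (2 * y + V.a₁ * x + V.a₃)) * Polynomial.aeval x (βp * βm) := by
    intro F _ _ _ V hV x y h hx
    rw [hν, map_mul, map_mul] at hx
    have hxβ : Polynomial.aeval x β ≠ 0 := left_ne_zero_of_mul (left_ne_zero_of_mul hx)
    have hxpm : Polynomial.aeval x (βp * βm) ≠ 0 := right_ne_zero_of_mul (left_ne_zero_of_mul hx)
    have hxΨ : Polynomial.aeval x (psi W) ≠ 0 := right_ne_zero_of_mul hx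
    have hxpm' := hxpm
    rw [map_mul] at hxpm'
    have hxp : Polynomial.aeval x βp ≠ 0 := left_ne_zero_of_mul hxpm'
    have hxm : Polynomial.aeval x βm ≠ 0 := right_ne_zero_of_mul hxpm'
    obtain ⟨xk, yk, hk', e1, -, e2⟩ := (H F V hV x y h).resolve_left fun h1 => hxβ h1.2
    obtain ⟨xp, yp, hp', p1, -, p2⟩ := (Hp F V hV x y h).resolve_left fun h1 => hxp h1.2
    obtain ⟨xm, ym, hm', m1, -, m2⟩ := (Hm F V hV x y h).resolve_left fun h1 => hxm h1.2
    have ep : (Affine.Point.some xk yk hk' : V.toAffine.Point) + Affine.Point.some x y h =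
        Affine.Point.some xp yp hp' := by
      rw [← e1, ← p1, succ_nsmul]
    have em : (Affine.Point.some xk yk hk' : V.toAffine.Point) - Affine.Point.some x y h =
        Affine.Point.some xm ym hm' := by
      rw [← e1, ← m1, sub_eq_iff_eq_add, ← succ_nsmul]
      congr 1
      omega
    have hxk : xk ≠ x := by
      intro hxx
      subst hxx
      rcases B3_prop xk y yk h hk' with h1 | h1
      · rw [h1, sub_self] at em
        exact Affine.Point.some_ne_zero _ em.symm
      · rw [h1, neg_add_cancel] at ep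
        exact Affine.Point.some_ne_zero _ ep.symm
    obtain ⟨x₃, y₃, x₄, y₄, h₃, h₄, f1, f2, f3⟩ := x_add_sub V xk yk x y hk' h hxk
    have g1 : x₃ = xp := by
      have := f1.symm.trans ep
      simp only [Affine.Point.some.injEq] at this
      exact this.1
    have g2 : x₄ = xm := by
      have := f2.symm.trans em
      simp only [Affine.Point.some.injEq] at this
      exact this.1
    rw [g1, g2] at f3
    have q1 := psi_eval W V hV x y h.1
    have q2 := psi_eval W V hV xk yk hk'.1
    refine ⟨xk, yk, hk', e1, hxβ, e2, q1.symm, hxΨ, hxpm, ?_, ?_⟩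
    · rw [q2, hE, psi]
      simp only [map_add, map_mul, map_pow, Polynomial.aeval_C, Polynomial.aeval_X, e2]
      ring
    · rw [hM]
      simp only [map_mul, map_sub, map_neg, map_pow, Polynomial.aeval_X, e2, p2, m2]
      linear_combination (-(Polynomial.aeval x β ^ 2 * Polynomial.aeval x βp * Polynomial.aeval x βm)) * f3
  have hME : M ^ 2 = E * psi W * (βp * βm) ^ 2 := by
    refine poly_eq_of_points W _ _ ν hν0 ?_
    intro F _ _ _ V hV x y h hx
    obtain ⟨x', y', h', -, -, -, k1, -, -, k2, k3⟩ := key F V hV x y h hx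
    rw [map_pow, k3, map_mul (Polynomial.aeval x) (E * psi W), map_mul (Polynomial.aeval x) E, map_pow, k2, k1]
    ring
  obtain ⟨lam, hlM, hlE⟩ := exists_lam M E (psi W) (βp * βm) (mul_ne_zero hβp0 hβm0) hΨ hME
  refine ⟨α, β, lam, ν, hα, hβ, ?_, hβ0, hν0, ?_⟩
  · -- the degree
    by_cases hl : lam = 0
    · rw [hl, Polynomial.natDegree_zero]
      exact Nat.zero_le _
    have h1 : E.natDegree ≤ 4 * k ^ 2 := by
      rw [hE]
      refine Polynomial.natDegree_add_le_of_degree_le (Polynomial.natDegree_add_le_of_degree_le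
        (Polynomial.natDegree_add_le_of_degree_le ?_ ?_) ?_) ?_
      · exact B3_deg hα hβ _ _ _ rfl
      · exact B3_deg hα hβ _ _ _ rfl
      · exact B3_deg hα hβ _ _ _ rfl
      · exact B3_deg hα hβ _ _ _ rfl
    have h2 : (psi W).natDegree = 3 := Polynomial.natDegree_cubic (by norm_num)
    rw [hlE, Polynomial.natDegree_mul hΨ0 (pow_ne_zero 2 hl), Polynomial.natDegree_pow, h2] at h1
    omega
  · intro F _ _ _ V hV x y h hx
    obtain ⟨x', y', h', k0, kβ, kα, k1, k2, k3, -, k5⟩ := key F V hV x y h hx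
    refine ⟨x', y', h', k0, kβ, kα, ?_⟩
    have hD : 2 * y + V.a₁ * x + V.a₃ ≠ 0 := by
      intro hD
      rw [hD] at k1
      apply k2
      rw [k1]
      ring
    have k6 : Polynomial.aeval x M = Polynomial.aeval x (psi W) * Polynomial.aeval x lam *
        Polynomial.aeval x (βp * βm) := by
      rw [hlM, map_mul, map_mul]
    rw [k6] at k5
    have k7 := mul_right_cancel₀ k3 k5
    rw [k1] at k7
    apply mul_right_cancel₀ hD
    linear_combination -k7

end Pool.Agent.Lib.MP_17a322_nt.PB
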