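import Pool.Agent.Lib.MP_17a322_nt.PB.A0
import Pool.Agent.Lib.MP_17a322_nt.PB.B3
import Pool.Agent.Lib.MP_17a322_nt.RO.A1

/-!
The symmetric square and the antisymmetric form of `x(R + ℓ Q)`, `x(R - ℓ Q)` as functions on the curve.
-/

namespace Pool.Agent.Lib.MP_17a322_nt.PB

open MvPolynomial WeierstrassCurve
open Pool.Agent.Lib.MP_17a322_nt.RO Pool.Agent.Lib.MP_17a322_nt.RV

universe u

private theorem B4_WD_poly {K : Type*} [Field K] (p : Polynomial K) (N : ℕ)
    (hp : p.natDegree ≤ N) :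
    WD (Polynomial.aeval (X ((0 : Fin 2), (0 : Fin 2)) : MvPolynomial (Fin 2 × Fin 2) K) p)
      ![2 * N, 0] := by
  rw [Polynomial.aeval_eq_sum_range]
  apply WD.sum
  intro i hi
  have hi' : i ≤ N := by
    have := Finset.mem_range.mp hi
    omega
  rw [← C_mul']
  refine ((WD_C (p.coeff i) 0).mul ((WD_X0 (K := K) (0 : Fin 2)).pow i)).mono ?_
  intro b
  fin_cases b <;> simp
  omega

private theorem B4_evl_poly {K F : Type*} [Field K] [Field F] [Algebra K F] (p : Polynomial K)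
    (x y : Fin 2 → F) :
    evl (pt x y) (Polynomial.aeval (X ((0 : Fin 2), (0 : Fin 2)) :
      MvPolynomial (Fin 2 × Fin 2) K) p) = Polynomial.aeval (x 0) p := by
  unfold evl
  rw [← Polynomial.aeval_algHom_apply, aeval_X]
  rfl

private theorem B4_aeval_poly {K F : Type*} [Field K] [Field F] [Algebra K F] (p : Polynomial K)
    (x : Fin 2 → F) :
    aeval x (Polynomial.aeval (X (0 : Fin 2) : MvPolynomial (Fin 2) K) p) =
      Polynomial.aeval (x 0) p := by
  rw [← Polynomial.aeval_algHom_apply, aeval_X]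

private theorem B4_exists_ne {K : Type*} [Field K] [CharZero K] (p : Polynomial K) (hp : p ≠ 0) :
    ∃ x : K, Polynomial.aeval x p ≠ 0 := by
  by_contra hcon
  push Not at hcon
  apply hp
  apply Polynomial.funext
  intro x
  have := hcon x
  rw [Polynomial.coe_aeval_eq_eval] at this
  rw [this, Polynomial.eval_zero]

private theorem B4_nu_ne {K : Type*} [Field K] [CharZero K] (α β ν : Polynomial K) (hβ : β ≠ 0)
    (hν : ν ≠ 0) :
    (Polynomial.aeval (X (0 : Fin 2) : MvPolynomial (Fin 2) K) ν) *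
      (Polynomial.aeval (X (0 : Fin 2) : MvPolynomial (Fin 2) K) α -
        Polynomial.aeval (X (0 : Fin 2) : MvPolynomial (Fin 2) K) β * X 1) ≠ 0 := by
  apply mul_ne_zero
  · intro h0
    obtain ⟨x, hx⟩ := B4_exists_ne ν hν
    apply hx
    have := congrArg (aeval (![x, 0] : Fin 2 → K)) h0
    rw [B4_aeval_poly, map_zero] at this
    simpa using this
  · intro h0
    obtain ⟨x, hx⟩ := B4_exists_ne β hβ
    apply hx
    have h1 := congrArg (aeval (![x, 0] : Fin 2 → K)) h0
    have h2 := congrArg (aeval (![x, 1] : Fin 2 → K)) h0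
    rw [map_sub, map_mul, B4_aeval_poly, B4_aeval_poly, aeval_X, map_zero] at h1 h2
    simp only [Matrix.cons_val_zero, Matrix.cons_val_one, mul_zero, sub_zero, mul_one] at h1 h2
    rw [h1, zero_sub, neg_eq_zero] at h2
    exact h2

/-- the polynomial `2 y + a₁ x + a₃` in block `b` -/
private noncomputable def B4_D {K : Type*} [Field K] (W : WeierstrassCurve K) (b : Fin 2) :
    MvPolynomial (Fin 2 × Fin 2) K :=
  C 2 * X (b, 1) + C W.a₁ * X (b, 0) + C W.a₃

private theorem B4_D_WD {K : Type*} [Field K] (W : WeierstrassCurve K) (b : Fin 2) :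
    WD (B4_D W b) (Pi.single b 3) := by
  unfold B4_D
  refine ((WD.add ?_ ?_).add ?_)
  · have := (WD_C (2 : K) (0 : Fin 2 → ℕ)).mul (WD_X1 (K := K) b)
    rwa [zero_add] at this
  · have := (WD_C W.a₁ (0 : Fin 2 → ℕ)).mul (WD_X0 (K := K) b)
    refine this.mono ?_
    intro c
    fin_cases b <;> fin_cases c <;> simp
  · exact WD_C _ _

private theorem B4_D_evl {K F : Type*} [Field K] [Field F] [Algebra K F]
    (W : WeierstrassCurve K) (b : Fin 2) (x y : Fin 2 → F) :
    evl (pt x y) (B4_D W b) = 2 * y b + (W.map (algebraMap K F)).a₁ * x b +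
      (W.map (algebraMap K F)).a₃ := by
  unfold B4_D evl
  rw [map_add, map_add, map_mul, map_mul, aeval_X, aeval_X, aeval_C, aeval_C, aeval_C,
    map_ofNat]
  simp [pt]

private noncomputable def B4_v {K : Type*} [Field K] (α β : Polynomial K) :
    Fin 3 → MvPolynomial (Fin 2 × Fin 2) K :=
  ![Polynomial.aeval (X ((0 : Fin 2), (0 : Fin 2))) α * X (1, 0),
    Polynomial.aeval (X ((0 : Fin 2), (0 : Fin 2))) α +
      Polynomial.aeval (X ((0 : Fin 2), (0 : Fin 2))) β * X (1, 0),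
    Polynomial.aeval (X ((0 : Fin 2), (0 : Fin 2))) β]

private theorem B4_v_WD {K : Type*} [Field K] (α β : Polynomial K) (N : ℕ)
    (hα : α.natDegree ≤ N) (hβ : β.natDegree ≤ N) (i : Fin 3) :
    WD (B4_v α β i) ![2 * N, 2] := by
  have hx := WD_X0 (K := K) (1 : Fin 2)
  have e : ∀ b : Fin 2, (![2 * N, 0] + Pi.single 1 2 : Fin 2 → ℕ) b ≤ ![2 * N, 2] b := by
    intro b
    fin_cases b <;> simp
  have e' : ∀ b : Fin 2, (![2 * N, 0] : Fin 2 → ℕ) b ≤ ![2 * N, 2] b := by
    intro b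
    fin_cases b <;> simp
  fin_cases i
  · exact ((B4_WD_poly α N hα).mul hx).mono e
  · exact ((B4_WD_poly α N hα).mono e').add (((B4_WD_poly β N hβ).mul hx).mono e)
  · exact (B4_WD_poly β N hβ).mono e'

private noncomputable def B4_S {K : Type*} [Field K] (W : WeierstrassCurve K)
    (v : Fin 3 → MvPolynomial (Fin 2 × Fin 2) K) : Fin 3 → MvPolynomial (Fin 2 × Fin 2) K :=
  ![v 0 * v 0 - C W.b₄ * (v 0 * v 2) - C W.b₆ * (v 1 * v 2) - C W.b₈ * (v 2 * v 2),
    C 2 * (v 1 * v 0) + C W.b₂ * (v 0 * v 2) + C W.b₄ * (v 1 * v 2) + C W.b₆ * (v 2 * v 2),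
    v 1 * v 1 - C 4 * (v 0 * v 2)]

private theorem B4_S_WD {K : Type*} [Field K] (W : WeierstrassCurve K)
    (v : Fin 3 → MvPolynomial (Fin 2 × Fin 2) K) (w : Fin 2 → ℕ) (hv : ∀ i, WD (v i) w)
    (i : Fin 3) : WD (B4_S W v i) (w + w) := by
  have h1 : ∀ i j, WD (v i * v j) (w + w) := fun i j => (hv i).mul (hv j)
  have h2 : ∀ (c : K) (i j : Fin 3), WD (C c * (v i * v j)) (w + w) := by
    intro c i j
    have := (WD_C c (0 : Fin 2 → ℕ)).mul (h1 i j)
    rwa [zero_add] at this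
  fin_cases i
  · exact (((h1 0 0).sub (h2 _ 0 2)).sub (h2 _ 1 2)).sub (h2 _ 2 2)
  · exact (((h2 _ 1 0).add (h2 _ 0 2)).add (h2 _ 1 2)).add (h2 _ 2 2)
  · exact (h1 1 1).sub (h2 _ 0 2)

private theorem B4_S_evl {K F : Type*} [Field K] [Field F] [Algebra K F]
    (W : WeierstrassCurve K) (v : Fin 3 → MvPolynomial (Fin 2 × Fin 2) K) (x y : Fin 2 → F)
    (b : F) (s : Fin 3 → F) (hv : ∀ i, evl (pt x y) (v i) = b * s i) (i : Fin 3) :
    evl (pt x y) (B4_S W v i) = b ^ 2 * eval s (addSubMap (W.map (algebraMap K F)) i) := by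
  unfold evl at hv
  fin_cases i
  · simp only [Fin.zero_eta]
    rw [A1_eval0]
    simp only [B4_S, evl, Matrix.cons_val_zero, map_sub, map_mul, hv, aeval_C, map_b₄, map_b₆,
      map_b₈]
    ring
  · simp only [Fin.mk_one]
    rw [A1_eval1]
    simp only [B4_S, evl, Matrix.cons_val_one, Matrix.cons_val_zero, map_add, map_mul, hv,
      aeval_C, map_b₄, map_b₆, map_b₂, map_ofNat]
    ring
  · simp only [Fin.reduceFinMk]
    rw [A1_eval2]
    simp only [B4_S, evl, Matrix.cons_val, map_sub, map_mul, hv, map_ofNat]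
    ring

private theorem B4_nat {K : Type u} [Field K] [CharZero K] (W : WeierstrassCurve K)
    [W.IsElliptic] (k : ℕ) :
    ∃ (S : Fin 3 → MvPolynomial (Fin 2 × Fin 2) K) (δ : MvPolynomial (Fin 2 × Fin 2) K)
      (ν : MvPolynomial (Fin 2) K), ν ≠ 0 ∧ (∀ i, WD (S i) ![4 * k ^ 2, 4]) ∧
      WD δ ![4 * k ^ 2, 4] ∧
      ∀ (F : Type u) [Field F] [DecidableEq F] [Algebra K F] (V : WeierstrassCurve F),
        W.map (algebraMap K F) = V → ∀ (x y : Fin 2 → F)
          (h : ∀ i, V.toAffine.Nonsingular (x i) (y i)), aeval x ν ≠ 0 →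
          ∀ Q R : V.toAffine.Point, Q = Affine.Point.some (x 0) (y 0) (h 0) →
            R = Affine.Point.some (x 1) (y 1) (h 1) →
          ∃ γ : F, γ ≠ 0 ∧
            (∀ i, evl (pt x y) (S i) = γ * sq2 (R + k • Q).xRep (R - k • Q).xRep i) ∧
            evl (pt x y) δ = γ * ((R + k • Q).xRep 0 * (R - k • Q).xRep 1 -
              (R + k • Q).xRep 1 * (R - k • Q).xRep 0) := by
  rcases Nat.eq_zero_or_pos k with hk | hk
  · subst hk
    refine ⟨![X (1, 0) * X (1, 0), C 2 * X (1, 0), C 1], 0, 1, one_ne_zero, ?_, WD_zero _, ?_⟩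
    · intro i
      have hx := WD_X0 (K := K) (1 : Fin 2)
      fin_cases i
      · refine (hx.mul hx).mono ?_
        intro b
        fin_cases b <;> simp
      · refine ((WD_C (2 : K) (0 : Fin 2 → ℕ)).mul hx).mono ?_
        intro b
        fin_cases b <;> simp
      · exact WD_C _ _
    · intro F _ _ _ V hV x y h _ Q R hQ hR
      refine ⟨1, one_ne_zero, ?_, ?_⟩
      · intro i
        rw [zero_smul, add_zero, sub_zero, hR, Affine.Point.xRep_some]
        fin_cases i
        · simp [evl, pt, sq2]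
        · simp only [evl, pt, sq2, Fin.mk_one, Matrix.cons_val_one, Matrix.cons_val_zero,
            map_mul, aeval_X, map_ofNat]
          ring
        · simp [evl, sq2]
      · rw [zero_smul, add_zero, sub_zero, hR, Affine.Point.xRep_some]
        simp [evl]
  · obtain ⟨α, β, lam, ν, hα, hβ, hlam, hβ0, hν0, hval⟩ := exists_coord W k hk
    refine ⟨B4_S W (B4_v α β),
      C (-1) * (Polynomial.aeval (X ((0 : Fin 2), (0 : Fin 2))) lam * (B4_D W 0 * B4_D W 1)),
      _, B4_nu_ne α β ν hβ0 hν0, ?_, ?_, ?_⟩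
    · intro i
      refine (B4_S_WD W _ _ (B4_v_WD α β (k ^ 2) hα hβ) i).mono ?_
      intro b
      fin_cases b
      · simp; omega
      · simp
    · have h1 := (WD_C (-1 : K) (0 : Fin 2 → ℕ)).mul ((B4_WD_poly lam _ hlam).mul
        ((B4_D_WD W 0).mul (B4_D_WD W 1)))
      have e0 : (Pi.single (0 : Fin 2) 3 : Fin 2 → ℕ) = ![3, 0] := by
        ext i
        fin_cases i <;> simp
      have e1 : (Pi.single (1 : Fin 2) 3 : Fin 2 → ℕ) = ![0, 3] := by
        ext i
        fin_cases i <;> simp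
      rw [e0, e1] at h1
      refine h1.mono ?_
      have hk2 : 1 ≤ k ^ 2 := Nat.one_le_pow _ _ hk
      intro b
      fin_cases b
      · simp; omega
      · simp
    · intro F _ _ _ V hV x y h hne Q R hQ hR
      subst hV
      rw [map_mul, map_sub, map_mul, B4_aeval_poly, B4_aeval_poly, B4_aeval_poly, aeval_X]
        at hne
      obtain ⟨x', y', h', hkQ, hb, ha, hl⟩ := hval F _ rfl (x 0) (y 0) (h 0)
        (left_ne_zero_of_mul hne)
      have hx : x 1 ≠ x' := by
        intro hx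
        apply right_ne_zero_of_mul hne
        rw [ha, hx]
        ring
      obtain ⟨x₃, y₃, x₄, y₄, h₃, h₄, e₃, e₄, e⟩ :=
        x_add_sub _ (x 1) (y 1) x' y' (h 1) h' hx
      obtain ⟨c, hc, hcs⟩ := addSub_sym2x (W.map (algebraMap K F)) R (k • Q)
      have hkQ' : k • Q = Affine.Point.some x' y' h' := by rw [hQ]; exact hkQ
      rw [hkQ', hR, e₃, e₄, Affine.Point.sym2x_some_some, Affine.Point.sym2x_some_some] at hcs
      have hc2 : c = (x 1 - x') ^ 2 := by
        have := hcs 2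
        rw [A1_eval2] at this
        simp only [Matrix.cons_val, mul_one] at this
        rw [← this]
        ring
      have hv : ∀ i, evl (pt x y) (B4_v α β i) =
          Polynomial.aeval (x 0) β * (![x 1 * x', x 1 + x', 1] : Fin 3 → F) i := by
        intro i
        have e1 := B4_evl_poly (F := F) α x y
        have e2 := B4_evl_poly (F := F) β x y
        unfold evl at e1 e2 ⊢
        fin_cases i
        · simp only [B4_v, Fin.zero_eta, Matrix.cons_val_zero]
          rw [map_mul, e1, aeval_X, ha]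
          simp [pt]
          ring
        · simp only [B4_v, Fin.mk_one, Matrix.cons_val_one, Matrix.cons_val_zero]
          rw [map_add, map_mul, e1, e2, aeval_X, ha]
          simp [pt]
          ring
        · simp only [B4_v, Fin.reduceFinMk, Matrix.cons_val]
          rw [e2, mul_one]
      rw [hkQ', hR, e₃, e₄]
      refine ⟨Polynomial.aeval (x 0) β ^ 2 * c, mul_ne_zero (pow_ne_zero 2 hb) hc, ?_, ?_⟩
      · intro i
        rw [B4_S_evl W _ x y _ _ hv i, hcs i, Affine.Point.xRep_some, Affine.Point.xRep_some,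
          mul_assoc]
        congr 2
        fin_cases i <;> simp [sq2]
      · have e5 : evl (pt x y) (C (-1) * (Polynomial.aeval (X ((0 : Fin 2), (0 : Fin 2))) lam *
            (B4_D W 0 * B4_D W 1)) : MvPolynomial (Fin 2 × Fin 2) K) =
            -(Polynomial.aeval (x 0) lam * (evl (pt x y) (B4_D W 0) *
              evl (pt x y) (B4_D W 1))) := by
          have e1 := B4_evl_poly (F := F) lam x y
          unfold evl at e1 ⊢
          rw [map_mul, map_mul, map_mul, e1, aeval_C]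
          simp
        rw [e5, B4_D_evl, B4_D_evl, Affine.Point.xRep_some, Affine.Point.xRep_some]
        simp only [Matrix.cons_val_zero, Matrix.cons_val_one, mul_one, one_mul]
        rw [hc2]
        linear_combination (-(Polynomial.aeval (x 0) β) ^ 2) * e + (2 * y 1 +
          (W.map (algebraMap K F)).a₁ * x 1 + (W.map (algebraMap K F)).a₃) * hl

/-- Block `0` is `Q`, block `1` is `R`. There are functions `S i` and `δ` of weight `4 ℓ^2` in block `0` and
`4` in block `1` whose values are, up to a common factor `γ ≠ 0`, the symmetric square of `x(R + ℓ Q)`,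
`x(R - ℓ Q)` and `x_0 x'_1 - x_1 x'_0`.
Proof. `ℓ = 0`: `S = (X (1,0)^2, 2 X (1,0), 1)`, `δ = 0`, `ν = 1`, `γ = 1`. Let `k = |ℓ| ≥ 1` and take
`α, β, lam, ν₁` from `exists_coord`. Let `v = (α(x_Q) x_R, α(x_Q) + β(x_Q) x_R, β(x_Q))` (polynomials;
`α(x_Q)` is `Polynomial.aeval (X (0, 0)) α`), `S i = aeval v (addSubMap W i)` (homogeneous of degree 2,
formulas `A1_eval0, A1_eval1, A1_eval2` in RO/A1), weights `2 * (2 k^2)` and `4`. Let
`δ = ∓ lam(x_Q) (2 y_Q + a₁ x_Q + a₃) (2 y_R + a₁ x_R + a₃)`, the sign `-` if `ℓ > 0`; weights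
`2 (2 k^2 - 2) + 3 ≤ 4 k^2` and `3`. `ν = ν₁(x_Q) * (α(x_Q) - β(x_Q) x_R) ≠ 0` (as `β ≠ 0`; use evaluation at a
suitable point). Values: let `(x', y') = k Q`, `x' ≠ x_R`, `β ≠ 0` at the point; `v = β • sq2 (x', 1) (x_R, 1)`;
by `x_add_sub` (with the roles `R`, `k Q`) `R + k Q = (x₃, ..)`, `R - k Q = (x₄, ..)` are affine; by
`addSub_sym2x` (RO/A1) for the points `R` and `k Q` the vector `addSubMap` at `sym2x R (k Q)` is `c` times
`sym2x (R + k Q) (R - k Q) = (x₃ x₄, x₃ + x₄, 1)`, and the last coordinate is `(x' - x_R)^2`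
(`A1_eval2`), so `c = (x' - x_R)^2` and `S i = β^2 (x' - x_R)^2 sq2 ..`; `γ = β^2 (x' - x_R)^2`. And
`γ (x₃ - x₄) = β^2 * (-(2 y_R + a₁ x_R + a₃)(2 y' + a₁ x' + a₃)) = -lam (2 y_Q + ..)(2 y_R + ..)`. For `ℓ < 0`,
`R + ℓ Q = R - k Q`: `sq2` is symmetric, the antisymmetric form changes the sign. `pt x y`-values:
`evl (pt x y) (X (0, 0)) = x 0` etc. -/
theorem exists_SD {K : Type u} [Field K] [CharZero K] (W : WeierstrassCurve K) [W.IsElliptic]
    (ℓ : ℤ) :
    ∃ (S : Fin 3 → MvPolynomial (Fin 2 × Fin 2) K) (δ : MvPolynomial (Fin 2 × Fin 2) K)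
      (ν : MvPolynomial (Fin 2) K), ν ≠ 0 ∧ (∀ i, WD (S i) ![4 * ℓ.natAbs ^ 2, 4]) ∧
      WD δ ![4 * ℓ.natAbs ^ 2, 4] ∧
      ∀ (F : Type u) [Field F] [DecidableEq F] [Algebra K F] (V : WeierstrassCurve F),
        W.map (algebraMap K F) = V → ∀ (x y : Fin 2 → F)
          (h : ∀ i, V.toAffine.Nonsingular (x i) (y i)), aeval x ν ≠ 0 →
          ∀ Q R : V.toAffine.Point, Q = Affine.Point.some (x 0) (y 0) (h 0) →
            R = Affine.Point.some (x 1) (y 1) (h 1) →
          ∃ γ : F, γ ≠ 0 ∧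
            (∀ i, evl (pt x y) (S i) = γ * sq2 (R + ℓ • Q).xRep (R - ℓ • Q).xRep i) ∧
            evl (pt x y) δ = γ * ((R + ℓ • Q).xRep 0 * (R - ℓ • Q).xRep 1 -
              (R + ℓ • Q).xRep 1 * (R - ℓ • Q).xRep 0) := by
  obtain ⟨S, δ, ν, hν, hS, hδ, hval⟩ := B4_nat W ℓ.natAbs
  rcases Int.natAbs_eq ℓ with hℓ | hℓ
  · refine ⟨S, δ, ν, hν, hS, hδ, ?_⟩
    intro F _ _ _ V hV x y h hne Q R hQ hR
    obtain ⟨γ, hγ, h1, h2⟩ := hval F V hV x y h hne Q R hQ hR
    have e : ℓ • Q = ℓ.natAbs • Q := by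
      conv_lhs => rw [hℓ]
      exact natCast_zsmul _ _
    rw [e]
    exact ⟨γ, hγ, h1, h2⟩
  · refine ⟨S, -δ, ν, hν, hS, hδ.neg, ?_⟩
    intro F _ _ _ V hV x y h hne Q R hQ hR
    obtain ⟨γ, hγ, h1, h2⟩ := hval F V hV x y h hne Q R hQ hR
    have e : ℓ • Q = -(ℓ.natAbs • Q) := by
      conv_lhs => rw [hℓ]
      rw [neg_smul, natCast_zsmul]
    rw [e, ← sub_eq_add_neg, sub_neg_eq_add]
    refine ⟨γ, hγ, ?_, ?_⟩
    · intro i
      rw [h1 i]
      congr 1
      fin_cases i <;> simp [sq2] <;> ring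
    · unfold evl at h2 ⊢
      rw [map_neg, h2]
      ring

end Pool.Agent.Lib.MP_17a322_nt.PB
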