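import Pool.Agent.Lib.MP_17a322_nt.PB.B4
import Pool.Agent.Lib.MP_17a322_nt.RV.C4

/-!
Bihomogeneous monomials in `x(R + ℓ Q)`, `x(R - ℓ Q)` as functions on the curve.
-/

namespace Pool.Agent.Lib.MP_17a322_nt.PB

open MvPolynomial WeierstrassCurve
open Pool.Agent.Lib.MP_17a322_nt.RO Pool.Agent.Lib.MP_17a322_nt.RV

universe u

/-- Weights of `aeval S U` for `U` homogeneous of degree `d`.
Proof. Sum over the support; each monomial is `C c * ∏ i, S i ^ m i` with `∑ m i = d`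
(`WD.pow`, `WD.prod`, `WD.mono`). -/
theorem WD_aeval {K B σ : Type*} [Field K] [DecidableEq B] [Fintype σ] (U : MvPolynomial σ K) (d : ℕ)
    (hU : U.IsHomogeneous d) (S : σ → MvPolynomial (B × Fin 2) K) (w : B → ℕ)
    (hS : ∀ i, WD (S i) w) : WD (aeval S U) (d • w) := by
  have h1 : aeval S U = ∑ m ∈ U.support, C (U.coeff m) * ∏ i, S i ^ m i := by
    rw [aeval_def, eval₂_eq']
    rfl
  rw [h1]
  apply WD.sum
  intro m hm
  have h2 : ∑ i, m i = d := by
    have h3 := hU (mem_support_iff.1 hm)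
    rw [Finsupp.weight_apply, Finsupp.sum_fintype _ _ (fun i => by simp)] at h3
    simpa using h3
  have h4 : WD (∏ i, S i ^ m i) (∑ i, m i • w) :=
    WD.prod Finset.univ (fun i => S i ^ m i) (fun i => m i • w) (fun i _ => (hS i).pow (m i))
  have h5 := (WD_C (U.coeff m) (0 : B → ℕ)).mul h4
  refine h5.mono (fun b => ?_)
  rw [zero_add, ← Finset.sum_smul, h2]

/-- Proof. `d = 0`: `κ = 1`, `ν = 1`, `γ = 1`. `d ≥ 1`: `S, δ, ν` from `exists_SD`; for `a, e ≤ d` take `U`, `V` from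
`exists_parity` (RV/C4) with `b := d`, and `κ a e = aeval S U + δ * aeval S V` (and `0` if not `a, e ≤ d`); the
factor is `γ ^ d`. Values: `evl (pt x y) (aeval S U) = aeval (fun i => evl (pt x y) (S i)) U`
(`comp_aeval_apply`). Weights by `WD_aeval`, `WD.mul`, `WD.add`, `1 + (d - 1) = d`. -/
theorem exists_kappa {K : Type u} [Field K] [CharZero K] (W : WeierstrassCurve K) [W.IsElliptic]
    (ℓ : ℤ) (d : ℕ) :
    ∃ (κ : ℕ → ℕ → MvPolynomial (Fin 2 × Fin 2) K) (ν : MvPolynomial (Fin 2) K), ν ≠ 0 ∧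
      (∀ a e, WD (κ a e) ![4 * ℓ.natAbs ^ 2 * d, 4 * d]) ∧
      ∀ (F : Type u) [Field F] [DecidableEq F] [Algebra K F] (V : WeierstrassCurve F),
        W.map (algebraMap K F) = V → ∀ (x y : Fin 2 → F)
          (h : ∀ i, V.toAffine.Nonsingular (x i) (y i)), aeval x ν ≠ 0 →
          ∀ Q R : V.toAffine.Point, Q = Affine.Point.some (x 0) (y 0) (h 0) →
            R = Affine.Point.some (x 1) (y 1) (h 1) →
          ∃ γ : F, γ ≠ 0 ∧ ∀ a e, a ≤ d → e ≤ d → evl (pt x y) (κ a e) =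
            γ * ((R + ℓ • Q).xRep 0 ^ a * (R + ℓ • Q).xRep 1 ^ (d - a) *
              ((R - ℓ • Q).xRep 0 ^ e * (R - ℓ • Q).xRep 1 ^ (d - e))) := by
  rcases Nat.eq_zero_or_pos d with hd | hd
  · subst hd
    refine ⟨fun _ _ => 1, 1, one_ne_zero, fun a e => ?_, ?_⟩
    · rw [← C_1]
      exact WD_C 1 _
    · intro F _ _ _ V hV x y h hx Q R hQ hR
      refine ⟨1, one_ne_zero, fun a e ha he => ?_⟩
      obtain rfl : a = 0 := by omega
      obtain rfl : e = 0 := by omega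
      simp [evl]
  obtain ⟨S, δ, ν, hν, hSw, hδw, hval⟩ := exists_SD W ℓ
  have hUV : ∀ a e : ℕ, ∃ U V : MvPolynomial (Fin 3) K, U.IsHomogeneous d ∧
      V.IsHomogeneous (d - 1) ∧ (a ≤ d → e ≤ d →
        ∀ (A : Type u) [Field A] [Algebra K A] (p p' : Fin 2 → A) (s : Fin 3 → A) (c : A),
        (∀ i, s i = c * sq2 p p' i) →
          c ^ d * (p 0 ^ a * p 1 ^ (d - a) * (p' 0 ^ e * p' 1 ^ (d - e))) =
            aeval s U + c * (p 0 * p' 1 - p 1 * p' 0) * aeval s V) := by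
    intro a e
    by_cases hae : a ≤ d ∧ e ≤ d
    · obtain ⟨U, V, hU, hV, h1⟩ := exists_parity K d hd a e hae.1 hae.2
      exact ⟨U, V, hU, hV, fun _ _ => h1⟩
    · exact ⟨0, 0, isHomogeneous_zero _ _ _, isHomogeneous_zero _ _ _,
        fun ha he => absurd ⟨ha, he⟩ hae⟩
  choose U V hU hV hUVv using hUV
  obtain ⟨d', rfl⟩ : ∃ d', d = d' + 1 := ⟨d - 1, by omega⟩
  refine ⟨fun a e => aeval S (U a e) + δ * aeval S (V a e), ν, hν, fun a e => ?_, ?_⟩
  · apply WD.add
    · refine (WD_aeval _ _ (hU a e) S _ hSw).mono (fun b => ?_)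
      fin_cases b
      · simp
        exact le_of_eq (by ring)
      · simp
        exact le_of_eq (by ring)
    · refine (hδw.mul (WD_aeval _ _ (hV a e) S _ hSw)).mono (fun b => ?_)
      fin_cases b
      · simp
        exact le_of_eq (by ring)
      · simp
        exact le_of_eq (by ring)
  · intro F _ _ _ V' hV' x y h hx Q R hQ hR
    obtain ⟨γ, hγ, hS, hδ⟩ := hval F V' hV' x y h hx Q R hQ hR
    refine ⟨γ ^ (d' + 1), pow_ne_zero _ hγ, fun a e ha he => ?_⟩
    have hp := hUVv a e ha he F (R + ℓ • Q).xRep (R - ℓ • Q).xRep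
      (fun i => evl (pt x y) (S i)) γ hS
    rw [hp]
    have e1 : ∀ T : MvPolynomial (Fin 3) K, evl (pt x y) (aeval S T) =
        aeval (fun i => evl (pt x y) (S i)) T := by
      intro T
      unfold evl
      exact comp_aeval_apply _ (aeval (R := K) fun p : Fin 2 × Fin 2 => pt x y p.1 p.2) T
    have e2 : evl (pt x y) (aeval S (U a e) + δ * aeval S (V a e)) =
        evl (pt x y) (aeval S (U a e)) + evl (pt x y) δ * evl (pt x y) (aeval S (V a e)) := by
      unfold evl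
      rw [map_add, map_mul]
    show evl (pt x y) (aeval S (U a e) + δ * aeval S (V a e)) = _
    rw [e2, e1, e1, hδ]

end Pool.Agent.Lib.MP_17a322_nt.PB
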