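import Pool.Agent.Lib.MP_17a322_nt.PB.B5
import Pool.Agent.Lib.MP_17a322_nt.RV.Defs
import Pool.Agent.Lib.MP_17a322_nt.RV.S1

/-!
The matrix `g_j(x(R + ℓ Q)) g_k(x(R - ℓ Q))` as a matrix of functions on the curve.
-/

namespace Pool.Agent.Lib.MP_17a322_nt.PB

open MvPolynomial WeierstrassCurve
open Pool.Agent.Lib.MP_17a322_nt.RO Pool.Agent.Lib.MP_17a322_nt.RV

universe u

/-- The weights of the matrix: block `inl ()` is `Q`, block `inr i` is `R i`. -/
def wq {n : ℕ} (D : Fin n → ℕ) (ℓ : Fin n → ℤ) : Unit ⊕ Fin n → ℕ :=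
  Sum.elim (fun _ => ∑ i, 4 * (ℓ i).natAbs ^ 2 * D i) (fun i => 4 * D i)

/-- The property of the matrix `Q j k`: its value is `γ g_j(x(R + ℓ Q)) g_k(x(R - ℓ Q))`, `γ ≠ 0`, at all
points where `ν` does not vanish. -/
def IsMat {K : Type u} [Field K] (W : WeierstrassCurve K) {n : ℕ} {ι : Type}
    (g : ι → MvPolynomial (Fin n × Fin 2) K) (ℓ : Fin n → ℤ)
    (M : ι → ι → MvPolynomial ((Unit ⊕ Fin n) × Fin 2) K) (ν : MvPolynomial (Unit ⊕ Fin n) K) :
    Prop :=
  ∀ (F : Type u) [Field F] [DecidableEq F] [Algebra K F] (V : WeierstrassCurve F),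
    W.map (algebraMap K F) = V → ∀ (x y : Unit ⊕ Fin n → F)
      (h : ∀ b, V.toAffine.Nonsingular (x b) (y b)), aeval x ν ≠ 0 →
      ∀ (Q : V.toAffine.Point) (R : Fin n → V.toAffine.Point),
        Q = Affine.Point.some (x (Sum.inl ())) (y (Sum.inl ())) (h (Sum.inl ())) →
        (∀ i, R i = Affine.Point.some (x (Sum.inr i)) (y (Sum.inr i)) (h (Sum.inr i))) →
        ∃ γ : F, γ ≠ 0 ∧ ∀ j k, evl (pt x y) (M j k) =
          γ * (evl (fun i => (R i + ℓ i • Q).xRep) (g j) *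
            evl (fun i => (R i - ℓ i • Q).xRep) (g k))

private def B6_phi {n : ℕ} (i : Fin n) : Fin 2 → Unit ⊕ Fin n := ![Sum.inl (), Sum.inr i]

private theorem B6_phi_inj {n : ℕ} (i : Fin n) : Function.Injective (B6_phi i) := by
  intro a b h
  fin_cases a <;> fin_cases b <;> simp [B6_phi] at h ⊢

private def B6_w {n : ℕ} (D : Fin n → ℕ) (ℓ : Fin n → ℤ) (i : Fin n) : Unit ⊕ Fin n → ℕ :=
  Sum.elim (fun _ => 4 * (ℓ i).natAbs ^ 2 * D i) (Pi.single i (4 * D i))

private theorem B6_w_sum {n : ℕ} (D : Fin n → ℕ) (ℓ : Fin n → ℤ) :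
    ∑ i, B6_w D ℓ i = wq D ℓ := by
  funext b
  rw [Finset.sum_apply]
  rcases b with _ | j
  · rfl
  · simp only [B6_w, wq, Sum.elim_inr]
    rw [Finset.sum_eq_single j]
    · simp
    · intro i _ hi
      exact Pi.single_eq_of_ne hi.symm _
    · intro h
      exact absurd (Finset.mem_univ j) h

private theorem B6_block {K : Type*} [Field K] {n : ℕ} (D : Fin n → ℕ) (ℓ : Fin n → ℤ)
    (i : Fin n) (p : MvPolynomial (Fin 2 × Fin 2) K)
    (hp : WD p ![4 * (ℓ i).natAbs ^ 2 * D i, 4 * D i]) :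
    WD (rename (Prod.map (B6_phi i) id) p) (B6_w D ℓ i) := by
  refine WD_block (B6_phi i) (B6_phi_inj i) p _ _ hp ?_
  intro b
  fin_cases b <;> simp [B6_phi, B6_w]

private theorem B6_evl {K F : Type*} [Field K] [Field F] [Algebra K F] {n : ℕ} (i : Fin n)
    (p : MvPolynomial (Fin 2 × Fin 2) K) (x y : Unit ⊕ Fin n → F) :
    evl (pt x y) (rename (Prod.map (B6_phi i) id) p) =
      evl (pt (fun b => x (B6_phi i b)) (fun b => y (B6_phi i b))) p := by
  rw [evl_block]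
  rfl

/-- Proof. For every `i` take `κ_i`, `ν_i` from `exists_kappa` for `ℓ i`, `D i`, and let `φ_i : Fin 2 → Unit ⊕ Fin n`,
`0 ↦ inl ()`, `1 ↦ inr i`. Put `M j k = ∑_{m ∈ supp g_j} ∑_{m' ∈ supp g_k} C (coeff m (g j) * coeff m' (g k)) *
∏_i rename (Prod.map φ_i id) (κ_i (m (i, 0)) (m' (i, 0)))` and `ν = ∏_i rename φ_i ν_i`. For `m` in the
support of `g j`: `m (i, 0) + m (i, 1) = D i` (`S1_deg` in RV/S1 or `D1_sum_eq` in RO/D1), and
`evl z (g j) = ∑ coeff * ∏ i (z i 0 ^ m (i,0) * z i 1 ^ m (i,1))` (`S1_evl` in RV/S1). `γ = ∏ γ_i`. Weights: `WD_block` for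
`φ_i` (weight `4 (ℓ i)^2 D i` in block `inl ()`, `4 D i` in block `inr i`, `0` elsewhere), `WD.prod`, `WD.sum`,
`WD_C`. Values of renamed polynomials: `evl_block` (PB/A0). -/
theorem exists_M {K : Type u} [Field K] [CharZero K] (W : WeierstrassCurve K) [W.IsElliptic]
    {n : ℕ} {ι : Type} (D : Fin n → ℕ) (g : ι → MvPolynomial (Fin n × Fin 2) K)
    (hg : ∀ j, MH (g j) D) (ℓ : Fin n → ℤ) :
    ∃ (M : ι → ι → MvPolynomial ((Unit ⊕ Fin n) × Fin 2) K) (ν : MvPolynomial (Unit ⊕ Fin n) K),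
      ν ≠ 0 ∧ (∀ j k, WD (M j k) (wq D ℓ)) ∧ IsMat W g ℓ M ν := by
  classical
  choose κ ν hν hκ hval using fun i : Fin n => exists_kappa W (ℓ i) (D i)
  refine ⟨fun j k => ∑ m ∈ (g j).support, ∑ m' ∈ (g k).support,
    C (coeff m (g j) * coeff m' (g k)) *
      ∏ i, rename (Prod.map (B6_phi i) id) (κ i (m (i, 0)) (m' (i, 0))),
    ∏ i, rename (B6_phi i) (ν i), ?_, ?_, ?_⟩
  · rw [Finset.prod_ne_zero_iff]
    intro i _ h0
    exact hν i (rename_injective _ (B6_phi_inj i) (h0.trans (map_zero _).symm))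
  · intro j k
    apply WD.sum
    intro m _
    apply WD.sum
    intro m' _
    have h1 := (WD_C (coeff m (g j) * coeff m' (g k)) (0 : Unit ⊕ Fin n → ℕ)).mul
      (WD.prod Finset.univ (fun i => rename (Prod.map (B6_phi i) id)
        (κ i (m (i, 0)) (m' (i, 0)))) (B6_w D ℓ) (fun i _ => B6_block D ℓ i _ (hκ i _ _)))
    rwa [B6_w_sum, zero_add] at h1
  · intro F _ _ _ V hV x y h hne Q R hQ hR
    rw [map_prod, Finset.prod_ne_zero_iff] at hne
    have hγ : ∀ i, ∃ γ : F, γ ≠ 0 ∧ ∀ a e, a ≤ D i → e ≤ D i →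
        evl (pt x y) (rename (Prod.map (B6_phi i) id) (κ i a e)) =
          γ * ((R i + ℓ i • Q).xRep 0 ^ a * (R i + ℓ i • Q).xRep 1 ^ (D i - a) *
            ((R i - ℓ i • Q).xRep 0 ^ e * (R i - ℓ i • Q).xRep 1 ^ (D i - e))) := by
      intro i
      have hne' := hne i (Finset.mem_univ i)
      rw [aeval_rename] at hne'
      obtain ⟨γ, h1, h2⟩ := hval i F V hV (fun b => x (B6_phi i b)) (fun b => y (B6_phi i b))
        (fun b => h (B6_phi i b)) hne' Q (R i) hQ (hR i)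
      refine ⟨γ, h1, fun a e ha he => ?_⟩
      rw [B6_evl]
      exact h2 a e ha he
    choose γ hγ0 hγ using hγ
    refine ⟨∏ i, γ i, Finset.prod_ne_zero_iff.mpr fun i _ => hγ0 i, fun j k => ?_⟩
    rw [S1_evl (fun i => (R i + ℓ i • Q).xRep), S1_evl (fun i => (R i - ℓ i • Q).xRep),
      Finset.sum_mul_sum, Finset.mul_sum]
    have e1 : evl (pt x y) (∑ m ∈ (g j).support, ∑ m' ∈ (g k).support,
        C (coeff m (g j) * coeff m' (g k)) *
          ∏ i, rename (Prod.map (B6_phi i) id) (κ i (m (i, 0)) (m' (i, 0)))) =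
        ∑ m ∈ (g j).support, ∑ m' ∈ (g k).support,
          algebraMap K F (coeff m (g j) * coeff m' (g k)) *
          ∏ i, evl (pt x y) (rename (Prod.map (B6_phi i) id) (κ i (m (i, 0)) (m' (i, 0)))) := by
      unfold evl
      rw [map_sum]
      refine Finset.sum_congr rfl fun m _ => ?_
      rw [map_sum]
      refine Finset.sum_congr rfl fun m' _ => ?_
      rw [map_mul, aeval_C, map_prod]
    refine e1.trans ?_
    refine Finset.sum_congr rfl fun m hm => ?_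
    rw [Finset.mul_sum]
    refine Finset.sum_congr rfl fun m' hm' => ?_
    have e2 : ∀ i, evl (pt x y) (rename (Prod.map (B6_phi i) id)
        (κ i (m (i, 0)) (m' (i, 0)))) =
        γ i * (((R i + ℓ i • Q).xRep 0 ^ m (i, 0) * (R i + ℓ i • Q).xRep 1 ^ m (i, 1)) *
            ((R i - ℓ i • Q).xRep 0 ^ m' (i, 0) * (R i - ℓ i • Q).xRep 1 ^ m' (i, 1))) := by
      intro i
      have d1 := S1_deg (hg j) hm i
      have d2 := S1_deg (hg k) hm' i
      rw [hγ i _ _ (by omega) (by omega)]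
      have d3 : D i - m (i, 0) = m (i, 1) := by omega
      have d4 : D i - m' (i, 0) = m' (i, 1) := by omega
      rw [d3, d4]
    simp_rw [e2]
    rw [Finset.prod_mul_distrib, Finset.prod_mul_distrib, map_mul]
    ring

end Pool.Agent.Lib.MP_17a322_nt.PB
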