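import Pool.Agent.Lib.MP_17a322_nt.RV.K2b

/-!
The inequality of Young for heights.
-/

namespace Pool.Agent.Lib.MP_17a322_nt.PB

open MvPolynomial WeierstrassCurve Height
open Pool.Agent.Lib.MP_17a322_nt.RO Pool.Agent.Lib.MP_17a322_nt.RV

universe u

/-- The values of a quadratic function along an arithmetic progression. -/
private theorem C3a_prog {G : Type*} [AddCommGroup G] (q : G → ℝ)
    (hq : ∀ P Q, q (P + Q) + q (P - Q) = 2 * q P + 2 * q Q) (X Y : G) (n : ℕ) :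
    q (X - n • Y) = q X - n * (q (X + Y) - q X - q Y) + (n : ℝ) ^ 2 * q Y ∧
      q (X - (n + 1) • Y) = q X - (n + 1) * (q (X + Y) - q X - q Y) + ((n : ℝ) + 1) ^ 2 * q Y := by
  induction n with
  | zero =>
    refine ⟨by simp, ?_⟩
    have h := hq X Y
    simp only [zero_add, one_smul, CharP.cast_eq_zero]
    linarith
  | succ n ih =>
    obtain ⟨h1, h2⟩ := ih
    refine ⟨by push_cast; exact h2, ?_⟩
    have h := hq (X - (n + 1) • Y) Y
    have e1 : X - (n + 1) • Y + Y = X - n • Y := by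
      rw [add_smul, one_smul]
      abel
    have e2 : X - (n + 1) • Y - Y = X - (n + 1 + 1) • Y := by
      rw [add_smul (n + 1) 1, one_smul]
      abel
    rw [e1, e2, h1, h2] at h
    push_cast
    linarith

/-- Young's inequality for a quadratic function.
Proof. `q (X + k Y)` and `q (X - k Y) ≥ 0`: for `B = q (X + Y) - q X - q Y` one has
`q (X - k Y) = q X - k B + k^2 q Y` (induction on `k` from the parallelogram law, or first that
`q (X + m Y)` is a quadratic polynomial in `m`), so `k B ≤ q X + k^2 q Y`, and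
`q (X + Y) = q X + q Y + B`. -/
theorem quad_young {G : Type*} [AddCommGroup G] (q : G → ℝ) (h0 : ∀ P, 0 ≤ q P)
    (hq : ∀ P Q, q (P + Q) + q (P - Q) = 2 * q P + 2 * q Q) (k : ℕ) (hk : 1 ≤ k) (X Y : G) :
    q (X + Y) ≤ (1 + 1 / (k : ℝ)) * q X + (1 + k) * q Y := by
  have hk0 : (0 : ℝ) < k := by exact_mod_cast hk
  have h1 := h0 (X - k • Y)
  rw [(C3a_prog q hq X Y k).1] at h1
  have h2 : q (X + Y) - q X - q Y ≤ 1 / (k : ℝ) * q X + k * q Y := by
    have h3 : (k : ℝ) * (q (X + Y) - q X - q Y) ≤ q X + (k : ℝ) ^ 2 * q Y := by linarith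
    refine le_of_mul_le_mul_left ?_ hk0
    calc (k : ℝ) * (q (X + Y) - q X - q Y) ≤ q X + (k : ℝ) ^ 2 * q Y := h3
      _ = k * (1 / (k : ℝ) * q X + k * q Y) := by field_simp
  linarith

/-- Proof. `parallelogram_unif` (RV/U3) and `exists_quadratic_explicit` (RV/U4) over `L` with the constant
`C [L : ℚ]` (`logHeight (0 : Point).xRep = 0`: `K2b_zero`) give `q` with `|q - h| ≤ C [L : ℚ]`;
`quadratic_zsmul` (RO/A2), `quad_young` for `X = ℓ Q`, `Y = R` and for `X = R + ℓ Q`, `Y = -R`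
(`q (-R) = q R`). -/
theorem height_young {K : Type u} [Field K] [NumberField K] (W : WeierstrassCurve K)
    [W.IsElliptic] (k : ℕ) (hk : 1 ≤ k) (ℓ : ℤ) :
    ∃ C : ℝ, 0 ≤ C ∧ ∀ (L : Type u) [Field L] [NumberField L] [DecidableEq L] [Algebra K L]
      (V : WeierstrassCurve L), W.map (algebraMap K L) = V → ∀ Q R : V.toAffine.Point,
        (ℓ : ℝ) ^ 2 * logHeight Q.xRep ≤ (1 + 1 / (k : ℝ)) * logHeight (R + ℓ • Q).xRep +
          (1 + k) * logHeight R.xRep + C * Module.finrank ℚ L ∧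
        logHeight (R + ℓ • Q).xRep ≤ (1 + 1 / (k : ℝ)) * ((ℓ : ℝ) ^ 2 * logHeight Q.xRep) +
          (1 + k) * logHeight R.xRep + C * Module.finrank ℚ L := by
  obtain ⟨C, hC, hpar⟩ := parallelogram_unif W
  have hk0 : (0 : ℝ) < k := by exact_mod_cast hk
  refine ⟨C * ((1 + 1 / (k : ℝ)) * (ℓ : ℝ) ^ 2 + (1 + 1 / (k : ℝ)) + (1 + k) + (ℓ : ℝ) ^ 2 + 1),
    by positivity, fun L _ _ _ _ V hWV Q R => ?_⟩
  obtain ⟨q, hq1, hq2, hq3⟩ := exists_quadratic_explicit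
    (fun R : V.toAffine.Point => logHeight R.xRep) (K2b_zero V)
    (fun R => logHeight_nonneg _) _ (hpar L V hWV)
  obtain ⟨D, hD⟩ : ∃ D : ℝ, C * (Module.finrank ℚ L : ℝ) = D := ⟨_, rfl⟩
  have hD0 : 0 ≤ D := by rw [← hD]; positivity
  rw [hD] at hq1
  have hCD : C * ((1 + 1 / (k : ℝ)) * (ℓ : ℝ) ^ 2 + (1 + 1 / (k : ℝ)) + (1 + k) + (ℓ : ℝ) ^ 2 + 1) *
      (Module.finrank ℚ L : ℝ) =
      ((1 + 1 / (k : ℝ)) * (ℓ : ℝ) ^ 2 + (1 + 1 / (k : ℝ)) + (1 + k) + (ℓ : ℝ) ^ 2 + 1) * D := by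
    rw [← hD]
    ring
  rw [hCD]
  have hz := quadratic_zsmul q hq3 Q ℓ
  have hneg : q (-R) = q R := by
    have h := quadratic_zsmul q hq3 R (-1)
    rw [neg_one_smul] at h
    rw [h]
    norm_num
  have hQ := abs_le.1 (hq1 Q)
  have hR := abs_le.1 (hq1 R)
  have hRQ := abs_le.1 (hq1 (R + ℓ • Q))
  have hk1 : 0 ≤ 1 / (k : ℝ) := by positivity
  have hl2 : 0 ≤ (ℓ : ℝ) ^ 2 := sq_nonneg _
  constructor
  · have h1 := quad_young q hq2 hq3 k hk (R + ℓ • Q) (-R)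
    have e : R + ℓ • Q + -R = ℓ • Q := by abel
    rw [e, hz, hneg] at h1
    have a1 : (ℓ : ℝ) ^ 2 * (logHeight Q.xRep - D) ≤ (ℓ : ℝ) ^ 2 * q Q :=
      mul_le_mul_of_nonneg_left (by linarith) hl2
    have a2 : (1 + 1 / (k : ℝ)) * q (R + ℓ • Q) ≤
        (1 + 1 / (k : ℝ)) * (logHeight (R + ℓ • Q).xRep + D) :=
      mul_le_mul_of_nonneg_left (by linarith) (by positivity)
    have a3 : (1 + (k : ℝ)) * q R ≤ (1 + (k : ℝ)) * (logHeight R.xRep + D) :=
      mul_le_mul_of_nonneg_left (by linarith) (by positivity)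
    have a4 : 0 ≤ ((1 + 1 / (k : ℝ)) * (ℓ : ℝ) ^ 2 + 1) * D := by positivity
    linarith
  · have h1 := quad_young q hq2 hq3 k hk (ℓ • Q) R
    rw [add_comm (ℓ • Q) R, hz] at h1
    have a1 : (1 + 1 / (k : ℝ)) * ((ℓ : ℝ) ^ 2 * q Q) ≤
        (1 + 1 / (k : ℝ)) * ((ℓ : ℝ) ^ 2 * (logHeight Q.xRep + D)) :=
      mul_le_mul_of_nonneg_left (mul_le_mul_of_nonneg_left (by linarith) hl2) (by positivity)
    have a3 : (1 + (k : ℝ)) * q R ≤ (1 + (k : ℝ)) * (logHeight R.xRep + D) :=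
      mul_le_mul_of_nonneg_left (by linarith) (by positivity)
    have a4 : 0 ≤ ((1 + 1 / (k : ℝ)) + (ℓ : ℝ) ^ 2) * D := by positivity
    linarith

end Pool.Agent.Lib.MP_17a322_nt.PB
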