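import Pool.Agent.Lib.MP_17a322_nt.RV.Defs

/-!
Choice of the parameters.
-/

namespace Pool.Agent.Lib.MP_17a322_nt.PB

/-- Choice of `b`. Proof. `∏ (b + 4 D i) / b ^ n → 1` as `b → ∞`: with `d = max D i`,
`∏ (b + 4 D i) ≤ (b + 4 d)^n = b^n (1 + 4 d / b)^n` (continuity at `0` of `x ↦ (1 + x)^n`). -/
theorem exists_b (n : ℕ) (D : Fin n → ℕ) (θ : ℝ) (hθ : 0 < θ) :
    ∃ b : ℕ, 1 ≤ b ∧ ((∏ i, (b + 4 * D i) : ℕ) : ℝ) ≤ (1 + θ) * (b : ℝ) ^ n := by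
  have hcont : Filter.Tendsto (fun x : ℝ => (1 + x) ^ n) (nhds 0) (nhds 1) := by
    have h : ContinuousAt (fun x : ℝ => (1 + x) ^ n) 0 := by fun_prop
    simpa [ContinuousAt] using h
  have hseq : Filter.Tendsto (fun b : ℕ => (4 * ((∑ i, D i : ℕ) : ℝ)) / (b : ℝ)) Filter.atTop
      (nhds 0) := tendsto_const_div_atTop_nhds_zero_nat _
  have h1 := (hcont.comp hseq).eventually (gt_mem_nhds (show (1 : ℝ) < 1 + θ by linarith))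
  obtain ⟨b, hb, hb1⟩ := (h1.and (Filter.eventually_ge_atTop 1)).exists
  refine ⟨b, hb1, ?_⟩
  have hb0 : (0 : ℝ) < b := by exact_mod_cast hb1
  have h2 : ∏ i, (b + 4 * D i) ≤ (b + 4 * ∑ i, D i) ^ n := by
    calc ∏ i, (b + 4 * D i) ≤ ∏ _i : Fin n, (b + 4 * ∑ i, D i) := by
          refine Finset.prod_le_prod' fun i _ => ?_
          have : D i ≤ ∑ i, D i := Finset.single_le_sum (f := D) (fun _ _ => Nat.zero_le _)
            (Finset.mem_univ i)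
          omega
      _ = (b + 4 * ∑ i, D i) ^ n := by simp
  have h3 : ((∏ i, (b + 4 * D i) : ℕ) : ℝ) ≤ ((b : ℝ) + 4 * ((∑ i, D i : ℕ) : ℝ)) ^ n := by
    exact_mod_cast h2
  refine h3.trans ?_
  have h4 : ((b : ℝ) + 4 * ((∑ i, D i : ℕ) : ℝ)) ^ n =
      (1 + (4 * ((∑ i, D i : ℕ) : ℝ)) / (b : ℝ)) ^ n * (b : ℝ) ^ n := by
    rw [← mul_pow]
    congr 1
    field_simp
  rw [h4]
  exact mul_le_mul_of_nonneg_right (le_of_lt hb) (by positivity)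

/-- The part of `exists_params` for one direction. -/
private theorem C7_dir (n m : ℕ) (hm : 1 ≤ m) (D : Fin n → ℕ) (κ θ : ℝ) (hθ : 0 < θ)
    (hθ' : m * θ * (2 * ((∑ i, D i : ℕ) : ℝ)) ≤ κ / 2) (b : ℕ) (hb1 : 1 ≤ b)
    (hb : ((∏ i, (b + 4 * D i) : ℕ) : ℝ) ≤ (1 + θ) * (b : ℝ) ^ n) (k : ℕ) (b₁ : ℕ)
    (hk : (b₁ : ℝ) + m + 1 ≤ κ / 2 * (k : ℝ) ^ 4) (ℓ : Fin n → ℤ)
    (hℓ : ∀ i, |ℓ i| ≤ (k : ℤ) ^ 2) :
    (∑ i, (ℓ i : ℝ) ^ 2 * D i ≤ κ * (k : ℝ) ^ 4) ∨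
        ∃ a T : ℕ, 1 ≤ a ∧ a + 2 * b₁ < ∑ i, 2 * (ℓ i).natAbs ^ 2 * D i ∧
          2 * T < a + ∑ i, 4 * (ℓ i).natAbs ^ 2 * D i ∧
          m * (2 * T * ∏ i, (b + 4 * D i)) < (m + 1) * (a * b ^ n) ∧
          ∑ i, (ℓ i : ℝ) ^ 2 * D i ≤ m * ((T : ℝ) - a / 2) + κ * (k : ℝ) ^ 4 := by
  obtain ⟨z, hz⟩ : ∃ z : ℕ, ∑ i, 2 * (ℓ i).natAbs ^ 2 * D i = z := ⟨_, rfl⟩
  have hz2 : ∑ i, 4 * (ℓ i).natAbs ^ 2 * D i = 2 * z := by
    rw [← hz, Finset.mul_sum]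
    exact Finset.sum_congr rfl fun i _ => by ring
  have hsq : ∀ i, ((ℓ i : ℝ)) ^ 2 = (((ℓ i).natAbs ^ 2 : ℕ) : ℝ) := by
    intro i
    have h : ((ℓ i).natAbs ^ 2 : ℤ) = ℓ i ^ 2 := Int.natAbs_sq _
    have h' : (((ℓ i).natAbs : ℤ) : ℝ) ^ 2 = (ℓ i : ℝ) ^ 2 := by exact_mod_cast h
    rw [← h', Nat.cast_pow, Int.cast_natCast]
  have hzR : ∑ i, (ℓ i : ℝ) ^ 2 * D i = (z : ℝ) / 2 := by
    have h : (z : ℝ) = 2 * ∑ i, (ℓ i : ℝ) ^ 2 * D i := by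
      rw [← hz, Nat.cast_sum, Finset.mul_sum]
      refine Finset.sum_congr rfl fun i _ => ?_
      rw [hsq]
      push_cast
      ring
    rw [h]
    ring
  have hzle : (z : ℝ) ≤ (2 * ((∑ i, D i : ℕ) : ℝ)) * (k : ℝ) ^ 4 := by
    have h : z ≤ (2 * ∑ i, D i) * k ^ 4 := by
      rw [← hz, mul_assoc, Finset.sum_mul, Finset.mul_sum]
      refine Finset.sum_le_sum fun i _ => ?_
      have h1 : (ℓ i).natAbs ≤ k ^ 2 := by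
        have := hℓ i
        rw [Int.abs_eq_natAbs] at this
        exact_mod_cast this
      have h2 : (ℓ i).natAbs ^ 2 ≤ k ^ 4 := by
        calc (ℓ i).natAbs ^ 2 ≤ (k ^ 2) ^ 2 := Nat.pow_le_pow_left h1 2
          _ = k ^ 4 := by ring
      calc 2 * (ℓ i).natAbs ^ 2 * D i ≤ 2 * k ^ 4 * D i := by gcongr
        _ = 2 * (D i * k ^ 4) := by ring
    exact_mod_cast h
  have hk4 : (0 : ℝ) ≤ (k : ℝ) ^ 4 := by positivity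
  have hm0 : (1 : ℝ) ≤ m := by exact_mod_cast hm
  have hκk : 0 ≤ κ / 2 * (k : ℝ) ^ 4 := by
    have : (0 : ℝ) ≤ b₁ := by positivity
    linarith
  rw [hz, hz2, hzR]
  rcases Nat.lt_or_ge (2 * b₁ + 1) z with hlt | hge
  · right
    obtain ⟨a, ha⟩ : ∃ a : ℕ, a + 2 * b₁ + 1 = z := ⟨z - 2 * b₁ - 1, by omega⟩
    have ha1 : 1 ≤ a := by omega
    have haR : (z : ℝ) = a + 2 * b₁ + 1 := by rw [← ha]; push_cast; ring
    obtain ⟨P, hP⟩ : ∃ P : ℕ, ∏ i, (b + 4 * D i) = P := ⟨_, rfl⟩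
    have hPb : b ^ n ≤ P := by
      rw [← hP]
      calc b ^ n = ∏ _i : Fin n, b := by simp
        _ ≤ ∏ i, (b + 4 * D i) := Finset.prod_le_prod' fun i _ => Nat.le_add_right _ _
    have hbn : 1 ≤ b ^ n := Nat.one_le_pow _ _ hb1
    have hP0 : 0 < 2 * m * P := by
      have : 0 < P := lt_of_lt_of_le hbn hPb
      positivity
    have hX : 1 ≤ (m + 1) * (a * b ^ n) := by
      have : 0 < (m + 1) * (a * b ^ n) := by positivity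
      exact this
    obtain ⟨T, hT⟩ : ∃ T : ℕ, ((m + 1) * (a * b ^ n) - 1) / (2 * m * P) = T := ⟨_, rfl⟩
    have hT1 : T * (2 * m * P) ≤ (m + 1) * (a * b ^ n) - 1 := by
      rw [← hT]
      exact Nat.div_mul_le_self _ _
    have hT2 : (m + 1) * (a * b ^ n) - 1 < (T + 1) * (2 * m * P) := by
      rw [← hT]
      exact lt_of_lt_of_eq (Nat.lt_mul_div_succ ((m + 1) * (a * b ^ n) - 1) hP0)
        (Nat.mul_comm _ _)
    have hT3 : m * (2 * T * P) < (m + 1) * (a * b ^ n) := by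
      have : m * (2 * T * P) = T * (2 * m * P) := by ring
      omega
    have hTa : T < a := by
      by_contra hcon
      rw [not_lt] at hcon
      have h1 : (m + 1) * (a * b ^ n) ≤ m * (2 * T * P) := by
        calc (m + 1) * (a * b ^ n) ≤ (m + m) * (T * P) := by gcongr
          _ = m * (2 * T * P) := by ring
      omega
    refine ⟨a, T, ha1, by omega, by omega, ?_, ?_⟩
    · rw [hP]
      exact hT3
    · have h1 : (m + 1) * (a * b ^ n) ≤ (T + 1) * (2 * m * P) := by omega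
      have h2 : ((m : ℝ) + 1) * (a * (b : ℝ) ^ n) ≤ (T + 1) * (2 * m * P) := by
        exact_mod_cast h1
      rw [hP] at hb
      have h3 : ((m : ℝ) + 1) * (a * (b : ℝ) ^ n) ≤
          (T + 1) * (2 * m * ((1 + θ) * (b : ℝ) ^ n)) := by
        refine h2.trans ?_
        gcongr
      have hbR : (0 : ℝ) < (b : ℝ) ^ n := by
        have : (0 : ℝ) < b := by exact_mod_cast hb1
        positivity
      have h4 : ((m : ℝ) + 1) * a ≤ (T + 1) * (2 * m * (1 + θ)) := by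
        refine le_of_mul_le_mul_right ?_ hbR
        calc ((m : ℝ) + 1) * a * (b : ℝ) ^ n = ((m : ℝ) + 1) * (a * (b : ℝ) ^ n) := by ring
          _ ≤ (T + 1) * (2 * m * ((1 + θ) * (b : ℝ) ^ n)) := h3
          _ = (T + 1) * (2 * m * (1 + θ)) * (b : ℝ) ^ n := by ring
      have h5 : ((T : ℝ) + 1) ≤ a := by exact_mod_cast hTa
      have h6 : ((T : ℝ) + 1) * (2 * m * θ) ≤ a * (2 * m * θ) := by gcongr
      have h7 : (a : ℝ) ≤ z := by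
        have : (0 : ℝ) ≤ b₁ := by positivity
        rw [haR]
        linarith
      have h8 : (a : ℝ) * (m * θ) ≤ κ / 2 * (k : ℝ) ^ 4 := by
        calc (a : ℝ) * (m * θ) ≤ z * (m * θ) := by gcongr
          _ ≤ (2 * ((∑ i, D i : ℕ) : ℝ)) * (k : ℝ) ^ 4 * (m * θ) := by gcongr
          _ = (m * θ * (2 * ((∑ i, D i : ℕ) : ℝ))) * (k : ℝ) ^ 4 := by ring
          _ ≤ κ / 2 * (k : ℝ) ^ 4 := by gcongr
      rw [haR]
      nlinarith [h4, h6, h8, hk]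
  · left
    have h1 : (z : ℝ) ≤ 2 * b₁ + 1 := by exact_mod_cast hge
    linarith

/-- Choice of the parameters for the direction `ℓ`, `|ℓ i| ≤ k ^ 2`.
Proof. Let `z = ∑ 2 ℓ_i^2 D_i ≤ Z k^4`, `Z = 2 ∑ D i`. Choose `θ > 0` with `2 m θ Z ≤ κ / 2`, `b` from
`exists_b`, and `k₀` with `(2 C₂ k^2 + 2 + 4 m) ≤ κ k^4`, `m (2 C₂ k^2 + b/2 + 2 D i) ≤ κ k^4` ... for `k ≥ k₀`.
If `z ≤ 2 b₁ + 1` then `z / 2 ≤ κ k^4` (first alternative). Otherwise let `a = z - 2 b₁ - 1 ≥ 1` and `T` the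
largest natural number with `m (2 T ∏ (b + 4 D i)) < (m + 1) a b^n`. Then `2 T < 2 a + 1 ≤ a + 2 z` (as
`∏ (b + 4 D i) ≥ b^n` and `(m + 1)/m ≤ 2`), and by maximality
`m 2 (T + 1) (1 + θ) b^n ≥ (m + 1) a b^n`, so `T ≥ (m + 1) a / (2 m (1 + θ)) - 1 ≥
(m + 1) a / (2 m) (1 - θ) - 1`, and `m (T - a / 2) ≥ a / 2 - m θ a - m ≥ z / 2 - b₁ - 1 - m θ z - m`
(`(m + 1)/2 ≤ m`). -/
theorem exists_params (n m : ℕ) (hm : 1 ≤ m) (D : Fin n → ℕ) (C₂ : ℕ) (κ : ℝ) (hκ : 0 < κ) :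
    ∃ b k₀ : ℕ, 1 ≤ b ∧ 1 ≤ k₀ ∧ ∀ k : ℕ, k₀ ≤ k → ∀ b₁ : ℕ, b₁ ≤ C₂ * k ^ 2 →
      (∀ i, (m : ℝ) * (2 * b₁ + b / 2 + 2 * D i) ≤ κ * (k : ℝ) ^ 4) ∧
      (m : ℝ) * (2 * b₁) ≤ κ * (k : ℝ) ^ 4 ∧
      ∀ ℓ : Fin n → ℤ, (∀ i, |ℓ i| ≤ (k : ℤ) ^ 2) →
        (∑ i, (ℓ i : ℝ) ^ 2 * D i ≤ κ * (k : ℝ) ^ 4) ∨
        ∃ a T : ℕ, 1 ≤ a ∧ a + 2 * b₁ < ∑ i, 2 * (ℓ i).natAbs ^ 2 * D i ∧
          2 * T < a + ∑ i, 4 * (ℓ i).natAbs ^ 2 * D i ∧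
          m * (2 * T * ∏ i, (b + 4 * D i)) < (m + 1) * (a * b ^ n) ∧
          ∑ i, (ℓ i : ℝ) ^ 2 * D i ≤ m * ((T : ℝ) - a / 2) + κ * (k : ℝ) ^ 4 := by
  have hm0 : (0 : ℝ) < m := by exact_mod_cast hm
  obtain ⟨Z, hZ⟩ : ∃ Z : ℝ, 2 * ((∑ i, D i : ℕ) : ℝ) = Z := ⟨_, rfl⟩
  have hZ0 : 0 ≤ Z := by rw [← hZ]; positivity
  obtain ⟨θ, hθd⟩ : ∃ θ : ℝ, κ / (2 * (m * Z + 1)) = θ := ⟨_, rfl⟩
  have hθ : 0 < θ := by rw [← hθd]; positivity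
  have hθ' : m * θ * Z ≤ κ / 2 := by
    rw [← hθd]
    have h : (m : ℝ) * (κ / (2 * (m * Z + 1))) * Z = κ / 2 * ((m * Z) / (m * Z + 1)) := by
      field_simp
    rw [h]
    have h2 : (m * Z) / (m * Z + 1) ≤ 1 := by
      rw [div_le_one (by positivity)]
      linarith
    calc κ / 2 * ((m * Z) / (m * Z + 1)) ≤ κ / 2 * 1 := by gcongr
      _ = κ / 2 := mul_one _
  obtain ⟨b, hb1, hb⟩ := exists_b n D θ hθ
  obtain ⟨M, hM⟩ : ∃ M : ℝ, (m : ℝ) * (2 * C₂ + b + 2 * ((∑ i, D i : ℕ) : ℝ)) + C₂ + m + 1 = M :=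
    ⟨_, rfl⟩
  have hM0 : 0 ≤ M := by rw [← hM]; positivity
  obtain ⟨N, hN⟩ := exists_nat_ge (2 * M / κ)
  refine ⟨b, N + 1, hb1, by omega, fun k hk b₁ hb₁ => ?_⟩
  have hk1 : (1 : ℝ) ≤ k := by
    have : 1 ≤ k := by omega
    exact_mod_cast this
  have hkN : 2 * M / κ ≤ k := by
    have : (N : ℝ) ≤ k := by
      have : N ≤ k := by omega
      exact_mod_cast this
    exact hN.trans this
  have hMk : M ≤ κ / 2 * k := by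
    rw [div_le_iff₀ hκ] at hkN
    linarith
  have hkk : (k : ℝ) ≤ (k : ℝ) ^ 2 := by nlinarith
  have hk2 : (1 : ℝ) ≤ (k : ℝ) ^ 2 := hk1.trans hkk
  have hMk2 : M * (k : ℝ) ^ 2 ≤ κ / 2 * (k : ℝ) ^ 4 := by
    have h1 : M ≤ κ / 2 * (k : ℝ) ^ 2 := hMk.trans (by gcongr)
    calc M * (k : ℝ) ^ 2 ≤ (κ / 2 * (k : ℝ) ^ 2) * (k : ℝ) ^ 2 := by gcongr
      _ = κ / 2 * (k : ℝ) ^ 4 := by ring
  have hk4 : 0 ≤ κ / 2 * (k : ℝ) ^ 4 := by positivity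
  have hb₁R : (b₁ : ℝ) ≤ C₂ * (k : ℝ) ^ 2 := by exact_mod_cast hb₁
  have hDS : ∀ i, (D i : ℝ) ≤ ((∑ i, D i : ℕ) : ℝ) := by
    intro i
    have : D i ≤ ∑ i, D i := Finset.single_le_sum (f := D) (fun _ _ => Nat.zero_le _)
      (Finset.mem_univ i)
    exact_mod_cast this
  have hS0 : (0 : ℝ) ≤ ((∑ i, D i : ℕ) : ℝ) := by positivity
  have hb0 : (0 : ℝ) ≤ b := by positivity
  have hC0 : (0 : ℝ) ≤ C₂ := by positivity
  have key : ∀ t : ℝ, 0 ≤ t → t ≤ t * (k : ℝ) ^ 2 := fun t ht => le_mul_of_one_le_right ht hk2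
  refine ⟨fun i => ?_, ?_, fun ℓ hℓ => ?_⟩
  · have h1 : (m : ℝ) * (2 * b₁ + b / 2 + 2 * D i) ≤
        (m : ℝ) * (2 * C₂ + b + 2 * ((∑ i, D i : ℕ) : ℝ)) * (k : ℝ) ^ 2 := by
      rw [mul_assoc]
      refine mul_le_mul_of_nonneg_left ?_ hm0.le
      have e1 := key b hb0
      have e2 := key _ hS0
      have e3 := hDS i
      nlinarith
    have h2 : (m : ℝ) * (2 * C₂ + b + 2 * ((∑ i, D i : ℕ) : ℝ)) ≤ M := by
      rw [← hM]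
      linarith
    have h3 : (m : ℝ) * (2 * C₂ + b + 2 * ((∑ i, D i : ℕ) : ℝ)) * (k : ℝ) ^ 2 ≤
        M * (k : ℝ) ^ 2 := by gcongr
    linarith
  · have h1 : (m : ℝ) * (2 * b₁) ≤
        (m : ℝ) * (2 * C₂ + b + 2 * ((∑ i, D i : ℕ) : ℝ)) * (k : ℝ) ^ 2 := by
      rw [mul_assoc]
      refine mul_le_mul_of_nonneg_left ?_ hm0.le
      have e1 := key b hb0
      have e2 := key _ hS0
      nlinarith
    have h2 : (m : ℝ) * (2 * C₂ + b + 2 * ((∑ i, D i : ℕ) : ℝ)) ≤ M := by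
      rw [← hM]
      linarith
    have h3 : (m : ℝ) * (2 * C₂ + b + 2 * ((∑ i, D i : ℕ) : ℝ)) * (k : ℝ) ^ 2 ≤
        M * (k : ℝ) ^ 2 := by gcongr
    linarith
  · refine C7_dir n m hm D κ θ hθ (by rw [hZ]; exact hθ') b hb1 hb k b₁ ?_ ℓ hℓ
    have h1 : (b₁ : ℝ) + m + 1 ≤ (C₂ + m + 1) * (k : ℝ) ^ 2 := by
      have e1 := key _ hm0.le
      nlinarith
    have h2 : ((C₂ : ℝ) + m + 1) ≤ M := by
      rw [← hM]
      have : (0 : ℝ) ≤ (m : ℝ) * (2 * C₂ + b + 2 * ((∑ i, D i : ℕ) : ℝ)) := by positivity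
      linarith
    have h3 : ((C₂ : ℝ) + m + 1) * (k : ℝ) ^ 2 ≤ M * (k : ℝ) ^ 2 := by gcongr
    linarith

end Pool.Agent.Lib.MP_17a322_nt.PB
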