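import Pool.Agent.Lib.MP_17a322_nt.PB.C3b
import Pool.Agent.Lib.MP_17a322_nt.RV.H5
import Pool.Agent.Lib.MP_17a322_nt.RV.K2b
import Pool.Agent.Lib.MP_17a322_nt.RV.M1

/-!
The lower bounds in all directions of bounded size.
-/

namespace Pool.Agent.Lib.MP_17a322_nt.PB

open MvPolynomial WeierstrassCurve Height
open Pool.Agent.Lib.MP_17a322_nt.RO Pool.Agent.Lib.MP_17a322_nt.RV

universe u

/-- Proof. `n = d + 2`; `hilbert` (RV/H5) for `d` gives `C₁`, `e₀`, `exists_degree` (RV/M1) for `s = 1` (`d + 1 + 1 = n * 1`)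
gives `C₂` and `b₁` for every `k ≥ 1`. Apply `core` (RV/K2b) with `J = Unit`, `B = Fin n`, `c i = ()`. Its `hcard` is the
inequality of `exists_degree` for `ℓ' (i, 0) = ℓ i`: `Fintype.card (Fin n × Fin 1) = n`, the product over
`Fin 1` resp. `Unit` has one factor and the sums agree (`Equiv.prodUnique`/`Fintype.sum_equiv`). `Core` (PB/C3) is
the conclusion of `core` for `Q` constant. -/
theorem exists_core {K : Type u} [Field K] [NumberField K] (W : WeierstrassCurve K)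
    [W.IsElliptic] {n : ℕ} (hn : 1 < n) {ι : Type} [Fintype ι] (D : Fin n → ℕ)
    (g : ι → MvPolynomial (Fin n × Fin 2) K) (hg : ∀ j, MH (g j) D) (hdim : DimLT g (n - 1)) :
    ∃ C₂ : ℕ, ∀ k : ℕ, 1 ≤ k → ∃ b₁ : ℕ, b₁ ≤ C₂ * k ^ 2 ∧ ∀ ℓ : Fin n → ℤ,
      (∀ i, |ℓ i| ≤ (k : ℤ) ^ 2) → ∃ G : MvPolynomial ((Unit ⊕ Fin n) × Fin 2) K,
        MH G (fun _ => b₁) ∧ G ≠ 0 ∧ Core W D g ℓ b₁ G := by
  obtain ⟨d, hd⟩ : ∃ d, n = d + 2 := ⟨n - 2, by omega⟩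
  have hdim' : DimLT g (d + 1) := by
    have e : n - 1 = d + 1 := by omega
    rw [e] at hdim
    exact hdim
  obtain ⟨C₁, e₀, hD', hilb⟩ := hilbert D g hg d hdim'
  obtain ⟨C₂, h2⟩ := exists_degree n 1 d C₁ e₀ le_rfl hn (by omega)
  refine ⟨C₂, fun k hk => ?_⟩
  obtain ⟨b, hb1, hbe, hbC, hcard⟩ := h2 k hk
  refine ⟨b, by simpa using hbC, fun ℓ hℓ => ?_⟩
  have h3 := hcard (fun i => ℓ i.1) (fun i => by simpa using hℓ i.1)
  have h4 : 4 ^ Fintype.card (Fin n) *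
      (∏ j : Unit, (b + ∑ i : Fin n with (fun _ => () : Fin n → Unit) i = j,
        2 * (ℓ i).natAbs ^ 2 * b + 1)) *
          (C₁ * (2 * b + 1) ^ d) < (b + 1) ^ (Fintype.card Unit + Fintype.card (Fin n)) := by
    have e1 : ∀ j : Fin 1, (∑ i : Fin n × Fin 1 with i.2 = j, 2 * (ℓ i.1).natAbs ^ 2 * b) =
        ∑ i : Fin n, 2 * (ℓ i).natAbs ^ 2 * b := by
      intro j
      rw [Finset.filter_true_of_mem (fun i _ => Subsingleton.elim _ _), Fintype.sum_prod_type]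
      simp
    simp only [e1] at h3
    simpa using h3
  obtain ⟨G, hG, hG0, C, hC, h⟩ := core W (fun _ => ()) D g hg d C₁ e₀ hD' hilb ℓ b hb1 hbe h4
  refine ⟨G, hG, hG0, C, hC, ?_⟩
  intro L _ _ _ _ V hV Q P hne
  have h5 := h L V hV (fun _ => Q) P hne
  refine ⟨h5.1, ?_⟩
  simpa using h5.2

end Pool.Agent.Lib.MP_17a322_nt.PB
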