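import Pool.Agent.Lib.MP_17a322_nt.PB.C6b
import Pool.Agent.Lib.MP_17a322_nt.PB.C7
import Pool.Agent.Lib.MP_17a322_nt.PB.C9a

/-!
The inequality in all directions of bounded size.
-/

namespace Pool.Agent.Lib.MP_17a322_nt.PB

open MvPolynomial WeierstrassCurve Height
open Pool.Agent.Lib.MP_17a322_nt.RO Pool.Agent.Lib.MP_17a322_nt.RV

universe u

theorem C9b_mono {K : Type u} [Field K] [NumberField K] (W : WeierstrassCurve K) {n : ℕ} {ι : Type}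
    [Fintype ι] [DecidableEq ι] (g : ι → MvPolynomial (Fin n × Fin 2) K) (ℓ : Fin n → ℤ) (j₀ : ι)
    {A A₁ B₁ m : ℝ} {R : MvPolynomial ((Fin n ⊕ {j // j ≠ j₀}) × Fin 2) K} {M : ℕ}
    (hB : 0 ≤ B₁) (hA : A₁ ≤ A + B₁) (hD : Dir W g ℓ j₀ A B₁ m R M) :
    Dir W g ℓ j₀ A₁ (2 * B₁) m R M := by
  intro CA
  obtain ⟨C, hC0, hC⟩ := hD CA
  refine ⟨C, hC0, ?_⟩
  intro L _ _ _ _ V hV P Q A' t S hS hM hCA hsum hR
  obtain ⟨Q', h1, h2, h3⟩ := hC L V hV P Q A' t S hS hM hCA hsum hR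
  refine ⟨Q', h1, h2, ?_⟩
  have h4 : 0 ≤ logHeight Q'.xRep := logHeight_nonneg _
  have h5 : 0 ≤ ∑ i, logHeight (P i - ℓ i • Q').xRep := Finset.sum_nonneg fun _ _ => logHeight_nonneg _
  have h6 : A₁ * logHeight Q'.xRep ≤ (A + B₁) * logHeight Q'.xRep :=
    mul_le_mul_of_nonneg_right hA h4
  have h7 : 0 ≤ B₁ * ∑ i, logHeight (P i - ℓ i • Q').xRep := mul_nonneg hB h5
  nlinarith

theorem C9b_triv {K : Type u} [Field K] [NumberField K] (W : WeierstrassCurve K) {n : ℕ} {ι : Type}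
    [Fintype ι] [DecidableEq ι] (g : ι → MvPolynomial (Fin n × Fin 2) K) (ℓ : Fin n → ℤ) (j₀ : ι)
    {B₁ m : ℝ} (R : MvPolynomial ((Fin n ⊕ {j // j ≠ j₀}) × Fin 2) K) (M : ℕ)
    (hB : 0 ≤ B₁) (hm : 0 ≤ m) : Dir W g ℓ j₀ 0 B₁ m R M := by
  intro CA
  refine ⟨0, le_rfl, ?_⟩
  intro L _ _ _ _ V hV P Q A' t S hS hM hCA hsum hR
  have h4 : 0 ≤ logHeight Q.xRep := logHeight_nonneg _
  refine ⟨Q, by linarith, fun i => ?_, ?_⟩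
  · have h5 : 0 ≤ logHeight (P i - ℓ i • Q).xRep := logHeight_nonneg _
    linarith
  · have h5 : 0 ≤ ∑ i, logHeight (P i - ℓ i • Q).xRep := Finset.sum_nonneg fun _ _ => logHeight_nonneg _
    have h6 : 0 ≤ logHeight t := logHeight_nonneg _
    have h7 := mul_nonneg hB (add_nonneg h4 h5)
    have h8 := mul_nonneg hm h6
    linarith

/-- Proof. `C₂` from `exists_core`, `b`, `k₀` from `exists_params` for `m = |ι| - 1` and this `C₂`, `κ`. Given `k ≥ k₀` and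
`ℓ`: `b₁`, `G` from `exists_core`. If `∑ ℓ_i^2 D_i ≤ κ k^4` then `R = 1`, `M = 0`, `Q' = Q` do it (all heights are `≥ 0`).
Otherwise `direction` (PB/C6) with `a`, `T` and `B = κ k^4` gives `Dir` with `A = m (T - a/2)`; the same `R`, `M`, `Q'` do it,
as `∑ ℓ_i^2 D_i ≤ A + κ k^4`. -/
theorem dir_all {K : Type u} [Field K] [NumberField K] (W : WeierstrassCurve K)
    [W.IsElliptic] {n : ℕ} (hn : 1 < n) {ι : Type} [Fintype ι] [DecidableEq ι]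
    (hι : 2 ≤ Fintype.card ι) (D : Fin n → ℕ)
    (g : ι → MvPolynomial (Fin n × Fin 2) K) (hg : ∀ j, MH (g j) D) (hdim : DimLT g (n - 1))
    (j₀ : ι) (hj : g j₀ ≠ 0) (κ : ℝ) (hκ : 0 < κ) :
    ∃ k₀ : ℕ, 1 ≤ k₀ ∧ ∀ k : ℕ, k₀ ≤ k → ∀ ℓ : Fin n → ℤ, (∀ i, |ℓ i| ≤ (k : ℤ) ^ 2) →
      ∃ (R : MvPolynomial ((Fin n ⊕ {j // j ≠ j₀}) × Fin 2) K) (E : Fin n ⊕ {j // j ≠ j₀} → ℕ)
        (M : ℕ), MH R E ∧ R ≠ 0 ∧ Dir W g ℓ j₀ (∑ i, (ℓ i : ℝ) ^ 2 * D i) (2 * κ * (k : ℝ) ^ 4)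
          ((Fintype.card ι : ℝ) - 1) R M := by
  have hm : 1 ≤ Fintype.card ι - 1 := by omega
  obtain ⟨C₂, hC₂⟩ := exists_core W hn D g hg hdim
  obtain ⟨b, k₀, hb, hk₀, hpar⟩ := exists_params n (Fintype.card ι - 1) hm D C₂ κ hκ
  have hcast : ((Fintype.card ι - 1 : ℕ) : ℝ) = (Fintype.card ι : ℝ) - 1 := by
    rw [Nat.cast_sub (by omega), Nat.cast_one]
  have hm0 : (0 : ℝ) ≤ (Fintype.card ι : ℝ) - 1 := by
    rw [← hcast]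
    exact Nat.cast_nonneg _
  refine ⟨k₀, hk₀, fun k hk ℓ hℓ => ?_⟩
  have hκk : 0 ≤ κ * (k : ℝ) ^ 4 := by positivity
  obtain ⟨b₁, hb₁, hcore⟩ := hC₂ k (le_trans hk₀ hk)
  obtain ⟨G, hG, hG0, hcoreG⟩ := hcore ℓ hℓ
  obtain ⟨hB, hB', hchoice⟩ := hpar k hk b₁ hb₁
  rcases hchoice ℓ hℓ with h1 | ⟨a, T, ha, hab, hT, hcard, hfin⟩
  · refine ⟨1, 0, 0, isWeightedHomogeneous_one _ _, one_ne_zero, ?_⟩
    rw [mul_assoc]
    exact C9b_mono W g ℓ j₀ hκk (by linarith) (C9b_triv W g ℓ j₀ 1 0 hκk hm0)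
  · have hcard' : (Fintype.card ι - 1) * (2 * T * ∏ i, (b + 4 * D i)) <
        Fintype.card ι * (a * b ^ n) := by
      have h2 : Fintype.card ι - 1 + 1 = Fintype.card ι := by omega
      rwa [h2] at hcard
    rw [hcast] at hB' hfin
    have hB2 : ∀ i, ((Fintype.card ι : ℝ) - 1) * (2 * b₁ + b / 2 + 2 * D i) ≤ κ * (k : ℝ) ^ 4 := by
      intro i
      rw [← hcast]
      exact hB i
    obtain ⟨R, E, M, hR, hR0, hDir⟩ := direction W D g hg ℓ j₀ hj b₁ G (fun _ => b₁) hG hG0 hcoreG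
      a b T ha hb hab hT hcard' ((Fintype.card ι : ℝ) - 1) (κ * (k : ℝ) ^ 4) hm0 hB2 hB'
    refine ⟨R, E, M, hR, hR0, ?_⟩
    rw [mul_assoc]
    exact C9b_mono W g ℓ j₀ hκk hfin hDir

end Pool.Agent.Lib.MP_17a322_nt.PB
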