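import Pool.Agent.Lib.MP_17a322_nt.PB.C8
import Pool.Agent.Lib.MP_17a322_nt.PB.C9b
import Pool.Agent.Lib.MP_17a322_nt.PB.C3a
import Pool.Agent.Lib.MP_17a322_nt.RV.M3

/-!
The inequality for all points close to a point of rank at most one.
-/

namespace Pool.Agent.Lib.MP_17a322_nt.PB

open MvPolynomial WeierstrassCurve Height
open Pool.Agent.Lib.MP_17a322_nt.RO Pool.Agent.Lib.MP_17a322_nt.RV

universe u

/-- The sums of heights for the point `Q`. -/
theorem C10_group {G : Type*} [AddCommGroup G] (h q : G → ℝ) (hb : ∀ x, 0 ≤ h x)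
    (hq0 : ∀ x, 0 ≤ q x) (hqp : ∀ x y, q (x + y) + q (x - y) = 2 * q x + 2 * q y) (w : ℝ)
    (hup : ∀ x, h x ≤ q x + w) (hlo : ∀ x, q x ≤ h x + w) (n N : ℕ) (hN : 0 < N)
    (P P' : Fin n → G) (Q : G) (ℓ : Fin n → ℤ)
    (hround : q Q + ∑ i, q (P' i - ℓ i • Q) ≤ (n + 1) * 2 / (N : ℝ) ^ 2 * ∑ i, q (P' i))
    (hclose : ∑ i, h (P i - P' i) ≤ 1 / (N : ℝ) ^ 2 * ∑ i, h (P i)) :
    h Q + ∑ i, h (P i - ℓ i • Q) ≤ (2 + 16 * (n + 1)) / (N : ℝ) ^ 2 * ∑ i, h (P i) +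
      (3 * n + 1 + 16 * (n + 1) * n) * w := by
  have hw : 0 ≤ w := by
    have h1 := hup 0
    have h2 := hlo 0
    linarith
  have hN1 : (1 : ℝ) ≤ (N : ℝ) ^ 2 := by
    have h1 : (1 : ℝ) ≤ N := by exact_mod_cast hN
    nlinarith
  set θ : ℝ := 1 / (N : ℝ) ^ 2 with hθ
  have hθ0 : 0 ≤ θ := by positivity
  have hθ1 : θ ≤ 1 := by
    rw [hθ, div_le_one (by linarith)]
    exact hN1
  set H : ℝ := ∑ i, h (P i) with hH
  have hH0 : 0 ≤ H := Finset.sum_nonneg fun _ _ => hb _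
  have hsub : ∀ x y, q (x - y) ≤ 2 * q x + 2 * q y := fun x y => by
    have h1 := hqp x y
    have h2 := hq0 (x + y)
    linarith
  have hadd : ∀ x y, q (x + y) ≤ 2 * q x + 2 * q y := fun x y => by
    have h1 := hqp x y
    have h2 := hq0 (x - y)
    linarith
  have hsum : ∀ f : Fin n → ℝ, ∑ i, (f i + w) = ∑ i, f i + n * w := by
    intro f
    rw [Finset.sum_add_distrib, Finset.sum_const, Finset.card_univ, Fintype.card_fin,
      nsmul_eq_mul]
  have h1 : ∑ i, q (P' i) ≤ 2 * ∑ i, q (P i) + 2 * ∑ i, q (P i - P' i) := by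
    rw [Finset.mul_sum, Finset.mul_sum, ← Finset.sum_add_distrib]
    refine Finset.sum_le_sum fun i _ => ?_
    have e : P' i = P i - (P i - P' i) := by abel
    calc q (P' i) = q (P i - (P i - P' i)) := by rw [← e]
      _ ≤ _ := hsub _ _
  have h2 : ∑ i, q (P i - ℓ i • Q) ≤ 2 * ∑ i, q (P i - P' i) + 2 * ∑ i, q (P' i - ℓ i • Q) := by
    rw [Finset.mul_sum, Finset.mul_sum, ← Finset.sum_add_distrib]
    refine Finset.sum_le_sum fun i _ => ?_
    have e : P i - ℓ i • Q = (P i - P' i) + (P' i - ℓ i • Q) := by abel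
    rw [e]
    exact hadd _ _
  have h3 : ∑ i, q (P i) ≤ H + n * w := by
    rw [← hsum]
    exact Finset.sum_le_sum fun i _ => hlo _
  have h4 : ∑ i, q (P i - P' i) ≤ θ * H + n * w := by
    calc ∑ i, q (P i - P' i) ≤ ∑ i, (h (P i - P' i) + w) := Finset.sum_le_sum fun i _ => hlo _
      _ = ∑ i, h (P i - P' i) + n * w := hsum _
      _ ≤ _ := by linarith
  have h5 : ∑ i, h (P i - ℓ i • Q) ≤ ∑ i, q (P i - ℓ i • Q) + n * w := by
    rw [← hsum]
    exact Finset.sum_le_sum fun i _ => hup _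
  have h6 : ∑ i, q (P' i) ≤ 4 * H + 4 * (n * w) := by
    nlinarith
  have h7 : (n + 1) * 2 / (N : ℝ) ^ 2 * ∑ i, q (P' i) ≤
      (n + 1) * 2 * θ * (4 * H + 4 * (n * w)) := by
    have e : (n + 1) * 2 / (N : ℝ) ^ 2 = (n + 1) * 2 * θ := by
      rw [hθ]
      ring
    rw [e]
    exact mul_le_mul_of_nonneg_left h6 (by positivity)
  have h8 : (2 + 16 * (n + 1)) / (N : ℝ) ^ 2 * H = (2 + 16 * (n + 1)) * θ * H := by
    rw [hθ]
    ring
  have h9 : (n + 1 : ℝ) * 2 * θ * (4 * (n * w)) ≤ (n + 1) * 2 * (4 * (n * w)) := by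
    have h10 : 0 ≤ (n + 1 : ℝ) * 2 * (4 * (n * w)) := by positivity
    nlinarith
  have h11 := hup Q
  have h12 : (n + 1 : ℝ) * 2 * θ * (4 * H + 4 * (n * w)) =
      8 * ((n + 1) * θ * H) + (n + 1 : ℝ) * 2 * θ * (4 * (n * w)) := by ring
  have h13 : (2 + 16 * (n + 1)) * θ * H = 2 * (θ * H) + 16 * ((n + 1) * θ * H) := by ring
  have h14 : (3 * (n : ℝ) + 1 + 16 * (n + 1) * n) * w =
      3 * (n * w) + w + 16 * ((n + 1) * (n * w)) := by ring
  have h15 : (n + 1 : ℝ) * 2 * (4 * (n * w)) = 8 * ((n + 1) * (n * w)) := by ring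
  have h16 := hq0 Q
  rw [h12] at h7
  rw [h15] at h9
  rw [h8, h13, h14]
  linarith

/-- The final computation. -/
theorem C10_arith (SD A m κ N2 k' Ds c₀ C C₂ Cy H hQ hR ht w ε : ℝ) (hN2 : 0 < N2) (hk' : 1 ≤ k')
    (hκ : 0 ≤ κ) (hDs : 0 ≤ Ds) (hC : 0 ≤ C) (hC₂ : 0 ≤ C₂) (hH : 0 ≤ H)
    (hQ0 : 0 ≤ hQ) (ht0 : 0 ≤ ht) (hw : 0 ≤ w) (hc₀ : 0 ≤ c₀)
    (hdir : A * hQ ≤ m * ht + 2 * κ * N2 * (hQ + hR) + C * w)
    (hE : hQ + hR ≤ c₀ / N2 * H + C₂ * w)
    (hy : SD ≤ (1 + 1 / k') * (A * hQ) + (1 + k') * (Ds * hR) + Cy * w)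
    (h1 : 4 * κ * c₀ ≤ ε / 2) (h2 : (1 + k') * Ds * c₀ / N2 ≤ ε / 2) (h3 : m / k' ≤ ε) :
    SD ≤ (m + ε) * ht + ε * H + (2 * (2 * κ * N2 * C₂ + C) + (1 + k') * Ds * C₂ + Cy) * w := by
  have hk0 : 0 < k' := by linarith
  set u : ℝ := 1 + 1 / k' with hu
  have hu0 : 0 ≤ u := by positivity
  have hu2 : u ≤ 2 := by
    have : 1 / k' ≤ 1 := by
      rw [div_le_one hk0]
      exact hk'
    linarith
  have hum : u * m ≤ m + ε := by
    have : u * m = m + m / k' := by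
      rw [hu]
      ring
    linarith
  have e1 : 2 * κ * N2 * (hQ + hR) ≤ 2 * κ * N2 * (c₀ / N2 * H + C₂ * w) :=
    mul_le_mul_of_nonneg_left hE (by positivity)
  have e2 : 2 * κ * N2 * (c₀ / N2 * H + C₂ * w) = 2 * κ * c₀ * H + 2 * κ * N2 * C₂ * w := by
    field_simp
  have e3 : u * (A * hQ) ≤ u * (m * ht + 2 * κ * c₀ * H + (2 * κ * N2 * C₂ + C) * w) :=
    mul_le_mul_of_nonneg_left (by linarith) hu0
  have e4 : u * (m * ht) ≤ (m + ε) * ht := by
    rw [← mul_assoc]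
    exact mul_le_mul_of_nonneg_right hum ht0
  have e5 : u * (2 * κ * c₀ * H) ≤ ε / 2 * H := by
    have e6 : 0 ≤ 2 * κ * c₀ * H := by positivity
    calc u * (2 * κ * c₀ * H) ≤ 2 * (2 * κ * c₀ * H) := mul_le_mul_of_nonneg_right hu2 e6
      _ = (4 * κ * c₀) * H := by ring
      _ ≤ _ := mul_le_mul_of_nonneg_right h1 hH
  have e7 : u * ((2 * κ * N2 * C₂ + C) * w) ≤ 2 * ((2 * κ * N2 * C₂ + C) * w) :=
    mul_le_mul_of_nonneg_right hu2 (by positivity)
  have e8 : (1 + k') * (Ds * hR) ≤ (1 + k') * Ds * (c₀ / N2 * H + C₂ * w) := by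
    rw [← mul_assoc]
    exact mul_le_mul_of_nonneg_left (by linarith) (by positivity)
  have e9 : (1 + k') * Ds * (c₀ / N2 * H + C₂ * w) =
      (1 + k') * Ds * c₀ / N2 * H + (1 + k') * Ds * C₂ * w := by ring
  have e10 : (1 + k') * Ds * c₀ / N2 * H ≤ ε / 2 * H := mul_le_mul_of_nonneg_right h2 hH
  nlinarith

/-- Proof. Compare `main` in RV/M3 (same structure: choice of `N`, finite set of directions, product of the
forms, base change). Let `m = |ι| - 1 ≥ 1`, `c₀ = 4 + 32 (n + 1)`. Choose `k'` with `m / k' ≤ ε`, `κ` with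
`4 κ c₀ ≤ ε / 2`, and `k ≥ k₀` (from `dir_all` for `κ`) with `(1 + k') (∑ D i) c₀ / k^4 ≤ ε / 2`; `N = k^2`,
`δ = 1 / N^2`. For the finitely many `ℓ` with `|ℓ i| ≤ N` take `R_ℓ`, `M_ℓ`, put `R = ∏ R_ℓ`, `M = ∑ M_ℓ`, `CA` from `M3_CA` and the
constants `C_ℓ` of `Dir` for this `CA`. Given `L, P, P', t`: `σ, m', c` from `exists_span_basis` (RV/U5) for `P'`, `r = 1`; `ℓ` from
`exists_round` (RV/U4); `L', f, Q, A, S` from `exists_field'` (PB/C8) for the point `P' (σ 0)` and the `t j`, `j ≠ j₀`. Over `L'`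
with `q` from `exists_quadratic_explicit`: `height_round` (RV/U4, `r = 1`) gives
`q(Q) + ∑ q(f P'_i - ℓ_i Q) ≤ 2 (n + 1) / N^2 ∑ q(f P'_i)`, and `q(f P'_i) ≤ 2 q(f P_i) + 2 q(f (P_i - P'_i))`,
`q(f P_i - ℓ_i Q) ≤ 2 q(f (P_i - P'_i)) + 2 q(f P'_i - ℓ_i Q)`. With `H = ∑ h(f P_i)` and
`∑ h(f (P_i - P'_i)) ≤ δ H` (the hypothesis, multiplied by `[L' : L]`, `logHeight_algebraMap`) one gets
`h(Q) + ∑ h(f P_i - ℓ_i Q) ≤ (2 δ + 16 (n + 1) / N^2) H + C [L' : ℚ]`. `Dir` for `f P`, `Q`, the set of the `A ν`, the vector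
`algebraMap L L' ∘ t` gives `Q'` with `E = h(Q') + ∑ h(f P_i - ℓ_i Q') ≤ c₀ / N^2 H + C [L' : ℚ]` and
`(∑ ℓ_i^2 D_i) h(Q') ≤ m h(t) + 2 κ N^2 E + C [L' : ℚ]`. `height_young` (PB/C3, second part, `k'`) for `Q'`,
`R = f P_i - ℓ_i Q'`: `∑ D_i h(f P_i) ≤ (1 + 1/k') (∑ ℓ_i^2 D_i) h(Q') + (1 + k') (∑ D i) E + C [L' : ℚ]`. Together
`≤ (1 + 1/k') m h(t) + ε H + C [L' : ℚ]`. Divide by `[L' : L]`. -/
theorem main {K : Type u} [Field K] [NumberField K] (W : WeierstrassCurve K)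
    [W.IsElliptic] {n : ℕ} (hn : 1 < n) {ι : Type} [Fintype ι] [DecidableEq ι]
    (hι : 2 ≤ Fintype.card ι) (D : Fin n → ℕ)
    (g : ι → MvPolynomial (Fin n × Fin 2) K) (hg : ∀ j, MH (g j) D) (hdim : DimLT g (n - 1))
    (j₀ : ι) (hj : g j₀ ≠ 0) (ε : ℝ) (hε : 0 < ε) :
    ∃ δ : ℝ, 0 < δ ∧ ∃ (R : MvPolynomial ((Fin n ⊕ {j // j ≠ j₀}) × Fin 2) K)
      (E : Fin n ⊕ {j // j ≠ j₀} → ℕ), MH R E ∧ R ≠ 0 ∧ ∃ C : ℝ,
      ∀ (L : Type u) [Field L] [NumberField L] [DecidableEq L] [Algebra K L]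
        (P P' : Fin n → (W.map (algebraMap K L)).toAffine.Point) (t : ι → L),
        Module.finrank ℤ (Submodule.span ℤ (Set.range P')) ≤ 1 →
        ∑ i, logHeight (P i - P' i).xRep ≤ δ * ∑ i, logHeight (P i).xRep →
        ∑ j, evl (fun i => (P i).xRep) (g j) * t j = 0 →
        evl (Sum.elim (fun i => (P i).xRep) (fun j : {j // j ≠ j₀} => ![t j, 1])) R ≠ 0 →
          ∑ i, (D i : ℝ) * logHeight (P i).xRep ≤
            ((Fintype.card ι : ℝ) - 1 + ε) * logHeight t +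
              ε * ∑ i, logHeight (P i).xRep + C * Module.finrank ℚ L := by
  classical
  obtain ⟨Cp, hCp, hpar⟩ := parallelogram_unif W
  have hn0 : 0 < n := by omega
  set m : ℝ := (Fintype.card ι : ℝ) - 1 with hm
  have hm0 : 0 ≤ m := by
    have : (2 : ℝ) ≤ Fintype.card ι := by exact_mod_cast hι
    linarith
  set c₀ : ℝ := 4 + 32 * (n + 1) with hc₀
  have hc₀0 : 0 < c₀ := by positivity
  set Ds : ℝ := ∑ i, (D i : ℝ) with hDs
  have hDs0 : 0 ≤ Ds := Finset.sum_nonneg fun _ _ => Nat.cast_nonneg _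
  -- the parameters
  obtain ⟨k', hk'1, hk'2⟩ : ∃ k' : ℕ, 1 ≤ k' ∧ m / k' ≤ ε := by
    obtain ⟨k', hk'⟩ := exists_nat_gt (m / ε + 1)
    have h0 : 0 ≤ m / ε := by positivity
    have h1 : (1 : ℝ) < k' := by linarith
    refine ⟨k', by exact_mod_cast h1.le, ?_⟩
    have h2 : m / ε ≤ k' := by linarith
    rw [div_le_iff₀ hε] at h2
    rw [div_le_iff₀ (by linarith)]
    linarith
  set κ : ℝ := ε / (8 * c₀) with hκ
  have hκ0 : 0 < κ := by positivity
  have hκ4 : 4 * κ * c₀ ≤ ε / 2 := by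
    rw [hκ]
    apply le_of_eq
    field_simp
    norm_num
  obtain ⟨k₀, hk₀, hdirall⟩ := dir_all W hn hι D g hg hdim j₀ hj κ hκ0
  obtain ⟨k, hkk₀, hk2⟩ : ∃ k : ℕ, k₀ ≤ k ∧ (1 + (k' : ℝ)) * Ds * c₀ / ((k : ℝ) ^ 4) ≤ ε / 2 := by
    obtain ⟨k, hk⟩ := exists_nat_gt (2 * ((1 + (k' : ℝ)) * Ds * c₀) / ε + k₀)
    have h0 : 0 ≤ 2 * ((1 + (k' : ℝ)) * Ds * c₀) / ε := by positivity
    have h1 : (k₀ : ℝ) < k := by linarith
    have h3 : (1 : ℝ) ≤ k := by
      have : (1 : ℝ) ≤ k₀ := by exact_mod_cast hk₀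
      linarith
    refine ⟨k, by exact_mod_cast h1.le, ?_⟩
    have h2 : 2 * ((1 + (k' : ℝ)) * Ds * c₀) / ε ≤ k := by
      have : (0 : ℝ) ≤ k₀ := Nat.cast_nonneg _
      linarith
    rw [div_le_iff₀ hε] at h2
    rw [div_le_iff₀ (by positivity)]
    have h4 : (k : ℝ) ≤ (k : ℝ) ^ 4 := by
      calc (k : ℝ) = (k : ℝ) ^ 1 := (pow_one _).symm
        _ ≤ (k : ℝ) ^ 4 := pow_le_pow_right₀ h3 (by norm_num)
    have h5 : (k : ℝ) * ε ≤ (k : ℝ) ^ 4 * ε := mul_le_mul_of_nonneg_right h4 hε.le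
    linarith
  have hk1 : 1 ≤ k := hk₀.trans hkk₀
  set N : ℕ := k ^ 2 with hN
  have hN0 : 0 < N := pow_pos hk1 _
  have hNcast : (N : ℤ) = (k : ℤ) ^ 2 := by rw [hN]; push_cast; rfl
  have hN4 : (N : ℝ) ^ 2 = (k : ℝ) ^ 4 := by
    rw [hN]
    push_cast
    ring
  have hN2pos : (0 : ℝ) < (N : ℝ) ^ 2 := by
    have : (0 : ℝ) < N := by exact_mod_cast hN0
    positivity
  rw [← hN4] at hk2
  -- the directions
  set S : Finset (Fin n → ℤ) := Fintype.piFinset (fun _ => Finset.Icc (-(N : ℤ)) N) with hS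
  have hSmem : ∀ ℓ ∈ S, ∀ i, |ℓ i| ≤ (k : ℤ) ^ 2 := by
    intro ℓ hℓ i
    rw [hS, Fintype.mem_piFinset] at hℓ
    have := hℓ i
    rw [Finset.mem_Icc] at this
    rw [← hNcast]
    exact abs_le.mpr this
  have hdb := fun ℓ : {ℓ // ℓ ∈ S} => hdirall k hkk₀ ℓ.1 (hSmem ℓ.1 ℓ.2)
  choose Rf Ef Mf hMH hne hbd using hdb
  set M : ℕ := ∑ ℓ, Mf ℓ with hM
  have hMle : ∀ ℓ, Mf ℓ ≤ M := fun ℓ =>
    Finset.single_le_sum (f := Mf) (fun _ _ => Nat.zero_le _) (Finset.mem_univ ℓ)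
  obtain ⟨CA, hCA0, hCA⟩ := M3_CA.{u} M
  choose Cf hCf0 hCf using fun ℓ => hbd ℓ CA
  choose Cy hCy0 hCy using fun v : ℤ => height_young W k' hk'1 v
  set Cm : ℝ := ∑ ℓ, Cf ℓ with hCm
  have hCm0 : 0 ≤ Cm := Finset.sum_nonneg fun ℓ _ => hCf0 ℓ
  set Cym : ℝ := ∑ v ∈ Finset.Icc (-(N : ℤ)) N, Cy v with hCym
  set C₁ : ℝ := (3 * n + 1 + 16 * (n + 1) * n) * Cp with hC₁
  have hC₁0 : 0 ≤ C₁ := by positivity
  set C₂ : ℝ := 2 * C₁ + (n + 1) * Cm with hC₂
  have hC₂0 : 0 ≤ C₂ := by positivity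
  refine ⟨1 / (N : ℝ) ^ 2, by positivity, ∏ ℓ, Rf ℓ, ∑ ℓ, Ef ℓ,
    IsWeightedHomogeneous.prod _ _ _ (fun ℓ _ => hMH ℓ),
    Finset.prod_ne_zero_iff.mpr (fun ℓ _ => hne ℓ),
    2 * (2 * κ * (N : ℝ) ^ 2 * C₂ + Cm) + (1 + k') * Ds * C₂ + Ds * Cym, ?_⟩
  intro L _ _ _ _ P P' t hP hclose ht hR
  obtain ⟨σ, m', c, hm', hc, hrel⟩ := exists_span_basis n 1 hn0 P' hP
  obtain ⟨ℓ₀, hℓ1, hℓ2⟩ := exists_round n 1 N m' hm' c hc
  set ℓ : Fin n → ℤ := fun i => ℓ₀ i 0 with hℓ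
  have hℓS : ℓ ∈ S := by
    rw [hS, Fintype.mem_piFinset]
    intro i
    rw [Finset.mem_Icc]
    exact abs_le.mp (hℓ1 i 0)
  obtain ⟨L', iF, iN, iD, iA, iA', iT, f, Q, A, Sp, hf, hQ, hA, hSp⟩ :=
    exists_field' W N M hN0 (P' (σ 0)) (fun j : {j // j ≠ j₀} => t j)
  -- the finite set of shifts
  have hAinj : Function.Injective A := by
    intro ν ν' h
    have h1 := hA ν
    rw [h, hA ν'] at h1
    have h2 := congrFun h1 0
    simp only [Matrix.cons_val_zero] at h2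
    exact Fin.ext (Nat.cast_injective h2).symm
  have hAcard : (Finset.univ.image A).card = M + 1 := by
    rw [Finset.card_image_of_injective _ hAinj, Finset.card_univ, Fintype.card_fin]
  have hAh : ∀ a ∈ Finset.univ.image A, logHeight a.xRep ≤ CA * Module.finrank ℚ L' := by
    intro a ha
    obtain ⟨ν, _, rfl⟩ := Finset.mem_image.mp ha
    rw [hA ν]
    exact hCA L' ν (Nat.lt_succ_iff.mp ν.2)
  -- values over L'
  have hevl : ∀ {B : Type} (x : B → Fin 2 → L) (x' : B → Fin 2 → L')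
      (_ : ∀ b i, x' b i = algebraMap L L' (x b i)) (R : MvPolynomial (B × Fin 2) K),
      evl x' R = algebraMap L L' (evl x R) := by
    intro B x x' hx R
    unfold evl
    rw [← MvPolynomial.aeval_algebraMap_apply]
    congr 1
    congr 1
    funext p
    exact hx p.1 p.2
  have hRℓ : evl (Sum.elim (fun i => (f (P i)).xRep)
      (fun j : {j // j ≠ j₀} => ![algebraMap L L' (t j), 1])) (Rf ⟨ℓ, hℓS⟩) ≠ 0 := by
    rw [hevl (Sum.elim (fun i => (P i).xRep) (fun j : {j // j ≠ j₀} => ![t j, 1])) _ (by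
      intro b i
      rcases b with b | b
      · exact hf (P b) i
      · fin_cases i
        · rfl
        · exact (map_one _).symm)]
    intro h0
    apply hR
    have h1 : evl (Sum.elim (fun i => (P i).xRep) (fun j : {j // j ≠ j₀} => ![t j, 1]))
        (Rf ⟨ℓ, hℓS⟩) = 0 := (map_eq_zero (algebraMap L L')).mp h0
    show evl (Sum.elim (fun i => (P i).xRep) (fun j : {j // j ≠ j₀} => ![t j, 1]))
      (∏ ℓ, Rf ℓ) = 0
    unfold evl at h1 ⊢
    rw [map_prod]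
    exact Finset.prod_eq_zero (Finset.mem_univ _) h1
  have ht' : ∑ j, evl (fun i => (f (P i)).xRep) (g j) * algebraMap L L' (t j) = 0 := by
    have h1 := congrArg (algebraMap L L') ht
    rw [map_sum, map_zero] at h1
    rw [← h1]
    refine Finset.sum_congr rfl fun j _ => ?_
    rw [map_mul, hevl (fun i => (P i).xRep) _ (fun b i => hf (P b) i)]
  obtain ⟨Q', hQ'1, hQ'2, hQ'3⟩ := hCf ⟨ℓ, hℓS⟩ L' (W.map (algebraMap K L')) rfl
    (fun i => f (P i)) Q (Finset.univ.image A) (fun j => algebraMap L L' (t j)) Sp hSp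
    (by rw [hAcard]; exact Nat.lt_succ_of_le (hMle _)) hAh ht' hRℓ
  -- the quadratic form
  set w : ℝ := (Module.finrank ℚ L' : ℝ) with hw
  have hw0 : 0 ≤ w := Nat.cast_nonneg _
  obtain ⟨q, hq1, hq2, hq3⟩ := exists_quadratic_explicit
    (fun P : (W.map (algebraMap K L')).toAffine.Point => logHeight P.xRep) (M2b_h0 _)
    (fun P => logHeight_nonneg _) (Cp * w) (hpar L' _ rfl)
  have hup : ∀ X : (W.map (algebraMap K L')).toAffine.Point, logHeight X.xRep ≤ q X + Cp * w := by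
    intro X
    have := (abs_le.mp (hq1 X)).1
    linarith
  have hlo : ∀ X : (W.map (algebraMap K L')).toAffine.Point, q X ≤ logHeight X.xRep + Cp * w := by
    intro X
    have := (abs_le.mp (hq1 X)).2
    linarith
  have hgeo := height_round q hq2 hq3 n 1 N m' hN0 hm' (fun i => f (P' i)) σ c ℓ₀
    (by
      intro i
      rw [← map_nsmul, hrel i, map_sum]
      refine Finset.sum_congr rfl fun j _ => ?_
      rw [map_zsmul]) (fun _ => Q) (fun j => by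
        rw [Subsingleton.elim j 0]
        exact hQ) hℓ2
  simp only [Finset.univ_unique, Finset.sum_singleton, Nat.cast_one, mul_one, pow_one] at hgeo
  -- base change of heights
  have hfin : Module.Finite L L' := Module.Finite.of_restrictScalars_finite ℚ L L'
  have hpos : (0 : ℝ) < Module.finrank L L' := by
    exact_mod_cast Module.finrank_pos
  have hbase : ∀ X : (W.map (algebraMap K L)).toAffine.Point,
      logHeight (f X).xRep = Module.finrank L L' * logHeight X.xRep := by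
    intro X
    rw [← logHeight_algebraMap]
    congr 1
    funext j
    exact hf X j
  have hbase_t : logHeight (fun j => algebraMap L L' (t j)) = Module.finrank L L' * logHeight t :=
    logHeight_algebraMap t
  set H : ℝ := ∑ i, logHeight (f (P i)).xRep with hH
  have hH0 : 0 ≤ H := Finset.sum_nonneg fun _ _ => logHeight_nonneg _
  have hHb : H = Module.finrank L L' * ∑ i, logHeight (P i).xRep := by
    rw [hH, Finset.mul_sum]
    exact Finset.sum_congr rfl fun i _ => hbase _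
  have hclose' : ∑ i, logHeight (f (P i) - f (P' i)).xRep ≤ 1 / (N : ℝ) ^ 2 * H := by
    have h1 : ∑ i, logHeight (f (P i) - f (P' i)).xRep =
        Module.finrank L L' * ∑ i, logHeight (P i - P' i).xRep := by
      rw [Finset.mul_sum]
      refine Finset.sum_congr rfl fun i _ => ?_
      rw [← map_sub, hbase]
    rw [h1, hHb]
    have h2 := mul_le_mul_of_nonneg_left hclose hpos.le
    linarith
  have hgr := C10_group (fun X : (W.map (algebraMap K L')).toAffine.Point => logHeight X.xRep) q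
    (fun X => logHeight_nonneg _) hq2 hq3 (Cp * w) hup hlo n N hN0 (fun i => f (P i))
    (fun i => f (P' i)) Q ℓ hgeo hclose'
  rw [← hH, ← mul_assoc, ← hC₁] at hgr
  have hCfle : Cf ⟨ℓ, hℓS⟩ ≤ Cm :=
    Finset.single_le_sum (f := Cf) (fun ℓ _ => hCf0 ℓ) (Finset.mem_univ _)
  have hCfw : Cf ⟨ℓ, hℓS⟩ * w ≤ Cm * w := mul_le_mul_of_nonneg_right hCfle hw0
  -- the heights of Q' and of the differences
  set HR : ℝ := ∑ i, logHeight (f (P i) - ℓ i • Q').xRep with hHR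
  have hHR0 : 0 ≤ HR := Finset.sum_nonneg fun _ _ => logHeight_nonneg _
  have hE : logHeight Q'.xRep + HR ≤ c₀ / (N : ℝ) ^ 2 * H + C₂ * w := by
    have h1 : HR ≤ 2 * ∑ i, logHeight (f (P i) - ℓ i • Q).xRep + n * (Cm * w) := by
      calc HR ≤ ∑ i : Fin n, (2 * logHeight (f (P i) - ℓ i • Q).xRep + Cm * w) :=
            Finset.sum_le_sum fun i _ => by
              have h2 := hQ'2 i
              linarith
        _ = _ := by
            rw [Finset.sum_add_distrib, Finset.sum_const, Finset.card_univ, Fintype.card_fin,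
              nsmul_eq_mul, Finset.mul_sum]
    have h3 : c₀ / (N : ℝ) ^ 2 * H = 2 * ((2 + 16 * (n + 1)) / (N : ℝ) ^ 2 * H) := by
      rw [hc₀]
      ring
    have h4 : (2 * C₁ + (n + 1) * Cm) * w = 2 * (C₁ * w) + n * (Cm * w) + Cm * w := by ring
    have h5 : logHeight Q.xRep + ∑ i, logHeight (f (P i) - ℓ i • Q).xRep ≤
        (2 + 16 * (n + 1)) / (N : ℝ) ^ 2 * H + C₁ * w := hgr
    rw [h3, hC₂, h4]
    linarith
  -- Young
  have hY : ∑ i, (D i : ℝ) * logHeight (f (P i)).xRep ≤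
      (1 + 1 / (k' : ℝ)) * ((∑ i, (ℓ i : ℝ) ^ 2 * D i) * logHeight Q'.xRep) +
        (1 + k') * (Ds * HR) + Ds * Cym * w := by
    have h1 : ∀ i, (D i : ℝ) * logHeight (f (P i)).xRep ≤
        (1 + 1 / (k' : ℝ)) * ((ℓ i : ℝ) ^ 2 * D i * logHeight Q'.xRep) +
          (1 + k') * (D i * HR) + D i * Cym * w := by
      intro i
      have h2 := (hCy (ℓ i) L' (W.map (algebraMap K L')) rfl Q' (f (P i) - ℓ i • Q')).2
      rw [sub_add_cancel] at h2
      have h3 : logHeight (f (P i) - ℓ i • Q').xRep ≤ HR :=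
        Finset.single_le_sum (f := fun i => logHeight (f (P i) - ℓ i • Q').xRep)
          (fun _ _ => logHeight_nonneg _) (Finset.mem_univ i)
      have h4 : Cy (ℓ i) ≤ Cym := by
        refine Finset.single_le_sum (f := Cy) (fun v _ => hCy0 v) ?_
        rw [Finset.mem_Icc]
        exact abs_le.mp (hℓ1 i 0)
      have h5 : Cy (ℓ i) * w ≤ Cym * w := mul_le_mul_of_nonneg_right h4 hw0
      have h6 : (1 + (k' : ℝ)) * logHeight (f (P i) - ℓ i • Q').xRep ≤ (1 + k') * HR :=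
        mul_le_mul_of_nonneg_left h3 (by positivity)
      have h7 : logHeight (f (P i)).xRep ≤ (1 + 1 / (k' : ℝ)) * ((ℓ i : ℝ) ^ 2 *
          logHeight Q'.xRep) + (1 + k') * HR + Cym * w := by linarith
      have h8 := mul_le_mul_of_nonneg_left h7 (Nat.cast_nonneg (α := ℝ) (D i))
      refine h8.trans (le_of_eq ?_)
      ring
    refine (Finset.sum_le_sum fun i _ => h1 i).trans (le_of_eq ?_)
    rw [Finset.sum_add_distrib, Finset.sum_add_distrib, ← Finset.mul_sum, ← Finset.mul_sum,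
      ← Finset.sum_mul, ← Finset.sum_mul, ← Finset.sum_mul, ← Finset.sum_mul]
  have hdir' : (∑ i, (ℓ i : ℝ) ^ 2 * D i) * logHeight Q'.xRep ≤
      m * logHeight (fun j => algebraMap L L' (t j)) +
        2 * κ * (N : ℝ) ^ 2 * (logHeight Q'.xRep + HR) + Cm * w := by
    rw [hN4]
    linarith
  have hfinal := C10_arith _ _ m κ ((N : ℝ) ^ 2) k' Ds c₀ Cm C₂ (Ds * Cym) H
    (logHeight Q'.xRep) HR (logHeight (fun j => algebraMap L L' (t j))) w ε hN2pos
    (by exact_mod_cast hk'1) hκ0.le hDs0 hCm0 hC₂0 hH0 (logHeight_nonneg _)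
    (logHeight_nonneg _) hw0 hc₀0.le hdir' hE hY hκ4 hk2 hk'2
  -- base change
  have hwb : w = Module.finrank L L' * Module.finrank ℚ L := by
    rw [hw, ← Module.finrank_mul_finrank ℚ L L']
    push_cast
    ring
  have hSD : ∑ i, (D i : ℝ) * logHeight (f (P i)).xRep =
      Module.finrank L L' * ∑ i, (D i : ℝ) * logHeight (P i).xRep := by
    rw [Finset.mul_sum]
    refine Finset.sum_congr rfl fun i _ => ?_
    rw [hbase]
    ring
  rw [hSD, hHb, hwb, hbase_t] at hfinal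
  have h6 : (Module.finrank L L' : ℝ) * ∑ i, (D i : ℝ) * logHeight (P i).xRep ≤
      Module.finrank L L' * ((m + ε) * logHeight t + ε * ∑ i, logHeight (P i).xRep +
        (2 * (2 * κ * (N : ℝ) ^ 2 * C₂ + Cm) + (1 + k') * Ds * C₂ + Ds * Cym) *
          Module.finrank ℚ L) := by
    refine hfinal.trans (le_of_eq ?_)
    ring
  exact le_of_mul_le_mul_left h6 hpos

end Pool.Agent.Lib.MP_17a322_nt.PB
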