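import Pool.Agent.Lib.MP_17a322_nt.PB.C10
import Pool.Agent.Lib.MP_17a322_nt.RV.M4b

/-!
The final statement.
-/

namespace Pool.Agent.Lib.MP_17a322_nt.PB

open MvPolynomial WeierstrassCurve Height
open Pool.Agent.Lib.MP_17a322_nt.RO Pool.Agent.Lib.MP_17a322_nt.RV

universe u

/-- Some `g j` is not zero.
Proof. Otherwise apply `hY` to `F = FractionRing (MvPolynomial (Fin n) K)`, `X i` the variables, `Z i = 1`: the
transcendence degree of the field generated by the variables is `n`. -/
theorem exists_ne {K : Type u} [Field K] (n m : ℕ) (g : Fin m → MvPolynomial (Fin n) K)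
    (d : Fin n → ℕ)
    (hY : ∀ (F : Type u) [Field F] [Algebra K F] (X Z : Fin n → F),
      (∀ i, X i ≠ 0 ∨ Z i ≠ 0) →
      (∀ k, ∑ e ∈ (g k).support, algebraMap K F ((g k).coeff e) *
        ∏ i, (X i ^ e i * Z i ^ (d i - e i)) = 0) →
        Algebra.trdeg K (IntermediateField.adjoin K (Set.range fun i => X i / Z i)) + 1 < n) :
    ∃ j, g j ≠ 0 := by
  classical
  by_contra hcon
  push Not at hcon
  let F := FractionRing (MvPolynomial (Fin n) K)
  have h1 := hY F (fun i => algebraMap (MvPolynomial (Fin n) K) F (X i)) (fun _ => 1)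
    (fun _ => Or.inr one_ne_zero) (fun k => by rw [hcon k]; simp)
  have h0 : (fun i => algebraMap (MvPolynomial (Fin n) K) F (X i) / 1) =
      fun i : Fin n => algebraMap (MvPolynomial (Fin n) K) F (X i) := by
    funext i
    exact div_one _
  rw [h0] at h1
  set A := IntermediateField.adjoin K
    (Set.range fun i => algebraMap (MvPolynomial (Fin n) K) F (X i)) with hA
  let x : Fin n → A := fun i => ⟨algebraMap (MvPolynomial (Fin n) K) F (X i),
    IntermediateField.subset_adjoin K _ ⟨i, rfl⟩⟩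
  have hind : AlgebraicIndependent K x := by
    have h2 : AlgebraicIndependent K (fun i => algebraMap (MvPolynomial (Fin n) K) F (X i)) := by
      have h3 := (MvPolynomial.algebraicIndependent_X (Fin n) K).map'
        (f := IsScalarTower.toAlgHom K (MvPolynomial (Fin n) K) F)
        (IsFractionRing.injective (MvPolynomial (Fin n) K) F)
      exact h3
    exact AlgebraicIndependent.of_comp A.val h2
  have h4 := hind.lift_cardinalMk_le_trdeg
  simp only [Cardinal.mk_fintype, Fintype.card_fin, Cardinal.lift_natCast, Cardinal.lift_uzero] at h4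
  have h5 : (n : Cardinal) + 1 < n := lt_of_le_of_lt (by gcongr) h1
  have h6 : n + 1 < n := by exact_mod_cast h5
  omega

/-- A nonzero polynomial not involving `t j₀` is not a multiple of `∑ g j * t j` if `g j₀ ≠ 0`.
Proof. Degrees in the variable `inr j₀`: `degreeOf_mul_eq`; the degree of `∑ g j * t j` is `1`. -/
theorem not_dvd {K : Type u} [Field K] {n : ℕ} {ι : Type} [Fintype ι] [DecidableEq ι]
    (g : ι → MvPolynomial (Fin n) K) (j₀ : ι) (hj : g j₀ ≠ 0)
    (G : MvPolynomial (Fin n ⊕ {j // j ≠ j₀}) K) (hG : G ≠ 0) :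
    ¬ (∑ j, rename Sum.inl (g j) * X (Sum.inr j) : MvPolynomial (Fin n ⊕ ι) K) ∣
      rename (Sum.map id Subtype.val) G := by
  classical
  rintro ⟨H, hH⟩
  let S := MvPolynomial (Fin n ⊕ {j // j ≠ j₀}) K
  let F := FractionRing S
  let g' : ι → F := fun j => algebraMap S F (rename Sum.inl (g j))
  have hg0 : g' j₀ ≠ 0 := by
    intro h
    have h1 := (IsFractionRing.injective S F) (h.trans (map_zero _).symm)
    exact hj ((rename_injective _ Sum.inl_injective) (h1.trans (map_zero _).symm))
  let v : Fin n ⊕ ι → F := Sum.elim (fun i => algebraMap S F (X (Sum.inl i)))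
    (fun j => if h : j = j₀ then
      -(∑ i : {j // j ≠ j₀}, g' i * algebraMap S F (X (Sum.inr i))) / g' j₀
      else algebraMap S F (X (Sum.inr ⟨j, h⟩)))
  have hv : ∀ j, aeval v (rename (Sum.inl : Fin n → Fin n ⊕ ι) (g j)) = g' j := by
    intro j
    rw [aeval_rename]
    have h1 : g' j = (IsScalarTower.toAlgHom K S F) (aeval (fun i => (X (Sum.inl i) : S)) (g j)) := by
      simp only [g', rename_eq_aeval]
      rfl
    rw [h1, ← AlgHom.comp_apply, MvPolynomial.comp_aeval]
    rfl
  have h0 : aeval v (∑ j, rename Sum.inl (g j) * X (Sum.inr j) : MvPolynomial (Fin n ⊕ ι) K) = 0 := by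
    rw [map_sum, Fintype.sum_eq_add_sum_subtype_ne _ j₀]
    simp only [map_mul, hv, aeval_X]
    have h1 : v (Sum.inr j₀) =
        -(∑ i : {j // j ≠ j₀}, g' i * algebraMap S F (X (Sum.inr i))) / g' j₀ := by
      simp [v]
    have h2 : ∀ i : {j // j ≠ j₀}, v (Sum.inr (i : ι)) = algebraMap S F (X (Sum.inr i)) := by
      intro i
      simp only [v, Sum.elim_inr, dif_neg i.2]
    simp only [h2]
    rw [h1, mul_div_cancel₀ _ hg0]
    exact neg_add_cancel _
  have h3 : aeval v (rename (Sum.map id Subtype.val) G : MvPolynomial (Fin n ⊕ ι) K) =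
      algebraMap S F G := by
    rw [aeval_rename]
    have h1 : v ∘ Sum.map id Subtype.val = fun b => (IsScalarTower.toAlgHom K S F) (X b) := by
      funext b
      rcases b with i | i
      · rfl
      · simp only [Function.comp_apply, Sum.map_inr, v, Sum.elim_inr, dif_neg i.2]
        rfl
    rw [h1]
    have h2 := MvPolynomial.comp_aeval (fun b => (X b : S)) (IsScalarTower.toAlgHom K S F)
    have h4 := DFunLike.congr_fun h2 G
    rw [← h4, AlgHom.comp_apply, aeval_X_left_apply]
    rfl
  rw [hH, map_mul, h0, zero_mul] at h3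
  exact hG ((IsFractionRing.injective S F) ((map_zero _).trans h3).symm)

/-- Proof. `main` (PB/C10) for the forms `hom (g k) D` (`mh_hom`, RO/G3), `dimLT_of_trdeg` (RV/M4a) for `r = 1`, `j₀` from
`exists_ne` (`hom (g j₀) D ≠ 0`, as its value at `(x, 1)` is that of `g j₀`). `G` is the dehomogenisation of `R`
(`M4b_dehom`, RV/M4b) renamed; `not_dvd`. The `xRep` of `Affine.Point.some x y h` is `![x, 1]`, and
`logHeight ![x, 1] = logHeight₁ x`; compare `final` in RV/M4b. -/
theorem final {K : Type u} [Field K] [NumberField K] (W : WeierstrassCurve K)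
    [W.IsElliptic] (n m : ℕ) (hn : 1 < n) (hm : 0 < m) (g : Fin (m + 1) → MvPolynomial (Fin n) K)
    (d : Fin n → ℕ) (hd : ∀ k i, (g k).degreeOf i ≤ d i)
    (hY : ∀ (F : Type u) [Field F] [Algebra K F] (X Z : Fin n → F),
      (∀ i, X i ≠ 0 ∨ Z i ≠ 0) →
      (∀ k, ∑ e ∈ (g k).support, algebraMap K F ((g k).coeff e) *
        ∏ i, (X i ^ e i * Z i ^ (d i - e i)) = 0) →
        Algebra.trdeg K (IntermediateField.adjoin K (Set.range fun i => X i / Z i)) + 1 < n)
    (ε : ℝ) (hε : 0 < ε) :
    ∃ δ : ℝ, 0 < δ ∧ ∃ G : MvPolynomial (Fin n ⊕ Fin (m + 1)) K,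
      ¬ (∑ j, rename Sum.inl (g j) * X (Sum.inr j)) ∣ G ∧ ∃ C : ℝ,
      ∀ (L : Type u) [Field L] [NumberField L] [DecidableEq L] [Algebra K L] (x y : Fin n → L)
        (h : ∀ i, (W.map (algebraMap K L)).toAffine.Nonsingular (x i) (y i))
        (P' : Fin n → (W.map (algebraMap K L)).toAffine.Point) (t : Fin (m + 1) → L),
        Module.finrank ℤ (Submodule.span ℤ (Set.range P')) ≤ 1 →
        ∑ i, logHeight ((Affine.Point.some (x i) (y i) (h i) :
          (W.map (algebraMap K L)).toAffine.Point) - P' i).xRep ≤ δ * ∑ i, logHeight₁ (x i) →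
        ∑ j, aeval x (g j) * t j = 0 → aeval (Sum.elim x t) G ≠ 0 →
          ∑ i, (d i : ℝ) * logHeight₁ (x i) ≤ (m + ε) * logHeight t +
            ε * ∑ i, logHeight₁ (x i) + C * Module.finrank ℚ L := by
  classical
  obtain ⟨j₀, hj₀⟩ := exists_ne n (m + 1) g d hY
  have hdim := dimLT_of_trdeg 1 n (m + 1) g d (by simpa only [Nat.cast_one] using hY)
  have hne : hom (g j₀) d ≠ 0 := by
    intro h0
    have h1 := evl_hom_one (g j₀) d (fun i => (X i : MvPolynomial (Fin n) K))
    rw [h0, aeval_X_left_apply] at h1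
    exact hj₀ (h1.symm.trans (by unfold evl; exact map_zero _))
  obtain ⟨δ, hδ, R, E, h1, h2, C, h3⟩ := main W hn (ι := Fin (m + 1))
    (by simp only [Fintype.card_fin]; omega) d (fun k => hom (g k) d)
    (fun k => mh_hom (g k) d (hd k)) hdim j₀ hne ε hε
  obtain ⟨G, h4, h5⟩ := M4b_dehom E R h1 h2
  refine ⟨δ, hδ, rename (Sum.map id Subtype.val) G, not_dvd g j₀ hj₀ G h4, C, ?_⟩
  intro L _ _ _ _ x y h P' t hr hδ' ht hG
  have h7 : ∀ i, (Affine.Point.some (x i) (y i) (h i) :
      (W.map (algebraMap K L)).toAffine.Point).xRep = ![x i, 1] := fun i =>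
    Affine.Point.xRep_some ..
  have h6 := h3 L (fun i => (Affine.Point.some (x i) (y i) (h i) :
    (W.map (algebraMap K L)).toAffine.Point)) P' t hr
  simp only [h7] at h6
  simp only [evl_hom_one, ← logHeight₁_eq_logHeight, Fintype.card_fin] at h6
  have h8 : evl (Sum.elim (fun i => ![x i, 1]) (fun j : {j // j ≠ j₀} => ![t j, 1])) R ≠ 0 := by
    have h9 : (Sum.elim (fun i => ![x i, 1]) (fun j : {j // j ≠ j₀} => ![t j, 1]) :
        Fin n ⊕ {j // j ≠ j₀} → Fin 2 → L) =
        fun b => ![Sum.elim x (fun j : {j // j ≠ j₀} => t j) b, 1] := by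
      funext b
      rcases b with i | i <;> rfl
    rw [h9, ← h5 L, ]
    rw [aeval_rename] at hG
    have h10 : (Sum.elim x t ∘ Sum.map id Subtype.val : Fin n ⊕ {j // j ≠ j₀} → L) =
        Sum.elim x (fun j : {j // j ≠ j₀} => t j) := by
      funext b
      rcases b with i | i <;> rfl
    rw [h10] at hG
    exact hG
  have h11 := h6 hδ' ht h8
  have h12 : (((m + 1 : ℕ) : ℝ) - 1 + ε) = m + ε := by push_cast; ring
  rw [h12] at h11
  exact h11

end Pool.Agent.Lib.MP_17a322_nt.PB
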