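import Pool.Agent.Lib.MP_17a322_nt.RV.T3
import Pool.Agent.Lib.MP_17a322_nt.RO.G3
import Pool.Agent.Lib.MP_17a322_nt.RO.B1
import Pool.Agent.Lib.MP_17a322_nt.RV.M4b

/-!
Affine points where a form does not vanish.
-/

namespace Pool.Agent.Lib.MP_17a322_nt.PB

open MvPolynomial WeierstrassCurve
open Pool.Agent.Lib.MP_17a322_nt.RO Pool.Agent.Lib.MP_17a322_nt.RV

universe u

/-- A nonzero polynomial has a nonzero value over an infinite extension. -/
theorem C1a_value {K F B : Type*} [Field K] [Field F] [Infinite F] [Algebra K F]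
    (P : MvPolynomial B K) (hP : P ≠ 0) : ∃ x : B → F, aeval x P ≠ 0 := by
  by_contra hcon
  push Not at hcon
  apply hP
  have h1 : MvPolynomial.map (algebraMap K F) P = 0 := by
    apply MvPolynomial.funext
    intro x
    rw [map_zero, eval_map, ← aeval_def]
    exact hcon x
  exact MvPolynomial.map_injective _ (algebraMap K F).injective (by rw [h1, map_zero])

/-- A nonzero polynomial in the x-coordinates and a nonzero form do not vanish at some family of affine
points over the algebraic closure.
Proof. `F = AlgebraicClosure K`. The form `G * hom N E' * ∏ b, X (b, 1)` (`E' b = degreeOf b N`, `mh_hom` in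
RO/G3) is not zero, so it has a nonzero value at some `z : B → Fin 2 → F` (map to `F`, which is infinite,
`MvPolynomial.funext`); `z b = c_b • (P b).xRep` by `exists_point` (RO/B1), and `evl_smul` (RO/E0) gives a nonzero
value at the `xRep`; the factor `X (b, 1)` shows that `P b` is affine, `P b = (x b, y b)`,
`xRep = ![x b, 1]`, and `evl_hom_one` (RO/G3). -/
theorem exists_affine {K : Type u} [Field K] [CharZero K] (W : WeierstrassCurve K) [W.IsElliptic]
    {B : Type} [Fintype B] [DecidableEq B] (E : B → ℕ) (G : MvPolynomial (B × Fin 2) K)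
    (hG : MH G E) (hG0 : G ≠ 0) (N : MvPolynomial B K) (hN : N ≠ 0) :
    ∃ (F : Type u) (_ : Field F) (_ : DecidableEq F) (_ : Algebra K F) (_ : IsAlgClosed F)
      (x y : B → F) (h : ∀ b, (W.map (algebraMap K F)).toAffine.Nonsingular (x b) (y b)),
      evl (fun b => (Affine.Point.some (x b) (y b) (h b) :
        (W.map (algebraMap K F)).toAffine.Point).xRep) G ≠ 0 ∧ aeval x N ≠ 0 := by
  obtain ⟨G₀, hG₀, hG₀v⟩ := M4b_dehom E G hG hG0
  let F : Type u := AlgebraicClosure K
  have hinf : Infinite F := IsAlgClosed.instInfinite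
  obtain ⟨x, hx⟩ := C1a_value (F := F) (G₀ * N) (mul_ne_zero hG₀ hN)
  rw [map_mul] at hx
  let V : WeierstrassCurve F := W.map (algebraMap K F)
  have hy : ∀ b, ∃ y : F, V.toAffine.Nonsingular (x b) y := by
    intro b
    obtain ⟨y, hy⟩ := B1_quad (V.a₁ * x b + V.a₃) (-((x b) ^ 3 + V.a₂ * (x b) ^ 2 + V.a₄ * x b + V.a₆))
    have he : V.toAffine.Equation (x b) y := by
      rw [WeierstrassCurve.Affine.equation_iff']
      linear_combination hy
    exact ⟨y, (WeierstrassCurve.Affine.equation_iff_nonsingular (W := V.toAffine)).1 he⟩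
  choose y hy using hy
  refine ⟨F, inferInstance, Classical.decEq F, inferInstance, inferInstance, x, y, hy, ?_,
    right_ne_zero_of_mul hx⟩
  have h1 := hG₀v F x
  have h2 := left_ne_zero_of_mul hx
  rw [h1] at h2
  exact h2

end Pool.Agent.Lib.MP_17a322_nt.PB
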