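import Pool.Agent.Lib.MP_17a322_nt.PB.A3
import Pool.Agent.Lib.MP_17a322_nt.PB.B6
import Pool.Agent.Lib.MP_17a322_nt.PB.C1a
import Pool.Agent.Lib.MP_17a322_nt.RV.L1b

/-!
The matrix at the generic point.
-/

namespace Pool.Agent.Lib.MP_17a322_nt.PB

open MvPolynomial WeierstrassCurve
open Pool.Agent.Lib.MP_17a322_nt.RO Pool.Agent.Lib.MP_17a322_nt.RV

universe u

/-- One translation: a form whose nonvanishing at `(Q, R)` gives the one of `g` at `R + ℓ Q`. -/
private theorem C1b_step {K : Type u} [Field K] [CharZero K] (W : WeierstrassCurve K) [W.IsElliptic] {n : ℕ}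
    (D : Fin n → ℕ) (g : MvPolynomial (Fin n × Fin 2) K) (hg : MH g D) (hg0 : g ≠ 0) (ℓ : Fin n → ℤ) :
    ∃ (G' : MvPolynomial ((Unit ⊕ Fin n) × Fin 2) K) (E' : Unit ⊕ Fin n → ℕ), MH G' E' ∧ G' ≠ 0 ∧
      ∀ (F : Type u) [Field F] [DecidableEq F] [Algebra K F] (V : WeierstrassCurve F),
        W.map (algebraMap K F) = V → ∀ P : Unit ⊕ Fin n → V.toAffine.Point,
          evl (fun b => (P b).xRep) G' ≠ 0 →
            evl (fun i => (P (Sum.inr i) + ℓ i • P (Sum.inl ())).xRep) g ≠ 0 := by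
  classical
  have h1 := L1b_mh_rename (J := Unit) D g hg
  have hinj : Function.Injective (fun p : Fin n × Fin 2 => ((Sum.inr p.1 : Unit ⊕ Fin n), p.2)) := by
    intro p q h
    have h2 := Prod.ext_iff.1 h
    exact Prod.ext (Sum.inr_injective h2.1) h2.2
  have h0 : rename (fun p : Fin n × Fin 2 => ((Sum.inr p.1 : Unit ⊕ Fin n), p.2)) g ≠ 0 := by
    intro h
    apply hg0
    apply rename_injective _ hinj
    rw [h, map_zero]
  obtain ⟨G', E', h3, h4, h5⟩ := exists_steps W {Sum.inl ()}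
    (fun _ b => Sum.elim (fun _ => (0 : ℤ)) ℓ b) (by
      intro a _ b hb
      rw [Finset.mem_singleton] at hb
      rw [hb]
      rfl) _ _ h1 h0
  refine ⟨G', E', h3, h4, ?_⟩
  intro F _ _ _ V hV P hP
  have h6 := h5 F V hV P hP
  have h7 : evl (fun b => (P b + ∑ a ∈ {Sum.inl ()}, Sum.elim (fun _ => (0 : ℤ)) ℓ b • P a).xRep)
      (rename (fun p : Fin n × Fin 2 => ((Sum.inr p.1 : Unit ⊕ Fin n), p.2)) g) =
      evl (fun i => (P (Sum.inr i) + ℓ i • P (Sum.inl ())).xRep) g := by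
    unfold evl
    rw [aeval_rename]
    congr 2
    funext p
    simp only [Function.comp_apply, Finset.sum_singleton, Sum.elim_inr]
  rw [h7] at h6
  exact h6

/-- Proof of the first part. With `B = Unit ⊕ Fin n`, `S = {inl ()}` apply `exists_steps` (RV/T3) to the form
`g j₀` renamed into the blocks `inr i`, for `k (inl ()) (inr i) = ℓ i` and for `- ℓ i` (all other values `0`), get
forms `G₊`, `G₋`, and `exists_affine` for `G₊ * G₋` and `ν`: a family of affine points where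
`g_{j₀}(x(R + ℓ Q)) ≠ 0`, `g_{j₀}(x(R - ℓ Q)) ≠ 0` and `ν ≠ 0`, so `M j₀ j₀` does not vanish there; by `Gen.zero` it
does not vanish at the generic point. Second part: the generic point is a family of nonsingular affine
points (`OnC` and `equation_iff_nonsingular`, the curve is elliptic over `𝔽`), `ν(ξ) ≠ 0` by `Gen.aeval_ne`; apply
`IsMat` there (classical `DecidableEq 𝔽`) and compare: both sides are `γ^2` times the same product. -/
theorem M_gen {K 𝔽 : Type u} [Field K] [CharZero K] [Field 𝔽] [Algebra K 𝔽]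
    (W : WeierstrassCurve K) [W.IsElliptic] {n : ℕ} {ι : Type} (D : Fin n → ℕ)
    (g : ι → MvPolynomial (Fin n × Fin 2) K) (hg : ∀ j, MH (g j) D) (ℓ : Fin n → ℤ)
    (M : ι → ι → MvPolynomial ((Unit ⊕ Fin n) × Fin 2) K) (ν : MvPolynomial (Unit ⊕ Fin n) K)
    (hν : ν ≠ 0) (hM : IsMat W g ℓ M ν) (ξ η : Unit ⊕ Fin n → 𝔽) (hgen : Gen W ξ η) (j₀ : ι)
    (hj : g j₀ ≠ 0) :
    evl (pt ξ η) (M j₀ j₀) ≠ 0 ∧ ∀ j k, evl (pt ξ η) (M j₀ j₀) * evl (pt ξ η) (M j k) =
      evl (pt ξ η) (M j j₀) * evl (pt ξ η) (M j₀ k) := by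
  classical
  constructor
  · intro h0
    obtain ⟨G₁, E₁, h1, h2, h3⟩ := C1b_step W D (g j₀) (hg j₀) hj ℓ
    obtain ⟨G₂, E₂, h4, h5, h6⟩ := C1b_step W D (g j₀) (hg j₀) hj (fun i => -ℓ i)
    obtain ⟨F, i1, i2, i3, i4, x, y, h, h7, h8⟩ := exists_affine W (E₁ + E₂) (G₁ * G₂)
      (IsWeightedHomogeneous.mul h1 h4) (mul_ne_zero h2 h5) ν hν
    have h9 : evl (fun b => (Affine.Point.some (x b) (y b) (h b) :
        (W.map (algebraMap K F)).toAffine.Point).xRep) (G₁ * G₂) =
        evl (fun b => (Affine.Point.some (x b) (y b) (h b) :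
          (W.map (algebraMap K F)).toAffine.Point).xRep) G₁ *
        evl (fun b => (Affine.Point.some (x b) (y b) (h b) :
          (W.map (algebraMap K F)).toAffine.Point).xRep) G₂ := by
      unfold evl
      rw [map_mul]
    rw [h9] at h7
    obtain ⟨γ, hγ, h10⟩ := hM F (W.map (algebraMap K F)) rfl x y h h8
      (Affine.Point.some (x (Sum.inl ())) (y (Sum.inl ())) (h (Sum.inl ())))
      (fun i => Affine.Point.some (x (Sum.inr i)) (y (Sum.inr i)) (h (Sum.inr i))) rfl (fun _ => rfl)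
    have h11 := h3 F (W.map (algebraMap K F)) rfl
      (fun b => Affine.Point.some (x b) (y b) (h b)) (left_ne_zero_of_mul h7)
    have h12 := h6 F (W.map (algebraMap K F)) rfl
      (fun b => Affine.Point.some (x b) (y b) (h b)) (right_ne_zero_of_mul h7)
    simp only [neg_smul, ← sub_eq_add_neg] at h12
    have h13 := h10 j₀ j₀
    rw [hgen.zero (M j₀ j₀) h0 F x y fun b => (h b).1] at h13
    exact mul_ne_zero hγ (mul_ne_zero h11 h12) h13.symm
  · have hns : ∀ b, (W.map (algebraMap K 𝔽)).toAffine.Nonsingular (ξ b) (η b) := fun b =>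
      Affine.equation_iff_nonsingular.1 (hgen.on b)
    obtain ⟨γ, -, h10⟩ := hM 𝔽 (W.map (algebraMap K 𝔽)) rfl ξ η hns (hgen.aeval_ne ν hν)
      (Affine.Point.some (ξ (Sum.inl ())) (η (Sum.inl ())) (hns (Sum.inl ())))
      (fun i => Affine.Point.some (ξ (Sum.inr i)) (η (Sum.inr i)) (hns (Sum.inr i))) rfl (fun _ => rfl)
    intro j k
    rw [h10 j₀ j₀, h10 j k, h10 j j₀, h10 j₀ k]
    ring

end Pool.Agent.Lib.MP_17a322_nt.PB
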