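import Pool.Agent.Lib.MP_17a322_nt.PB.A7c
import Pool.Agent.Lib.MP_17a322_nt.PB.B6

/-!
The height inequality given by the auxiliary linear form.
-/

namespace Pool.Agent.Lib.MP_17a322_nt.PB

open MvPolynomial WeierstrassCurve Height
open Pool.Agent.Lib.MP_17a322_nt.RO Pool.Agent.Lib.MP_17a322_nt.RV

universe u

/-- Proof. Let `s = ∑ i, u_i t_i ≠ 0`, `M j k = γ g_j⁺ g_k⁻` (values at the point, `γ ≠ 0`). As
`∑_i M i k * t_i = 0`, `M j k * s = ∑_i (u_i M j k - u_j M i k) t_i = (x_q - c)^T ∑_i s_{ijk} t_i`. The vector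
`(M j k)_{j, k}` is not `0`, so `x_q ≠ c` or `T = 0`, and (`logHeight_smul_eq_logHeight`, twice;
`logHeight_fun_mul_eq`)
`h(g⁺) + h(g⁻) = h((M j k)) = h((∑_i s_{ijk} t_i)_{j,k}) ≤ h((s_{ijk})_{i,j,k}) + h(t) + C [L : ℚ]`
(`logHeight_linear_unif` (RV/U2) for the tensor product of `(s_{ijk})` and `t`; if `(s_{ijk}) = 0` then all
`M j k = 0`, impossible), and `logHeight_WD` (PB/A7) for `(s_{ijk})`. -/
theorem point_ineq {K : Type u} [Field K] [NumberField K] (W : WeierstrassCurve K)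
    [W.IsElliptic] {n : ℕ} {ι : Type} [Fintype ι]
    (g : ι → MvPolynomial (Fin n × Fin 2) K) (ℓ : Fin n → ℤ)
    (M : ι → ι → MvPolynomial ((Unit ⊕ Fin n) × Fin 2) K) (ν : MvPolynomial (Unit ⊕ Fin n) K)
    (hM : IsMat W g ℓ M ν) (c : K) (T : ℕ) (u : ι → MvPolynomial ((Unit ⊕ Fin n) × Fin 2) K)
    (s : ι → ι → ι → MvPolynomial ((Unit ⊕ Fin n) × Fin 2) K) (w' : Unit ⊕ Fin n → ℕ)
    (hs : ∀ i j k, WD (s i j k) w')
    (hid : ∀ (F : Type u) [Field F] [Algebra K F] (x y : Unit ⊕ Fin n → F),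
      (∀ b, OnC W (x b) (y b)) → ∀ i j k,
        evl (pt x y) (u i) * evl (pt x y) (M j k) - evl (pt x y) (u j) * evl (pt x y) (M i k) =
          (x (Sum.inl ()) - algebraMap K F c) ^ T * evl (pt x y) (s i j k)) :
    ∃ C : ℝ, 0 ≤ C ∧ ∀ (L : Type u) [Field L] [NumberField L] [DecidableEq L] [Algebra K L]
      (V : WeierstrassCurve L), W.map (algebraMap K L) = V → ∀ (x y : Unit ⊕ Fin n → L)
      (h : ∀ b, V.toAffine.Nonsingular (x b) (y b)), aeval x ν ≠ 0 →
      ∀ (Q : V.toAffine.Point) (R : Fin n → V.toAffine.Point),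
        Q = Affine.Point.some (x (Sum.inl ())) (y (Sum.inl ())) (h (Sum.inl ())) →
        (∀ i, R i = Affine.Point.some (x (Sum.inr i)) (y (Sum.inr i)) (h (Sum.inr i))) →
        ∀ t : ι → L, ∑ j, evl (fun i => (R i + ℓ i • Q).xRep) (g j) * t j = 0 →
          ∑ i, evl (pt x y) (u i) * t i ≠ 0 →
          (∃ j, evl (fun i => (R i + ℓ i • Q).xRep) (g j) ≠ 0) →
          (∃ j, evl (fun i => (R i - ℓ i • Q).xRep) (g j) ≠ 0) →
            logHeight (fun j => evl (fun i => (R i + ℓ i • Q).xRep) (g j)) +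
              logHeight (fun j => evl (fun i => (R i - ℓ i • Q).xRep) (g j)) ≤
            logHeight t + ∑ b, (w' b : ℝ) / 2 * logHeight ![x b, 1] +
              C * Module.finrank ℚ L := by
  classical
  obtain ⟨C1, hC10, hC1⟩ := logHeight_linear_unif (K := K) (ι := (ι × ι × ι) × ι) (κ := ι × ι)
    (fun a => if a.2.1.2.1 = a.1.1 ∧ a.2.1.2.2 = a.1.2 ∧ a.2.1.1 = a.2.2 then (1 : K) else 0)
  obtain ⟨C2, hC20, hC2⟩ := logHeight_WD W (fun a : ι × ι × ι => s a.1 a.2.1 a.2.2) w'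
    (fun a => hs a.1 a.2.1 a.2.2)
  refine ⟨C1 + C2, add_nonneg hC10 hC20, ?_⟩
  intro L _ _ _ _ V hV x y h hν Q R hQ hR t ht hst hgp hgm
  obtain ⟨γ, hγ, hMv⟩ := hM L V hV x y h hν Q R hQ hR
  have hon : ∀ b, OnC W (x b) (y b) := by
    intro b
    unfold OnC
    rw [hV]
    exact (h b).1
  have hid' := hid L x y hon
  set gp : ι → L := fun j => evl (fun i => (R i + ℓ i • Q).xRep) (g j) with hgpdef
  set gm : ι → L := fun j => evl (fun i => (R i - ℓ i • Q).xRep) (g j) with hgmdef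
  set X : L := (x (Sum.inl ()) - algebraMap K L c) ^ T with hX
  set uv : ι → L := fun i => evl (pt x y) (u i) with huv
  set S : ι × ι × ι → L := fun a => evl (pt x y) (s a.1 a.2.1 a.2.2) with hSdef
  set σ : L := ∑ i, uv i * t i with hσ
  have hMv' : ∀ j k, evl (pt x y) (M j k) = γ * (gp j * gm k) := hMv
  have hgp0 : gp ≠ 0 := by
    obtain ⟨j, hj⟩ := hgp
    exact fun h0 => hj (congrFun h0 j)
  have hgm0 : gm ≠ 0 := by
    obtain ⟨j, hj⟩ := hgm
    exact fun h0 => hj (congrFun h0 j)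
  have ht0 : t ≠ 0 := by
    intro h0
    apply hst
    rw [hσ, h0]
    simp
  -- the identity
  have hZ : ∀ j k, σ * γ * (gp j * gm k) = X * ∑ i, S (i, j, k) * t i := by
    intro j k
    have h1 : ∀ i, uv i * t i * (γ * (gp j * gm k)) - uv j * γ * gm k * (gp i * t i) =
        X * (S (i, j, k) * t i) := by
      intro i
      have h2 := hid' i j k
      rw [hMv' j k, hMv' i k] at h2
      have h3 : uv i * (γ * (gp j * gm k)) - uv j * (γ * (gp i * gm k)) = X * S (i, j, k) := h2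
      calc uv i * t i * (γ * (gp j * gm k)) - uv j * γ * gm k * (gp i * t i) =
          (uv i * (γ * (gp j * gm k)) - uv j * (γ * (gp i * gm k))) * t i := by ring
        _ = X * (S (i, j, k) * t i) := by rw [h3]; ring
    have h4 : ∑ i, (uv i * t i * (γ * (gp j * gm k)) - uv j * γ * gm k * (gp i * t i)) =
        ∑ i, X * (S (i, j, k) * t i) := Finset.sum_congr rfl fun i _ => h1 i
    rw [Finset.sum_sub_distrib, ← Finset.sum_mul, ← Finset.mul_sum, ← Finset.mul_sum] at h4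
    have h5 : ∑ i, gp i * t i = 0 := ht
    rw [h5, mul_zero, sub_zero] at h4
    rw [← h4]
    ring
  have hσγ : σ * γ ≠ 0 := mul_ne_zero hst hγ
  have hX0 : X ≠ 0 := by
    intro h0
    obtain ⟨j, hj⟩ := hgp
    obtain ⟨k, hk⟩ := hgm
    have h1 := hZ j k
    rw [h0, zero_mul] at h1
    exact mul_ne_zero hσγ (mul_ne_zero hj hk) h1
  have h1 : logHeight gp + logHeight gm = logHeight (fun a : ι × ι => ∑ i, S (i, a.1, a.2) * t i) := by
    rw [← logHeight_fun_mul_eq hgp0 hgm0, ← logHeight_smul_eq_logHeight _ hσγ,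
      ← logHeight_smul_eq_logHeight (fun a : ι × ι => ∑ i, S (i, a.1, a.2) * t i) hX0]
    congr 1
    funext a
    simp only [Pi.smul_apply, smul_eq_mul]
    exact hZ a.1 a.2
  have hS0 : S ≠ 0 := by
    intro h0
    obtain ⟨j, hj⟩ := hgp
    obtain ⟨k, hk⟩ := hgm
    have h1 := hZ j k
    rw [h0] at h1
    simp only [Pi.zero_apply, zero_mul, Finset.sum_const_zero, mul_zero] at h1
    exact mul_ne_zero hσγ (mul_ne_zero hj hk) h1
  have h2 : (fun a : ι × ι => ∑ i, S (i, a.1, a.2) * t i) =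
      fun a : ι × ι => ∑ b : (ι × ι × ι) × ι,
        algebraMap K L (if b.1.2.1 = a.1 ∧ b.1.2.2 = a.2 ∧ b.1.1 = b.2 then (1 : K) else 0) *
          (S b.1 * t b.2) := by
    funext a
    symm
    rw [Fintype.sum_prod_type]
    simp only [Fintype.sum_prod_type]
    have h3 : ∀ i j k l : ι, algebraMap K L (if j = a.1 ∧ k = a.2 ∧ i = l then (1 : K) else 0) *
        (S (i, j, k) * t l) = if l = i then (if k = a.2 then (if j = a.1 then S (i, j, k) * t l else 0) else 0)
          else 0 := by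
      intro i j k l
      by_cases hj : j = a.1
      · by_cases hk : k = a.2
        · by_cases hl : i = l
          · rw [if_pos ⟨hj, hk, hl⟩, if_pos hl.symm, if_pos hk, if_pos hj, map_one, one_mul]
          · rw [if_neg (fun h => hl h.2.2), if_neg (fun h => hl h.symm), map_zero, zero_mul]
        · rw [if_neg (fun h => hk h.2.1), if_neg hk, map_zero, zero_mul]
          simp
      · rw [if_neg (fun h => hj h.1), if_neg hj, map_zero, zero_mul]
        simp
    simp only [h3, Finset.sum_ite_eq', Finset.mem_univ, if_true]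
  have h3 := hC1 L (fun b : (ι × ι × ι) × ι => S b.1 * t b.2)
  have h4 : logHeight (fun b : (ι × ι × ι) × ι => S b.1 * t b.2) = logHeight S + logHeight t :=
    logHeight_fun_mul_eq hS0 ht0
  have h5 := hC2 L x y hon
  have h6 : (fun k => evl (pt x y) ((fun a : ι × ι × ι => s a.1 a.2.1 a.2.2) k)) = S := rfl
  rw [h6] at h5
  rw [h4] at h3
  rw [h1, h2]
  have h7 : (C1 + C2) * (Module.finrank ℚ L : ℝ) = C1 * Module.finrank ℚ L + C2 * Module.finrank ℚ L := by
    ring
  rw [h7]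
  linarith

end Pool.Agent.Lib.MP_17a322_nt.PB
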