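import Pool.Agent.Lib.MP_17a322_nt.RV.K2b

/-!
Lower bounds for heights of values of the forms.
-/

namespace Pool.Agent.Lib.MP_17a322_nt.PB

open MvPolynomial WeierstrassCurve Height
open Pool.Agent.Lib.MP_17a322_nt.RO Pool.Agent.Lib.MP_17a322_nt.RV

universe u

/-- The conclusion of `core` (RV/K2b) for one point `Q`. -/
def Core {K : Type u} [Field K] [NumberField K] (W : WeierstrassCurve K) {n : ℕ} {ι : Type}
    (D : Fin n → ℕ) (g : ι → MvPolynomial (Fin n × Fin 2) K) (ℓ : Fin n → ℤ) (b₁ : ℕ)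
    (G : MvPolynomial ((Unit ⊕ Fin n) × Fin 2) K) : Prop :=
  ∃ C : ℝ, 0 ≤ C ∧
    ∀ (L : Type u) [Field L] [NumberField L] [DecidableEq L] [Algebra K L]
      (V : WeierstrassCurve L), W.map (algebraMap K L) = V →
      ∀ (Q : V.toAffine.Point) (P : Fin n → V.toAffine.Point),
        evl (Sum.elim (fun _ : Unit => Q.xRep) (fun i => (P i - ℓ i • Q).xRep)) G ≠ 0 →
          (∃ k, evl (fun i => (P i).xRep) (g k) ≠ 0) ∧
            dfc D g (fun i => (P i).xRep) ≤
              b₁ * (logHeight Q.xRep + ∑ i, logHeight (P i - ℓ i • Q).xRep) +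
                C * Module.finrank ℚ L

/-- Proof. `Core` for `P i = R i + ℓ i • Q` (`P i - ℓ i • Q = R i`) and for `P i = ℓ i • Q - R i`
(`P i - ℓ i • Q = - R i`, `xRep_neg`; `(ℓ i • Q - R i).xRep = (R i - ℓ i • Q).xRep`). `dfc` is
`∑ D i h - h(g)`. For the last inequality `K2b_mul` (RV/K2b) with `m = ℓ i`, `P = R i` and the constant of
`parallelogram_unif`. -/
theorem core_ineq {K : Type u} [Field K] [NumberField K] (W : WeierstrassCurve K)
    [W.IsElliptic] {n : ℕ} {ι : Type} (D : Fin n → ℕ)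
    (g : ι → MvPolynomial (Fin n × Fin 2) K) (ℓ : Fin n → ℤ) (b₁ : ℕ)
    (G : MvPolynomial ((Unit ⊕ Fin n) × Fin 2) K) (hcore : Core W D g ℓ b₁ G) :
    ∃ C : ℝ, 0 ≤ C ∧ ∀ (L : Type u) [Field L] [NumberField L] [DecidableEq L] [Algebra K L]
      (V : WeierstrassCurve L), W.map (algebraMap K L) = V →
      ∀ (Q : V.toAffine.Point) (R : Fin n → V.toAffine.Point),
        evl (Sum.elim (fun _ : Unit => Q.xRep) (fun i => (R i).xRep)) G ≠ 0 →
          (∃ j, evl (fun i => (R i + ℓ i • Q).xRep) (g j) ≠ 0) ∧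
          (∃ j, evl (fun i => (R i - ℓ i • Q).xRep) (g j) ≠ 0) ∧
          ∑ i, (D i : ℝ) * logHeight (R i + ℓ i • Q).xRep ≤
            logHeight (fun j => evl (fun i => (R i + ℓ i • Q).xRep) (g j)) +
              b₁ * (logHeight Q.xRep + ∑ i, logHeight (R i).xRep) + C * Module.finrank ℚ L ∧
          (∑ i, 2 * (ℓ i : ℝ) ^ 2 * D i) * logHeight Q.xRep ≤
            logHeight (fun j => evl (fun i => (R i + ℓ i • Q).xRep) (g j)) +
              logHeight (fun j => evl (fun i => (R i - ℓ i • Q).xRep) (g j)) +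
              2 * b₁ * (logHeight Q.xRep + ∑ i, logHeight (R i).xRep) +
                C * Module.finrank ℚ L := by
  obtain ⟨C0, hC0, h0⟩ := hcore
  obtain ⟨C2, hC2, hpar⟩ := parallelogram_unif W
  have hS : 0 ≤ ∑ i, (D i : ℝ) * ((2 * (ℓ i : ℝ) ^ 2 + 3) * C2) :=
    Finset.sum_nonneg fun i _ => by positivity
  refine ⟨2 * C0 + ∑ i, (D i : ℝ) * ((2 * (ℓ i : ℝ) ^ 2 + 3) * C2), by positivity, ?_⟩
  intro L _ _ _ _ V hWV Q R hne
  have e1 : ∀ i, R i + ℓ i • Q - ℓ i • Q = R i := fun i => by abel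
  have e2 : ∀ i, (-(R i - ℓ i • Q) - ℓ i • Q).xRep = (R i).xRep := fun i => by
    have : -(R i - ℓ i • Q) - ℓ i • Q = -(R i) := by abel
    rw [this, Affine.Point.xRep_neg]
  obtain ⟨a1, a2⟩ := h0 L V hWV Q (fun i => R i + ℓ i • Q) (by
    simp only [e1]
    exact hne)
  obtain ⟨b1, b2⟩ := h0 L V hWV Q (fun i => -(R i - ℓ i • Q)) (by
    simp only [e2]
    exact hne)
  simp only [e1] at a2
  simp only [e2] at b2
  simp only [Affine.Point.xRep_neg] at b1 b2
  unfold dfc at a2 b2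
  have hf : (0 : ℝ) ≤ Module.finrank ℚ L := Nat.cast_nonneg _
  refine ⟨a1, b1, ?_, ?_⟩
  · have h3 : 0 ≤ (C0 + ∑ i, (D i : ℝ) * ((2 * (ℓ i : ℝ) ^ 2 + 3) * C2)) *
        Module.finrank ℚ L := by positivity
    linarith
  · have h1 : ∀ i, (D i : ℝ) * (2 * logHeight (R i).xRep +
        2 * (ℓ i : ℝ) ^ 2 * logHeight Q.xRep) ≤
        D i * (logHeight (R i - ℓ i • Q).xRep + logHeight (R i + ℓ i • Q).xRep +
          (2 * (ℓ i : ℝ) ^ 2 + 3) * (C2 * Module.finrank ℚ L)) := fun i =>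
      mul_le_mul_of_nonneg_left
        (K2b_mul (fun P : V.toAffine.Point => logHeight P.xRep) (K2b_zero V)
          (fun P => logHeight_nonneg _) _ (hpar L V hWV) (ℓ i) (R i) Q) (Nat.cast_nonneg _)
    have h2 := Finset.sum_le_sum (s := Finset.univ) fun i _ => h1 i
    have h3 : ∑ i, (D i : ℝ) * (2 * logHeight (R i).xRep +
        2 * (ℓ i : ℝ) ^ 2 * logHeight Q.xRep) =
        2 * ∑ i, (D i : ℝ) * logHeight (R i).xRep +
          (∑ i, 2 * (ℓ i : ℝ) ^ 2 * D i) * logHeight Q.xRep := by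
      rw [Finset.mul_sum, Finset.sum_mul, ← Finset.sum_add_distrib]
      exact Finset.sum_congr rfl fun i _ => by ring
    have h4 : ∑ i, (D i : ℝ) * (logHeight (R i - ℓ i • Q).xRep +
        logHeight (R i + ℓ i • Q).xRep +
          (2 * (ℓ i : ℝ) ^ 2 + 3) * (C2 * Module.finrank ℚ L)) =
        ∑ i, (D i : ℝ) * logHeight (R i - ℓ i • Q).xRep +
          ∑ i, (D i : ℝ) * logHeight (R i + ℓ i • Q).xRep +
            (∑ i, (D i : ℝ) * ((2 * (ℓ i : ℝ) ^ 2 + 3) * C2)) * Module.finrank ℚ L := by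
      rw [Finset.sum_mul, ← Finset.sum_add_distrib, ← Finset.sum_add_distrib]
      exact Finset.sum_congr rfl fun i _ => by ring
    rw [h3, h4] at h2
    have h5 : 0 ≤ ∑ i, (D i : ℝ) * logHeight (R i).xRep :=
      Finset.sum_nonneg fun i _ => mul_nonneg (Nat.cast_nonneg _) (logHeight_nonneg _)
    linarith

end Pool.Agent.Lib.MP_17a322_nt.PB
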