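import Pool.Agent.Lib.MP_17a322_nt.RV.U1

/-!
Natural numbers as x-coordinates.
-/

namespace Pool.Agent.Lib.MP_17a322_nt.PB

open MvPolynomial Height
open Pool.Agent.Lib.MP_17a322_nt.RV

universe u

/-- The height of a natural number.
Proof. `logHeight ![μ, 1]` over `ℚ` is `log μ` for `μ ≥ 1` (`NumberField`/`Rat` lemmas on heights of rational
numbers, e.g. `logHeight_eq_max_abs_of_gcd_eq_one` or `Rat.logHeight₁_eq`), and `logHeight_algebraMap`
(RV/U1) from `ℚ` to `L`. -/
theorem height_nat (L : Type*) [Field L] [NumberField L] (μ : ℕ) (hμ : 1 ≤ μ) :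
    logHeight ![(μ : L), 1] = Module.finrank ℚ L * Real.log μ := by
  have : NeZero μ := ⟨by omega⟩
  have h1 : (![(μ : L), 1] : Fin 2 → L) = fun j => algebraMap ℚ L ((![(μ : ℚ), 1] : Fin 2 → ℚ) j) := by
    funext j
    fin_cases j <;> simp
  rw [h1, logHeight_algebraMap, ← logHeight₁_eq_logHeight, Rat.logHeight₁_natCast]

/-- Points with natural numbers as x-coordinates where a polynomial does not vanish.
Proof. `N ≠ 0` has a nonzero value at some `a : Unit ⊕ Fin n → ℕ` (`K` infinite of characteristic zero: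
`MvPolynomial.funext_set` or the grid lemma for the infinite set of natural numbers in `K`); put
`a' = a ∘ inr`; the polynomial `N(X, a')` in one variable is not `0`, so it has finitely many roots. -/
theorem exists_nat_point {K : Type u} [Field K] [CharZero K] {n : ℕ}
    (N : MvPolynomial (Unit ⊕ Fin n) K) (hN : N ≠ 0) :
    ∃ (a : Fin n → ℕ) (μ₀ : ℕ), (∀ i, 1 ≤ a i) ∧ ∀ μ : ℕ, μ₀ ≤ μ →
      aeval (Sum.elim (fun _ : Unit => (μ : K)) (fun i => (a i : K))) N ≠ 0 := by
  classical
  have hinf : ∀ _ : Unit ⊕ Fin n, (Set.range (fun k : ℕ => ((k + 1 : ℕ) : K))).Infinite := by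
    intro _
    refine Set.infinite_range_of_injective fun k l h => ?_
    have h1 : k + 1 = l + 1 := Nat.cast_injective h
    omega
  obtain ⟨c, hc, hcN⟩ : ∃ c : Unit ⊕ Fin n → K,
      (∀ i, c i ∈ Set.range (fun k : ℕ => ((k + 1 : ℕ) : K))) ∧ eval c N ≠ 0 := by
    by_contra hno
    push Not at hno
    refine hN (MvPolynomial.funext_set _ hinf fun c hc => ?_)
    rw [map_zero]
    exact hno c fun i => hc i (Set.mem_univ i)
  choose k hk using hc
  have hcomp : ∀ x : K, Polynomial.aeval x (aeval (Sum.elim (fun _ : Unit => (Polynomial.X : Polynomial K))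
      (fun i => Polynomial.C (((k (Sum.inr i) + 1 : ℕ) : K)))) N) =
      aeval (Sum.elim (fun _ : Unit => x) (fun i => ((k (Sum.inr i) + 1 : ℕ) : K))) N := by
    intro x
    rw [← AlgHom.comp_apply, MvPolynomial.comp_aeval]
    congr 2
    funext j
    rcases j with j | j
    · simp
    · simp
  have hQ0 : aeval (Sum.elim (fun _ : Unit => (Polynomial.X : Polynomial K))
      (fun i => Polynomial.C (((k (Sum.inr i) + 1 : ℕ) : K)))) N ≠ 0 := by
    intro h0
    have h1 := hcomp (c (Sum.inl ()))
    rw [h0, map_zero] at h1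
    apply hcN
    rw [← MvPolynomial.coe_aeval_eq_eval, RingHom.coe_coe] at *
    rw [h1]
    congr 2
    funext j
    rcases j with j | j
    · rfl
    · exact (hk (Sum.inr j)).symm
  set Q := aeval (Sum.elim (fun _ : Unit => (Polynomial.X : Polynomial K))
      (fun i => Polynomial.C (((k (Sum.inr i) + 1 : ℕ) : K)))) N with hQ
  have hfin : {μ : ℕ | Polynomial.aeval (μ : K) Q = 0}.Finite := by
    have hf2 : {x : K | Polynomial.aeval x Q = 0}.Finite := by
      refine Set.Finite.subset (Q.roots.toFinset.finite_toSet) ?_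
      intro x hx
      rw [Finset.mem_coe, Multiset.mem_toFinset, Polynomial.mem_roots hQ0]
      have hx' : Polynomial.aeval x Q = 0 := hx
      rwa [Polynomial.coe_aeval_eq_eval] at hx'
    exact hf2.preimage (Nat.cast_injective.injOn (s := _))
  obtain ⟨B, hB⟩ := hfin.bddAbove
  refine ⟨fun i => k (Sum.inr i) + 1, B + 1, fun i => Nat.le_add_left 1 _, fun μ hμ h0 => ?_⟩
  have h1 : μ ∈ {μ : ℕ | Polynomial.aeval (μ : K) Q = 0} := by
    change Polynomial.aeval (μ : K) Q = 0
    rw [hcomp]
    exact h0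
  have := hB h1
  omega

end Pool.Agent.Lib.MP_17a322_nt.PB
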