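import Pool.Agent.Lib.MP_17a322_nt.PB.A7c
import Pool.Agent.Lib.MP_17a322_nt.PB.C1b
import Pool.Agent.Lib.MP_17a322_nt.PB.C3a
import Pool.Agent.Lib.MP_17a322_nt.PB.C3b
import Pool.Agent.Lib.MP_17a322_nt.PB.C4a
import Pool.Agent.Lib.MP_17a322_nt.RV.M4b

/-!
The auxiliary vector is not proportional to g(x(R + l Q)).
-/

namespace Pool.Agent.Lib.MP_17a322_nt.PB

open MvPolynomial WeierstrassCurve Height
open Pool.Agent.Lib.MP_17a322_nt.RO Pool.Agent.Lib.MP_17a322_nt.RV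

universe u

/-- Points with natural numbers as x-coordinates over an extension. -/
theorem C4b_field {K : Type u} [Field K] [NumberField K] (W : WeierstrassCurve K)
    [W.IsElliptic] (M : ℕ) :
    ∃ (L : Type u) (_ : Field L) (_ : NumberField L) (_ : DecidableEq L) (_ : Algebra K L)
      (A : Fin (M + 1) → (W.map (algebraMap K L)).toAffine.Point),
        ∀ ν, (A ν).xRep = ![((ν : ℕ) : L), 1] := by
  classical
  obtain ⟨L', i1, i2, i3, i4, i5, i6, f, Q, A, h1, h2, h3⟩ :=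
    exists_field (K := K) (L := K) W 0 1 M one_pos (fun i => i.elim0)
  exact ⟨L', i1, i2, i3, i5, A, h3⟩

/-- A point with an affine x-coordinate is affine. -/
theorem C4b_some {F : Type*} [Field F] {V : WeierstrassCurve F} (P : V.toAffine.Point) (c : F)
    (h : P.xRep = ![c, 1]) : ∃ (y : F) (_ : V.toAffine.Nonsingular c y), True := by
  cases P with
  | zero =>
    exfalso
    have h1 := congrFun h 1
    have h2 : (Affine.Point.zero : V.toAffine.Point).xRep 1 = 0 := rfl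
    rw [h2] at h1
    simp at h1
  | some x y hxy =>
    rw [Affine.Point.xRep_some] at h
    have h0 := congrFun h 0
    simp at h0
    subst h0
    exact ⟨y, hxy, trivial⟩

/-- The inequality of real numbers at the end. -/
theorem C4b_real (z A b₁ C : ℝ) (k : ℕ) (hz : (1 + 1 / (k : ℝ)) * (A + b₁) < z)
    (μ₀ : ℕ) (h : ∀ μ : ℕ, μ₀ ≤ μ → z * Real.log μ ≤ (1 + 1 / (k : ℝ)) * (A + b₁) * Real.log μ + C) :
    False := by
  have h1 : Filter.Tendsto (fun μ : ℕ => Real.log (μ : ℝ)) Filter.atTop Filter.atTop :=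
    Real.tendsto_log_atTop.comp tendsto_natCast_atTop_atTop
  have h2 := (h1.eventually_gt_atTop (C / (z - (1 + 1 / (k : ℝ)) * (A + b₁)))).and
    (Filter.eventually_ge_atTop μ₀)
  obtain ⟨μ, h3, h4⟩ := h2.exists
  have h5 := h μ h4
  have h6 : 0 < z - (1 + 1 / (k : ℝ)) * (A + b₁) := by linarith
  rw [div_lt_iff₀ h6] at h3
  nlinarith

/-- The choice of `k`. -/
theorem C4b_k (a b₁ z : ℕ) (h : a + 2 * b₁ < z) :
    (1 + 1 / ((a + 2 * b₁ + 1 : ℕ) : ℝ)) * ((a : ℝ) / 2 + b₁) < (z : ℝ) / 2 := by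
  have h1 : ((a + 2 * b₁ + 1 : ℕ) : ℝ) ≤ z := by exact_mod_cast h
  push_cast at h1 ⊢
  have h2 : (0 : ℝ) < a + 2 * b₁ + 1 := by positivity
  have h3 : (1 + 1 / ((a : ℝ) + 2 * b₁ + 1)) * ((a : ℝ) / 2 + b₁) =
      ((a : ℝ) + 2 * b₁ + 1) / 2 - 1 / (2 * ((a : ℝ) + 2 * b₁ + 1)) := by
    field_simp
    ring
  rw [h3]
  have h4 : 0 < 1 / (2 * ((a : ℝ) + 2 * b₁ + 1)) := by positivity
  linarith

/-- If `a + 2 b₁ < ∑ 2 ℓ_i^2 D_i` then the vector `u` of weight `(a; b)` is not proportional to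
`g(x(R + ℓ Q))`.
Proof. Suppose that all the values are `0`. Then `u j₀` does not vanish at the generic point (otherwise
`u j * M j₀ j₀` would vanish for all `j`, but `M j₀ j₀` does not vanish, `M_gen`). Let `N₁` be a norm
(`Gen.norm`) of `u j₀ * M j₀ j₀` and `G₀` the dehomogenisation of `G` (`exists_dehom` (RO/N2) or
`M4b_dehom` (RV/M4b), or `aeval` at `(X b, 1)`), `N = N₁ * ν * G₀ ≠ 0`. `exists_nat_point` gives `a i` and `μ₀`. For `μ ≥ μ₀`
apply `exists_field` (RV/U6) with `L = K`, `s = 0`, `N = 1` and `M = max μ (a i)`: a number field `L'` over `K` and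
points `Q`, `R i` with x-coordinates `μ`, `a i` (affine: `xRep = ![_, 1]`). There `G ≠ 0`, `ν ≠ 0`, `u j₀ ≠ 0`,
`M j₀ j₀ ≠ 0`. By `Gen.zero` the assumption gives `u j * M j₀ j₀ = u j₀ * M j j₀` at these points, and by `IsMat`
`u_j g_{j₀}⁺ = u_{j₀} g_j⁺`, so `h(u) = h(g⁺)` (`logHeight_smul_eq_logHeight`). By `logHeight_WD`
`h(u) ≤ a/2 h(Q) + ∑ b/2 h(R i) + C [L' : ℚ]`, by `core_ineq` `∑ D_i h(R_i + ℓ_i Q) ≤ h(g⁺) + b₁ (h(Q) + ∑ h(R i)) +
C [L' : ℚ]`, by `height_young` (first inequality, `k` large) `ℓ_i^2 h(Q) ≤ (1 + 1/k) h(R_i + ℓ_i Q) + (1 + k) h(R i) + C`.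
Together, with `z = ∑ 2 ℓ_i^2 D_i`: `z/2 h(Q) ≤ (1 + 1/k) (a/2 + b₁) h(Q) + C' [L' : ℚ]`, where
`h(Q) = [L' : ℚ] log μ` (`height_nat`), `h(R i) = [L' : ℚ] log (a i)`. Choose `k` with
`(1 + 1/k) (a/2 + b₁) < z/2` and let `μ` be large. -/
theorem nonprop {K 𝔽 : Type u} [Field K] [NumberField K] [Field 𝔽] [Algebra K 𝔽]
    (W : WeierstrassCurve K) [W.IsElliptic] {n : ℕ} {ι : Type} [Fintype ι] (D : Fin n → ℕ)
    (g : ι → MvPolynomial (Fin n × Fin 2) K) (hg : ∀ j, MH (g j) D) (ℓ : Fin n → ℤ)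
    (M : ι → ι → MvPolynomial ((Unit ⊕ Fin n) × Fin 2) K) (ν : MvPolynomial (Unit ⊕ Fin n) K)
    (hν : ν ≠ 0) (hM : IsMat W g ℓ M ν) (ξ η : Unit ⊕ Fin n → 𝔽) (hgen : Gen W ξ η) (j₀ : ι)
    (hj : g j₀ ≠ 0) (b₁ : ℕ) (G : MvPolynomial ((Unit ⊕ Fin n) × Fin 2) K) (E : Unit ⊕ Fin n → ℕ)
    (hG : MH G E) (hG0 : G ≠ 0) (hcore : Core W D g ℓ b₁ G) (a b : ℕ)
    (hab : a + 2 * b₁ < ∑ i, 2 * (ℓ i).natAbs ^ 2 * D i)
    (u : ι → MvPolynomial ((Unit ⊕ Fin n) × Fin 2) K)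
    (hu : ∀ i, WD (u i) (Sum.elim (fun _ => a) (fun _ => b)))
    (hu0 : ∃ i, evl (pt ξ η) (u i) ≠ 0) :
    ∃ j, evl (pt ξ η) (u j) * evl (pt ξ η) (M j₀ j₀) -
      evl (pt ξ η) (u j₀) * evl (pt ξ η) (M j j₀) ≠ 0 := by
  classical
  by_contra hcon
  push Not at hcon
  obtain ⟨hM0, -⟩ := M_gen W D g hg ℓ M ν hν hM ξ η hgen j₀ hj
  have huj : evl (pt ξ η) (u j₀) ≠ 0 := by
    intro h
    obtain ⟨i, hi⟩ := hu0
    have h1 := hcon i
    rw [h, zero_mul, sub_zero] at h1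
    rcases mul_eq_zero.mp h1 with h2 | h2
    · exact hi h2
    · exact hM0 h2
  have hprod : evl (pt ξ η) (u j₀ * M j₀ j₀) ≠ 0 := by
    have : evl (pt ξ η) (u j₀ * M j₀ j₀) = evl (pt ξ η) (u j₀) * evl (pt ξ η) (M j₀ j₀) := by
      simp only [evl, map_mul]
    rw [this]
    exact mul_ne_zero huj hM0
  obtain ⟨p', N₁, hN₁, hnorm⟩ := hgen.norm _ hprod
  obtain ⟨G₀, hG₀, hdehom⟩ := M4b_dehom E G hG hG0
  obtain ⟨aa, μ₀, haa, hμ₀⟩ := exists_nat_point (N₁ * ν * G₀)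
    (mul_ne_zero (mul_ne_zero hN₁ hν) hG₀)
  obtain ⟨C₁, hC₁, hWD⟩ := logHeight_WD W u (Sum.elim (fun _ => a) (fun _ => b)) hu
  obtain ⟨C₂, hC₂, hci⟩ := core_ineq W D g ℓ b₁ G hcore
  set k : ℕ := a + 2 * b₁ + 1 with hk
  have hk1 : 1 ≤ k := by omega
  choose C₃ hC₃ hyoung using fun i => height_young W k hk1 (ℓ i)
  have hz : (1 + 1 / (k : ℝ)) * ((a : ℝ) / 2 + b₁) < ∑ i, (D i : ℝ) * (ℓ i : ℝ) ^ 2 := by
    have h1 := C4b_k a b₁ _ hab
    rw [← hk] at h1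
    refine lt_of_lt_of_eq h1 ?_
    push_cast
    rw [Finset.sum_div]
    refine Finset.sum_congr rfl fun i _ => ?_
    have h2 : (((ℓ i).natAbs : ℕ) : ℝ) ^ 2 = (ℓ i : ℝ) ^ 2 := by
      rw [Nat.cast_natAbs, Int.cast_abs, sq_abs]
    rw [h2]
    ring
  refine C4b_real _ _ _ ((1 + 1 / (k : ℝ)) * (((b : ℝ) / 2 + b₁) * ∑ i, Real.log (aa i) + C₁ + C₂) +
    (1 + k) * ∑ i, (D i : ℝ) * Real.log (aa i) + ∑ i, (D i : ℝ) * C₃ i) k hz (max μ₀ 1) ?_
  intro μ hμ
  have hμ0 : μ₀ ≤ μ := le_trans (le_max_left _ _) hμ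
  have hμ1 : 1 ≤ μ := le_trans (le_max_right _ _) hμ
  obtain ⟨L, i1, i2, i3, i4, A, hA⟩ := C4b_field W (max μ (Finset.univ.sup aa))
  set v : Unit ⊕ Fin n → ℕ := Sum.elim (fun _ => μ) aa with hv
  have hvle : ∀ b, v b < max μ (Finset.univ.sup aa) + 1 := by
    intro b
    rcases b with _ | i
    · simp only [hv, Sum.elim_inl]
      exact Nat.lt_succ_of_le (le_max_left _ _)
    · simp only [hv, Sum.elim_inr]
      exact Nat.lt_succ_of_le (le_trans (Finset.le_sup (f := aa) (Finset.mem_univ i))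
        (le_max_right _ _))
  choose y hy _ using fun b => C4b_some (A ⟨v b, hvle b⟩) ((v b : ℕ) : L) (hA _)
  set x : Unit ⊕ Fin n → L := fun b => ((v b : ℕ) : L) with hx
  set V := W.map (algebraMap K L) with hV
  set Q : V.toAffine.Point := Affine.Point.some (x (Sum.inl ())) (y (Sum.inl ())) (hy (Sum.inl ()))
    with hQ
  set R : Fin n → V.toAffine.Point := fun i =>
    Affine.Point.some (x (Sum.inr i)) (y (Sum.inr i)) (hy (Sum.inr i)) with hR
  have hon : ∀ b, OnC W (x b) (y b) := fun b => (hy b).1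
  have hxK : x = algebraMap K L ∘ (Sum.elim (fun _ : Unit => (μ : K)) (fun i => (aa i : K))) := by
    funext b
    rcases b with _ | i <;> simp [hx, hv]
  have hN : aeval x (N₁ * ν * G₀) ≠ 0 := by
    rw [hxK, MvPolynomial.aeval_algebraMap_apply]
    intro h
    exact hμ₀ μ hμ0 ((FaithfulSMul.algebraMap_injective K L) (by rw [h, map_zero]))
  rw [map_mul, map_mul] at hN
  have hN1 : aeval x N₁ ≠ 0 := fun h => hN (by rw [h]; ring)
  have hN2 : aeval x ν ≠ 0 := fun h => hN (by rw [h]; ring)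
  have hN3 : aeval x G₀ ≠ 0 := fun h => hN (by rw [h]; ring)
  have hprod2 : evl (pt x y) (u j₀) * evl (pt x y) (M j₀ j₀) ≠ 0 := by
    intro h
    apply hN1
    rw [← hnorm L x y hon]
    have : evl (pt x y) (u j₀ * M j₀ j₀) = evl (pt x y) (u j₀) * evl (pt x y) (M j₀ j₀) := by
      simp only [evl, map_mul]
    rw [this, h, zero_mul]
  have hQx : Q.xRep = ![x (Sum.inl ()), 1] := Affine.Point.xRep_some ..
  have hRx : ∀ i, (R i).xRep = ![x (Sum.inr i), 1] := fun i => Affine.Point.xRep_some ..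
  have hGne : evl (Sum.elim (fun _ : Unit => Q.xRep) (fun i => (R i).xRep)) G ≠ 0 := by
    have h1 : (Sum.elim (fun _ : Unit => Q.xRep) (fun i => (R i).xRep)) =
        fun b => ![x b, 1] := by
      funext b
      rcases b with _ | i
      · simp only [Sum.elim_inl]
        exact hQx
      · simp only [Sum.elim_inr]
        exact hRx i
    rw [h1, ← hdehom L x]
    exact hN3
  have hrel : ∀ j, evl (pt x y) (u j) * evl (pt x y) (M j₀ j₀) =
      evl (pt x y) (u j₀) * evl (pt x y) (M j j₀) := by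
    intro j
    have h1 := hgen.zero (u j * M j₀ j₀ - u j₀ * M j j₀) (by
      have := hcon j
      simp only [evl, map_mul, map_sub] at this ⊢
      exact this) L x y hon
    simp only [evl, map_mul, map_sub] at h1 ⊢
    exact sub_eq_zero.mp h1
  obtain ⟨γ, hγ, hMv⟩ := hM L V rfl x y hy hN2 Q R rfl (fun i => rfl)
  obtain ⟨-, -, hc1, -⟩ := hci L V rfl Q R hGne
  set gp : ι → L := fun j => evl (fun i => (R i + ℓ i • Q).xRep) (g j) with hgp
  set gm : ι → L := fun j => evl (fun i => (R i - ℓ i • Q).xRep) (g j) with hgm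
  have hM00 : evl (pt x y) (M j₀ j₀) ≠ 0 := fun h => hprod2 (by rw [h, mul_zero])
  have hu00 : evl (pt x y) (u j₀) ≠ 0 := fun h => hprod2 (by rw [h, zero_mul])
  have hgpne : gp j₀ ≠ 0 := by
    intro h
    apply hM00
    rw [hMv j₀ j₀]
    have : evl (fun i => (R i + ℓ i • Q).xRep) (g j₀) = 0 := h
    rw [this]
    ring
  have hgmne : gm j₀ ≠ 0 := by
    intro h
    apply hM00
    rw [hMv j₀ j₀]
    have : evl (fun i => (R i - ℓ i • Q).xRep) (g j₀) = 0 := h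
    rw [this]
    ring
  have hprop : (fun j => evl (pt x y) (u j)) = (evl (pt x y) (u j₀) / gp j₀) • gp := by
    funext j
    rw [Pi.smul_apply, smul_eq_mul]
    have h1 := hrel j
    rw [hMv j₀ j₀, hMv j j₀] at h1
    have h2 : evl (pt x y) (u j) * gp j₀ = evl (pt x y) (u j₀) * gp j := by
      apply mul_right_cancel₀ (mul_ne_zero hγ hgmne)
      have h3 : evl (pt x y) (u j) * (γ * (gp j₀ * gm j₀)) =
        evl (pt x y) (u j₀) * (γ * (gp j * gm j₀)) := h1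
      linear_combination h3
    field_simp
    exact h2
  have hheight : logHeight (fun j => evl (pt x y) (u j)) = logHeight gp := by
    rw [hprop]
    exact logHeight_smul_eq_logHeight _ (div_ne_zero hu00 hgpne)
  have hd : (0 : ℝ) < Module.finrank ℚ L := by
    exact_mod_cast Module.finrank_pos
  set d : ℝ := (Module.finrank ℚ L : ℝ) with hdd
  have hQh : logHeight ![x (Sum.inl ()), 1] = d * Real.log μ := height_nat L μ hμ1
  have hRh : ∀ i, logHeight ![x (Sum.inr i), 1] = d * Real.log (aa i) := fun i =>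
    height_nat L (aa i) (haa i)
  have hW := hWD L x y hon
  rw [hheight, Fintype.sum_sum_type] at hW
  simp only [Finset.univ_unique, Finset.sum_singleton, Sum.elim_inl, Sum.elim_inr] at hW
  have hdef : (default : Unit) = () := rfl
  rw [hdef, hQh] at hW
  simp only [hRh] at hW
  have hYi : ∀ i, (D i : ℝ) * ((ℓ i : ℝ) ^ 2 * (d * Real.log μ)) ≤
      (D i : ℝ) * ((1 + 1 / (k : ℝ)) * logHeight (R i + ℓ i • Q).xRep +
        (1 + k) * (d * Real.log (aa i)) + C₃ i * d) := by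
    intro i
    have h1 := (hyoung i L V rfl Q (R i)).1
    rw [hQx, hRx i, hQh, hRh i] at h1
    exact mul_le_mul_of_nonneg_left h1 (Nat.cast_nonneg _)
  have hYs := Finset.sum_le_sum (fun i (_ : i ∈ Finset.univ) => hYi i)
  have e1 : ∑ i, (D i : ℝ) * ((ℓ i : ℝ) ^ 2 * (d * Real.log μ)) =
      d * ((∑ i, (D i : ℝ) * (ℓ i : ℝ) ^ 2) * Real.log μ) := by
    rw [Finset.sum_mul, Finset.mul_sum]
    refine Finset.sum_congr rfl fun i _ => ?_
    ring
  have e2 : ∑ i, (D i : ℝ) * ((1 + 1 / (k : ℝ)) * logHeight (R i + ℓ i • Q).xRep +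
        (1 + k) * (d * Real.log (aa i)) + C₃ i * d) =
      (1 + 1 / (k : ℝ)) * ∑ i, (D i : ℝ) * logHeight (R i + ℓ i • Q).xRep +
        d * ((1 + k) * ∑ i, (D i : ℝ) * Real.log (aa i) + ∑ i, (D i : ℝ) * C₃ i) := by
    rw [mul_add d, Finset.mul_sum, Finset.mul_sum, Finset.mul_sum, Finset.mul_sum,
      ← Finset.sum_add_distrib, ← Finset.sum_add_distrib]
    refine Finset.sum_congr rfl fun i _ => ?_
    ring
  rw [e1, e2] at hYs
  have hc2 : ∑ i, (D i : ℝ) * logHeight (R i + ℓ i • Q).xRep ≤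
      d * (((a : ℝ) / 2 + b₁) * Real.log μ + (((b : ℝ) / 2 + b₁) * ∑ i, Real.log (aa i) + C₁ + C₂)) := by
    rw [hQx, hQh] at hc1
    simp only [hRx, hRh] at hc1
    have e3 : ∑ i, (b : ℝ) / 2 * (d * Real.log (aa i)) = d * ((b : ℝ) / 2 * ∑ i, Real.log (aa i)) := by
      rw [Finset.mul_sum, Finset.mul_sum]
      refine Finset.sum_congr rfl fun i _ => ?_
      ring
    have e4 : ∑ i, (d * Real.log (aa i)) = d * ∑ i, Real.log (aa i) := by
      rw [Finset.mul_sum]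
    rw [e3] at hW
    rw [e4] at hc1
    nlinarith [hc1, hW]
  have hk0 : (0 : ℝ) ≤ 1 + 1 / (k : ℝ) := by positivity
  have hc3 := mul_le_mul_of_nonneg_left hc2 hk0
  have hfin : d * ((∑ i, (D i : ℝ) * (ℓ i : ℝ) ^ 2) * Real.log μ) ≤
      d * ((1 + 1 / (k : ℝ)) * ((a : ℝ) / 2 + b₁) * Real.log μ +
        ((1 + 1 / (k : ℝ)) * (((b : ℝ) / 2 + b₁) * ∑ i, Real.log (aa i) + C₁ + C₂) +
    (1 + k) * ∑ i, (D i : ℝ) * Real.log (aa i) + ∑ i, (D i : ℝ) * C₃ i)) := by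
    calc _ ≤ _ := hYs
      _ ≤ _ := by
        have := add_le_add_left hc3 (d * ((1 + k) * ∑ i, (D i : ℝ) * Real.log (aa i) +
          ∑ i, (D i : ℝ) * C₃ i))
        refine le_trans (by linarith) (le_trans this (le_of_eq ?_))
        ring
  exact le_of_mul_le_mul_left hfin hd

end Pool.Agent.Lib.MP_17a322_nt.PB
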