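import Pool.Agent.Lib.MP_17a322_nt.PB.A3
import Pool.Agent.Lib.MP_17a322_nt.RO.B1

/-!
Linear forms with functions as coefficients.
-/

namespace Pool.Agent.Lib.MP_17a322_nt.PB

open MvPolynomial WeierstrassCurve Height
open Pool.Agent.Lib.MP_17a322_nt.RO

universe u

/-- The linear form `∑ j, v j * t j` with `t j` the x-coordinate of the block `inr j`. -/
noncomputable def lin {K B ι : Type*} [CommRing K] [Fintype ι]
    (v : ι → MvPolynomial (B × Fin 2) K) : MvPolynomial ((B ⊕ ι) × Fin 2) K :=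
  ∑ j, rename (Prod.map Sum.inl id) (v j) * X (Sum.inr j, 0)

theorem evl_lin {K A B ι : Type*} [Field K] [Field A] [Algebra K A] [Fintype ι]
    (v : ι → MvPolynomial (B × Fin 2) K) (x y : B ⊕ ι → A) :
    evl (pt x y) (lin v) =
      ∑ j, evl (pt (fun b => x (Sum.inl b)) (fun b => y (Sum.inl b))) (v j) * x (Sum.inr j) := by
  have h : evl (pt x y) (lin v) =
      ∑ j, evl (pt x y) (rename (Prod.map Sum.inl id) (v j)) * x (Sum.inr j) := by
    unfold evl lin
    rw [map_sum]
    refine Finset.sum_congr rfl fun j _ => ?_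
    rw [map_mul, aeval_X]
    rfl
  rw [h]
  refine Finset.sum_congr rfl fun j _ => ?_
  rw [evl_block]
  rfl

/-- If one of the `v j` does not vanish at a generic point then the linear form does not vanish at a
generic point of the larger product.
Proof. Otherwise, by `Gen.zero` for `hg'`, it vanishes at all points of the curve over
`F = AlgebraicClosure 𝔽`. Take `x (inl b) = ξ b`, `y (inl b) = η b`, `x (inr j₁) = 1` and `x (inr j) = 0` for
`j ≠ j₁`, with `y (inr j)` a solution of the quadratic equation (`B1_quad` in RO/B1): the value is that of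
`v j₁` at the generic point, not `0`. -/
theorem lin_ne {K 𝔽 𝔽' : Type u} [Field K] [Field 𝔽] [Algebra K 𝔽] [Field 𝔽'] [Algebra K 𝔽']
    {W : WeierstrassCurve K} {B ι : Type} [Fintype B] [DecidableEq B] [Fintype ι]
    [DecidableEq ι] {ξ η : B → 𝔽} (hg : Gen W ξ η) {ξ' η' : B ⊕ ι → 𝔽'} (hg' : Gen W ξ' η')
    (v : ι → MvPolynomial (B × Fin 2) K) (j₁ : ι) (hv : evl (pt ξ η) (v j₁) ≠ 0) :
    evl (pt ξ' η') (lin v) ≠ 0 := by
  intro h0
  let F := AlgebraicClosure 𝔽
  let f : 𝔽 →+* F := algebraMap 𝔽 F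
  have hf : ∀ k : K, algebraMap K F k = f (algebraMap K 𝔽 k) := fun k =>
    IsScalarTower.algebraMap_apply K 𝔽 F k
  have hq : ∀ t : F, ∃ z : F, OnC W t z := by
    intro t
    obtain ⟨z, hz⟩ := B1_quad (algebraMap K F W.a₁ * t + algebraMap K F W.a₃)
      (-(t ^ 3 + algebraMap K F W.a₂ * t ^ 2 + algebraMap K F W.a₄ * t + algebraMap K F W.a₆))
    refine ⟨z, ?_⟩
    unfold OnC
    rw [WeierstrassCurve.Affine.equation_iff]
    simp only [WeierstrassCurve.map_a₁, WeierstrassCurve.map_a₂, WeierstrassCurve.map_a₃,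
      WeierstrassCurve.map_a₄, WeierstrassCurve.map_a₆]
    linear_combination hz
  choose z hz using fun j : ι => hq (if j = j₁ then 1 else 0)
  have hon : ∀ b : B ⊕ ι, OnC W (Sum.elim (fun b => f (ξ b)) (fun j : ι => (if j = j₁ then 1 else 0 : F)) b)
      (Sum.elim (fun b => f (η b)) z b) := by
    intro b
    rcases b with b | j
    · have h1 := hg.on b
      unfold OnC at h1 ⊢
      rw [WeierstrassCurve.Affine.equation_iff] at h1 ⊢
      simp only [WeierstrassCurve.map_a₁, WeierstrassCurve.map_a₂, WeierstrassCurve.map_a₃,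
        WeierstrassCurve.map_a₄, WeierstrassCurve.map_a₆, Sum.elim_inl, hf] at h1 ⊢
      have h2 := congrArg f h1
      simp only [map_add, map_mul, map_pow] at h2
      exact h2
    · exact hz j
  have h1 := hg'.zero (lin v) h0 F _ _ hon
  rw [evl_lin] at h1
  simp only [Sum.elim_inl, Sum.elim_inr] at h1
  rw [Finset.sum_eq_single j₁ (fun j _ hj => by rw [if_neg hj, mul_zero])
    (fun h => absurd (Finset.mem_univ _) h), if_pos rfl, mul_one] at h1
  have h2 : evl (pt (fun b => f (ξ b)) (fun b => f (η b))) (v j₁) = f (evl (pt ξ η) (v j₁)) := by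
    unfold evl
    have h3 : (fun p : B × Fin 2 => pt (fun b => f (ξ b)) (fun b => f (η b)) p.1 p.2) =
        fun p : B × Fin 2 => algebraMap 𝔽 F (pt ξ η p.1 p.2) := by
      funext p
      obtain ⟨b, i⟩ := p
      fin_cases i <;> rfl
    rw [h3]
    exact MvPolynomial.aeval_algebraMap_apply F (fun p : B × Fin 2 => pt ξ η p.1 p.2) (v j₁)
  rw [h2, map_eq_zero] at h1
  exact hv h1

end Pool.Agent.Lib.MP_17a322_nt.PB
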