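import Pool.Agent.Lib.MP_17a322_nt.PB.A2b
import Pool.Agent.Lib.MP_17a322_nt.PB.A8
import Pool.Agent.Lib.MP_17a322_nt.PB.C2
import Pool.Agent.Lib.MP_17a322_nt.PB.C4b
import Pool.Agent.Lib.MP_17a322_nt.PB.C5a

/-!
The height inequality off the zeros of a polynomial.
-/

namespace Pool.Agent.Lib.MP_17a322_nt.PB

open MvPolynomial WeierstrassCurve Height
open Pool.Agent.Lib.MP_17a322_nt.RO Pool.Agent.Lib.MP_17a322_nt.RV

universe u

/-- A point with x-coordinate `![t, 1]` is affine. -/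
theorem C5b_affine {L : Type*} [Field L] {V : WeierstrassCurve L} (S : V.toAffine.Point) (t : L)
    (hS : S.xRep = ![t, 1]) : ∃ y : L, V.toAffine.Equation t y := by
  rcases S with _ | ⟨xx, yy, hh⟩
  · have h1 : (![1, 0] : Fin 2 → L) = ![t, 1] := hS
    have h2 := congrFun h1 1
    simp at h2
  · have h1 : (![xx, 1] : Fin 2 → L) = ![t, 1] := hS
    have h2 : xx = t := by
      have h3 := congrFun h1 0
      simpa using h3
    refine ⟨yy, ?_⟩
    rw [← h2]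
    exact hh.1

/-- The linear form `∑ v j * t j`, `v j = u j * m₀ - u₀ * m j`. -/
theorem C5b_sum {L ι : Type*} [Field L] [Fintype ι] [DecidableEq ι] (j₀ : ι) (u m t : ι → L)
    (hm : ∑ j, m j * t j = 0)
    (h : ∑ j : {j // j ≠ j₀}, (u j * m j₀ - u j₀ * m j) * t j ≠ 0) : ∑ j, u j * t j ≠ 0 := by
  intro h0
  apply h
  have h1 := Fintype.sum_eq_add_sum_subtype_ne (fun j => (u j * m j₀ - u j₀ * m j) * t j) j₀
  have h2 : ∑ j, (u j * m j₀ - u j₀ * m j) * t j = m j₀ * ∑ j, u j * t j - u j₀ * ∑ j, m j * t j := by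
    rw [Finset.mul_sum, Finset.mul_sum, ← Finset.sum_sub_distrib]
    refine Finset.sum_congr rfl fun j _ => ?_
    ring
  rw [h2, h0, hm, mul_zero, mul_zero, sub_zero] at h1
  have h3 : (u j₀ * m j₀ - u j₀ * m j₀) * t j₀ = 0 := by ring
  rw [h3, zero_add] at h1
  exact h1.symm

/-- The two products in the counting condition. -/
theorem C5b_card {n : ℕ} (D : Fin n → ℕ) (ℓ : Fin n → ℤ) (a b T c : ℕ) (ha : 1 ≤ a) (hb : 1 ≤ b)
    (hcard : (c - 1) * (2 * T * ∏ i, (b + 4 * D i)) < c * (a * b ^ n)) :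
    (c - 1) * (2 * T * ∏ k ∈ Finset.univ.erase (Sum.inl () : Unit ⊕ Fin n),
      max ((Sum.elim (fun _ => a) (fun _ => b) : Unit ⊕ Fin n → ℕ) k + wq D ℓ k) 1) <
      c * ∏ k, max ((Sum.elim (fun _ => a) (fun _ => b) : Unit ⊕ Fin n → ℕ) k) 1 := by
  have h1 : ∏ k, max ((Sum.elim (fun _ => a) (fun _ => b) : Unit ⊕ Fin n → ℕ) k) 1 = a * b ^ n := by
    rw [Fintype.prod_sum_type]
    simp only [Sum.elim_inl, Sum.elim_inr, Finset.prod_const, Finset.card_univ, Fintype.card_unit,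
      Fintype.card_fin, pow_one]
    rw [max_eq_left ha, max_eq_left hb]
  have h2 : ∏ k ∈ Finset.univ.erase (Sum.inl () : Unit ⊕ Fin n),
      max ((Sum.elim (fun _ => a) (fun _ => b) : Unit ⊕ Fin n → ℕ) k + wq D ℓ k) 1 =
      ∏ i, (b + 4 * D i) := by
    have h3 : Finset.univ.erase (Sum.inl () : Unit ⊕ Fin n) =
        (Finset.univ : Finset (Fin n)).map Function.Embedding.inr := by
      ext k
      rcases k with k | k
      · simp
      · simp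
    rw [h3, Finset.prod_map]
    refine Finset.prod_congr rfl fun i _ => ?_
    simp only [Function.Embedding.inr_apply, Sum.elim_inr, wq]
    rw [max_eq_left]
    omega
  rw [h1, h2]
  exact hcard

/-- The weights of `w'`. -/
theorem C5b_weights {n : ℕ} (D : Fin n → ℕ) (ℓ : Fin n → ℤ) (a b T : ℕ)
    (hT : 2 * T < a + ∑ i, 4 * (ℓ i).natAbs ^ 2 * D i) (H : Unit ⊕ Fin n → ℝ) :
    ∑ k, ((Function.update ((Sum.elim (fun _ => a) (fun _ => b) : Unit ⊕ Fin n → ℕ) + wq D ℓ)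
      (Sum.inl ()) ((Sum.elim (fun _ => a) (fun _ => b) : Unit ⊕ Fin n → ℕ) (Sum.inl ()) +
        wq D ℓ (Sum.inl ()) - 2 * T) k : ℕ) : ℝ) / 2 * H k =
      ((a : ℝ) / 2 + ∑ i, 2 * (ℓ i : ℝ) ^ 2 * D i - T) * H (Sum.inl ()) +
        ∑ i, ((b : ℝ) / 2 + 2 * D i) * H (Sum.inr i) := by
  rw [Fintype.sum_sum_type]
  congr 1
  · simp only [Finset.univ_unique, Finset.sum_singleton, PUnit.default_eq_unit,
      Function.update_self, Sum.elim_inl, wq]
    rw [Nat.cast_sub hT.le]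
    push_cast
    have h1 : ∑ i, 4 * |(ℓ i : ℝ)| ^ 2 * (D i : ℝ) = 2 * ∑ i, 2 * (ℓ i : ℝ) ^ 2 * (D i : ℝ) := by
      rw [Finset.mul_sum]
      refine Finset.sum_congr rfl fun i _ => ?_
      rw [sq_abs]
      ring
    have h2 : ∑ i, 4 * ((((ℓ i).natAbs : ℕ)) : ℝ) ^ 2 * (D i : ℝ) =
        2 * ∑ i, 2 * (ℓ i : ℝ) ^ 2 * (D i : ℝ) := by
      rw [← h1]
      refine Finset.sum_congr rfl fun i _ => ?_
      rw [Nat.cast_natAbs, Int.cast_abs]
    rw [h2]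
    ring
  · refine Finset.sum_congr rfl fun i _ => ?_
    rw [Function.update_of_ne (by simp)]
    simp only [Pi.add_apply, Sum.elim_inr, wq]
    push_cast
    ring

/-- Proof. Generic points `ξ, η` for `Unit ⊕ Fin n` and `ξ', η'` for `(Unit ⊕ Fin n) ⊕ {j // j ≠ j₀}`
(`exists_gen`, PB/A2). `exists_M` gives `M`, `ν`; `M_gen` gives the hypotheses of `Gen.aux` (PB/A8) for
`q = inl ()`, `w = Sum.elim a b`, `ω = wq D ℓ`, `Q = M`: with `Finset.univ.erase (inl ())` the image of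
`Fin n`, `∏ max (b + 4 D i) 1 = ∏ (b + 4 D i)` and `∏ max (w b) 1 = a * b ^ n`. We get `c`, `u`, `s`. `nonprop` gives
`j₁` with `v j₁ ≠ 0` at the generic point for `v j = u j * M j₀ j₀ - u j₀ * M j j₀`, and `j₁ ≠ j₀`. By `lin_ne` and
`Gen.norm` there is `N_H ≠ 0` with `lin v * p' = N_H`, `v` restricted to `{j // j ≠ j₀}`. Let
`N = N_H * rename inl ν * rename inl G₀`, `G₀ ≠ 0` the dehomogenisation of `G` (`M4b_dehom`, RV/M4b). At a point
with `N ≠ 0`: the points `S j` are affine with x-coordinate `t j` and some y-coordinate; so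
`∑_{j ≠ j₀} v_j t_j ≠ 0`. As `∑_j M j j₀ * t j = γ g_{j₀}⁻ ∑ g_j⁺ t_j = 0`,
`M j₀ j₀ * ∑ u_j t_j = ∑_j v_j t_j ≠ 0` (`v j₀ = 0`), so `∑ u_j t_j ≠ 0`. `core_ineq` (PB/C3) gives that `g⁺`, `g⁻` are not
`0` and its last inequality; `point_ineq` (PB/C2) with `w' = update (w + ω) (inl ()) (a + ω (inl ()) - 2 T)`:
`w' (inl ()) / 2 = a / 2 + z - T`, `z = ∑ 2 ℓ_i^2 D_i`, `w' (inr i) / 2 = b / 2 + 2 D_i`. Subtract. -/
theorem exists_N {K : Type u} [Field K] [NumberField K]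
    (W : WeierstrassCurve K) [W.IsElliptic] {n : ℕ} {ι : Type} [Fintype ι] [DecidableEq ι]
    (D : Fin n → ℕ) (g : ι → MvPolynomial (Fin n × Fin 2) K) (hg : ∀ j, MH (g j) D)
    (ℓ : Fin n → ℤ) (j₀ : ι) (hj : g j₀ ≠ 0) (b₁ : ℕ)
    (G : MvPolynomial ((Unit ⊕ Fin n) × Fin 2) K) (E : Unit ⊕ Fin n → ℕ)
    (hG : MH G E) (hG0 : G ≠ 0) (hcore : Core W D g ℓ b₁ G) (a b T : ℕ) (ha : 1 ≤ a) (hb : 1 ≤ b)
    (hab : a + 2 * b₁ < ∑ i, 2 * (ℓ i).natAbs ^ 2 * D i)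
    (hT : 2 * T < a + ∑ i, 4 * (ℓ i).natAbs ^ 2 * D i)
    (hcard : (Fintype.card ι - 1) * (2 * T * ∏ i, (b + 4 * D i)) <
      Fintype.card ι * (a * b ^ n)) :
    ∃ N : MvPolynomial ((Unit ⊕ Fin n) ⊕ {j // j ≠ j₀}) K, N ≠ 0 ∧ ∃ C : ℝ, 0 ≤ C ∧
      ∀ (L : Type u) [Field L] [NumberField L] [DecidableEq L] [Algebra K L]
      (V : WeierstrassCurve L), W.map (algebraMap K L) = V → ∀ (x y : Unit ⊕ Fin n → L)
      (h : ∀ b, V.toAffine.Nonsingular (x b) (y b))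
      (Q : V.toAffine.Point) (R : Fin n → V.toAffine.Point),
        Q = Affine.Point.some (x (Sum.inl ())) (y (Sum.inl ())) (h (Sum.inl ())) →
        (∀ i, R i = Affine.Point.some (x (Sum.inr i)) (y (Sum.inr i)) (h (Sum.inr i))) →
        ∀ (t : ι → L) (S : {j // j ≠ j₀} → V.toAffine.Point), (∀ j, (S j).xRep = ![t j, 1]) →
          ∑ j, evl (fun i => (R i + ℓ i • Q).xRep) (g j) * t j = 0 →
          aeval (Sum.elim x (fun j : {j // j ≠ j₀} => t j)) N ≠ 0 →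
            ((T : ℝ) - a / 2) * logHeight Q.xRep ≤ logHeight t +
              2 * b₁ * (logHeight Q.xRep + ∑ i, logHeight (R i).xRep) +
              ∑ i, ((b : ℝ) / 2 + 2 * D i) * logHeight (R i).xRep + C * Module.finrank ℚ L := by
  obtain ⟨𝔽, i1, i2, ξ, η, hgen⟩ := exists_gen W (Unit ⊕ Fin n)
  obtain ⟨𝔽', i3, i4, ξ', η', hgen'⟩ := exists_gen W ((Unit ⊕ Fin n) ⊕ {j // j ≠ j₀})
  obtain ⟨M, ν, hν, hMw, hM⟩ := exists_M W D g hg ℓ
  obtain ⟨hM00, hrank⟩ := M_gen W D g hg ℓ M ν hν hM ξ η hgen j₀ hj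
  obtain ⟨c, u, s, hu, hu0, hs, hid⟩ := hgen.aux j₀ (Sum.inl ()) T
    (Sum.elim (fun _ => a) (fun _ => b)) (wq D ℓ) M hMw hM00 hrank hT
    (C5b_card D ℓ a b T (Fintype.card ι) ha hb hcard)
  obtain ⟨j₁, hj₁⟩ := nonprop W D g hg ℓ M ν hν hM ξ η hgen j₀ hj b₁ G E hG hG0 hcore a b hab u hu hu0
  have hj₁0 : j₁ ≠ j₀ := by
    rintro rfl
    exact hj₁ (by ring)
  set v : ι → MvPolynomial ((Unit ⊕ Fin n) × Fin 2) K := fun j => u j * M j₀ j₀ - u j₀ * M j j₀ with hv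
  have hv1 : evl (pt ξ η) (v j₁) ≠ 0 := by
    rw [hv]
    unfold evl at hj₁ ⊢
    simp only [map_sub, map_mul]
    exact hj₁
  have hlin : evl (pt ξ' η') (lin (fun j : {j // j ≠ j₀} => v j)) ≠ 0 :=
    lin_ne hgen hgen' (fun j : {j // j ≠ j₀} => v j) ⟨j₁, hj₁0⟩ hv1
  obtain ⟨p', NH, hNH, hnorm⟩ := hgen'.norm _ hlin
  obtain ⟨G₀, hG₀, hG₀v⟩ := M4b_dehom E G hG hG0
  obtain ⟨C₁, hC₁, hci⟩ := core_ineq W D g ℓ b₁ G hcore
  obtain ⟨C₂, hC₂, hpi⟩ := point_ineq W g ℓ M ν hM c T u s _ hs hid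
  have hinj : Function.Injective (Sum.inl : Unit ⊕ Fin n → (Unit ⊕ Fin n) ⊕ {j // j ≠ j₀}) :=
    Sum.inl_injective
  have hr1 : rename (Sum.inl : Unit ⊕ Fin n → (Unit ⊕ Fin n) ⊕ {j // j ≠ j₀}) ν ≠ 0 := by
    intro h0
    exact hν (rename_injective _ hinj (by rw [h0, map_zero]))
  have hr2 : rename (Sum.inl : Unit ⊕ Fin n → (Unit ⊕ Fin n) ⊕ {j // j ≠ j₀}) G₀ ≠ 0 := by
    intro h0
    exact hG₀ (rename_injective _ hinj (by rw [h0, map_zero]))
  refine ⟨NH * rename Sum.inl ν * rename Sum.inl G₀, mul_ne_zero (mul_ne_zero hNH hr1) hr2,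
    C₁ + C₂, by positivity, ?_⟩
  intro L _ _ _ _ V hV x y h Q R hQ hR t S hS hsum hN
  rw [map_mul, map_mul, aeval_rename, aeval_rename, Sum.elim_comp_inl] at hN
  have hN1 : aeval (Sum.elim x (fun j : {j // j ≠ j₀} => t j)) NH ≠ 0 :=
    left_ne_zero_of_mul (left_ne_zero_of_mul hN)
  have hN2 : aeval x ν ≠ 0 := right_ne_zero_of_mul (left_ne_zero_of_mul hN)
  have hN3 : aeval x G₀ ≠ 0 := right_ne_zero_of_mul hN
  have hSy : ∀ j : {j // j ≠ j₀}, ∃ yy : L, V.toAffine.Equation (t j) yy := fun j =>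
    C5b_affine (S j) (t j) (hS j)
  choose yS hyS using hSy
  have hon : ∀ k, OnC W ((Sum.elim x (fun j : {j // j ≠ j₀} => t j) :
      (Unit ⊕ Fin n) ⊕ {j // j ≠ j₀} → L) k) ((Sum.elim y yS : (Unit ⊕ Fin n) ⊕ {j // j ≠ j₀} → L) k) := by
    intro k
    unfold OnC
    rw [hV]
    rcases k with k | k
    · exact (h k).1
    · exact hyS k
  have hlin2 : evl (pt (Sum.elim x (fun j : {j // j ≠ j₀} => t j)) (Sum.elim y yS))
      (lin (fun j : {j // j ≠ j₀} => v j)) ≠ 0 := by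
    have h1 := hnorm L (Sum.elim x (fun j : {j // j ≠ j₀} => t j)) (Sum.elim y yS) hon
    intro h0
    rw [h0, zero_mul] at h1
    exact hN1 h1.symm
  rw [evl_lin] at hlin2
  simp only [Sum.elim_inl, Sum.elim_inr] at hlin2
  obtain ⟨γ, hγ, hMv⟩ := hM L V hV x y h hN2 Q R hQ hR
  have hmsum : ∑ j, evl (pt x y) (M j j₀) * t j = 0 := by
    have h1 : ∑ j, evl (pt x y) (M j j₀) * t j =
        (γ * evl (fun i => (R i - ℓ i • Q).xRep) (g j₀)) *
          ∑ j, evl (fun i => (R i + ℓ i • Q).xRep) (g j) * t j := by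
      rw [Finset.mul_sum]
      refine Finset.sum_congr rfl fun j _ => ?_
      rw [hMv j j₀]
      ring
    rw [h1, hsum, mul_zero]
  have hu1 : ∑ j, evl (pt x y) (u j) * t j ≠ 0 := by
    refine C5b_sum j₀ (fun j => evl (pt x y) (u j)) (fun j => evl (pt x y) (M j j₀)) t hmsum ?_
    have h1 : ∀ j : {j // j ≠ j₀}, evl (pt x y) (v j) * t j =
        (evl (pt x y) (u j) * evl (pt x y) (M j₀ j₀) - evl (pt x y) (u j₀) * evl (pt x y) (M j j₀)) * t j := by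
      intro j
      rw [hv]
      unfold evl
      simp only [map_sub, map_mul]
    rw [Finset.sum_congr rfl (fun j _ => h1 j)] at hlin2
    exact hlin2
  have hQx : Q.xRep = ![x (Sum.inl ()), 1] := by rw [hQ]; exact Affine.Point.xRep_some ..
  have hRx : ∀ i, (R i).xRep = ![x (Sum.inr i), 1] := fun i => by rw [hR i]; exact Affine.Point.xRep_some ..
  have hGv : evl (Sum.elim (fun _ : Unit => Q.xRep) (fun i => (R i).xRep)) G ≠ 0 := by
    have h1 : (Sum.elim (fun _ : Unit => Q.xRep) (fun i => (R i).xRep) : Unit ⊕ Fin n → Fin 2 → L) =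
        fun k => ![x k, 1] := by
      funext k
      rcases k with k | k
      · exact hQx
      · exact hRx k
    rw [h1, ← hG₀v L x]
    exact hN3
  obtain ⟨e1, e2, -, e4⟩ := hci L V hV Q R hGv
  have e5 := hpi L V hV x y h hN2 Q R hQ hR t hsum hu1 e1 e2
  rw [C5b_weights D ℓ a b T hT (fun k => logHeight ![x k, 1])] at e5
  simp only [← hQx, ← hRx] at e5
  linarith

end Pool.Agent.Lib.MP_17a322_nt.PB
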