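import Pool.Agent.Lib.MP_17a322_nt.PB.A0
import Pool.Agent.Lib.MP_17a322_nt.RV.M2a

/-!
Forms not involving some of the blocks.
-/

namespace Pool.Agent.Lib.MP_17a322_nt.PB

open MvPolynomial WeierstrassCurve Height
open Pool.Agent.Lib.MP_17a322_nt.RO Pool.Agent.Lib.MP_17a322_nt.RV

universe u

/-- A form of degree `0` in the blocks outside of the range of an injective map comes from a form in the
other blocks.
Proof. No variable of the other blocks occurs (compare `M2a_ne`, RV/M2a), so `R` is in the range of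
`rename (Prod.map φ id)` (`MvPolynomial.exists_rename_eq_of_vars_subset_range`), and this map is
injective and preserves the degrees. Values: `evl_block` (PB/A0). -/
theorem exists_drop {K : Type u} [Field K] {B B' : Type} [Fintype B] [DecidableEq B]
    [Fintype B'] [DecidableEq B'] (φ : B → B') (hφ : Function.Injective φ) (E : B' → ℕ)
    (R : MvPolynomial (B' × Fin 2) K) (hR : MH R E) (hR0 : R ≠ 0)
    (hE : ∀ b', (∀ b, φ b ≠ b') → E b' = 0) :
    ∃ R₁ : MvPolynomial (B × Fin 2) K, MH R₁ (fun b => E (φ b)) ∧ R₁ ≠ 0 ∧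
      ∀ (F : Type u) [Field F] [Algebra K F] (x : B' → Fin 2 → F),
        evl (fun b => x (φ b)) R₁ = evl x R := by
  let f : B × Fin 2 → B' × Fin 2 := Prod.map φ id
  have hf : Function.Injective f := hφ.prodMap Function.injective_id
  have hv : (R.vars : Set (B' × Fin 2)) ⊆ Set.range f := by
    rintro ⟨b, a⟩ hp
    have h3 := M2a_ne hR (Finset.mem_coe.1 hp)
    by_contra hcon
    apply h3
    apply hE
    intro b₀ hb₀
    exact hcon ⟨(b₀, a), Prod.ext hb₀ rfl⟩
  obtain ⟨R₁, hR₁⟩ := exists_rename_eq_of_vars_subset_range R f hf hv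
  refine ⟨R₁, ?_, ?_, ?_⟩
  · intro m hm
    have h3 : coeff (Finsupp.mapDomain f m) R ≠ 0 := by
      rw [← hR₁, coeff_rename_mapDomain f hf]
      exact hm
    have h4 : Finsupp.weight (bwt _ (Fin 2)) (Finsupp.mapDomain f m) = E := hR h3
    funext i
    rw [← h4, M2a_wt, M2a_wt, Finsupp.sum_mapDomain_index (by simp) (by intros; ring)]
    unfold Finsupp.sum
    apply Finset.sum_congr rfl
    intro p _
    show m p * (Pi.single p.1 1 : B → ℕ) i = m p * (Pi.single (φ p.1) 1 : B' → ℕ) (φ i)
    by_cases hp : p.1 = i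
    · subst hp
      simp
    · rw [Pi.single_apply, Pi.single_apply, if_neg (fun h => hp h.symm), if_neg]
      intro h
      exact hp (hφ h).symm
  · rintro rfl
    exact hR0 (by rw [← hR₁, map_zero])
  · intro F _ _ x
    unfold evl
    rw [← hR₁, aeval_rename]
    rfl
end Pool.Agent.Lib.MP_17a322_nt.PB
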