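import Pool.Agent.Lib.MP_17a322_nt.PB.C5b
import Pool.Agent.Lib.MP_17a322_nt.PB.C6a
import Pool.Agent.Lib.MP_17a322_nt.RV.M2b

/-!
The inequality in the direction l.
-/

namespace Pool.Agent.Lib.MP_17a322_nt.PB

open MvPolynomial WeierstrassCurve Height
open Pool.Agent.Lib.MP_17a322_nt.RO Pool.Agent.Lib.MP_17a322_nt.RV

universe u

/-- The statement of the inequality for the direction `ℓ`: off the zeros of the form `R` (blocks `Fin n`
for the points `P i` and `{j // j ≠ j₀}` for the `t j`) the point `Q` can be moved to a point `Q'` for which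
the inequality with the coefficients `A`, `B` holds. -/
def Dir {K : Type u} [Field K] [NumberField K] (W : WeierstrassCurve K) {n : ℕ} {ι : Type}
    [Fintype ι] [DecidableEq ι] (g : ι → MvPolynomial (Fin n × Fin 2) K) (ℓ : Fin n → ℤ) (j₀ : ι)
    (A B m : ℝ) (R : MvPolynomial ((Fin n ⊕ {j // j ≠ j₀}) × Fin 2) K) (M : ℕ) : Prop :=
  ∀ CA : ℝ, ∃ C : ℝ, 0 ≤ C ∧
    ∀ (L : Type u) [Field L] [NumberField L] [DecidableEq L] [Algebra K L]
      (V : WeierstrassCurve L), W.map (algebraMap K L) = V →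
      ∀ (P : Fin n → V.toAffine.Point) (Q : V.toAffine.Point) (A' : Finset V.toAffine.Point)
        (t : ι → L) (S : {j // j ≠ j₀} → V.toAffine.Point), (∀ j, (S j).xRep = ![t j, 1]) →
        M < A'.card → (∀ a ∈ A', logHeight a.xRep ≤ CA * Module.finrank ℚ L) →
        ∑ j, evl (fun i => (P i).xRep) (g j) * t j = 0 →
        evl (Sum.elim (fun i => (P i).xRep) (fun j : {j // j ≠ j₀} => ![t j, 1])) R ≠ 0 →
        ∃ Q' : V.toAffine.Point,
          logHeight Q'.xRep ≤ 2 * logHeight Q.xRep + C * Module.finrank ℚ L ∧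
          (∀ i, logHeight (P i - ℓ i • Q').xRep ≤ 2 * logHeight (P i - ℓ i • Q).xRep +
            C * Module.finrank ℚ L) ∧
          A * logHeight Q'.xRep ≤ m * logHeight t +
            B * (logHeight Q'.xRep + ∑ i, logHeight (P i - ℓ i • Q').xRep) +
              C * Module.finrank ℚ L

/-- The translation vectors. -/
def C6b_k {n : ℕ} {ι : Type} [DecidableEq ι] (j₀ : ι) (ℓ : Fin n → ℤ) :
    (Unit ⊕ Fin n) ⊕ {j // j ≠ j₀} → (Unit ⊕ Fin n) ⊕ {j // j ≠ j₀} → ℤ := fun _ b =>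
  Sum.elim (Sum.elim (fun _ => 0) (fun i => -ℓ i)) (fun _ => 0) b

/-- A nonzero form which does not vanish only at affine points and off the zeros of `N`. -/
theorem C6b_form {K : Type u} [Field K] {B : Type} [Fintype B] [DecidableEq B]
    (N : MvPolynomial B K) (hN : N ≠ 0) :
    ∃ (G : MvPolynomial (B × Fin 2) K) (E : B → ℕ), MH G E ∧ G ≠ 0 ∧
      ∀ (F : Type u) [Field F] [Algebra K F] (x : B → Fin 2 → F), evl x G ≠ 0 →
        (∀ b, x b 1 ≠ 0) ∧ ∀ c : B → F, (∀ b, x b = ![c b, 1]) → aeval c N ≠ 0 := by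
  classical
  have hne : hom N (fun b => N.degreeOf b) ≠ 0 := by
    intro h0
    have h1 := evl_hom_one N (fun b => N.degreeOf b) (fun i => (X i : MvPolynomial B K))
    rw [h0, aeval_X_left_apply] at h1
    exact hN (h1.symm.trans (by unfold evl; exact map_zero _))
  refine ⟨hom N (fun b => N.degreeOf b) * ∏ b, X (b, 1), _,
    (mh_hom N _ (fun b => le_rfl)).mul (IsWeightedHomogeneous.prod Finset.univ
      (fun b : B => (X (b, (1 : Fin 2)) : MvPolynomial (B × Fin 2) K)) (fun b => bwt B (Fin 2) (b, 1))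
        (fun b _ => isWeightedHomogeneous_X K (bwt B (Fin 2)) (b, 1))),
    mul_ne_zero hne (Finset.prod_ne_zero_iff.mpr fun b _ => X_ne_zero _), ?_⟩
  intro F _ _ x hx
  unfold evl at hx
  rw [map_mul, map_prod] at hx
  have h1 := left_ne_zero_of_mul hx
  have h2 := right_ne_zero_of_mul hx
  rw [Finset.prod_ne_zero_iff] at h2
  refine ⟨fun b => ?_, fun c hc => ?_⟩
  · have h3 := h2 b (Finset.mem_univ _)
    rw [aeval_X] at h3
    exact h3
  · have h3 : evl x (hom N (fun b => N.degreeOf b)) ≠ 0 := h1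
    rw [funext hc, evl_hom_one] at h3
    exact h3

/-- A point with last coordinate not zero is affine. -/
theorem C6b_affine {F : Type u} [Field F] [DecidableEq F] (V : WeierstrassCurve F)
    (P : V.toAffine.Point) (h : P.xRep 1 ≠ 0) :
    ∃ (x y : F) (h : V.toAffine.Nonsingular x y), P = Affine.Point.some x y h := by
  rcases P with _ | ⟨x, y, h1⟩
  · exact absurd (by
      show (0 : V.toAffine.Point).xRep 1 = 0
      rw [Affine.Point.xRep_zero]
      rfl) h
  · exact ⟨x, y, h1, rfl⟩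

/-- Heights after the change of `Q`. -/
theorem C6b_heights {K : Type u} [Field K] [NumberField K] (W : WeierstrassCurve K)
    [W.IsElliptic] {n : ℕ} (ℓ : Fin n → ℤ) (CA : ℝ) :
    ∃ C : ℝ, 0 ≤ C ∧ ∀ (L : Type u) [Field L] [NumberField L] [DecidableEq L] [Algebra K L]
      (V : WeierstrassCurve L), W.map (algebraMap K L) = V →
      ∀ (P : Fin n → V.toAffine.Point) (Q a : V.toAffine.Point),
        logHeight a.xRep ≤ CA * Module.finrank ℚ L →
          logHeight (Q + a).xRep ≤ 2 * logHeight Q.xRep + C * Module.finrank ℚ L ∧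
          ∀ i, logHeight (P i - ℓ i • (Q + a)).xRep ≤ 2 * logHeight (P i - ℓ i • Q).xRep +
            C * Module.finrank ℚ L := by
  obtain ⟨Cq, hCq, hpar⟩ := parallelogram_unif W
  have hA0 : 0 ≤ max CA 0 := le_max_right _ _
  have hterm : ∀ i : Fin n, 0 ≤ 2 * (4 * (((ℓ i : ℝ) ^ 2 + 1) * (max CA 0 + Cq)) + Cq) + Cq := by
    intro i
    positivity
  have hsum := Finset.sum_nonneg fun i (_ : i ∈ (Finset.univ : Finset (Fin n))) => hterm i
  refine ⟨2 * max CA 0 + Cq + ∑ i : Fin n,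
    (2 * (4 * (((ℓ i : ℝ) ^ 2 + 1) * (max CA 0 + Cq)) + Cq) + Cq), by positivity, ?_⟩
  intro L _ _ _ _ V hV P Q a ha
  set w : ℝ := (Module.finrank ℚ L : ℝ) with hw
  have hw0 : 0 ≤ w := Nat.cast_nonneg _
  have ha' : logHeight a.xRep ≤ max CA 0 * w :=
    ha.trans (mul_le_mul_of_nonneg_right (le_max_left _ _) hw0)
  have hadd : ∀ X Y : V.toAffine.Point, logHeight (X + Y).xRep ≤
      2 * logHeight X.xRep + 2 * logHeight Y.xRep + Cq * w := fun X Y => by
    have h1 := (abs_le.1 (hpar L V hV X Y)).2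
    have h2 := logHeight_nonneg (X - Y).xRep
    linarith
  have hsub : ∀ X Y : V.toAffine.Point, logHeight (X - Y).xRep ≤
      2 * logHeight X.xRep + 2 * logHeight Y.xRep + Cq * w := fun X Y => by
    have h1 := (abs_le.1 (hpar L V hV X Y)).2
    have h2 := logHeight_nonneg (X + Y).xRep
    linarith
  have hs0 : 0 ≤ (∑ i : Fin n,
      (2 * (4 * (((ℓ i : ℝ) ^ 2 + 1) * (max CA 0 + Cq)) + Cq) + Cq)) * w := mul_nonneg hsum hw0
  constructor
  · have h1 := hadd Q a
    rw [add_mul, add_mul]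
    linarith
  · intro i
    have h1 : P i - ℓ i • (Q + a) = (P i - ℓ i • Q) - ℓ i • a := by
      rw [smul_add]
      abel
    have h2 := hsub (P i - ℓ i • Q) (ℓ i • a)
    rw [← h1] at h2
    have h3 := M2b_sum (fun X : V.toAffine.Point => logHeight X.xRep) (M2b_h0 V)
      (fun X => logHeight_nonneg _) (Cq * w) (hpar L V hV) 1 (fun _ => ℓ i) (fun _ => a)
      (fun _ => 0) (max CA 0 * w) (fun _ => ha') (fun _ => by
        show logHeight (0 : V.toAffine.Point).xRep ≤ _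
        rw [M2b_h0]
        exact mul_nonneg hA0 hw0)
    simp only [Finset.univ_unique, Finset.sum_singleton, add_zero, pow_one, Nat.cast_one] at h3
    have h4 : (2 * (4 * (((ℓ i : ℝ) ^ 2 + 1) * (max CA 0 + Cq)) + Cq) + Cq) * w ≤ (∑ i : Fin n,
      (2 * (4 * (((ℓ i : ℝ) ^ 2 + 1) * (max CA 0 + Cq)) + Cq) + Cq)) * w :=
      mul_le_mul_of_nonneg_right (Finset.single_le_sum
        (f := fun i : Fin n => 2 * (4 * (((ℓ i : ℝ) ^ 2 + 1) * (max CA 0 + Cq)) + Cq) + Cq)
        (fun j _ => hterm j) (Finset.mem_univ i)) hw0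
    have h5 : (0 : ℝ) ≤ (2 * max CA 0 + Cq) * w := by positivity
    rw [add_mul]
    nlinarith [h2, h3, h4, h5]

/-- Proof. `exists_N` (PB/C5) gives `N`. Let `B' = (Unit ⊕ Fin n) ⊕ {j // j ≠ j₀}` and
`G' = hom N E' * ∏ b, X (b, 1)` (`E' b = degreeOf b N`, `mh_hom` in RO/G3), a nonzero form. `exists_grid` (RV/T3) with
`S = {inl (inl ())}`, `k (inl (inl ())) (inl (inr i)) = - ℓ i`, all other values `0`, gives `R'`, `M`; `exists_drop` for the map
`Fin n ⊕ {j // j ≠ j₀} → B'` gives `R`. Given `P, Q, A', t, S` apply `exists_grid` to the family `inl (inl ()) ↦ 0`,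
`inl (inr i) ↦ P i`, `inr j ↦ S j` and the set `{Q + a | a ∈ A'}`: we get `Q' = Q + a` and the family
`Q'`, `P i - ℓ i • Q'`, `S j` where `G'` does not vanish. The factor `X (b, 1)` shows that `Q'` and the
`P i - ℓ i • Q'` are affine (`xRep 1 ≠ 0`), and `N ≠ 0` there (`evl_hom_one`; `(S j).xRep = ![t j, 1]`). With
`R i = P i - ℓ i • Q'`, `R i + ℓ i • Q' = P i`, `exists_N` gives
`(T - a/2) h(Q') ≤ h(t) + 2 b₁ (..) + ∑ (b/2 + 2 D i) h(R i) + C`; multiply by `m`. Heights of `Q'` and of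
`P i - ℓ i • Q' = (P i - ℓ i • Q) - ℓ i • a`: `parallelogram_unif` (RV/U3), `h(X + Y) ≤ 2 h(X) + 2 h(Y) + C [L : ℚ]` and
`h(ℓ a) ≤ C' [L : ℚ]` (`exists_quadratic_explicit`, `quadratic_zsmul`). -/
theorem direction {K : Type u} [Field K] [NumberField K]
    (W : WeierstrassCurve K) [W.IsElliptic] {n : ℕ} {ι : Type} [Fintype ι] [DecidableEq ι]
    (D : Fin n → ℕ) (g : ι → MvPolynomial (Fin n × Fin 2) K) (hg : ∀ j, MH (g j) D)
    (ℓ : Fin n → ℤ) (j₀ : ι) (hj : g j₀ ≠ 0) (b₁ : ℕ)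
    (G : MvPolynomial ((Unit ⊕ Fin n) × Fin 2) K) (E : Unit ⊕ Fin n → ℕ)
    (hG : MH G E) (hG0 : G ≠ 0) (hcore : Core W D g ℓ b₁ G) (a b T : ℕ) (ha : 1 ≤ a) (hb : 1 ≤ b)
    (hab : a + 2 * b₁ < ∑ i, 2 * (ℓ i).natAbs ^ 2 * D i)
    (hT : 2 * T < a + ∑ i, 4 * (ℓ i).natAbs ^ 2 * D i)
    (hcard : (Fintype.card ι - 1) * (2 * T * ∏ i, (b + 4 * D i)) <
      Fintype.card ι * (a * b ^ n)) (m B : ℝ) (hm : 0 ≤ m)
    (hB : ∀ i, m * (2 * b₁ + b / 2 + 2 * D i) ≤ B) (hB' : m * (2 * b₁) ≤ B) :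
    ∃ (R : MvPolynomial ((Fin n ⊕ {j // j ≠ j₀}) × Fin 2) K) (E : Fin n ⊕ {j // j ≠ j₀} → ℕ)
      (M : ℕ), MH R E ∧ R ≠ 0 ∧ Dir W g ℓ j₀ (m * ((T : ℝ) - a / 2)) B m R M := by
  classical
  obtain ⟨N, hN0, CN, hCN, hN⟩ := exists_N W D g hg ℓ j₀ hj b₁ G E hG hG0 hcore a b T ha hb hab hT
    hcard
  obtain ⟨G', E', hG', hG'0, hG'v⟩ := C6b_form N hN0
  obtain ⟨R, E₁, M, hR, hR0, hE₁, hgrid⟩ := exists_grid W {Sum.inl (Sum.inl ())} (C6b_k j₀ ℓ)
    (by
      intro a _ b hb
      rw [Finset.mem_singleton] at hb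
      rw [hb]
      rfl) E' G' hG' hG'0
  obtain ⟨R₁, hR₁, hR₁0, hval⟩ := exists_drop
    (Sum.map Sum.inr id : Fin n ⊕ {j // j ≠ j₀} → (Unit ⊕ Fin n) ⊕ {j // j ≠ j₀})
    (Sum.map_injective.2 ⟨Sum.inr_injective, Function.injective_id⟩) E₁ R hR hR0 (by
      intro b' hb'
      rcases b' with (u | i) | j
      · exact hE₁ _ (Finset.mem_singleton.2 rfl)
      · exact absurd rfl (hb' (Sum.inl i))
      · exact absurd rfl (hb' (Sum.inr j)))
  refine ⟨R₁, _, M, hR₁, hR₁0, fun CA => ?_⟩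
  obtain ⟨Ch, hCh, hheights⟩ := C6b_heights W ℓ CA
  refine ⟨Ch + m * CN, by positivity, ?_⟩
  intro L _ _ _ _ V hV P Q A' t S hS hA' hA'h ht hne
  set w : ℝ := (Module.finrank ℚ L : ℝ) with hw
  have hw0 : 0 ≤ w := Nat.cast_nonneg _
  set P₀ : (Unit ⊕ Fin n) ⊕ {j // j ≠ j₀} → V.toAffine.Point :=
    Sum.elim (Sum.elim (fun _ => 0) P) S with hP₀
  have hRne : evl (fun b => (P₀ b).xRep) R ≠ 0 := by
    rw [← hval L (fun b => (P₀ b).xRep)]
    have e : (fun b => (P₀ (Sum.map Sum.inr id b)).xRep) =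
        (Sum.elim (fun i => (P i).xRep) (fun j : {j // j ≠ j₀} => ![t j, 1]) :
          Fin n ⊕ {j // j ≠ j₀} → Fin 2 → L) := by
      funext b
      rcases b with i | j
      · rfl
      · exact hS j
    rw [e]
    exact hne
  obtain ⟨P', hP'A, hP'b, hP'G⟩ := hgrid L V hV P₀ hRne
    (fun _ => A'.map (addLeftEmbedding Q)) (by
      intro a _
      rw [Finset.card_map]
      exact hA')
  have h1 := hP'A _ (Finset.mem_singleton.2 rfl)
  rw [Finset.mem_map] at h1
  obtain ⟨a', ha', hQ'⟩ := h1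
  rw [addLeftEmbedding_apply] at hQ'
  have hR' : ∀ i, P' (Sum.inl (Sum.inr i)) = P i - ℓ i • (Q + a') := by
    intro i
    have h2 := hP'b (Sum.inl (Sum.inr i)) (by simp)
    rw [Finset.sum_singleton] at h2
    rw [h2, hQ']
    show P i + (-ℓ i) • P' (Sum.inl (Sum.inl ())) = _
    rw [neg_smul]
    abel
  have hS' : ∀ j, P' (Sum.inr j) = S j := by
    intro j
    have h2 := hP'b (Sum.inr j) (by simp)
    rw [Finset.sum_singleton] at h2
    rw [h2]
    show S j + (0 : ℤ) • P' (Sum.inl (Sum.inl ())) = _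
    rw [zero_smul, add_zero]
  obtain ⟨haff, hNval⟩ := hG'v L (fun b => (P' b).xRep) hP'G
  choose x y hns hP'x using fun b => C6b_affine V (P' b) (haff b)
  have hxr : ∀ b, (P' b).xRep = ![x b, 1] := by
    intro b
    rw [hP'x b]
    exact Affine.Point.xRep_some ..
  have hxt : ∀ j : {j // j ≠ j₀}, x (Sum.inr j) = t j := by
    intro j
    have h2 := hxr (Sum.inr j)
    rw [hS' j, hS j] at h2
    have h3 := congrFun h2 0
    simpa using h3.symm
  have hNne := hNval x hxr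
  have hx : x = Sum.elim (fun b => x (Sum.inl b)) (fun j : {j // j ≠ j₀} => t j) := by
    funext b
    rcases b with b | j
    · rfl
    · exact hxt j
  rw [hx] at hNne
  obtain ⟨hh1, hh2⟩ := hheights L V hV P Q a' (hA'h a' ha')
  refine ⟨Q + a', ?_, ?_, ?_⟩
  · have : 0 ≤ m * CN * w := by positivity
    rw [add_mul]
    linarith
  · intro i
    have h3 : 0 ≤ m * CN * w := by positivity
    have h4 := hh2 i
    rw [add_mul]
    linarith
  · have h2 := hN L V hV (fun b => x (Sum.inl b)) (fun b => y (Sum.inl b))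
      (fun b => hns (Sum.inl b)) (Q + a') (fun i => P' (Sum.inl (Sum.inr i)))
      (hQ'.trans (hP'x _)) (fun i => hP'x _) t S hS (by
        rw [← ht]
        refine Finset.sum_congr rfl fun j _ => ?_
        have e : (fun i => (P' (Sum.inl (Sum.inr i)) + ℓ i • (Q + a')).xRep) =
            fun i => (P i).xRep := by
          funext i
          rw [hR' i, sub_add_cancel]
        rw [e]) hNne
    simp only [hR'] at h2
    have h3 := mul_le_mul_of_nonneg_left h2 hm
    have h4 : m * (2 * b₁ * (logHeight (Q + a').xRep +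
        ∑ i, logHeight (P i - ℓ i • (Q + a')).xRep) +
        ∑ i, ((b : ℝ) / 2 + 2 * D i) * logHeight (P i - ℓ i • (Q + a')).xRep) =
        m * (2 * b₁) * logHeight (Q + a').xRep +
        ∑ i, m * (2 * b₁ + b / 2 + 2 * D i) * logHeight (P i - ℓ i • (Q + a')).xRep := by
      rw [mul_add, mul_add, mul_add, Finset.mul_sum, Finset.mul_sum, Finset.mul_sum, add_assoc,
        ← Finset.sum_add_distrib]
      congr 1
      · ring
      · refine Finset.sum_congr rfl fun i _ => ?_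
        ring
    have h5 : m * (2 * b₁) * logHeight (Q + a').xRep ≤ B * logHeight (Q + a').xRep :=
      mul_le_mul_of_nonneg_right hB' (logHeight_nonneg _)
    have h6 : ∑ i, m * (2 * b₁ + b / 2 + 2 * D i) * logHeight (P i - ℓ i • (Q + a')).xRep ≤
        B * ∑ i, logHeight (P i - ℓ i • (Q + a')).xRep := by
      rw [Finset.mul_sum]
      exact Finset.sum_le_sum fun i _ => mul_le_mul_of_nonneg_right (hB i) (logHeight_nonneg _)
    have h7 : 0 ≤ Ch * w := by positivity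
    rw [add_mul]
    nlinarith [h3, h4, h5, h6, h7]

end Pool.Agent.Lib.MP_17a322_nt.PB
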