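import Pool.Agent.Lib.MP_17a322_nt.RV.U6

/-!
Division points, points with small x-coordinates and points with given x-coordinates over a number
field.
-/

namespace Pool.Agent.Lib.MP_17a322_nt.PB

open MvPolynomial WeierstrassCurve
open Pool.Agent.Lib.MP_17a322_nt.RO Pool.Agent.Lib.MP_17a322_nt.RV

universe u

/-- Proof. As `exists_field` (RV/U6): over `Ω = AlgebraicClosure L` take `Q` with `N • Q = P`, points `A ν` with
`xRep = ![ν, 1]` and points `S j` with `xRep = ![t j, 1]` (`exists_point`, RO/B1), and let `L'` be generated over `L`
by all the coordinates. (Copy the proof of `exists_field`; or first apply a version for the `S j` only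
and then `exists_field` over the field obtained.) -/
theorem exists_field' {K L : Type u} [Field K] [Field L] [NumberField L] [DecidableEq L]
    [Algebra K L] (W : WeierstrassCurve K) [W.IsElliptic] (N M : ℕ) (hN : 0 < N)
    (P : (W.map (algebraMap K L)).toAffine.Point) {ι : Type} [Fintype ι] (t : ι → L) :
    ∃ (L' : Type u) (_ : Field L') (_ : NumberField L') (_ : DecidableEq L') (_ : Algebra L L')
      (_ : Algebra K L') (_ : IsScalarTower K L L')
      (f : (W.map (algebraMap K L)).toAffine.Point →+
        (W.map (algebraMap K L')).toAffine.Point)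
      (Q : (W.map (algebraMap K L')).toAffine.Point)
      (A : Fin (M + 1) → (W.map (algebraMap K L')).toAffine.Point)
      (S : ι → (W.map (algebraMap K L')).toAffine.Point),
      (∀ P i, (f P).xRep i = algebraMap L L' (P.xRep i)) ∧ N • Q = f P ∧
        (∀ ν, (A ν).xRep = ![((ν : ℕ) : L'), 1]) ∧
        ∀ j, (S j).xRep = ![algebraMap L L' (t j), 1] := by
  classical
  let Ω := AlgebraicClosure L
  let _ : DecidableEq Ω := Classical.decEq _
  let g : (W.map (algebraMap K L)).toAffine.Point →+ (W.map (algebraMap K Ω)).toAffine.Point :=
    Affine.Point.map (W' := W.toAffine) (IsScalarTower.toAlgHom K L Ω)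
  obtain ⟨Q, hQ⟩ := exists_division_point W Ω N hN (g P)
  have hA0 : ∀ z : Ω, ∃ A : (W.map (algebraMap K Ω)).toAffine.Point,
      A.xRep = ![z, 1] := by
    intro z
    obtain ⟨A, c, hc, hA⟩ := exists_point (W.map (algebraMap K Ω)) ![z, 1] (by
      intro h
      have := congrFun h 1
      simp at this)
    refine ⟨A, ?_⟩
    cases A with
    | zero =>
      have := congrFun hA 1
      rw [← Affine.Point.zero_def] at this
      simp at this
    | some x y h =>
      have h1 := congrFun hA 1
      have h0 := congrFun hA 0
      simp at h1 h0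
      rw [← h1, one_mul] at h0
      simp [h0]
  have hA1 : ∀ ν : Fin (M + 1), ∃ A : (W.map (algebraMap K Ω)).toAffine.Point,
      A.xRep = ![((ν : ℕ) : Ω), 1] := fun ν => hA0 _
  have hB1 : ∀ j : ι, ∃ A : (W.map (algebraMap K Ω)).toAffine.Point,
      A.xRep = ![algebraMap L Ω (t j), 1] := fun j => hA0 _
  choose A hA using hA1
  choose B hB using hB1
  let co : (W.map (algebraMap K Ω)).toAffine.Point → Set Ω := fun R =>
    match R with
    | .zero => ∅
    | .some x y _ => {x, y}
  have hco : ∀ R, (co R).Finite := by
    intro R
    cases R with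
    | zero => exact Set.finite_empty
    | some x y h => exact Set.toFinite {x, y}
  let S : Set Ω := (co Q ∪ ⋃ ν, co (A ν)) ∪ ⋃ j, co (B j)
  have hS : S.Finite := ((hco Q).union (Set.finite_iUnion fun ν => hco _)).union
    (Set.finite_iUnion fun j => hco _)
  let L' : IntermediateField L Ω := IntermediateField.adjoin L S
  have : Finite S := hS
  have hfin : FiniteDimensional L L' :=
    IntermediateField.finiteDimensional_adjoin fun x _ =>
      (AlgebraicClosure.isAlgebraic L).isAlgebraic x |>.isIntegral
  have : NumberField L' := NumberField.of_module_finite L L'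
  let v : L' →ₐ[K] Ω := (L'.val).restrictScalars K
  have hlift : ∀ R : (W.map (algebraMap K Ω)).toAffine.Point, co R ⊆ S →
      ∃ R₀ : (W.map (algebraMap K L')).toAffine.Point,
        Affine.Point.map (W' := W.toAffine) v R₀ = R := by
    intro R hR
    cases R with
    | zero => exact ⟨0, rfl⟩
    | some x y h =>
      have hx : x ∈ L' := IntermediateField.subset_adjoin L S (hR (Or.inl rfl))
      have hy : y ∈ L' := IntermediateField.subset_adjoin L S (hR (Or.inr rfl))
      have hns := (W.toAffine.baseChange_nonsingular v.injective
        (⟨x, hx⟩ : L') (⟨y, hy⟩ : L')).mp h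
      exact ⟨Affine.Point.some _ _ hns, rfl⟩
  obtain ⟨Q', hQ'⟩ := hlift Q (fun z hz => Or.inl (Or.inl hz))
  choose A' hA' using fun ν => hlift (A ν) (fun z hz => Or.inl (Or.inr (Set.mem_iUnion.2 ⟨ν, hz⟩)))
  choose B' hB' using fun j => hlift (B j) (fun z hz => Or.inr (Set.mem_iUnion.2 ⟨j, hz⟩))
  let f : (W.map (algebraMap K L)).toAffine.Point →+ (W.map (algebraMap K L')).toAffine.Point :=
    Affine.Point.map (W' := W.toAffine) (IsScalarTower.toAlgHom K L L')
  have hfg : ∀ R, Affine.Point.map (W' := W.toAffine) v (f R) = g R := by
    intro R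
    cases R with
    | zero => rfl
    | some x y h => rfl
  have hx : ∀ (R : (W.map (algebraMap K L')).toAffine.Point) (z : L'),
      (Affine.Point.map (W' := W.toAffine) v R).xRep = ![v z, 1] → R.xRep = ![z, 1] := by
    intro R z h1
    cases hR : R with
    | zero =>
      rw [hR] at h1
      have h2 : (0 : Ω) = 1 := congrFun h1 1
      exact absurd h2 zero_ne_one
    | some x y h =>
      rw [hR] at h1
      have h3 : v x = v z := congrFun h1 0
      have h4 := v.injective h3
      rw [Affine.Point.xRep_some, h4]
  refine ⟨L', inferInstance, inferInstance, inferInstance, inferInstance, inferInstance,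
    inferInstance, f, Q', A', B', ?_, ?_, ?_, ?_⟩
  · intro R i
    cases R with
    | zero =>
      have h : (f (Affine.Point.zero)).xRep = ![1, 0] := rfl
      rw [h]
      fin_cases i
      · exact (map_one _).symm
      · exact (map_zero _).symm
    | some x y h =>
      have h : (f (Affine.Point.some x y h)).xRep = ![algebraMap L L' x, 1] := rfl
      rw [h]
      fin_cases i
      · rfl
      · exact (map_one _).symm
  · apply Affine.Point.map_injective (W' := W.toAffine) v
    have e := (Affine.Point.map (W' := W.toAffine) v).map_nsmul N Q'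
    refine e.trans ?_
    have e2 : N • (Affine.Point.map (W' := W.toAffine) v) Q' = N • Q :=
      congrArg (fun R => N • R) hQ'
    exact e2.trans (hQ.trans (hfg _).symm)
  · intro ν
    apply hx
    rw [map_natCast, hA' ν]
    exact hA ν
  · intro j
    apply hx
    rw [hB' j]
    exact hB j
end Pool.Agent.Lib.MP_17a322_nt.PB
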