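import Pool.Agent.Lib.MP_17a322_nt.RO.Defs

/-!
Functions on a product of affine elliptic curves.

A polynomial `p` in the variables `(b, 0)`, `(b, 1)`, `b ∈ B`, is evaluated at a family of points
`(x b, y b)` of the curve: `evl (pt x y) p`, the variable `(b, 0)` is `x b`, the variable `(b, 1)` is
`y b`. The weight of the monomial `x ^ i * y ^ j` is `2 i + 3 j` (the order of the pole at the origin).
-/

namespace Pool.Agent.Lib.MP_17a322_nt.PB

open MvPolynomial
open Pool.Agent.Lib.MP_17a322_nt.RO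

universe u

/-- `(x, y)` lies on the curve `W` over the extension `F` of `K`. -/
def OnC {K F : Type*} [Field K] [Field F] [Algebra K F] (W : WeierstrassCurve K) (x y : F) : Prop :=
  (W.map (algebraMap K F)).toAffine.Equation x y

/-- The family of the vectors `(x b, y b)`. -/
def pt {F B : Type*} (x y : B → F) : B → Fin 2 → F := fun b => ![x b, y b]

/-- The weight of `p` in every block `b` is at most `w b`. -/
def WD {K B : Type*} [CommSemiring K] (p : MvPolynomial (B × Fin 2) K) (w : B → ℕ) : Prop :=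
  ∀ m ∈ p.support, ∀ b, 2 * m (b, 0) + 3 * m (b, 1) ≤ w b

/-- The polynomial `∑ f_e(x) y^e`, `e b ∈ {0, 1}`. -/
noncomputable def asm {K B : Type*} [CommSemiring K] [Fintype B] [DecidableEq B]
    (f : (B → Fin 2) → MvPolynomial B K) : MvPolynomial (B × Fin 2) K :=
  ∑ e : B → Fin 2, rename (fun b => (b, (0 : Fin 2))) (f e) * ∏ b, X (b, 1) ^ (e b : ℕ)

/-- The weights of `asm f`. -/
def WF {K B : Type*} [CommSemiring K] [DecidableEq B] (f : (B → Fin 2) → MvPolynomial B K)
    (w : B → ℕ) : Prop :=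
  ∀ e, f e ≠ 0 → ∀ b, 2 * (f e).degreeOf b + 3 * (e b : ℕ) ≤ w b

/-- `(x b, y b)`, `b ∈ B`, is a generic point of the power of the curve: no polynomial
`∑ f_e(x) y^e ≠ 0` vanishes there. -/
structure Gen {K 𝔽 B : Type*} [Field K] [Field 𝔽] [Algebra K 𝔽] [Fintype B] [DecidableEq B]
    (W : WeierstrassCurve K) (x y : B → 𝔽) : Prop where
  on : ∀ b, OnC W (x b) (y b)
  inj : ∀ f : (B → Fin 2) → MvPolynomial B K, evl (pt x y) (asm f) = 0 → f = 0

/-- The values at `(x, y)` of the polynomials of weight at most `w`. -/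
noncomputable def SW {K 𝔽 B : Type*} [Field K] [Field 𝔽] [Algebra K 𝔽]
    (x y : B → 𝔽) (w : B → ℕ) : Submodule K 𝔽 :=
  Submodule.span K ((fun p : MvPolynomial (B × Fin 2) K => evl (pt x y) p) '' {p | WD p w})

end Pool.Agent.Lib.MP_17a322_nt.PB
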